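import Mathlib
import Pool.Agent.Lib.MP_ca1492_al.Alg.Alpha

/-!
Finite dimensional modules with a compatible automorphism g (g (x v) = alpha lam (x) g v):
`FObj D n lam`. For g = lam^(degree) these are the graded modules; ch M w is the value at q = lam of
the graded dimension of ew w M.
-/

namespace CA1492

/-- A finite dimensional module with a compatible automorphism. -/
structure FObj (D : Dat) (n : ℕ) (lam : ℂˣ) : Type 1 where
  V : Type
  [acg : AddCommGroup V]
  [modC : Module ℂ V]
  [modR : Module (R D n) V]
  [tower : IsScalarTower ℂ (R D n) V]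
  [fin : FiniteDimensional ℂ V]
  g : V ≃ₗ[ℂ] V
  hg : ∀ (x : R D n) (v : V), g (x • v) = alpha D n lam x • g v

attribute [instance] FObj.acg FObj.modC FObj.modR FObj.tower FObj.fin

variable {D : Dat} {n : ℕ} {lam : ℂˣ}

/-- The action of an element as a ℂ-linear map. -/
noncomputable def act (V : Type) [AddCommGroup V] [Module ℂ V] [Module (R D n) V]
    [IsScalarTower ℂ (R D n) V] : R D n →ₐ[ℂ] Module.End ℂ V := Algebra.lsmul ℂ ℂ V

@[simp] lemma act_apply (V : Type) [AddCommGroup V] [Module ℂ V] [Module (R D n) V]
    [IsScalarTower ℂ (R D n) V] (x : R D n) (v : V) : act V x v = x • v := rfl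

/-- The character. -/
noncomputable def ch (M : FObj D n lam) (w : Wd D n) : ℂ :=
  LinearMap.trace ℂ M.V (M.g.toLinearMap ∘ₗ act M.V (ew w))

/-- A short exact sequence of FObj's. -/
structure SES (M' M M'' : FObj D n lam) where
  i : M'.V →ₗ[R D n] M.V
  p : M.V →ₗ[R D n] M''.V
  inj : Function.Injective i
  surj : Function.Surjective p
  exact : LinearMap.range i = LinearMap.ker p
  gi : ∀ v, i (M'.g v) = M.g (i v)
  gp : ∀ v, p (M.g v) = M''.g (p v)

/-- Isomorphism up to the scalar μ: e ∘ g = μ • g' ∘ e. -/
def IsoS (M M' : FObj D n lam) (μ : ℂˣ) : Prop :=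
  ∃ e : M.V ≃ₗ[R D n] M'.V, ∀ v, e (M.g v) = (μ : ℂ) • M'.g (e v)

/-- No proper non-zero submodule stable under g. -/
def IsSimp (M : FObj D n lam) : Prop :=
  (∃ v : M.V, v ≠ 0) ∧ ∀ W : Submodule (R D n) M.V, (∀ v ∈ W, M.g v ∈ W) → W = ⊥ ∨ W = ⊤

/-- Additive functions. -/
structure AddFun (D : Dat) (n : ℕ) (lam : ℂˣ) where
  T : FObj D n lam → ℂ
  add : ∀ M' M M'' : FObj D n lam, SES M' M M'' → T M = T M' + T M''
  scal : ∀ (M M' : FObj D n lam) (μ : ℂˣ), IsoS M M' μ → T M = (μ : ℂ) * T M'

/-- The sub-object on a g-stable submodule. -/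
noncomputable def FObj.sub (M : FObj D n lam) (W : Submodule (R D n) M.V)
    (hW : ∀ v ∈ W, M.g v ∈ W) : FObj D n lam where
  V := W
  tower := ⟨fun c x v => Subtype.ext (smul_assoc c x v.1)⟩
  fin := inferInstanceAs (FiniteDimensional ℂ (W.restrictScalars ℂ))
  g := LinearEquiv.ofBijective
    ((M.g.toLinearMap.restrict (p := W.restrictScalars ℂ) (q := W.restrictScalars ℂ) hW))
    (by
      have hinj : Function.Injective (M.g.toLinearMap.restrict (p := W.restrictScalars ℂ)
          (q := W.restrictScalars ℂ) hW) := by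
        intro a b h
        apply Subtype.ext
        have := congrArg Subtype.val h
        simpa using this
      exact ⟨hinj, (LinearMap.injective_iff_surjective.1 hinj)⟩)
  hg x v := by
    apply Subtype.ext
    exact M.hg x v

/-- The quotient. -/
theorem FObj.quot_g (M : FObj D n lam) (W : Submodule (R D n) M.V) (hW : ∀ v ∈ W, M.g v ∈ W) :
    ∀ v, v ∈ W ↔ M.g v ∈ W := by
  have hinj : Function.Injective (M.g.toLinearMap.restrict (p := W.restrictScalars ℂ)
      (q := W.restrictScalars ℂ) hW) := by
    intro a b h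
    apply Subtype.ext
    have := congrArg Subtype.val h
    simpa using this
  have hs := LinearMap.injective_iff_surjective.1 hinj
  intro v
  refine ⟨hW v, fun h => ?_⟩
  obtain ⟨u, hu⟩ := hs ⟨M.g v, h⟩
  have h2 : M.g u.1 = M.g v := congrArg Subtype.val hu
  have : u.1 = v := M.g.injective h2
  exact this ▸ u.2

noncomputable def FObj.quot (M : FObj D n lam) (W : Submodule (R D n) M.V)
    (hW : ∀ v ∈ W, M.g v ∈ W) : FObj D n lam where
  V := M.V ⧸ W
  tower := ⟨fun c x v => by
    obtain ⟨v, rfl⟩ := Submodule.Quotient.mk_surjective W v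
    change Submodule.Quotient.mk ((c • x) • v) = Submodule.Quotient.mk (c • x • v)
    rw [smul_assoc]⟩
  fin := inferInstanceAs (FiniteDimensional ℂ (M.V ⧸ W.restrictScalars ℂ))
  g := Submodule.Quotient.equiv (W.restrictScalars ℂ) (W.restrictScalars ℂ) M.g (by
    ext v
    simp only [Submodule.mem_map, Submodule.restrictScalars_mem]
    constructor
    · rintro ⟨u, hu, rfl⟩
      exact hW u hu
    · intro hv
      refine ⟨M.g.symm v, ?_, by simp⟩
      rw [M.quot_g W hW]
      simpa using hv)
  hg x v := by
    obtain ⟨v, rfl⟩ := Submodule.Quotient.mk_surjective W v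
    change Submodule.Quotient.mk (M.g (x • v)) = alpha D n lam x • Submodule.Quotient.mk (M.g v)
    rw [M.hg]
    rfl

/-- Restriction of scalars along `iotaL` of a ℂ-subspace N stable under `iotaL` and g: an object for
`R D a`. -/
noncomputable def FObj.restr {a m : ℕ} (M : FObj D (a + m) lam) (N : Submodule ℂ M.V)
    (hL : ∀ (x : R D a), ∀ v ∈ N, iotaL D a m x • v ∈ N) (hg : ∀ v ∈ N, M.g v ∈ N) :
    FObj D a lam :=
  letI : Module (R D a) N :=
    { smul := fun x v => ⟨iotaL D a m x • v.1, hL x v.1 v.2⟩
      one_smul := fun v => Subtype.ext (by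
        change iotaL D a m 1 • v.1 = v.1
        rw [map_one, one_smul])
      mul_smul := fun x y v => Subtype.ext (by
        change iotaL D a m (x * y) • v.1 = iotaL D a m x • iotaL D a m y • v.1
        rw [map_mul, mul_smul])
      smul_zero := fun x => Subtype.ext (by
        change iotaL D a m x • (0 : M.V) = 0
        rw [smul_zero])
      smul_add := fun x u v => Subtype.ext (by
        change iotaL D a m x • (u.1 + v.1) = iotaL D a m x • u.1 + iotaL D a m x • v.1
        rw [smul_add])
      add_smul := fun x y v => Subtype.ext (by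
        change iotaL D a m (x + y) • v.1 = iotaL D a m x • v.1 + iotaL D a m y • v.1
        rw [map_add, add_smul])
      zero_smul := fun v => Subtype.ext (by
        change iotaL D a m 0 • v.1 = 0
        rw [map_zero, zero_smul]) }
  { V := N
    tower := ⟨fun c x v => Subtype.ext (by
      change iotaL D a m (c • x) • v.1 = c • (iotaL D a m x • v.1)
      rw [map_smul, smul_assoc])⟩
    g := LinearEquiv.ofBijective (M.g.toLinearMap.restrict hg) (by
      have hinj : Function.Injective (M.g.toLinearMap.restrict hg) := by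
        intro u v h
        apply Subtype.ext
        have := congrArg Subtype.val h
        simpa using this
      exact ⟨hinj, (LinearMap.injective_iff_surjective.1 hinj)⟩)
    hg := fun x v => Subtype.ext (by
      change M.g (iotaL D a m x • v.1) = iotaL D a m (alpha D a lam x) • M.g v.1
      rw [M.hg, alpha_iotaL]) }

end CA1492
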