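import Mathlib
import Pool.Agent.Lib.MP_ca1492_al.Alg.Free
import Pool.Agent.Lib.MP_ca1492_al.Mod.FObj

/-!
Induction. `IndV V W = Shf m k → V ⊗ W` with the action of `R D (m + k)` through `theta`
(this is R ⊗_{R_m ⊗ R_k} (V ⊗ W), the function F standing for ∑ CS p ⊗ F p).
-/

namespace CA1492

open TensorProduct

variable {D : Dat} {lam : ℂˣ}

section ungraded
variable {m k : ℕ}
variable (V : Type) [AddCommGroup V] [Module ℂ V] [Module (R D m) V] [IsScalarTower ℂ (R D m) V]
variable (W : Type) [AddCommGroup W] [Module ℂ W] [Module (R D k) W] [IsScalarTower ℂ (R D k) W]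

/-- The action of the parabolic algebra on V ⊗ W. -/
noncomputable def tens : R D m ⊗[ℂ] R D k →ₐ[ℂ] Module.End ℂ (V ⊗[ℂ] W) :=
  (Module.endTensorEndAlgHom (R := ℂ) (S := ℂ) (A := ℂ) (M := V) (N := W)).comp
    (Algebra.TensorProduct.map (act V) (act W))

@[simp] lemma tens_tmul (x : R D m) (y : R D k) (v : V) (w : W) :
    tens V W (x ⊗ₜ y) (v ⊗ₜ w) = (x • v) ⊗ₜ (y • w) := rfl

/-- The representation on functions. -/
noncomputable def indRep (D : Dat) {m k : ℕ}
    (V : Type) [AddCommGroup V] [Module ℂ V] [Module (R D m) V] [IsScalarTower ℂ (R D m) V]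
    (W : Type) [AddCommGroup W] [Module ℂ W] [Module (R D k) W] [IsScalarTower ℂ (R D k) W] :
    R D (m + k) →ₐ[ℂ] Module.End ℂ (Shf m k → V ⊗[ℂ] W) :=
  AlgHom.ofLinearMap
    { toFun := fun x =>
        { toFun := fun F p => ∑ q, tens V W (theta D m k x p q) (F q)
          map_add' := fun F G => by
            funext p
            simp [Finset.sum_add_distrib]
          map_smul' := fun c F => by
            funext p
            simp [Finset.smul_sum] }
      map_add' := fun x y => by
        ext F p
        simp [Finset.sum_add_distrib]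
      map_smul' := fun c x => by
        ext F p
        simp [Finset.smul_sum] }
    (by
      apply LinearMap.ext
      intro F
      funext p
      change ∑ q, tens V W (theta D m k 1 p q) (F q) = F p
      rw [map_one, Finset.sum_eq_single p]
      · rw [Matrix.one_apply_eq, map_one]; rfl
      · intro q _ hq
        rw [Matrix.one_apply_ne (Ne.symm hq), map_zero]; rfl
      · intro h
        exact absurd (Finset.mem_univ p) h)
    (fun x y => by
      apply LinearMap.ext
      intro F
      funext p
      simp only [map_mul, LinearMap.coe_mk, AddHom.coe_mk, Matrix.mul_apply, Module.End.mul_apply,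
        map_sum, LinearMap.sum_apply]
      rw [Finset.sum_comm])

/-- The induced module (a type synonym). -/
def IndV (D : Dat) (m k : ℕ) (V : Type) [AddCommGroup V] [Module ℂ V]
    (W : Type) [AddCommGroup W] [Module ℂ W] : Type := Shf m k → V ⊗[ℂ] W

noncomputable instance : AddCommGroup (IndV D m k V W) :=
  inferInstanceAs (AddCommGroup (Shf m k → V ⊗[ℂ] W))
noncomputable instance : Module ℂ (IndV D m k V W) :=
  inferInstanceAs (Module ℂ (Shf m k → V ⊗[ℂ] W))
noncomputable instance : Module (R D (m + k)) (IndV D m k V W) where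
  smul x F := indRep D V W x F
  one_smul F := by change indRep D V W 1 F = F; rw [map_one]; rfl
  mul_smul x y F := by change indRep D V W (x * y) F = _; rw [map_mul]; rfl
  smul_zero x := (indRep D V W x).map_zero
  smul_add x F G := (indRep D V W x).map_add F G
  add_smul x y F := by change indRep D V W (x + y) F = _; rw [map_add]; rfl
  zero_smul F := by change indRep D V W 0 F = 0; rw [map_zero]; rfl

lemma IndV_smul (x : R D (m + k)) (F : IndV D m k V W) : x • F = indRep D V W x F := rfl

instance : IsScalarTower ℂ (R D (m + k)) (IndV D m k V W) :=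
  ⟨fun c x F => by rw [IndV_smul, IndV_smul, map_smul]; rfl⟩

instance [FiniteDimensional ℂ V] [FiniteDimensional ℂ W] :
    FiniteDimensional ℂ (IndV D m k V W) :=
  inferInstanceAs (FiniteDimensional ℂ (Shf m k → V ⊗[ℂ] W))

/-- The canonical map V ⊗ W → Ind: t ↦ 1 ⊗ t. -/
noncomputable def indIn : V ⊗[ℂ] W →ₗ[ℂ] IndV D m k V W :=
  LinearMap.single ℂ (fun _ : Shf m k => V ⊗[ℂ] W) (shfId m k)

lemma IndA_CS_aux (D : Dat) (m k n : ℕ) : ∀ k' : ℕ, k' ≤ k →
    (CS m k' (shf (shfId m k)) : R D n) = 1 := by
  intro k'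
  induction k' with
  | zero => intro _; rfl
  | succ k' ih =>
    intro h
    have h1 : shf (shfId m k) k' = m + k' := by
      unfold shf
      rw [dif_pos (by omega)]
      rfl
    have h2 : (CS m (k' + 1) (shf (shfId m k)) : R D n) =
        Cc (shf (shfId m k) k') (m + k') * CS m k' (shf (shfId m k)) := rfl
    rw [h2, ih (by omega), h1, mul_one]
    unfold Cc
    rw [Nat.sub_self]
    rfl

lemma IndA_CS_id (D : Dat) (m k n : ℕ) : (CS m k (shf (shfId m k)) : R D n) = 1 :=
  IndA_CS_aux D m k n k le_rfl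

lemma IndA_smul_apply (x : R D (m + k)) (F : IndV D m k V W) (p : Shf m k) :
    (x • F) p = ∑ q, tens V W (theta D m k x p q) (F q) := rfl

lemma IndA_indIn_same (t : V ⊗[ℂ] W) :
    (indIn V W t : IndV D m k V W) (shfId m k) = t :=
  Pi.single_eq_same (M := fun _ : Shf m k => V ⊗[ℂ] W) (shfId m k) t

lemma IndA_indIn_ne (t : V ⊗[ℂ] W) {q : Shf m k} (h : q ≠ shfId m k) :
    (indIn V W t : IndV D m k V W) q = 0 :=
  Pi.single_eq_of_ne (M := fun _ : Shf m k => V ⊗[ℂ] W) h t

lemma IndA_smul_in (x : R D (m + k)) (t : V ⊗[ℂ] W) (p : Shf m k) :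
    (x • (indIn V W t : IndV D m k V W)) p = tens V W (theta D m k x p (shfId m k)) t := by
  rw [IndA_smul_apply, Finset.sum_eq_single (shfId m k)]
  · rw [IndA_indIn_same]
  · intro q _ hq
    rw [IndA_indIn_ne V W t hq, map_zero]
  · intro h
    exact absurd (Finset.mem_univ _) h

lemma IndA_sum_apply (s : Finset (Shf m k)) (G : Shf m k → IndV D m k V W) (r : Shf m k) :
    (∑ p ∈ s, G p) r = ∑ p ∈ s, G p r :=
  Finset.sum_apply (M := fun _ : Shf m k => V ⊗[ℂ] W) r s G

/-- PROOF: `theta_iota`, `theta_CS`: iota z • (1 ⊗ t) = 1 ⊗ z t, CS (shf p) • (1 ⊗ t) = the function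
supported at p with value t, hence F = ∑_p CS (shf p) • indIn (F p). -/
theorem indIn_facts :
    (∀ (z : R D m ⊗[ℂ] R D k) (t : V ⊗[ℂ] W),
      iota D m k z • (indIn V W t : IndV D m k V W) = indIn V W (tens V W z t)) ∧
    (∀ F : IndV D m k V W, F = ∑ p : Shf m k,
      (CS m k (shf p) : R D (m + k)) • (indIn V W (F p) : IndV D m k V W)) := by
  constructor
  · intro z t
    funext p
    rw [IndA_smul_in, theta_iota]
    by_cases h : p = shfId m k
    · rw [if_pos h, h]
      exact (IndA_indIn_same V W (tens V W z t)).symm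
    · rw [if_neg h, map_zero]
      exact (IndA_indIn_ne V W (tens V W z t) h).symm
  · intro F
    funext r
    rw [IndA_sum_apply, Finset.sum_eq_single r]
    · rw [IndA_smul_in, theta_CS, if_pos rfl, map_one]
      rfl
    · intro p _ hp
      rw [IndA_smul_in, theta_CS, if_neg (Ne.symm hp), map_zero]
      rfl
    · intro h
      exact absurd (Finset.mem_univ _) h

/-- Universal property.
PROOF: existence: Φ F = ∑_p CS (shf p) • φ (F p); linear over R by `theta_spec`:
x • Φ F = ∑_q x * CS q • φ (F q) = ∑_q ∑_p CS p * iota (Θ x p q) • φ (F q) =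
∑_p CS p • φ (∑_q tens (Θ x p q) (F q)). Uniqueness: `indIn_facts`. -/
theorem ind_universal (Y : Type) [AddCommGroup Y] [Module ℂ Y] [Module (R D (m + k)) Y]
    [IsScalarTower ℂ (R D (m + k)) Y] (φ : V ⊗[ℂ] W →ₗ[ℂ] Y)
    (hφ : ∀ (z : R D m ⊗[ℂ] R D k) (t : V ⊗[ℂ] W), φ (tens V W z t) = iota D m k z • φ t) :
    ∃! Φ : IndV D m k V W →ₗ[R D (m + k)] Y, ∀ t, Φ (indIn V W t) = φ t := by
  refine ⟨{ toFun := fun F => ∑ p : Shf m k, (CS m k (shf p) : R D (m + k)) • φ (F p)
            map_add' := fun F G => ?_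
            map_smul' := fun x F => ?_ }, ?_, ?_⟩
  · rw [← Finset.sum_add_distrib]
    apply Finset.sum_congr rfl
    intro p _
    have h : (F + G) p = F p + G p := rfl
    rw [h, map_add, smul_add]
  · have h1 : ∀ p : Shf m k, (CS m k (shf p) : R D (m + k)) • φ ((x • F) p) =
        ∑ q, ((CS m k (shf p) : R D (m + k)) * iota D m k (theta D m k x p q)) • φ (F q) := by
      intro p
      rw [IndA_smul_apply, map_sum, Finset.smul_sum]
      apply Finset.sum_congr rfl
      intro q _
      rw [hφ, mul_smul]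
    rw [Finset.sum_congr rfl (fun p _ => h1 p), Finset.sum_comm, RingHom.id_apply,
      Finset.smul_sum]
    apply Finset.sum_congr rfl
    intro q _
    rw [← Finset.sum_smul, ← theta_spec, mul_smul]
  · intro t
    change ∑ p : Shf m k, (CS m k (shf p) : R D (m + k)) •
      φ ((indIn V W t : IndV D m k V W) p) = φ t
    rw [Finset.sum_eq_single (shfId m k)]
    · rw [IndA_indIn_same, IndA_CS_id, one_smul]
    · intro q _ hq
      rw [IndA_indIn_ne V W t hq, map_zero, smul_zero]
    · intro h
      exact absurd (Finset.mem_univ _) h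
  · intro Ψ hΨ
    apply LinearMap.ext
    intro F
    change Ψ F = ∑ p : Shf m k, (CS m k (shf p) : R D (m + k)) • φ (F p)
    conv_lhs => rw [(indIn_facts V W).2 F]
    rw [map_sum]
    apply Finset.sum_congr rfl
    intro p _
    rw [map_smul, hΨ]

end ungraded

end CA1492
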