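import Mathlib
import Pool.Agent.Lib.MP_ca1492_al.Alg.PBW

/-!
The modules V_k(w) = R ew / (yk j ew, j < k).
-/

namespace CA1492

open MvPolynomial

variable {D : Dat} {n : ℕ} {lam : ℂˣ}

/-- The left ideal R (1 - ew w) + ∑_{j < k} R yk j ew w. -/
noncomputable def Jk (w : Wd D n) (k : ℕ) : Submodule (R D n) (R D n) :=
  Submodule.span (R D n) ({x | x = 1 - ew w} ∪ {x | ∃ j : Fin n, j.val < k ∧ x = yk j * ew w})

/-- The module V_k(w). -/
abbrev VV (w : Wd D n) (k : ℕ) : Type := R D n ⧸ Jk w k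

/-- The normal form sum. -/
noncomputable def VVa_NF (w : Wd D n) (f : Sq n → MvPolynomial (Fin n) ℂ) : R D n :=
  ∑ p, CQ p * pol (f p) * ew w

lemma VVa_ee (w : Wd D n) : (ew w : R D n) * ew w = ew w := by
  have h := (isRep_R D n).E_mul w w
  simpa using h

lemma VVa_NF_add (w : Wd D n) (f g : Sq n → MvPolynomial (Fin n) ℂ) :
    VVa_NF w (fun p => f p + g p) = VVa_NF w f + VVa_NF w g := by
  unfold VVa_NF
  rw [← Finset.sum_add_distrib]
  refine Finset.sum_congr rfl fun p _ => ?_
  rw [map_add, mul_add, add_mul]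

lemma VVa_NF_zero (w : Wd D n) : VVa_NF w (fun _ => 0) = (0 : R D n) := by
  unfold VVa_NF
  refine Finset.sum_eq_zero fun p _ => ?_
  rw [map_zero, mul_zero, zero_mul]

lemma VVa_NF_sum {ι : Type} (s : Finset ι) (w : Wd D n)
    (f : ι → Sq n → MvPolynomial (Fin n) ℂ) :
    VVa_NF w (fun p => ∑ i ∈ s, f i p) = ∑ i ∈ s, (VVa_NF w (f i) : R D n) := by
  unfold VVa_NF
  rw [Finset.sum_comm]
  refine Finset.sum_congr rfl fun p _ => ?_
  rw [map_sum, Finset.mul_sum, Finset.sum_mul]

/-- right multiplication by a polynomial -/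
lemma VVa_NF_mul (w : Wd D n) (f : Sq n → MvPolynomial (Fin n) ℂ) (h : MvPolynomial (Fin n) ℂ) :
    VVa_NF w f * pol h = (VVa_NF w (fun p => f p * h) : R D n) := by
  unfold VVa_NF
  rw [Finset.sum_mul]
  refine Finset.sum_congr rfl fun p _ => ?_
  rw [map_mul, mul_assoc _ (ew w), ← pol_ew]
  simp only [mul_assoc]

lemma VVa_NF_unique (w : Wd D n) (f g : Sq n → MvPolynomial (Fin n) ℂ)
    (h : (VVa_NF w f : R D n) = VVa_NF w g) : f = g := by
  classical
  have key : ∀ f : Sq n → MvPolynomial (Fin n) ℂ, (∑ p, ∑ w', CQ p *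
      pol ((fun p w' => if w' = w then f p else 0) p w') * ew w' : R D n) = VVa_NF w f := by
    intro f
    unfold VVa_NF
    refine Finset.sum_congr rfl fun p _ => ?_
    rw [Finset.sum_eq_single w]
    · beta_reduce
      rw [if_pos rfl]
    · intro w' _ hw'
      beta_reduce
      rw [if_neg hw', map_zero, mul_zero, zero_mul]
    · intro hn
      exact absurd (Finset.mem_univ _) hn
  have h1 := pbw_unique (D := D) (fun p w' => if w' = w then f p else 0)
    (fun p w' => if w' = w then g p else 0) (by rw [key f, key g, h])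
  funext p
  have h2 := congrFun (congrFun h1 p) w
  simpa using h2

lemma VVa_exists (w : Wd D n) (x : R D n) : ∃ f : Sq n → MvPolynomial (Fin n) ℂ,
    x * ew w = VVa_NF w f := by
  classical
  obtain ⟨f, hf⟩ := pbw_span x
  refine ⟨fun p => f p w, ?_⟩
  rw [hf, Finset.sum_mul]
  unfold VVa_NF
  refine Finset.sum_congr rfl fun p _ => ?_
  rw [Finset.sum_mul, Finset.sum_eq_single w]
  · rw [mul_assoc, VVa_ee]
  · intro w' _ hw'
    rw [mul_assoc, (isRep_R D n).E_mul, if_neg hw', mul_zero]
  · intro hn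
    exact absurd (Finset.mem_univ _) hn

/-- the ideal of the first variables -/
noncomputable def VVa_I (n k : ℕ) : Ideal (MvPolynomial (Fin n) ℂ) :=
  Ideal.span {g | ∃ j : Fin n, j.val < k ∧ g = X j}

lemma VVa_mem_I {k : ℕ} (f : MvPolynomial (Fin n) ℂ) :
    f ∈ VVa_I n k ↔ ∀ m ∈ f.support, ∃ i : Fin n, i.val < k ∧ m i ≠ 0 := by
  have h1 : ({g | ∃ j : Fin n, j.val < k ∧ g = X j} : Set (MvPolynomial (Fin n) ℂ)) =
      X '' {j : Fin n | j.val < k} := by
    ext g
    simp only [Set.mem_ofPred_eq, Set.mem_image]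
    constructor
    · rintro ⟨j, hj, rfl⟩
      exact ⟨j, hj, rfl⟩
    · rintro ⟨j, hj, rfl⟩
      exact ⟨j, hj, rfl⟩
  unfold VVa_I
  rw [h1, MvPolynomial.mem_ideal_span_X_image]
  simp only [Set.mem_ofPred_eq]

lemma VVa_cancel {k : ℕ} (hk : k < n) (f : MvPolynomial (Fin n) ℂ)
    (h : f * X ⟨k, hk⟩ ∈ VVa_I n k) : f ∈ VVa_I n k := by
  rw [VVa_mem_I] at h ⊢
  intro m hm
  have h1 : m + Finsupp.single (⟨k, hk⟩ : Fin n) 1 ∈ (f * X (⟨k, hk⟩ : Fin n)).support := by
    rw [MvPolynomial.support_mul_X, Finset.mem_map]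
    exact ⟨m, hm, rfl⟩
  obtain ⟨i, hi, hmi⟩ := h _ h1
  refine ⟨i, hi, ?_⟩
  have hne : (⟨k, hk⟩ : Fin n) ≠ i := by
    intro he
    rw [← he] at hi
    exact lt_irrefl _ hi
  rw [Finsupp.add_apply, Finsupp.single_eq_of_ne (by first | exact hne | exact hne.symm),
    add_zero] at hmi
  exact hmi

lemma VVa_pol_mem (w : Wd D n) (k : ℕ) (h : MvPolynomial (Fin n) ℂ) (hh : h ∈ VVa_I n k) :
    (pol h * ew w : R D n) ∈ Jk w k := by
  unfold VVa_I at hh
  induction hh using Submodule.span_induction with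
  | mem x hx =>
    obtain ⟨j, hj, rfl⟩ := hx
    rw [pol_X]
    exact Submodule.subset_span (Or.inr ⟨j, hj, rfl⟩)
  | zero =>
    rw [map_zero, zero_mul]
    exact Submodule.zero_mem _
  | add x y _ _ hx hy =>
    rw [map_add, add_mul]
    exact Submodule.add_mem _ hx hy
  | smul a x _ hx =>
    rw [smul_eq_mul, map_mul, mul_assoc]
    exact Submodule.smul_mem _ (pol a) hx

/-- Normal form of the elements of the ideal.
PROOF. (→) span induction: the set of x such that x * ew w = ∑ CQ p * pol (f p) * ew w with all f p in the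
ideal (X j : j < k) is a left ideal: for x = y * ((yk j) * ew w), write y * ew w = ∑ CQ p * pol (g p) * ew w
(`pbw_span`, multiply by ew w on the right), so x = ∑ CQ p * pol (g p * X j) * ew w. (1 - ew w) * ew w = 0.
(←) x = x * (1 - ew w) + x * ew w and CQ p * pol (h * X j) * ew w = (CQ p * pol h) * (yk j * ew w). -/
theorem mem_Jk (w : Wd D n) (k : ℕ) (x : R D n) : x ∈ Jk w k ↔
    ∃ f : Sq n → MvPolynomial (Fin n) ℂ,
      (∀ p, f p ∈ Ideal.span {g | ∃ j : Fin n, j.val < k ∧ g = X j}) ∧
      x * ew w = ∑ p, CQ p * pol (f p) * ew w := by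
  classical
  constructor
  · intro hx
    unfold Jk at hx
    induction hx using Submodule.span_induction with
    | mem x hx =>
      rcases hx with hx | ⟨j, hj, hx⟩
      · refine ⟨fun _ => 0, fun _ => Submodule.zero_mem _, ?_⟩
        have h1 : x = 1 - ew w := hx
        rw [h1, sub_mul, one_mul, VVa_ee, sub_self]
        exact (VVa_NF_zero w).symm
      · obtain ⟨g, hg⟩ := VVa_exists w (1 : R D n)
        refine ⟨fun p => g p * X j, fun p => Ideal.mul_mem_left _ _
          (Ideal.subset_span ⟨j, hj, rfl⟩), ?_⟩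
        have h1 : x * ew w = VVa_NF w (fun p => g p * X j) := by
          rw [← VVa_NF_mul, ← hg, one_mul, pol_X, hx, mul_assoc, VVa_ee, (isRep_R D n).Y_E]
        exact h1
    | zero =>
      refine ⟨fun _ => 0, fun _ => Submodule.zero_mem _, ?_⟩
      rw [zero_mul]
      exact (VVa_NF_zero w).symm
    | add x y _ _ hx hy =>
      obtain ⟨f, hf, hxf⟩ := hx
      obtain ⟨g, hg, hyg⟩ := hy
      refine ⟨fun p => f p + g p, fun p => Ideal.add_mem _ (hf p) (hg p), ?_⟩
      rw [add_mul, hxf, hyg]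
      exact (VVa_NF_add w f g).symm
    | smul r x _ hx =>
      obtain ⟨f, hf, hxf⟩ := hx
      have h1 : ∀ p : Sq n, ∃ g : Sq n → MvPolynomial (Fin n) ℂ,
          r * CQ p * ew w = VVa_NF w g := fun p => VVa_exists w (r * CQ p)
      choose g hg using h1
      refine ⟨fun q => ∑ p, g p q * f p, fun q => Ideal.sum_mem _ (fun p _ =>
        Ideal.mul_mem_left _ _ (hf p)), ?_⟩
      have h2 : (VVa_NF w (fun q => ∑ p, g p q * f p) : R D n) =
          ∑ p, VVa_NF w (fun q => g p q * f p) := VVa_NF_sum Finset.univ w (fun p q => g p q * f p)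
      have h3 : r • x * ew w = ∑ p, r * CQ p * ew w * pol (f p) := by
        rw [smul_eq_mul, mul_assoc, hxf, Finset.mul_sum]
        refine Finset.sum_congr rfl fun p _ => ?_
        rw [mul_assoc (r * CQ p), ← pol_ew]
        simp only [mul_assoc]
      rw [h3]
      have h4 : (∑ p, r * CQ p * ew w * pol (f p) : R D n) =
          ∑ p, VVa_NF w (fun q => g p q * f p) := by
        refine Finset.sum_congr rfl fun p _ => ?_
        rw [hg p, VVa_NF_mul]
      rw [h4, ← h2]
      rfl
  · rintro ⟨f, hf, hx⟩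
    have h1 : x = x • (1 - ew w) + x * ew w := by
      rw [smul_eq_mul, mul_sub, mul_one, sub_add_cancel]
    rw [h1]
    refine Submodule.add_mem _ (Submodule.smul_mem _ _ (Submodule.subset_span (Or.inl rfl))) ?_
    rw [hx]
    refine Submodule.sum_mem _ fun p _ => ?_
    rw [mul_assoc]
    exact Submodule.smul_mem _ (CQ p) (VVa_pol_mem w k (f p) (hf p))

/-- Normal form of all elements. PROOF: `pbw_span`, `pbw_unique` for the word w. -/
theorem exists_nf (w : Wd D n) (x : R D n) : ∃! f : Sq n → MvPolynomial (Fin n) ℂ,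
    x * ew w = ∑ p, CQ p * pol (f p) * ew w := by
  obtain ⟨f, hf⟩ := VVa_exists w x
  refine ⟨f, hf, ?_⟩
  intro g hg
  exact (VVa_NF_unique w f g (hf.symm.trans hg)).symm

/-- Right multiplication by yk k ew w: V_k → V_k, injective, with cokernel V_{k+1}.
PROOF. x ↦ x * (yk k * ew w) maps Jk to Jk: (1 - ew w) * yk k * ew w = 0,
yk j * ew w * yk k * ew w = yk k * (yk j * ew w). Injective: if x * yk k * ew w ∈ Jk w k and
x * ew w = ∑ CQ p * pol (f p) * ew w, then by `mem_Jk` and uniqueness f p * X k ∈ (X j : j < k), hence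
f p ∈ (X j : j < k) (an ideal generated by variables is prime and does not contain X k; Mathlib:
`MvPolynomial.mem_ideal_span_X_image` gives: every monomial of f p * X k contains some X j, j < k, hence
every monomial of f p). Cokernel: Jk w (k+1) = Jk w k + R yk k ew w. -/
theorem exists_VV_ses (w : Wd D n) (k : ℕ) (hk : k < n) :
    ∃ (i : VV w k →ₗ[R D n] VV w k) (p : VV w k →ₗ[R D n] VV w (k + 1)),
      Function.Injective i ∧ Function.Surjective p ∧ LinearMap.range i = LinearMap.ker p ∧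
      (∀ x : R D n, i (Submodule.Quotient.mk x) =
        Submodule.Quotient.mk (x * (yk ⟨k, hk⟩ * ew w))) ∧
      (∀ x : R D n, p (Submodule.Quotient.mk x) = Submodule.Quotient.mk x) := by
  set z : R D n := yk ⟨k, hk⟩ * ew w with hz
  have hez : ew w * z = z := by
    rw [hz, ← mul_assoc, ← (isRep_R D n).Y_E, mul_assoc, VVa_ee]
  have hmap : Jk w k ≤ (Jk w k).comap (LinearMap.toSpanSingleton (R D n) (R D n) z) := by
    conv_lhs => unfold Jk
    rw [Submodule.span_le]
    rintro x (hx | ⟨j, hj, hx⟩)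
    · have h1 : x = 1 - ew w := hx
      change x • z ∈ Jk w k
      rw [h1, smul_eq_mul, sub_mul, one_mul, hez, sub_self]
      exact Submodule.zero_mem _
    · change x • z ∈ Jk w k
      rw [hx, smul_eq_mul, mul_assoc, hez, hz, ← mul_assoc, (isRep_R D n).Y_Y, mul_assoc]
      exact Submodule.smul_mem _ _ (Submodule.subset_span (Or.inr ⟨j, hj, rfl⟩))
  have hle : Jk w k ≤ Jk w (k + 1) := by
    refine Submodule.span_mono ?_
    rintro x (hx | ⟨j, hj, hx⟩)
    · exact Or.inl hx
    · exact Or.inr ⟨j, by omega, hx⟩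
  refine ⟨Submodule.mapQ _ _ (LinearMap.toSpanSingleton (R D n) (R D n) z) hmap,
    Submodule.mapQ _ _ LinearMap.id hle, ?_, ?_, ?_, ?_, ?_⟩
  · rw [← LinearMap.ker_eq_bot, LinearMap.ker_eq_bot']
    intro q hq
    obtain ⟨x, rfl⟩ := Submodule.Quotient.mk_surjective _ q
    rw [Submodule.mapQ_apply, Submodule.Quotient.mk_eq_zero] at hq
    have hxz : x * z ∈ Jk w k := hq
    rw [Submodule.Quotient.mk_eq_zero, mem_Jk]
    obtain ⟨f, hf⟩ := VVa_exists w x
    refine ⟨f, ?_, hf⟩
    obtain ⟨g, hg, hgx⟩ := (mem_Jk w k _).1 hxz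
    have h1 : x * z * ew w = VVa_NF w (fun p => f p * X ⟨k, hk⟩) := by
      rw [← VVa_NF_mul, ← hf, hz, pol_X, mul_assoc, mul_assoc, VVa_ee, mul_assoc,
        (isRep_R D n).Y_E]
    have h2 := VVa_NF_unique w _ _ (h1.symm.trans hgx)
    intro p
    have h3 : f p * X ⟨k, hk⟩ ∈ VVa_I n k := by
      have h4 : f p * X ⟨k, hk⟩ = g p := congrFun h2 p
      rw [h4]
      exact hg p
    exact VVa_cancel hk (f p) h3
  · intro q
    obtain ⟨x, rfl⟩ := Submodule.Quotient.mk_surjective _ q
    exact ⟨Submodule.Quotient.mk x, rfl⟩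
  · apply le_antisymm
    · rintro _ ⟨q, rfl⟩
      obtain ⟨x, rfl⟩ := Submodule.Quotient.mk_surjective _ q
      rw [LinearMap.mem_ker, Submodule.mapQ_apply, Submodule.mapQ_apply,
        Submodule.Quotient.mk_eq_zero]
      change x • z ∈ Jk w (k + 1)
      exact Submodule.smul_mem _ _ (Submodule.subset_span (Or.inr ⟨⟨k, hk⟩, by simp, hz⟩))
    · intro q hq
      obtain ⟨x, rfl⟩ := Submodule.Quotient.mk_surjective _ q
      rw [LinearMap.mem_ker, Submodule.mapQ_apply, Submodule.Quotient.mk_eq_zero] at hq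
      have hx : x ∈ Jk w (k + 1) := hq
      have h1 : Jk w (k + 1) ≤ (LinearMap.range (Submodule.mapQ (Jk w k) (Jk w k)
          (LinearMap.toSpanSingleton (R D n) (R D n) z) hmap)).comap (Jk w k).mkQ := by
        conv_lhs => unfold Jk
        rw [Submodule.span_le]
        rintro x (hx | ⟨j, hj, hx⟩)
        · have h2 : x ∈ Jk w k := Submodule.subset_span (Or.inl hx)
          rw [SetLike.mem_coe, Submodule.mem_comap, Submodule.mkQ_apply,
            (Submodule.Quotient.mk_eq_zero _).2 h2]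
          exact Submodule.zero_mem _
        · by_cases hjk : j.val < k
          · have h2 : x ∈ Jk w k := Submodule.subset_span (Or.inr ⟨j, hjk, hx⟩)
            rw [SetLike.mem_coe, Submodule.mem_comap, Submodule.mkQ_apply,
              (Submodule.Quotient.mk_eq_zero _).2 h2]
            exact Submodule.zero_mem _
          · have h3 : j = ⟨k, hk⟩ := Fin.ext (show j.val = k by omega)
            refine ⟨Submodule.Quotient.mk 1, ?_⟩
            rw [Submodule.mapQ_apply, hx, h3]
            change Submodule.Quotient.mk ((1 : R D n) • z) = _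
            rw [one_smul, hz]
            rfl
      exact h1 hx
  · intro x
    rfl
  · intro x
    rfl

end CA1492
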