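import Mathlib
import Pool.Agent.Lib.MP_ca1492_al.Mod.FObj
import Pool.Agent.Lib.MP_ca1492_al.Mod.VVa

/-!
The automorphism g of V_k(w), the basis and the character of V_n(w).
-/

namespace CA1492

open MvPolynomial

variable {D : Dat} {n : ℕ} {lam : ℂˣ}

/-- alpha as a linear equivalence. -/
noncomputable def VVb_alphaE (D : Dat) (n : ℕ) (lam : ℂˣ) : R D n ≃ₗ[ℂ] R D n :=
  LinearEquiv.ofLinearMap (alpha D n lam).toLinearMap (alpha D n lam⁻¹).toLinearMap
    (by
      ext x
      change alpha D n lam (alpha D n lam⁻¹ x) = x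
      rw [alpha_mul, mul_inv_cancel, alpha_one])
    (by
      ext x
      change alpha D n lam⁻¹ (alpha D n lam x) = x
      rw [alpha_mul, inv_mul_cancel, alpha_one])

theorem VVb_alpha_mem (lam : ℂˣ) (w : Wd D n) (k : ℕ) {x : R D n} (hx : x ∈ Jk w k) :
    alpha D n lam x ∈ Jk w k := by
  unfold Jk at hx
  induction hx using Submodule.span_induction with
  | mem x hx =>
    rcases hx with hx | ⟨j, hj, rfl⟩
    · have hx' : x = 1 - ew w := hx
      rw [hx', map_sub, map_one, (alpha_spec D n lam).1]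
      exact Submodule.subset_span (Or.inl rfl)
    · rw [map_mul, (alpha_spec D n lam).1, (alpha_spec D n lam).2.1, smul_mul_assoc]
      exact Submodule.smul_of_tower_mem _ _ (Submodule.subset_span (Or.inr ⟨j, hj, rfl⟩))
  | zero =>
    rw [map_zero]
    exact Submodule.zero_mem _
  | add x y _ _ hx hy =>
    rw [map_add]
    exact Submodule.add_mem _ hx hy
  | smul a x _ hx =>
    rw [smul_eq_mul, map_mul]
    exact Submodule.smul_mem _ _ hx

/-- The automorphism g of V_k(w) induced by alpha.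
PROOF: alpha maps the generators of Jk to multiples of themselves; inverse from alpha lam⁻¹
(`alpha_mul`, `alpha_one`). -/
theorem exists_gV (lam : ℂˣ) (w : Wd D n) (k : ℕ) : ∃ g : VV w k ≃ₗ[ℂ] VV w k,
    ∀ x : R D n, g (Submodule.Quotient.mk x) = Submodule.Quotient.mk (alpha D n lam x) := by
  refine ⟨Submodule.Quotient.equiv ((Jk w k).restrictScalars ℂ) ((Jk w k).restrictScalars ℂ)
    (VVb_alphaE D n lam) ?_, fun x => rfl⟩
  ext x
  simp only [Submodule.mem_map, Submodule.restrictScalars_mem]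
  constructor
  · rintro ⟨y, hy, rfl⟩
    exact VVb_alpha_mem lam w k hy
  · intro hx
    refine ⟨alpha D n lam⁻¹ x, VVb_alpha_mem lam⁻¹ w k hx, ?_⟩
    change alpha D n lam (alpha D n lam⁻¹ x) = x
    rw [alpha_mul, mul_inv_cancel, alpha_one]

/-- g on V_k(w). -/
noncomputable def gV (lam : ℂˣ) (w : Wd D n) (k : ℕ) : VV w k ≃ₗ[ℂ] VV w k :=
  (exists_gV lam w k).choose

lemma gV_mk (lam : ℂˣ) (w : Wd D n) (k : ℕ) (x : R D n) :
    gV lam w k (Submodule.Quotient.mk x) = Submodule.Quotient.mk (alpha D n lam x) :=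
  (exists_gV lam w k).choose_spec x

lemma gV_smul (lam : ℂˣ) (w : Wd D n) (k : ℕ) (x : R D n) (v : VV w k) :
    gV lam w k (x • v) = alpha D n lam x • gV lam w k v := by
  obtain ⟨v, rfl⟩ := Submodule.Quotient.mk_surjective _ v
  rw [← Submodule.Quotient.mk_smul, gV_mk, gV_mk, ← Submodule.Quotient.mk_smul, smul_eq_mul,
    smul_eq_mul, map_mul]

/-- Scaling of i: i (lam^2 gV v) = gV (i v).
PROOF: on classes: alpha (x * (yk k * ew w)) = lam^2 • alpha x * (yk k * ew w). -/
theorem gV_i (lam : ℂˣ) (w : Wd D n) (k : ℕ) (hk : k < n) (i : VV w k →ₗ[R D n] VV w k)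
    (hi : ∀ x : R D n, i (Submodule.Quotient.mk x) =
      Submodule.Quotient.mk (x * (yk ⟨k, hk⟩ * ew w))) (v : VV w k) :
    gV lam w k (i v) = i (((lam : ℂ) ^ 2) • gV lam w k v) := by
  obtain ⟨x, rfl⟩ := Submodule.Quotient.mk_surjective _ v
  have e1 : ((lam : ℂ) ^ 2) • gV lam w k (Submodule.Quotient.mk x) =
      Submodule.Quotient.mk (((lam : ℂ) ^ 2) • alpha D n lam x) := by
    rw [gV_mk]
    rfl
  rw [hi, gV_mk, e1, hi, map_mul, map_mul, (alpha_spec D n lam).1, (alpha_spec D n lam).2.1,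
    smul_mul_assoc, smul_mul_assoc, mul_smul_comm]

theorem VVb_ideal (f : MvPolynomial (Fin n) ℂ) :
    f ∈ Ideal.span {g : MvPolynomial (Fin n) ℂ | ∃ j : Fin n, j.val < n ∧ g = X j} ↔
      constantCoeff f = 0 := by
  have h1 : {g : MvPolynomial (Fin n) ℂ | ∃ j : Fin n, j.val < n ∧ g = X j} =
      X '' (Set.univ : Set (Fin n)) := by
    ext g
    constructor
    · rintro ⟨j, -, rfl⟩
      exact ⟨j, Set.mem_univ _, rfl⟩
    · rintro ⟨j, -, rfl⟩
      exact ⟨j, j.2, rfl⟩
  rw [h1, mem_ideal_span_X_image, constantCoeff_eq]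
  constructor
  · intro h
    by_contra hne
    obtain ⟨i, -, hi⟩ := h 0 (mem_support_iff.2 hne)
    exact hi rfl
  · intro h m hm
    by_contra hcon
    push Not at hcon
    have : m = 0 := by
      ext i
      exact hcon i (Set.mem_univ _)
    subst this
    exact (mem_support_iff.1 hm) h

theorem VVb_ew (w : Wd D n) : (ew w * ew w : R D n) = ew w := by
  rw [(isRep_R D n).E_mul, if_pos rfl]

theorem VVb_mk_ew (w : Wd D n) (k : ℕ) (x : R D n) :
    (Submodule.Quotient.mk (x * ew w) : VV w k) = Submodule.Quotient.mk x := by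
  rw [Submodule.Quotient.eq]
  have h1 : x * ew w - x = (-x) * (1 - ew w) := by
    rw [mul_sub, mul_one, neg_mul, sub_neg_eq_add, neg_add_eq_sub]
  rw [h1]
  exact Submodule.smul_mem _ (-x) (Submodule.subset_span (Or.inl rfl))

theorem VVb_sum (w : Wd D n) (c : Sq n → ℂ) :
    (∑ p, c p • (CQ p * ew w) : R D n) * ew w = ∑ p, CQ p * pol (C (c p)) * ew w := by
  rw [Finset.sum_mul]
  refine Finset.sum_congr rfl fun p _ => ?_
  rw [smul_mul_assoc, mul_assoc, VVb_ew, ← MvPolynomial.algebraMap_eq, AlgHom.commutes,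
    ← Algebra.commutes, ← Algebra.smul_def, smul_mul_assoc]

/-- Basis of V_n(w): the classes of the CQ p * ew w.
PROOF: `exists_nf`, `mem_Jk` for k = n: f ∈ (X j : all j) iff the constant coefficient vanishes. -/
theorem VV_basis (w : Wd D n) : ∃ b : Module.Basis (Sq n) ℂ (VV w n),
    ∀ p, b p = Submodule.Quotient.mk (CQ p * ew w) := by
  have hmk : ∀ c : Sq n → ℂ, ∑ p, c p • (Submodule.Quotient.mk (CQ p * ew w) : VV w n) =
      Submodule.Quotient.mk (∑ p, c p • (CQ p * ew w)) := by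
    intro c
    exact (map_sum ((Jk w n).mkQ) (fun p => c p • (CQ p * ew w)) Finset.univ).symm
  have hli : LinearIndependent ℂ
      (fun p : Sq n => (Submodule.Quotient.mk (CQ p * ew w) : VV w n)) := by
    rw [Fintype.linearIndependent_iff]
    intro c hc p
    rw [hmk, Submodule.Quotient.mk_eq_zero, mem_Jk] at hc
    obtain ⟨f, hf, hfe⟩ := hc
    rw [VVb_sum] at hfe
    obtain ⟨g, -, hg⟩ := exists_nf w (∑ p, c p • (CQ p * ew w) : R D n)
    have e1 := hg (fun p => C (c p)) (VVb_sum w c)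
    have e2 := hg f (by rw [VVb_sum]; exact hfe)
    have e3 : f p = C (c p) := by rw [e2, ← e1]
    have e4 := (VVb_ideal (f p)).1 (hf p)
    rw [e3, constantCoeff_C] at e4
    exact e4
  have hsp : ⊤ ≤ Submodule.span ℂ
      (Set.range (fun p : Sq n => (Submodule.Quotient.mk (CQ p * ew w) : VV w n))) := by
    intro v _
    obtain ⟨x, rfl⟩ := Submodule.Quotient.mk_surjective _ v
    obtain ⟨f, hf, -⟩ := exists_nf w x
    have h1 : (Submodule.Quotient.mk x : VV w n) =
        ∑ p, constantCoeff (f p) • (Submodule.Quotient.mk (CQ p * ew w) : VV w n) := by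
      rw [hmk, ← VVb_mk_ew w n x, Submodule.Quotient.eq, mem_Jk]
      refine ⟨fun p => f p - C (constantCoeff (f p)), fun p => ?_, ?_⟩
      · rw [VVb_ideal, map_sub, constantCoeff_C, sub_self]
      · rw [sub_mul, VVb_sum w (fun p => constantCoeff (f p)), mul_assoc, VVb_ew, hf,
          ← Finset.sum_sub_distrib]
        refine Finset.sum_congr rfl fun p _ => ?_
        rw [map_sub, mul_sub, sub_mul]
    rw [h1]
    exact Submodule.sum_mem _ fun p _ => Submodule.smul_mem _ _ (Submodule.subset_span ⟨p, rfl⟩)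
  refine ⟨Module.Basis.mk hli hsp, fun p => ?_⟩
  rw [Module.Basis.mk_apply]

theorem VV_fin (w : Wd D n) : FiniteDimensional ℂ (VV w n) := by
  obtain ⟨b, -⟩ := VV_basis w
  exact Module.Finite.of_basis b

/-- V(w) as an FObj. -/
noncomputable def VF (lam : ℂˣ) (w : Wd D n) : FObj D n lam :=
  haveI := VV_fin w
  { V := VV w n
    g := gV lam w n
    hg := gV_smul lam w n }

/-- The character of V(w).
PROOF: `VV_basis` is a basis of eigenvectors for gV and the ew w': `CS_ew` with CQ p = CS 0 n (sqFun p);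
the trace is the sum of the diagonal entries. -/
theorem ch_VF (w w' : Wd D n) : ch (VF lam w) w' =
    ∑ p : Sq n, if shW 0 n (sqFun p) w = w' then
      ((lam ^ (sdeg 0 n (sqFun p) w) : ℂˣ) : ℂ) else 0 := by
  classical
  obtain ⟨b, hb⟩ := VV_basis w
  have hact : ∀ p, (gV lam w n) (ew w' • b p) = (if shW 0 n (sqFun p) w = w' then
      ((lam ^ (sdeg 0 n (sqFun p) w) : ℂˣ) : ℂ) else 0) • b p := by
    intro p
    obtain ⟨c1, c2⟩ := CS_ew (D := D) (n := n) 0 n (sqFun p) w
    rw [hb, ← Submodule.Quotient.mk_smul, smul_eq_mul]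
    have e1 : (ew w' * (CQ p * ew w) : R D n) =
        if shW 0 n (sqFun p) w = w' then CQ p * ew w else 0 := by
      change ew w' * (CS 0 n (sqFun p) * ew w) = if _ then CS 0 n (sqFun p) * ew w else 0
      rw [c1, ← mul_assoc, (isRep_R D n).E_mul]
      by_cases h : shW 0 n (sqFun p) w = w'
      · rw [if_pos h.symm, if_pos h, h]
      · rw [if_neg (Ne.symm h), if_neg h, zero_mul]
    rw [e1]
    by_cases h : shW 0 n (sqFun p) w = w'
    · rw [if_pos h, if_pos h, gV_mk]
      have e2 : alpha D n lam (CQ p * ew w) =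
          ((lam ^ (sdeg 0 n (sqFun p) w) : ℂˣ) : ℂ) • (CQ p * ew w) := c2 lam
      rw [e2]
      rfl
    · rw [if_neg h, if_neg h, Submodule.Quotient.mk_zero, map_zero, zero_smul]
  change LinearMap.trace ℂ (VV w n) ((gV lam w n).toLinearMap ∘ₗ act (VV w n) (ew w')) = _
  rw [LinearMap.trace_eq_matrix_trace ℂ b, Matrix.trace]
  refine Finset.sum_congr rfl fun p _ => ?_
  rw [Matrix.diag_apply, LinearMap.toMatrix_apply]
  have e3 : ((gV lam w n).toLinearMap ∘ₗ act (VV w n) (ew w')) (b p) =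
      (gV lam w n) (ew w' • b p) := rfl
  rw [e3, hact, map_smul, Module.Basis.repr_self, Finsupp.smul_apply, Finsupp.single_eq_same,
    smul_eq_mul, mul_one]

end CA1492
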