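import Mathlib
import Pool.Agent.Lib.MP_ca1492_al.Mod.FObj
import Pool.Agent.Lib.MP_ca1492_al.QSh

/-!
The quiver of a finite set of letters `S : Finset (Λ × ℤ)`, words as lists, characters in the quantum
shuffle algebra.
-/

namespace CA1492

variable {Λ : Type} [DecidableEq Λ]

/-- The quiver with vertices S and arrows (l, i) → (l, i + 1). -/
def datS (S : Finset (Λ × ℤ)) : Dat where
  J := S
  arr x y := decide (y.1.1 = x.1.1 ∧ y.1.2 = x.1.2 + 1)
  irr i := by
    apply decide_eq_false
    rintro ⟨-, h⟩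
    omega
  asym i j h := by
    have h1 := of_decide_eq_true h
    apply decide_eq_false
    rintro ⟨-, h2⟩
    omega

variable {S : Finset (Λ × ℤ)} {n : ℕ}

/-- The underlying letter. -/
def ltr (x : (datS S).J) : Λ × ℤ := Subtype.val (p := fun y => y ∈ S) x

theorem ltr_injective : Function.Injective (ltr (S := S)) := Subtype.val_injective

theorem datS_arr (x y : (datS S).J) :
    (datS S).arr x y = true ↔ (ltr y).1 = (ltr x).1 ∧ (ltr y).2 = (ltr x).2 + 1 :=
  decide_eq_true_iff

theorem dg_datS (x y : (datS S).J) : dg (datS S) x y = PC.kp (ltr x) (ltr y) := by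
  unfold dg PC.kp
  by_cases h : x = y
  · subst h
    rw [if_pos rfl, if_pos rfl, if_pos rfl]
  · rw [if_neg h]
    have h1 : (((datS S).arr x y || (datS S).arr y x) = true) ↔
        ((ltr y).1 = (ltr x).1 ∧ ((ltr y).2 = (ltr x).2 + 1 ∨ (ltr y).2 = (ltr x).2 - 1)) := by
      rw [Bool.or_eq_true, datS_arr, datS_arr]
      constructor
      · rintro (⟨h1, h2⟩ | ⟨h1, h2⟩)
        · exact ⟨h1, Or.inl h2⟩
        · exact ⟨h1.symm, Or.inr (by omega)⟩
      · rintro ⟨h1, h2 | h2⟩
        · exact Or.inl ⟨h1, h2⟩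
        · exact Or.inr ⟨h1.symm, by omega⟩
    by_cases h2 : (ltr y).1 = (ltr x).1
    · have h3 : ¬ (ltr y).2 = (ltr x).2 := fun h3 =>
        h (ltr_injective (Prod.ext h2.symm h3.symm))
      rw [if_pos h2, if_neg h3]
      by_cases h4 : (ltr y).2 = (ltr x).2 + 1 ∨ (ltr y).2 = (ltr x).2 - 1
      · rw [if_pos h4, if_pos (h1.2 ⟨h2, h4⟩)]
      · rw [if_neg h4, if_neg (fun h5 => h4 (h1.1 h5).2)]
    · rw [if_neg h2, if_neg (fun h5 => h2 (h1.1 h5).1)]

/-- The word as a list. -/
def wl (w : Wd (datS S) n) : List (Λ × ℤ) := List.ofFn (fun j => ltr (w j))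

theorem wl_injective : Function.Injective (wl (S := S) (n := n)) := by
  intro w w' h
  have h1 := List.ofFn_injective h
  funext j
  exact ltr_injective (congrFun h1 j)

theorem wl_length (w : Wd (datS S) n) : (wl w).length = n := List.length_ofFn

/-- Lists with letters in S are words. -/
theorem exists_wl (l : List (Λ × ℤ)) (hl : l.length = n) (hS : ∀ x ∈ l, x ∈ S) :
    ∃ w : Wd (datS S) n, wl w = l := by
  subst hl
  refine ⟨fun j => ⟨l.get j, hS _ (List.get_mem l j)⟩, ?_⟩
  unfold wl ltr
  exact List.ofFn_get l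

variable {lam : ℂˣ}

/-- The character as an element of the quantum shuffle algebra. -/
noncomputable def chQ (M : FObj (datS S) n lam) : PC.QSh Λ ℂ lam :=
  ∑ w : Wd (datS S) n, ch M w • (PC.QSh.wd (wl w) : PC.QSh Λ ℂ lam)

theorem chQ_apply (M : FObj (datS S) n lam) (l : List (Λ × ℤ)) :
    chQ M l = ∑ w : Wd (datS S) n, if l = wl w then ch M w else 0 := by
  have h : ∀ s : Finset (Wd (datS S) n),
      (∑ w ∈ s, ch M w • (PC.QSh.wd (wl w) : PC.QSh Λ ℂ lam)) l =
        ∑ w ∈ s, if l = wl w then ch M w else 0 := by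
    intro s
    induction s using Finset.induction_on with
    | empty => rfl
    | insert a s ha ih =>
      rw [Finset.sum_insert ha, Finset.sum_insert ha, PC.QSh.add_apply, ih, PC.QSh.smul_apply,
        PC.QSh.wd_apply]
      congr 1
      split_ifs
      · rw [mul_one]
      · rw [mul_zero]
  exact h Finset.univ

theorem chQ_wl (M : FObj (datS S) n lam) (w : Wd (datS S) n) : chQ M (wl w) = ch M w := by
  rw [chQ_apply, Finset.sum_eq_single w]
  · rw [if_pos rfl]
  · intro w' _ h
    rw [if_neg (fun h' => h (wl_injective h'.symm))]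
  · intro h
    exact absurd (Finset.mem_univ _) h

/-- Lists that are not words. -/
theorem chQ_of_ne (M : FObj (datS S) n lam) (l : List (Λ × ℤ)) (hl : ∀ w : Wd (datS S) n, wl w ≠ l) :
    chQ M l = 0 := by
  rw [chQ_apply]
  exact Finset.sum_eq_zero fun w _ => if_neg (fun h => hl w h.symm)

end CA1492
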