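import Mathlib
import Pool.Agent.Lib.MP_ca1492_al.Alg.PBW

/-!
Nil Hecke computations, part a: vectors of constant word i^m killed by all y, and the elements CQ p.
`ρ` is a representation of `R D m` on a ℂ-vector space.
-/

namespace CA1492

variable {D : Dat} {m : ℕ}

/-- On the constant word squares vanish and the braid relation is exact.
PROOF: S_S and S_braid for the constant word (D.irr: no arrow from i to i). -/
theorem nh_sq (i : D.J) (r : ℕ) : (ps r * ps r * ew (fun _ : Fin m => i) : R D m) = 0 := by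
  by_cases h : r + 1 < m
  · have h1 := (isRep_R D m).S_S r h (fun _ : Fin m => i)
    rw [h1, if_pos rfl]
  · have h0 : (ps r : R D m) = 0 := (isRep_R D m).S_out r h
    rw [h0, mul_zero, zero_mul]

theorem nh_braid (i : D.J) (r : ℕ) :
    ((ps (r + 1) * ps r * ps (r + 1) - ps r * ps (r + 1) * ps r) * ew (fun _ : Fin m => i) :
      R D m) = 0 := by
  by_cases h : r + 2 < m
  · have h1 := (isRep_R D m).S_braid r h (fun _ : Fin m => i)
    rw [h1, if_pos rfl]
    simp [D.irr]
  · have h0 : (ps (r + 1) : R D m) = 0 := (isRep_R D m).S_out (r + 1) (by omega)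
    rw [h0, mul_zero, mul_zero, zero_mul, sub_zero, zero_mul]

theorem NHa_comm_ps (i : D.J) (r : ℕ) :
    Commute (ew (fun _ : Fin m => i) : R D m) (ps r) :=
  ((isRep_R D m).S_E r (fun _ : Fin m => i)).symm

theorem NHa_comm_Cc (i : D.J) (p q : ℕ) :
    Commute (ew (fun _ : Fin m => i) : R D m) (Cc p q) := by
  refine Commute.list_prod_right _ _ fun x hx => ?_
  obtain ⟨t, _, rfl⟩ := List.mem_map.1 hx
  exact NHa_comm_ps i t

theorem NHa_comm_CS (i : D.J) (a k : ℕ) (p : ℕ → ℕ) :
    Commute (ew (fun _ : Fin m => i) : R D m) (CS a k p) := by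
  induction k with
  | zero => exact Commute.one_right _
  | succ k ih => exact (NHa_comm_Cc i _ _).mul_right ih

/-- PROOF: as `ps_Cc_mid` (Alg/CL.lean) but exact: all ps commute with ew of the constant word
(S_E: (fun _ => i) ∘ sw = fun _ => i). -/
theorem nh_mid (i : D.J) {p q r : ℕ} (h1 : p < r) (h2 : r < q) :
    (ps r * Cc p q * ew (fun _ : Fin m => i) : R D m) = Cc p q * ps (r - 1) * ew (fun _ => i) := by
  obtain ⟨t, rfl⟩ : ∃ t, r = t + 1 := ⟨r - 1, by omega⟩
  rw [Nat.add_sub_cancel]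
  have e0 : (Cc p q : R D m) = Cc p t * (ps t * (ps (t + 1) * Cc (t + 2) q)) := by
    rw [Cc_facts.2.2.2 p t q (by omega) (by omega), Cc_facts.2.1 t q (by omega),
      Cc_facts.2.1 (t + 1) q (by omega)]
  have e1 : (ps (t + 1) * Cc p t : R D m) = Cc p t * ps (t + 1) :=
    ps_Cc_far (Or.inr (by omega))
  have e2 : (ps t * Cc (t + 2) q : R D m) = Cc (t + 2) q * ps t :=
    ps_Cc_far (Or.inl (by omega))
  have e3 : (ps (t + 1) * Cc p q - Cc p q * ps t : R D m) =
      Cc p t * (ps (t + 1) * ps t * ps (t + 1) - ps t * ps (t + 1) * ps t) * Cc (t + 2) q := by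
    rw [e0, ← mul_assoc (ps (t + 1)) (Cc p t) _, e1]
    rw [mul_sub, sub_mul]
    congr 1
    · simp only [mul_assoc]
    · simp only [mul_assoc]
      rw [e2]
  have e4 : ((ps (t + 1) * Cc p q - Cc p q * ps t) * ew (fun _ : Fin m => i) : R D m) = 0 := by
    rw [e3, mul_assoc, ← (NHa_comm_Cc (m := m) i (t + 2) q).eq, ← mul_assoc, mul_assoc (Cc p t),
      nh_braid, mul_zero, zero_mul]
  rw [sub_mul] at e4
  exact sub_eq_zero.1 e4

theorem NHa_slide (i : D.J) {p q c : ℕ} (hc : c ≤ q) : ∀ k r, r + k = c → p < r →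
    (Cc r c * Cc p q * ew (fun _ : Fin m => i) : R D m) =
      Cc p q * Cc (r - 1) (c - 1) * ew (fun _ => i) := by
  intro k
  induction k with
  | zero =>
    intro r h1 h2
    have h3 : r = c := by omega
    subst h3
    rw [Cc_facts.1 r r le_rfl, Cc_facts.1 (r - 1) (r - 1) le_rfl, one_mul, mul_one]
  | succ k ih =>
    intro r h1 h2
    have h3 := ih (r + 1) (by omega) (by omega)
    rw [Nat.add_sub_cancel] at h3
    have h4 := nh_mid (D := D) (m := m) (p := p) (q := q) (r := r) i h2 (by omega)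
    have e1 : (Cc r c : R D m) = ps r * Cc (r + 1) c := Cc_facts.2.1 r c (by omega)
    have e2 : (Cc (r - 1) (c - 1) : R D m) = ps (r - 1) * Cc r (c - 1) := by
      have := Cc_facts (D := D) (n := m) |>.2.1 (r - 1) (c - 1) (by omega)
      rwa [show r - 1 + 1 = r from by omega] at this
    have hcm := (NHa_comm_Cc (m := m) i r (c - 1)).eq
    calc (Cc r c * Cc p q * ew (fun _ : Fin m => i) : R D m)
        = ps r * (Cc (r + 1) c * Cc p q * ew (fun _ : Fin m => i)) := by
          rw [e1]; simp only [mul_assoc]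
      _ = ps r * (Cc p q * Cc r (c - 1) * ew (fun _ : Fin m => i)) := by rw [h3]
      _ = (ps r * Cc p q * ew (fun _ : Fin m => i)) * Cc r (c - 1) := by
          simp only [mul_assoc]; rw [hcm]
      _ = (Cc p q * ps (r - 1) * ew (fun _ : Fin m => i)) * Cc r (c - 1) := by rw [h4]
      _ = Cc p q * Cc (r - 1) (c - 1) * ew (fun _ => i) := by
          rw [e2]; simp only [mul_assoc]; rw [hcm]

/-- For p < c ≤ q, 0 ≤ p: Cc 0 c * Cc p q = 0 on the constant word.
PROOF: Cc 0 c = Cc 0 p * ps p * Cc (p+1) c. By `nh_mid` (for the factors ps r, p < r < c, from right to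
left; here c ≤ q so r < q) Cc (p+1) c * Cc p q = Cc p q * Cc p (c-1). Then ps p * Cc p q =
ps p * ps p * Cc (p+1) q = 0 (`nh_sq`; p < q). -/
theorem nh_kill (i : D.J) {p c q : ℕ} (h1 : p < c) (h2 : c ≤ q) :
    (Cc 0 c * Cc p q * ew (fun _ : Fin m => i) : R D m) = 0 := by
  have e1 : (Cc 0 c : R D m) = Cc 0 p * (ps p * Cc (p + 1) c) := by
    rw [Cc_facts.2.2.2 0 p c (Nat.zero_le _) h1.le, Cc_facts.2.1 p c h1]
  have e2 := NHa_slide (D := D) (m := m) (p := p) (q := q) i h2 (c - (p + 1)) (p + 1)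
    (by omega) (by omega)
  rw [Nat.add_sub_cancel] at e2
  have e3 : (Cc p q : R D m) = ps p * Cc (p + 1) q := Cc_facts.2.1 p q (by omega)
  have hc1 := (NHa_comm_Cc (m := m) i p (c - 1)).eq
  have hc2 := (NHa_comm_Cc (m := m) i (p + 1) q).eq
  calc (Cc 0 c * Cc p q * ew (fun _ : Fin m => i) : R D m)
      = Cc 0 p * (ps p * (Cc (p + 1) c * Cc p q * ew (fun _ : Fin m => i))) := by
        rw [e1]; simp only [mul_assoc]
    _ = Cc 0 p * (ps p * (Cc p q * Cc p (c - 1) * ew (fun _ : Fin m => i))) := by rw [e2]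
    _ = Cc 0 p * ((ps p * ps p * ew (fun _ : Fin m => i)) * (Cc (p + 1) q * Cc p (c - 1))) := by
        rw [e3]
        have h5 : (Cc (p + 1) q * Cc p (c - 1) * ew (fun _ : Fin m => i) : R D m) =
            ew (fun _ : Fin m => i) * (Cc (p + 1) q * Cc p (c - 1)) := by
          rw [mul_assoc, ← hc1, ← mul_assoc, ← hc2, mul_assoc]
        calc (Cc 0 p * (ps p * (ps p * Cc (p + 1) q * Cc p (c - 1) *
              ew (fun _ : Fin m => i))) : R D m)
            = Cc 0 p * (ps p * (ps p * (Cc (p + 1) q * Cc p (c - 1) *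
              ew (fun _ : Fin m => i)))) := by simp only [mul_assoc]
          _ = _ := by rw [h5]; simp only [mul_assoc]
    _ = 0 := by rw [nh_sq, zero_mul, mul_zero]

/-- The subalgebra generated by the ps r with r + 1 < s. -/
noncomputable def NHaA (D : Dat) (m s : ℕ) : Subalgebra ℂ (R D m) :=
  Algebra.adjoin ℂ {x | ∃ r : ℕ, r + 1 < s ∧ x = ps r}

theorem NHa_comm_A (i : D.J) {s : ℕ} {x : R D m} (hx : x ∈ NHaA D m s) :
    Commute (ew (fun _ : Fin m => i) : R D m) x := by
  induction hx using Algebra.adjoin_induction with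
  | mem x hx =>
    obtain ⟨r, _, rfl⟩ := hx
    exact NHa_comm_ps i r
  | algebraMap c => exact (Algebra.commutes c _).symm
  | add x y _ _ hx hy => exact hx.add_right hy
  | mul x y _ _ hx hy => exact hx.mul_right hy

theorem NHa_shift (i : D.J) {s : ℕ} {x : R D m} (hx : x ∈ NHaA D m s) :
    ∃ y ∈ NHaA D m (s + 1), (y * Cc 0 s * ew (fun _ : Fin m => i) : R D m) =
      Cc 0 s * x * ew (fun _ => i) := by
  induction hx using Algebra.adjoin_induction with
  | mem x hx =>
    obtain ⟨r, hr, rfl⟩ := hx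
    refine ⟨ps (r + 1), Algebra.subset_adjoin ⟨r + 1, by omega, rfl⟩, ?_⟩
    have h := nh_mid (D := D) (m := m) (p := 0) (q := s) (r := r + 1) i (by omega) (by omega)
    rwa [Nat.add_sub_cancel] at h
  | algebraMap c =>
    refine ⟨algebraMap ℂ _ c, Subalgebra.algebraMap_mem _ c, ?_⟩
    rw [Algebra.commutes c]
  | add x y _ _ hx hy =>
    obtain ⟨x', hx1, hx2⟩ := hx
    obtain ⟨y', hy1, hy2⟩ := hy
    refine ⟨x' + y', Subalgebra.add_mem _ hx1 hy1, ?_⟩
    rw [add_mul, add_mul, hx2, hy2, mul_add, add_mul]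
  | mul x y hx0 hy0 hx hy =>
    obtain ⟨x', hx1, hx2⟩ := hx
    obtain ⟨y', hy1, hy2⟩ := hy
    refine ⟨x' * y', Subalgebra.mul_mem _ hx1 hy1, ?_⟩
    have hcy := (NHa_comm_A (m := m) i (s := s) hy0).eq
    calc (x' * y' * Cc 0 s * ew (fun _ : Fin m => i) : R D m)
        = x' * (y' * Cc 0 s * ew (fun _ : Fin m => i)) := by simp only [mul_assoc]
      _ = x' * (Cc 0 s * y * ew (fun _ : Fin m => i)) := by rw [hy2]
      _ = (x' * Cc 0 s * ew (fun _ : Fin m => i)) * y := by
          simp only [mul_assoc]; rw [hcy]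
      _ = (Cc 0 s * x * ew (fun _ : Fin m => i)) * y := by rw [hx2]
      _ = Cc 0 s * (x * y) * ew (fun _ => i) := by
          simp only [mul_assoc]; rw [hcy]

theorem NHa_Cc_mem {s c : ℕ} (hc : c ≤ s) : (Cc 0 c : R D m) ∈ NHaA D m (s + 1) := by
  rw [Cc]
  refine Subalgebra.list_prod_mem _ fun x hx => ?_
  obtain ⟨t, ht, rfl⟩ := List.mem_map.1 hx
  rw [List.mem_range'_1] at ht
  exact Algebra.subset_adjoin ⟨t, by omega, rfl⟩

theorem NHa_CS_snoc {s : ℕ} (p : Sq s) (c : Fin (s + 1)) :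
    (CS 0 (s + 1) (sqFun (Fin.snoc (α := fun j : Fin (s + 1) => Fin (j.val + 1)) p c : Sq (s + 1))) :
      R D m) = Cc c.val s * CS 0 s (sqFun p) := by
  have h1 : sqFun (Fin.snoc (α := fun j : Fin (s + 1) => Fin (j.val + 1)) p c : Sq (s + 1)) s =
      c.val := by
    unfold sqFun
    rw [dif_pos (Nat.lt_succ_self s)]
    have : (⟨s, Nat.lt_succ_self s⟩ : Fin (s + 1)) = Fin.last s := rfl
    rw [this, Fin.snoc_last]
  have h2 : (CS 0 s (sqFun (Fin.snoc (α := fun j : Fin (s + 1) => Fin (j.val + 1)) p c :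
      Sq (s + 1))) : R D m) = CS 0 s (sqFun p) :=
    (CS_congr (D := D) (n := m) (m := 0) (k := s) (fun j hj => by
      unfold sqFun
      rw [dif_pos (Nat.lt_succ_of_lt hj), dif_pos hj]
      have : (⟨j, Nat.lt_succ_of_lt hj⟩ : Fin (s + 1)) = Fin.castSucc ⟨j, hj⟩ := rfl
      rw [this, Fin.snoc_castSucc])).1
  change Cc _ (0 + s) * CS 0 s _ = _
  rw [h1, h2, Nat.zero_add]

theorem NHa_extract (i : D.J) {X : Type} [AddCommGroup X] [Module ℂ X]
    (ρ : R D m →ₐ[ℂ] Module.End ℂ X) : ∀ (s : ℕ) (v : Sq s → X),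
    (∀ p, ρ (ew (fun _ => i)) (v p) = v p) → (∃ p, v p ≠ 0) →
    ∃ x ∈ NHaA D m s, ∃ p0 : Sq s, v p0 ≠ 0 ∧
      ρ x (∑ p, ρ (CS 0 s (sqFun p)) (v p)) = ρ (CS 0 s (fun _ => 0)) (v p0) := by
  intro s
  induction s with
  | zero =>
    intro v he hne
    obtain ⟨p, hp⟩ := hne
    refine ⟨1, Subalgebra.one_mem _, p, hp, ?_⟩
    rw [Fintype.sum_subsingleton _ p, map_one]
    rfl
  | succ s ih =>
    intro v he hne
    classical
    obtain ⟨q0, hq0⟩ := hne
    obtain ⟨p1, hp1, hmax⟩ := Finset.exists_max_image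
      (Finset.univ.filter (fun p : Sq (s + 1) => v p ≠ 0)) (fun p => (p (Fin.last s)).val)
      ⟨q0, by simpa using hq0⟩
    have hp1' : v p1 ≠ 0 := by simpa using hp1
    set c : Fin (s + 1) := p1 (Fin.last s) with hc
    set v' : Sq s → X := fun p =>
      v (Fin.snoc (α := fun j : Fin (s + 1) => Fin (j.val + 1)) p c) with hv'
    have he' : ∀ p, ρ (ew (fun _ => i)) (v' p) = v' p := fun p => he _
    have hne' : ∃ p, v' p ≠ 0 := by
      refine ⟨fun j => p1 j.castSucc, ?_⟩
      have h0 : (Fin.snoc (α := fun j : Fin (s + 1) => Fin (j.val + 1))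
          (fun j => p1 j.castSucc) c : Sq (s + 1)) = p1 :=
        Fin.snoc_init_self (α := fun j : Fin (s + 1) => Fin (j.val + 1)) p1
      rw [hv']
      change v (Fin.snoc (α := fun j : Fin (s + 1) => Fin (j.val + 1))
        (fun j => p1 j.castSucc) c) ≠ 0
      rw [h0]
      exact hp1'
    obtain ⟨x', hx', p0', hp0', hxe⟩ := ih v' he' hne'
    obtain ⟨y, hy, hyx⟩ := NHa_shift (m := m) i hx'
    refine ⟨y * Cc 0 c.val, Subalgebra.mul_mem _ hy (NHa_Cc_mem (by omega)),
      Fin.snoc (α := fun j : Fin (s + 1) => Fin (j.val + 1)) p0' c, hp0', ?_⟩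
    -- the sum after multiplication by Cc 0 c
    have hsum : ρ (Cc 0 c.val) (∑ p : Sq (s + 1), ρ (CS 0 (s + 1) (sqFun p)) (v p)) =
        ρ (Cc 0 s) (∑ p, ρ (CS 0 s (sqFun p)) (v' p)) := by
      have e1 : (∑ p : Sq (s + 1), ρ (CS 0 (s + 1) (sqFun p)) (v p)) =
          ∑ a : Fin (s + 1), ∑ p : Sq s, ρ (Cc a.val s * CS 0 s (sqFun p))
            (v (Fin.snoc (α := fun j : Fin (s + 1) => Fin (j.val + 1)) p a)) := by
        rw [← Fintype.sum_prod_type' (fun (a : Fin (s + 1)) (p : Sq s) =>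
          ρ (Cc a.val s * CS 0 s (sqFun p))
            (v (Fin.snoc (α := fun j : Fin (s + 1) => Fin (j.val + 1)) p a)))]
        symm
        refine Fintype.sum_equiv (Fin.snocEquiv (fun j : Fin (s + 1) => Fin (j.val + 1))) _ _ ?_
        rintro ⟨a, p⟩
        have h := NHa_CS_snoc (D := D) (m := m) p a
        change ρ (Cc a.val s * CS 0 s (sqFun p)) _ = ρ (CS 0 (s + 1) (sqFun
          (Fin.snoc (α := fun j : Fin (s + 1) => Fin (j.val + 1)) p a : Sq (s + 1)))) _
        rw [h]
        rfl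
      rw [e1, map_sum, Finset.sum_eq_single c]
      · rw [map_sum, map_sum]
        refine Finset.sum_congr rfl fun p _ => ?_
        rw [← Module.End.mul_apply, ← map_mul, ← mul_assoc,
          ← Cc_facts.2.2.2 0 c.val s (Nat.zero_le _) (by omega), map_mul, Module.End.mul_apply]
      · intro a _ hac
        rw [map_sum]
        refine Finset.sum_eq_zero fun p _ => ?_
        by_cases hva : v (Fin.snoc (α := fun j : Fin (s + 1) => Fin (j.val + 1)) p a) = 0
        · rw [hva, map_zero, map_zero]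
        · have h5 := hmax _ (by simpa using hva)
          have h6 : (Fin.snoc (α := fun j : Fin (s + 1) => Fin (j.val + 1)) p a :
              Sq (s + 1)) (Fin.last s) = a := Fin.snoc_last _ _
          have h7 : a.val ≤ c.val := by
            have h8 : ((Fin.snoc (α := fun j : Fin (s + 1) => Fin (j.val + 1)) p a :
              Sq (s + 1)) (Fin.last s)).val ≤ (p1 (Fin.last s)).val := h5
            rw [h6] at h8
            exact h8
          have h9 : a.val < c.val := lt_of_le_of_ne h7 (fun h => hac (Fin.ext h))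
          have h10 := nh_kill (D := D) (m := m) i h9 (show c.val ≤ s by omega)
          rw [← Module.End.mul_apply, ← map_mul, ← he, ← Module.End.mul_apply, ← map_mul]
          have h11 : (Cc 0 c.val * (Cc a.val s * CS 0 s (sqFun p)) * ew (fun _ : Fin m => i) :
              R D m) = 0 := by
            calc (Cc 0 c.val * (Cc a.val s * CS 0 s (sqFun p)) * ew (fun _ : Fin m => i) : R D m)
                = (Cc 0 c.val * Cc a.val s) * (CS 0 s (sqFun p) * ew (fun _ : Fin m => i)) := by
                  simp only [mul_assoc]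
              _ = (Cc 0 c.val * Cc a.val s) * (ew (fun _ : Fin m => i) * CS 0 s (sqFun p)) := by
                  rw [(NHa_comm_CS (m := m) i 0 s (sqFun p)).eq]
              _ = (Cc 0 c.val * Cc a.val s * ew (fun _ : Fin m => i)) * CS 0 s (sqFun p) := by
                  simp only [mul_assoc]
              _ = 0 := by rw [h10, zero_mul]
          rw [h11, map_zero, LinearMap.zero_apply]
      · intro h
        exact absurd (Finset.mem_univ _) h
    have hS : ρ (ew (fun _ => i)) (∑ p, ρ (CS 0 s (sqFun p)) (v' p)) =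
        ∑ p, ρ (CS 0 s (sqFun p)) (v' p) := by
      rw [map_sum]
      refine Finset.sum_congr rfl fun p _ => ?_
      rw [← Module.End.mul_apply, ← map_mul, (NHa_comm_CS (m := m) i 0 s (sqFun p)).eq, map_mul,
        Module.End.mul_apply, he']
    rw [map_mul, Module.End.mul_apply, hsum, ← hS, ← Module.End.mul_apply, ← map_mul,
      ← Module.End.mul_apply, ← map_mul, hyx, mul_assoc, map_mul,
      Module.End.mul_apply, map_mul, Module.End.mul_apply, hS, hxe, ← Module.End.mul_apply,
      ← map_mul]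
    change ρ (Cc 0 s * CS 0 s (fun _ => 0)) (v' p0') = ρ (Cc 0 (0 + s) * CS 0 s (fun _ => 0)) _
    rw [Nat.zero_add]

/-- EXTRACTION. Let v : Sq m → X be vectors of constant word i^m, not all 0. Then some x ∈ R D m sends
∑ CQ p • v p to CS 0 m 0 • v p0 with v p0 ≠ 0 (CS 0 m (fun _ => 0) = Cc 0 (m-1) * ... * Cc 0 1 * Cc 0 0
is the longest element).
PROOF. For s ≤ m prove by induction on s: for every finite family of vectors v p (of word i^m), indexed
by the sequences p with p j ≤ j for j < s (say p : Sq s), not all 0, there are x in the subalgebra A_s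
generated by the ps r with r + 1 < s and p0 with v p0 ≠ 0 and x • ∑ CS 0 s p • v p = CS 0 s 0 • v p0.
s = 0: clear. Step: CS 0 (s+1) (p', c) = Cc c s * CS 0 s p', c ≤ s. Let c be the LARGEST value with some
v (p', c) ≠ 0. Multiply by Cc 0 c: the terms with c' < c vanish by `nh_kill` (q = s), the terms with
c' = c give Cc 0 s * CS 0 s p'. So we get Cc 0 s • (∑_{p'} CS 0 s p' • v (p', c)). Take x', p0' from the
induction hypothesis. If x' is a polynomial in the ps r (r + 1 < s) let x'' be the same polynomial in the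
ps (r+1); by `nh_mid` ps (r+1) * Cc 0 s = Cc 0 s * ps r on the constant word (0 < r + 1 < s), hence
x'' * Cc 0 s * ew = Cc 0 s * x' * ew (induction over the subalgebra: the set of x' for which such an x''
in A_{s+1} exists is a subalgebra). Take x = x'' * Cc 0 c. -/
theorem nh_extract (i : D.J) {X : Type} [AddCommGroup X] [Module ℂ X]
    (ρ : R D m →ₐ[ℂ] Module.End ℂ X) (v : Sq m → X)
    (he : ∀ p, ρ (ew (fun _ => i)) (v p) = v p) (hne : ∃ p, v p ≠ 0) :
    ∃ (x : R D m) (p0 : Sq m), v p0 ≠ 0 ∧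
      ρ x (∑ p, ρ (CQ p) (v p)) = ρ (CS 0 m (fun _ => 0)) (v p0) := by
  obtain ⟨x, _, p0, h1, h2⟩ := NHa_extract i ρ m v he hne
  exact ⟨x, p0, h1, h2⟩

end CA1492
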