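import Mathlib
import Pool.Agent.Lib.MP_ca1492_al.Mod.NHa

/-!
Nil Hecke computations, part b: the longest element does not kill a vector of word i^m killed by all y.
-/

namespace CA1492

open MvPolynomial

variable {D : Dat} {m : ℕ}

/-- The longest element of the first s letters. -/
noncomputable def Wl (D : Dat) (m s : ℕ) : R D m := CS 0 s (fun _ => 0)

/-- Complete homogeneous polynomials of the elements of a list. -/
def NHb_hh {A : Type} [CommRing A] : List A → ℕ → A
  | [] => fun a => if a = 0 then 1 else 0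
  | x :: l => fun a => Nat.rec 1 (fun b ih => x * ih + NHb_hh l (b + 1)) a

theorem NHb_hh_zero {A : Type} [CommRing A] (l : List A) : NHb_hh l 0 = 1 := by
  cases l with
  | nil => simp [NHb_hh]
  | cons x l => rfl

theorem NHb_hh_succ {A : Type} [CommRing A] (x : A) (l : List A) (a : ℕ) :
    NHb_hh (x :: l) (a + 1) = x * NHb_hh (x :: l) a + NHb_hh l (a + 1) := rfl

theorem NHb_hh_map {A B : Type} [CommRing A] [CommRing B] (f : A →+* B) (l : List A) (a : ℕ) :
    f (NHb_hh l a) = NHb_hh (l.map f) a := by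
  induction l generalizing a with
  | nil =>
    simp only [NHb_hh, List.map_nil]
    split_ifs <;> simp
  | cons x l ih =>
    induction a with
    | zero => rw [NHb_hh_zero, NHb_hh_zero, map_one]
    | succ a iha =>
      rw [NHb_hh_succ, map_add, map_mul, iha, ih, List.map_cons, NHb_hh_succ]

theorem NHb_hh_sub {A : Type} [CommRing A] (x y : A) (l : List A) (a : ℕ) :
    (y - x) * NHb_hh (x :: y :: l) a = NHb_hh (y :: l) (a + 1) - NHb_hh (x :: l) (a + 1) := by
  induction a with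
  | zero => rw [NHb_hh_succ, NHb_hh_succ, NHb_hh_zero, NHb_hh_zero, NHb_hh_zero]; ring
  | succ a ih =>
    rw [NHb_hh_succ x (y :: l) a, NHb_hh_succ y l (a + 1), NHb_hh_succ x l (a + 1), mul_add]
    linear_combination x * ih

theorem NHb_hh_swap {A : Type} [CommRing A] (x y : A) (l : List A) (a : ℕ) :
    NHb_hh (x :: y :: l) a = NHb_hh (y :: x :: l) a := by
  induction a with
  | zero => rw [NHb_hh_zero, NHb_hh_zero]
  | succ a ih =>
    rw [NHb_hh_succ x (y :: l) a, NHb_hh_succ y (x :: l) a, ← ih]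
    linear_combination - NHb_hh_sub x y l a

theorem NHb_hh_perm {A : Type} [CommRing A] {l l' : List A} (h : l.Perm l') :
    ∀ a, NHb_hh l a = NHb_hh l' a := by
  induction h with
  | nil => intro a; rfl
  | cons x _ ih =>
    intro a
    induction a with
    | zero => rw [NHb_hh_zero, NHb_hh_zero]
    | succ a iha => rw [NHb_hh_succ, NHb_hh_succ, iha, ih]
  | swap x y l => intro a; exact NHb_hh_swap y x l a
  | trans _ _ ih1 ih2 => intro a; rw [ih1, ih2]

theorem NHb_hh_single {A : Type} [CommRing A] (x : A) (a : ℕ) : NHb_hh [x] a = x ^ a := by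
  induction a with
  | zero => rw [NHb_hh_zero, pow_zero]
  | succ a ih =>
    rw [NHb_hh_succ, ih]
    simp only [NHb_hh]
    rw [if_neg (Nat.succ_ne_zero a), add_zero, pow_succ]
    ring

theorem NHb_hh_zeros {A : Type} [CommRing A] (l : List A) (h : ∀ x ∈ l, x = 0) (a : ℕ) :
    NHb_hh l (a + 1) = 0 := by
  induction l with
  | nil => simp [NHb_hh]
  | cons x l ih =>
    rw [NHb_hh_succ, h x (List.mem_cons_self), ih (fun y hy => h y (List.mem_cons_of_mem _ hy))]
    ring

/-- The variable with a natural number as index. -/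
noncomputable def NHb_X (m : ℕ) (k : ℕ) : MvPolynomial (Fin m) ℂ := if h : k < m then X ⟨k, h⟩ else 0

/-- The list of the variables j, ..., s-1. -/
noncomputable def NHb_L (m s j : ℕ) : List (MvPolynomial (Fin m) ℂ) :=
  (List.range' j (s - j)).map (NHb_X m)

theorem NHb_L_cons {m s j : ℕ} (h : j < s) :
    NHb_L m s j = NHb_X m j :: NHb_L m s (j + 1) := by
  unfold NHb_L
  obtain ⟨d, hd⟩ : ∃ d, s - j = d + 1 := ⟨s - j - 1, by omega⟩
  rw [hd, List.range'_succ, List.map_cons, show s - (j + 1) = d by omega]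

theorem NHb_L_end (m s : ℕ) (hs : 1 ≤ s) : NHb_L m s (s - 1) = [NHb_X m (s - 1)] := by
  rw [NHb_L_cons (by omega)]
  congr 1
  unfold NHb_L
  rw [show s - (s - 1 + 1) = 0 by omega]
  rfl

theorem NHb_rename_X (m r k : ℕ) (hr : r + 1 < m) :
    rename (sw m r) (NHb_X m k) = NHb_X m (if k = r then r + 1 else if k = r + 1 then r else k) := by
  have hsw : sw m r = Equiv.swap ⟨r, by omega⟩ ⟨r + 1, hr⟩ := by
    unfold sw
    rw [dif_pos hr]
  by_cases h1 : k = r
  · rw [if_pos h1]
    subst h1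
    unfold NHb_X
    rw [dif_pos (by omega), dif_pos hr, rename_X, hsw, Equiv.swap_apply_left]
  · rw [if_neg h1]
    by_cases h2 : k = r + 1
    · rw [if_pos h2]
      subst h2
      unfold NHb_X
      rw [dif_pos hr, dif_pos (by omega), rename_X, hsw, Equiv.swap_apply_right]
    · rw [if_neg h2]
      unfold NHb_X
      by_cases hk : k < m
      · rw [dif_pos hk, rename_X, hsw, Equiv.swap_apply_of_ne_of_ne]
        · intro h; exact h1 (congrArg Fin.val h)
        · intro h; exact h2 (congrArg Fin.val h)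
      · rw [dif_neg hk, map_zero]

/-- Lists of variables outside {r, r+1} are not changed. -/
theorem NHb_map_fix (m r a b : ℕ) (hr : r + 1 < m) (h : ∀ k ∈ List.range' a b, k ≠ r ∧ k ≠ r + 1) :
    ((List.range' a b).map (NHb_X m)).map (rename (sw m r)) = (List.range' a b).map (NHb_X m) := by
  rw [List.map_map]
  apply List.map_congr_left
  intro k hk
  change rename (sw m r) (NHb_X m k) = NHb_X m k
  rw [NHb_rename_X m r k hr, if_neg (h k hk).1, if_neg (h k hk).2]

theorem NHb_perm {m s r : ℕ} (hr : r + 1 < s) (hsm : s ≤ m) :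
    ((NHb_L m s 0).map (rename (sw m r))).Perm (NHb_L m s 0) := by
  have hm : r + 1 < m := by omega
  have h1 : NHb_L m s 0 = (List.range' 0 r).map (NHb_X m) ++
      (NHb_X m r :: NHb_X m (r + 1) :: NHb_L m s (r + 2)) := by
    have h2 : List.range' 0 (s - 0) = List.range' 0 r ++ List.range' r (s - r) := by
      have := List.range'_append (s := 0) (m := r) (n := s - r) (step := 1)
      rw [Nat.zero_add, Nat.one_mul] at this
      rw [this]
      congr 1
      omega
    have h3 : List.map (NHb_X m) (List.range' r (s - r)) =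
        NHb_X m r :: NHb_X m (r + 1) :: NHb_L m s (r + 2) := by
      change NHb_L m s r = _
      rw [NHb_L_cons (by omega), NHb_L_cons (by omega)]
    unfold NHb_L at h3 ⊢
    rw [h2, List.map_append, h3]
  rw [h1, List.map_append, List.map_cons, List.map_cons]
  have h4 : List.map (rename (sw m r)) (List.map (NHb_X m) (List.range' 0 r)) =
      List.map (NHb_X m) (List.range' 0 r) := by
    apply NHb_map_fix m r 0 r hm
    intro k hk
    rw [List.mem_range'_1] at hk
    omega
  have h5 : List.map (rename (sw m r)) (NHb_L m s (r + 2)) = NHb_L m s (r + 2) := by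
    apply NHb_map_fix m r _ _ hm
    intro k hk
    rw [List.mem_range'_1] at hk
    omega
  rw [h4, h5, NHb_rename_X m r r hm, NHb_rename_X m r (r + 1) hm, if_pos rfl,
    if_neg (by omega : ¬ (r + 1 = r)), if_pos rfl]
  apply List.Perm.append_left
  exact List.Perm.swap _ _ _

theorem NHb_sym {m s r : ℕ} (hr : r + 1 < s) (hsm : s ≤ m) (a : ℕ) :
    rename (sw m r) (NHb_hh (NHb_L m s 0) a) = NHb_hh (NHb_L m s 0) a := by
  have h1 := NHb_hh_map (rename (sw m r) : MvPolynomial (Fin m) ℂ →ₐ[ℂ] _).toRingHom (NHb_L m s 0) a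
  have h2 : (rename (sw m r)) (NHb_hh (NHb_L m s 0) a) =
      NHb_hh ((NHb_L m s 0).map (rename (sw m r))) a := h1
  rw [h2]
  exact NHb_hh_perm (NHb_perm hr hsm) a

theorem NHb_XX {m r : ℕ} (hr : r + 1 < m) :
    (X ⟨r, by omega⟩ - X ⟨r + 1, hr⟩ : MvPolynomial (Fin m) ℂ) ≠ 0 := by
  intro h
  have h1 := X_injective (R := ℂ) (sub_eq_zero.1 h)
  have h2 := congrArg Fin.val h1
  simp only at h2
  omega

section rep

variable (i : D.J) {Z : Type} [AddCommGroup Z] [Module ℂ Z] (ρ : R D m →ₐ[ℂ] Module.End ℂ Z)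

/-- Constant idempotent. -/
noncomputable abbrev NHb_e (D : Dat) (m : ℕ) (i : D.J) : R D m := ew (fun _ => i)

theorem NHb_ps_e (r : ℕ) : (ps r * NHb_e D m i : R D m) = NHb_e D m i * ps r :=
  (isRep_R D m).S_E r (fun _ => i)

/-- Elements commuting with the constant idempotent. -/
theorem NHb_Cc_e (p q : ℕ) : (Cc p q * NHb_e D m i : R D m) = NHb_e D m i * Cc p q := by
  unfold Cc
  induction (List.range' p (q - p)) with
  | nil => simp
  | cons a l ih => rw [List.map_cons, List.prod_cons, mul_assoc, ih, ← mul_assoc, NHb_ps_e, mul_assoc]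

theorem NHb_CS_e (a k : ℕ) (p : ℕ → ℕ) : (CS a k p * NHb_e D m i : R D m) = NHb_e D m i * CS a k p := by
  induction k with
  | zero => change (1 : R D m) * _ = _ * 1; rw [one_mul, mul_one]
  | succ k ih =>
    change (Cc (p k) (a + k) * CS a k p) * _ = _ * (Cc (p k) (a + k) * CS a k p)
    rw [mul_assoc, ih, ← mul_assoc, NHb_Cc_e, mul_assoc]

theorem NHb_ps_u {u : Z} (hu : ρ (NHb_e D m i) u = u) (r : ℕ) :
    ρ (NHb_e D m i) (ρ (ps r) u) = ρ (ps r) u := by
  rw [← Module.End.mul_apply, ← map_mul, ← NHb_ps_e, map_mul, Module.End.mul_apply, hu]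

theorem NHb_pol_u {u : Z} (hu : ρ (NHb_e D m i) u = u) (f : MvPolynomial (Fin m) ℂ) :
    ρ (NHb_e D m i) (ρ (pol f) u) = ρ (pol f) u := by
  rw [← Module.End.mul_apply, ← map_mul, ← pol_ew, map_mul, Module.End.mul_apply, hu]

/-- The nil Hecke commutation on vectors. -/
theorem NHb_comm {u : Z} (hu : ρ (NHb_e D m i) u = u) {r : ℕ} (hr : r + 1 < m)
    (f g : MvPolynomial (Fin m) ℂ)
    (hg : (X ⟨r, by omega⟩ - X ⟨r + 1, hr⟩) * g = f - rename (sw m r) f) :
    ρ (ps r) (ρ (pol f) u) = ρ (pol (rename (sw m r) f)) (ρ (ps r) u) + ρ (pol g) u := by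
  obtain ⟨f', h1, h2⟩ := ps_pol (D := D) r hr f
  have h3 : f' = g := mul_left_cancel₀ (NHb_XX hr) (h1.trans hg.symm)
  have h4 := h2 (fun _ => i)
  rw [if_pos rfl, h3] at h4
  have h5 := congrArg (fun x => ρ x u) h4
  simp only [map_mul, map_add, Module.End.mul_apply, LinearMap.add_apply] at h5
  rw [hu] at h5
  exact h5

theorem NHb_comm_sym {u : Z} (hu : ρ (NHb_e D m i) u = u) {r : ℕ} (hr : r + 1 < m)
    (f : MvPolynomial (Fin m) ℂ) (hf : rename (sw m r) f = f) :
    ρ (ps r) (ρ (pol f) u) = ρ (pol f) (ρ (ps r) u) := by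
  have h1 := NHb_comm i ρ hu hr f 0 (by rw [hf, sub_self, mul_zero])
  rw [h1, hf, map_zero, map_zero, LinearMap.zero_apply, add_zero]

theorem NHb_comm_Cc {s : ℕ} (hsm : s ≤ m) (f : MvPolynomial (Fin m) ℂ)
    (hf : ∀ r, r + 1 < s → rename (sw m r) f = f) (p q : ℕ) (hq : q < s) (u : Z)
    (hu : ρ (NHb_e D m i) u = u) :
    ρ (NHb_e D m i) (ρ (Cc p q) u) = ρ (Cc p q) u ∧
      ρ (Cc p q) (ρ (pol f) u) = ρ (pol f) (ρ (Cc p q) u) := by
  have key : ∀ l : List ℕ, (∀ r ∈ l, r + 1 < s) →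
      ρ (NHb_e D m i) (ρ ((l.map (fun r => (ps r : R D m))).prod) u) =
        ρ ((l.map (fun r => (ps r : R D m))).prod) u ∧
      ρ ((l.map (fun r => (ps r : R D m))).prod) (ρ (pol f) u) =
        ρ (pol f) (ρ ((l.map (fun r => (ps r : R D m))).prod) u) := by
    intro l
    induction l with
    | nil => intro _; simp [hu]
    | cons a l ih =>
      intro h
      obtain ⟨h1, h2⟩ := ih (fun r hr => h r (List.mem_cons_of_mem _ hr))
      have ha := h a (List.mem_cons_self)
      rw [List.map_cons, List.prod_cons, map_mul, Module.End.mul_apply, Module.End.mul_apply]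
      refine ⟨NHb_ps_u i ρ h1 a, ?_⟩
      rw [h2, NHb_comm_sym i ρ h1 (by omega) f (hf a ha)]
  unfold Cc
  apply key
  intro r hr
  rw [List.mem_range'_1] at hr
  omega

theorem NHb_comm_CS {s : ℕ} (hsm : s ≤ m) (f : MvPolynomial (Fin m) ℂ)
    (hf : ∀ r, r + 1 < s → rename (sw m r) f = f) (k : ℕ) (hk : k ≤ s) (p : ℕ → ℕ) (u : Z)
    (hu : ρ (NHb_e D m i) u = u) :
    ρ (NHb_e D m i) (ρ (CS 0 k p) u) = ρ (CS 0 k p) u ∧
      ρ (CS 0 k p) (ρ (pol f) u) = ρ (pol f) (ρ (CS 0 k p) u) := by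
  induction k with
  | zero =>
    have h1 : (CS 0 0 p : R D m) = 1 := rfl
    rw [h1, map_one]
    exact ⟨hu, rfl⟩
  | succ k ih =>
    obtain ⟨h1, h2⟩ := ih (by omega)
    have h3 : (CS 0 (k + 1) p : R D m) = Cc (p k) (0 + k) * CS 0 k p := rfl
    obtain ⟨h4, h5⟩ := NHb_comm_Cc i ρ hsm f hf (p k) (0 + k) (by omega) _ h1
    rw [h3, map_mul, Module.End.mul_apply, Module.End.mul_apply]
    exact ⟨h4, by rw [h2, h5]⟩

theorem NHb_const {v : Z} (hy : ∀ k, ρ (yk k) v = 0) (f : MvPolynomial (Fin m) ℂ) :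
    ρ (pol f) v = (constantCoeff f) • v := by
  induction f using MvPolynomial.induction_on with
  | C a =>
    rw [← MvPolynomial.algebraMap_eq, AlgHom.commutes, AlgHom.commutes, Module.algebraMap_end_apply,
      MvPolynomial.algebraMap_eq, constantCoeff_C]
  | add p q hp hq => rw [map_add, map_add, LinearMap.add_apply, hp, hq, map_add, add_smul]
  | mul_X p k hp =>
    rw [map_mul, pol_X, map_mul, Module.End.mul_apply, hy, map_zero, map_mul, constantCoeff_X,
      mul_zero, zero_smul]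

theorem NHb_Cc_succ {p q : ℕ} (h : p < q) : (Cc p q : R D m) = ps p * Cc (p + 1) q := by
  unfold Cc
  obtain ⟨d, hd⟩ : ∃ d, q - p = d + 1 := ⟨q - p - 1, by omega⟩
  rw [hd, List.range'_succ, List.map_cons, List.prod_cons, show q - (p + 1) = d by omega]

theorem NHb_Cc_last {p q : ℕ} (h : p ≤ q) : (Cc p (q + 1) : R D m) = Cc p q * ps q := by
  unfold Cc
  rw [show q + 1 - p = (q - p) + 1 by omega, List.range'_concat, List.map_append, List.prod_append]
  simp only [List.map_cons, List.map_nil, List.prod_cons, List.prod_nil, mul_one, Nat.one_mul]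
  rw [show p + (q - p) = q by omega]

end rep

/-- ps r * Wl s = 0 on the constant word for r + 1 < s.
PROOF: induction on s: Wl (s+1) = Cc 0 s * Wl s; for r = 0: ps 0 * Cc 0 s = ps 0 * ps 0 * ... = 0 (s ≥ 1);
for 0 < r < s: ps r * Cc 0 s = Cc 0 s * ps (r-1) (`nh_mid`), induction. -/
theorem nh_ps_Wl (i : D.J) {s r : ℕ} (h : r + 1 < s) :
    (ps r * Wl D m s * ew (fun _ => i) : R D m) = 0 := by
  induction s generalizing r with
  | zero => omega
  | succ s ih =>
    have h1 : (Wl D m (s + 1) : R D m) = Cc 0 s * Wl D m s := by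
      change Cc 0 (0 + s) * CS 0 s (fun _ => 0) = _
      rw [Nat.zero_add]
      rfl
    have h2 : (Wl D m s * NHb_e D m i : R D m) = NHb_e D m i * Wl D m s := NHb_CS_e i 0 s _
    change (ps r * Wl D m (s + 1) * NHb_e D m i : R D m) = 0
    rw [h1]
    by_cases hr : r = 0
    · subst hr
      rw [NHb_Cc_succ (by omega : 0 < s)]
      have h3 : (ps 0 * (ps 0 * Cc (0 + 1) s * Wl D m s) * NHb_e D m i : R D m) =
          (ps 0 * ps 0 * NHb_e D m i) * (Cc (0 + 1) s * Wl D m s) := by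
        simp only [mul_assoc]
        rw [h2, ← mul_assoc (Cc (0 + 1) s) (NHb_e D m i), NHb_Cc_e, mul_assoc]
      rw [h3]
      change (ps 0 * ps 0 * ew (fun _ => i)) * _ = _
      rw [nh_sq, zero_mul]
    · have h3 : (ps r * (Cc 0 s * Wl D m s) * NHb_e D m i : R D m) =
          (ps r * Cc 0 s * ew (fun _ => i)) * Wl D m s := by
        simp only [mul_assoc]
        rw [h2]
      rw [h3, nh_mid i (by omega) (by omega)]
      have h4 : (Cc 0 s * ps (r - 1) * ew (fun _ => i) * Wl D m s : R D m) =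
          Cc 0 s * (ps (r - 1) * Wl D m s * ew (fun _ => i)) := by
        simp only [mul_assoc]
        change _ = Cc 0 s * (ps (r - 1) * (Wl D m s * NHb_e D m i))
        rw [h2]
      rw [h4, ih (by omega), mul_zero]

/-- If ps r u = 0 for all r + 1 < s (s ≤ m) and u has word i^m then
Cc 0 (s-1) • y_{s-1}^{s-1} u = (-1)^{s-1} u.
PROOF. For such u and a symmetric situation: let h_a(j) be the complete homogeneous polynomial of degree a
in y_j, ..., y_{s-1}. Claim: ps j (h_a(j+1) u) = - h_{a-1}(j) u for j + 1 < s, because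
ps j * pol f = pol (s f) * ps j + pol f' with (X_j - X_{j+1}) f' = f - s f (`ps_pol`) and
h_a(y_{j+1}, ..) - h_a(y_j, y_{j+2}, ..) = - (y_j - y_{j+1}) h_{a-1}(y_j, y_{j+1}, ...). Apply it for
j = s-2, ..., 0 starting with y_{s-1}^{s-1} = h_{s-1}(s-1): after s - 1 steps one gets (-1)^{s-1} h_0 u.
(In Lean h_a may be defined by recursion: h_0 = 1, h_{a+1}(j) = y_j h_a(j) + h_{a+1}(j+1), with
h_{a+1}(s) = 0; the identity h_a(j+1) - s_j h_a(j+1) = -(y_j - y_{j+1}) h_{a-1}(j) follows by induction,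
or use `MvPolynomial.hsymm`/ generating functions.) -/
theorem nh_Cc_pow (i : D.J) {Z : Type} [AddCommGroup Z] [Module ℂ Z]
    (ρ : R D m →ₐ[ℂ] Module.End ℂ Z) {s : ℕ} (hs : 1 ≤ s) (hsm : s ≤ m) (u : Z)
    (he : ρ (ew (fun _ => i)) u = u) (hu : ∀ r, r + 1 < s → ρ (ps r) u = 0) :
    ρ (Cc 0 (s - 1)) (ρ (pol (X (⟨s - 1, by omega⟩ : Fin m) ^ (s - 1))) u) = (-1 : ℂ) ^ (s - 1) • u := by
  have hX : NHb_X m (s - 1) = X (⟨s - 1, by omega⟩ : Fin m) := by
    unfold NHb_X
    rw [dif_pos (by omega)]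
  have key : ∀ d j, j + d = s - 1 → ρ (Cc j (s - 1)) (ρ (pol (NHb_X m (s - 1) ^ (s - 1))) u) =
      (-1 : ℂ) ^ d • ρ (pol (NHb_hh (NHb_L m s j) j)) u := by
    intro d
    induction d with
    | zero =>
      intro j hj
      have hj' : j = s - 1 := by omega
      subst hj'
      rw [NHb_L_end m s hs, NHb_hh_single, pow_zero, one_smul]
      have h1 : (Cc (s - 1) (s - 1) : R D m) = 1 := by
        unfold Cc
        rw [Nat.sub_self]
        rfl
      rw [h1, map_one]
      rfl
    | succ d ih =>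
      intro j hj
      have h1 := ih (j + 1) (by omega)
      rw [NHb_Cc_succ (by omega : j < s - 1), map_mul, Module.End.mul_apply, h1, map_smul]
      have hjm : j + 1 < m := by omega
      have hXj : NHb_X m j = X ⟨j, by omega⟩ := by
        unfold NHb_X
        rw [dif_pos (by omega)]
      have hXj1 : NHb_X m (j + 1) = X ⟨j + 1, hjm⟩ := by
        unfold NHb_X
        rw [dif_pos hjm]
      have h2 : rename (sw m j) (NHb_hh (NHb_L m s (j + 1)) (j + 1)) =
          NHb_hh (NHb_X m j :: NHb_L m s (j + 2)) (j + 1) := by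
        have h3 := NHb_hh_map (rename (sw m j) : MvPolynomial (Fin m) ℂ →ₐ[ℂ] _).toRingHom
          (NHb_L m s (j + 1)) (j + 1)
        have h4 : (rename (sw m j)) (NHb_hh (NHb_L m s (j + 1)) (j + 1)) =
          NHb_hh ((NHb_L m s (j + 1)).map (rename (sw m j))) (j + 1) := h3
        rw [h4, NHb_L_cons (by omega), List.map_cons, NHb_rename_X m j (j + 1) hjm,
          if_neg (by omega : ¬ (j + 1 = j)), if_pos rfl]
        have h5 : List.map (rename (sw m j)) (NHb_L m s (j + 2)) = NHb_L m s (j + 2) := by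
          apply NHb_map_fix m j _ _ hjm
          intro k hk
          rw [List.mem_range'_1] at hk
          omega
        rw [h5]
      have h6 := NHb_comm i ρ he hjm (NHb_hh (NHb_L m s (j + 1)) (j + 1))
        (- NHb_hh (NHb_L m s j) j) (by
          rw [h2, NHb_L_cons (by omega : j < s), NHb_L_cons (by omega : j + 1 < s), ← hXj, ← hXj1]
          rw [← NHb_hh_sub]
          ring)
      rw [h6, hu j (by omega), map_zero, zero_add, map_neg, map_neg, LinearMap.neg_apply, pow_succ,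
        mul_smul, neg_one_smul]
  have h1 := key (s - 1) 0 (by omega)
  rw [NHb_hh_zero, map_one, map_one, hX] at h1
  exact h1

/-- y_{s-1}^s kills Wl s v if v has word i^m and is killed by all y (1 ≤ s ≤ m).
PROOF: let e_j be the elementary symmetric polynomials of y_0, ..., y_{s-1}; they commute with ps r for
r + 1 < s (symmetric in y_r, y_{r+1}: `ps_pol` with f' = 0) and with the other y, so
e_j Wl s v = Wl s e_j v = 0 for j ≥ 1 (Wl s is a product of ps r with r + 1 < s). And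
∏_{k < s} (y_{s-1} - y_k) = 0, i.e. y_{s-1}^s = - ∑_{j ≥ 1} (-1)^j e_j y_{s-1}^{s-j}
(`Multiset.prod_X_sub_C` / `Finset.prod_X_sub_C...`, or expand with `MvPolynomial.prod_C_add_X`). -/
theorem nh_pow_kill (i : D.J) {Z : Type} [AddCommGroup Z] [Module ℂ Z]
    (ρ : R D m →ₐ[ℂ] Module.End ℂ Z) {s : ℕ} (hs : 1 ≤ s) (hsm : s ≤ m) (v : Z)
    (he : ρ (ew (fun _ => i)) v = v) (hy : ∀ k, ρ (yk k) v = 0) :
    ρ (pol (X (⟨s - 1, by omega⟩ : Fin m) ^ s)) (ρ (Wl D m s) v) = 0 := by
  have hX : NHb_X m (s - 1) = X (⟨s - 1, by omega⟩ : Fin m) := by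
    unfold NHb_X
    rw [dif_pos (by omega)]
  have h0 : ∀ a, ρ (pol (NHb_hh (NHb_L m s 0) (a + 1))) (ρ (Wl D m s) v) = 0 := by
    intro a
    have h1 := (NHb_comm_CS i ρ hsm (NHb_hh (NHb_L m s 0) (a + 1))
      (fun r hr => NHb_sym hr hsm (a + 1)) s le_rfl (fun _ => 0) v he).2
    change ρ (pol (NHb_hh (NHb_L m s 0) (a + 1))) (ρ (CS 0 s (fun _ => 0)) v) = 0
    rw [← h1, NHb_const ρ hy]
    have h2 : constantCoeff (NHb_hh (NHb_L m s 0) (a + 1)) = 0 := by
      rw [NHb_hh_map]
      apply NHb_hh_zeros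
      intro x hx
      rw [List.mem_map] at hx
      obtain ⟨f, hf, rfl⟩ := hx
      unfold NHb_L at hf
      rw [List.mem_map] at hf
      obtain ⟨k, _, rfl⟩ := hf
      unfold NHb_X
      split_ifs
      · exact constantCoeff_X ..
      · exact map_zero _
    rw [h2, zero_smul, map_zero]
  have key : ∀ j, j < s → ∀ a, j ≤ a →
      ρ (pol (NHb_hh (NHb_L m s j) (a + 1))) (ρ (Wl D m s) v) = 0 := by
    intro j
    induction j with
    | zero => intro _ a _; exact h0 a
    | succ j ih =>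
      intro hj a ha
      obtain ⟨b, rfl⟩ : ∃ b, a = b + 1 := ⟨a - 1, by omega⟩
      have h1 : NHb_hh (NHb_L m s (j + 1)) (b + 1 + 1) =
          NHb_hh (NHb_L m s j) (b + 1 + 1) - NHb_X m j * NHb_hh (NHb_L m s j) (b + 1) := by
        rw [NHb_L_cons (by omega : j < s), NHb_hh_succ (NHb_X m j) _ (b + 1)]
        ring
      rw [h1, map_sub, map_sub, LinearMap.sub_apply, ih (by omega) (b + 1) (by omega), map_mul,
        map_mul, Module.End.mul_apply, ih (by omega) b (by omega), map_zero, sub_zero]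
  have h1 := key (s - 1) (by omega) (s - 1) le_rfl
  rw [NHb_L_end m s hs, NHb_hh_single, hX] at h1
  rw [show s - 1 + 1 = s by omega] at h1
  exact h1

/-- y_s^s Wl (s+1) v = (-1)^s Wl s v for v of word i^m killed by all y, s + 1 ≤ m.
PROOF. u = Wl s v; ps r u = 0 for r + 1 < s (`nh_ps_Wl`), y_s u = 0 (y_s commutes with Wl s). For s = 0
clear. s ≥ 1: Wl (s+1) v = Cc 0 s u = Cc 0 (s-1) ps(s-1) u. y_s commutes with Cc 0 (s-1). By S_Y
(y_{r+1} ps r = ps r y_r - 1 on equal letters) y_s^s ps(s-1) u = ps(s-1) y_{s-1}^s u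
- ∑_{a+b=s-1} y_s^a y_{s-1}^b u = ps(s-1) y_{s-1}^s u - y_{s-1}^{s-1} u (use y_s u = 0), and
y_{s-1}^s u = 0 (`nh_pow_kill`). So the result is - Cc 0 (s-1) y_{s-1}^{s-1} u = (-1)^s u
(`nh_Cc_pow`). -/
theorem nh_step (i : D.J) {Z : Type} [AddCommGroup Z] [Module ℂ Z]
    (ρ : R D m →ₐ[ℂ] Module.End ℂ Z) {s : ℕ} (hsm : s + 1 ≤ m) (v : Z)
    (he : ρ (ew (fun _ => i)) v = v) (hy : ∀ k, ρ (yk k) v = 0) :
    ρ (pol (X (⟨s, by omega⟩ : Fin m) ^ s)) (ρ (Wl D m (s + 1)) v) = (-1 : ℂ) ^ s • ρ (Wl D m s) v := by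
  have hXs : NHb_X m s = X (⟨s, by omega⟩ : Fin m) := by
    unfold NHb_X
    rw [dif_pos (by omega)]
  have hfix : ∀ r, r + 1 < s → rename (sw m r) (NHb_X m s) = NHb_X m s := by
    intro r hr
    rw [NHb_rename_X m r s (by omega), if_neg (by omega), if_neg (by omega)]
  have h0 : (Wl D m (s + 1) : R D m) = Cc 0 s * Wl D m s := by
    change Cc 0 (0 + s) * CS 0 s (fun _ => 0) = _
    rw [Nat.zero_add]
    rfl
  obtain rfl | hs : s = 0 ∨ 1 ≤ s := by omega
  · rw [pow_zero, map_one, map_one, pow_zero, one_smul, h0]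
    have h1 : (Cc 0 0 : R D m) = 1 := rfl
    rw [h1, one_mul]
    rfl
  set u := ρ (Wl D m s) v with hu
  have heu : ρ (NHb_e D m i) u = u :=
    (NHb_comm_CS i ρ (by omega : s ≤ m) (NHb_X m s) hfix s le_rfl (fun _ => 0) v he).1
  have hyu : ρ (pol (NHb_X m s)) u = 0 := by
    have h1 := (NHb_comm_CS i ρ (by omega : s ≤ m) (NHb_X m s) hfix s le_rfl (fun _ => 0) v he).2
    change ρ (pol (NHb_X m s)) (ρ (CS 0 s (fun _ => 0)) v) = 0
    rw [← h1, hXs, pol_X, hy, map_zero]
  have hpu : ∀ r, r + 1 < s → ρ (ps r) u = 0 := by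
    intro r hr
    have h1 := congrArg (fun x => ρ x v) (nh_ps_Wl (m := m) i hr)
    simp only [map_mul, Module.End.mul_apply, map_zero, LinearMap.zero_apply] at h1
    rw [he] at h1
    exact h1
  obtain ⟨q, rfl⟩ : ∃ q, s = q + 1 := ⟨s - 1, by omega⟩
  have hq : NHb_X m q = X (⟨q, by omega⟩ : Fin m) := by
    unfold NHb_X
    rw [dif_pos (by omega)]
  have hkill := nh_pow_kill i ρ (s := q + 1) (by omega) (by omega) v he hy
  have hcc := nh_Cc_pow i ρ (s := q + 1) (by omega) (by omega) u heu hpu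
  simp only [Nat.add_sub_cancel] at hkill hcc
  have hfixq : ∀ r, r + 1 < q + 1 → rename (sw m r) (NHb_X m (q + 1) ^ (q + 1)) =
      NHb_X m (q + 1) ^ (q + 1) := by
    intro r hr
    rw [map_pow, hfix r hr]
  have hren : rename (sw m q) (NHb_X m q ^ (q + 1)) = NHb_X m (q + 1) ^ (q + 1) := by
    rw [map_pow, NHb_rename_X m q q (by omega), if_pos rfl]
  have h1 := NHb_comm i ρ heu (r := q) (by omega) (NHb_X m q ^ (q + 1))
    (NHb_hh [NHb_X m q, NHb_X m (q + 1)] q) (by
      rw [hren, ← hq, ← hXs]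
      have h2 := NHb_hh_sub (NHb_X m q) (NHb_X m (q + 1)) [] q
      rw [NHb_hh_single, NHb_hh_single] at h2
      linear_combination - h2)
  have h2 : ρ (pol (NHb_hh [NHb_X m q, NHb_X m (q + 1)] q)) u = ρ (pol (NHb_X m q ^ q)) u := by
    rw [NHb_hh_swap]
    cases q with
    | zero => rw [NHb_hh_zero, pow_zero]
    | succ q =>
      rw [NHb_hh_succ, NHb_hh_single, map_add, map_add, LinearMap.add_apply, mul_comm, map_mul,
        map_mul, Module.End.mul_apply, hyu, map_zero, zero_add]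
  rw [hren, h2, hq, hkill, map_zero] at h1
  have h3 : ρ (pol (NHb_X m (q + 1) ^ (q + 1))) (ρ (ps q) u) =
      - ρ (pol (X (⟨q, by omega⟩ : Fin m) ^ q)) u := by
    rw [eq_neg_iff_add_eq_zero]
    exact h1.symm
  rw [h0, NHb_Cc_last (Nat.zero_le q), ← hXs, map_mul, map_mul, Module.End.mul_apply,
    Module.End.mul_apply]
  have h4 := (NHb_comm_Cc i ρ (by omega : q + 1 ≤ m) (NHb_X m (q + 1) ^ (q + 1)) hfixq 0 q
    (by omega) (ρ (ps q) u) (NHb_ps_u i ρ heu q)).2
  change ρ (pol (NHb_X m (q + 1) ^ (q + 1))) (ρ (Cc 0 q) (ρ (ps q) u)) = _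
  rw [← h4, h3, map_neg, hcc, pow_succ, mul_smul, neg_one_smul, smul_neg]

/-- PROOF: induction with `nh_step`: some product of powers of y maps Wl m v to ± v. -/
theorem nh_low (i : D.J) {Z : Type} [AddCommGroup Z] [Module ℂ Z]
    (ρ : R D m →ₐ[ℂ] Module.End ℂ Z) (v : Z)
    (he : ρ (ew (fun _ => i)) v = v) (hy : ∀ k, ρ (yk k) v = 0) :
    ∃ x : R D m, ρ x (ρ (CS 0 m (fun _ => 0)) v) = v := by
  have key : ∀ s, s ≤ m → ∃ x : R D m, ρ x (ρ (Wl D m s) v) = v := by
    intro s
    induction s with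
    | zero =>
      intro _
      refine ⟨1, ?_⟩
      have h1 : (Wl D m 0 : R D m) = 1 := rfl
      rw [h1, map_one]
      rfl
    | succ s ih =>
      intro hs
      obtain ⟨x, hx⟩ := ih (by omega)
      refine ⟨(-1 : ℂ) ^ s • (x * pol (X (⟨s, by omega⟩ : Fin m) ^ s)), ?_⟩
      rw [map_smul, LinearMap.smul_apply, map_mul, Module.End.mul_apply, nh_step i ρ hs v he hy,
        map_smul, hx, smul_smul, ← mul_pow]
      norm_num
  exact key m le_rfl

/-- Linear independence of the CQ p over vectors killed by y. PROOF: `nh_extract`, `nh_low`. -/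
theorem nh_inj (i : D.J) {Z : Type} [AddCommGroup Z] [Module ℂ Z]
    (ρ : R D m →ₐ[ℂ] Module.End ℂ Z) (v : Sq m → Z)
    (he : ∀ p, ρ (ew (fun _ => i)) (v p) = v p) (hy : ∀ p k, ρ (yk k) (v p) = 0)
    (h : ∑ p, ρ (CQ p) (v p) = 0) : ∀ p, v p = 0 := by
  by_contra hne
  have hne : ∃ p, v p ≠ 0 := not_forall.1 hne
  obtain ⟨x, p0, h1, h2⟩ := nh_extract i ρ v he hne
  rw [h, map_zero] at h2
  obtain ⟨x', hx'⟩ := nh_low i ρ (v p0) (he p0) (hy p0)
  rw [← h2, map_zero] at hx'
  exact h1 hx'.symm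

/-- The submodule generated by v is spanned by the CQ p v. PROOF: `pbw_span`: x = ∑ CQ p pol f ew w;
ew w v = v or 0 (distinct words), pol f v = (constant coefficient of f) v. -/
theorem nh_span (i : D.J) {Z : Type} [AddCommGroup Z] [Module ℂ Z]
    (ρ : R D m →ₐ[ℂ] Module.End ℂ Z) (v : Z)
    (he : ρ (ew (fun _ => i)) v = v) (hy : ∀ k, ρ (yk k) v = 0) (x : R D m) :
    ∃ c : Sq m → ℂ, ρ x v = ∑ p, c p • ρ (CQ p) v := by
  classical
  obtain ⟨f, hf⟩ := pbw_span x
  refine ⟨fun p => constantCoeff (f p (fun _ => i)), ?_⟩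
  rw [hf, map_sum, LinearMap.sum_apply]
  refine Finset.sum_congr rfl fun p _ => ?_
  rw [map_sum, LinearMap.sum_apply, Finset.sum_eq_single (fun _ => i)]
  · rw [map_mul, map_mul, Module.End.mul_apply, Module.End.mul_apply, he, NHb_const ρ hy, map_smul]
  · intro w _ hw
    have h1 : ρ (ew w) v = 0 := by
      rw [← he, ← Module.End.mul_apply, ← map_mul, ew_facts.1, if_neg hw, map_zero,
        LinearMap.zero_apply]
    rw [map_mul, map_mul, Module.End.mul_apply, Module.End.mul_apply, h1, map_zero, map_zero]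
  · intro h
    exact absurd (Finset.mem_univ _) h

end CA1492
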