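import Mathlib
import Pool.Agent.Lib.MP_ca1492_al.Mod.FObj
import Pool.Agent.Lib.MP_ca1492_al.Mod.NHb

/-!
Structure of the part e(*, i^m) M of a module generated by a suitable subspace N.
-/

namespace CA1492

variable {D : Dat} {lam : ℂˣ}

/-- A strictly increasing sequence of natural numbers is at least the identity. -/
theorem LStr_ge {m k : ℕ} {p : ℕ → ℕ} (hp : IsSh m k p) : ∀ j, j < k → j ≤ p j := by
  intro j
  induction j with
  | zero => intro _; exact Nat.zero_le _
  | succ j ih =>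
    intro h
    have h1 := hp.2 j h
    have h2 := ih (by omega)
    omega

/-- The last letter of the shuffled word. -/
theorem LStr_last {n m : ℕ} {p : ℕ → ℕ} (w : Wd D n) (hm : 0 < m) :
    ∀ k (hn : m + k ≤ n) (_ : IsSh m k p) (_ : ∀ j, k = j + 1 → p j < m + j),
      shW m k p w ⟨m + k - 1, by omega⟩ = w ⟨m - 1, by omega⟩ := by
  intro k
  induction k with
  | zero => intro _ _ _; rfl
  | succ k ih =>
    intro hn hp hk
    have h1 := hk k rfl
    have h2 := ih (by omega) ⟨fun j hj => hp.1 j (by omega), fun j hj => hp.2 j (by omega)⟩ (by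
      intro j hj
      subst hj
      have := hp.2 j (by omega)
      omega)
    rw [shW, cyW_apply _ (by omega) (by omega), if_neg (by simp only; omega),
      if_neg (by simp only; omega), ← h2]
    rfl

theorem LStr_tail {n m : ℕ} {p : ℕ → ℕ} (w : Wd D n) (i : D.J) :
    ∀ k (hn : m + k ≤ n) (_ : IsSh m k p) (_ : ¬ (∀ j < k, p j = m + j))
      (_ : ∀ t : Fin n, m ≤ t.val → t.val < m + k → shW m k p w t = i) (hm : 0 < m),
      w ⟨m - 1, by omega⟩ = i := by
  intro k
  induction k with
  | zero =>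
    intro _ _ hid _
    exact absurd (fun j hj => absurd hj (Nat.not_lt_zero j)) hid
  | succ k ih =>
    intro hn hp hid htail hm
    by_cases hk : p k = m + k
    · refine ih (by omega) ⟨fun j hj => hp.1 j (by omega), fun j hj => hp.2 j (by omega)⟩
        (fun h => hid fun j hj => ?_) (fun t ht1 ht2 => ?_) hm
      · rcases Nat.lt_succ_iff_lt_or_eq.1 hj with h1 | h1
        · exact h j h1
        · rw [h1, hk]
      · have h1 := htail t ht1 (by omega)
        rw [shW, cyW_apply _ (by omega) (by omega), if_pos (Or.inl (by omega))] at h1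
        exact h1
    · have h0 := hp.1 k (by omega)
      have h2 := LStr_last (p := p) w hm k (by omega)
        ⟨fun j hj => hp.1 j (by omega), fun j hj => hp.2 j (by omega)⟩ (by
          intro j hj
          subst hj
          have := hp.2 j (by omega)
          omega)
      have h1 := htail ⟨m + k, by omega⟩ (by simp only; omega) (by simp only; omega)
      rw [shW, cyW_apply _ (by omega) (by omega), if_neg (by simp only; omega),
        if_neg (by simp only; omega)] at h1
      rw [← h2]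
      exact h1

theorem LStr_pos {m k : ℕ} {p : ℕ → ℕ} (hp : IsSh m k p) (hid : ¬ (∀ j < k, p j = m + j)) :
    0 < m := by
  by_contra hm
  apply hid
  intro j hj
  have h1 := hp.1 j hj
  have h2 := LStr_ge hp j hj
  omega

/-- The words of the shuffle elements: the letters of the right block are at the positions p j.
PROOF: induction on k with `cyW_apply`: for a strictly increasing p with p j ≤ m + j the word
w' = shW m k p w satisfies w' (p j) = w (m + j) for j < k, and the positions that are not of the form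
p j (j < k) and are < m + k carry the letters w 0, ..., w (m-1) in this order. Here only the consequence:
if p is not the identity shuffle (p 0 < m) and the last k letters of w' are all equal to i then
w (m-1) = i. Namely the last left letter is at the position t = max of {0..m+k-1} minus {p j}; as
p 0 < m, at most k - 1 of the last k positions are of the form p j, so t ≥ m and w' t = w (m-1). -/
theorem shW_tail {n m k : ℕ} (hn : n = m + k) {p : ℕ → ℕ} (hp : IsSh m k p) (w : Wd D n) (i : D.J)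
    (hid : ¬ (∀ j < k, p j = m + j))
    (htail : ∀ t : Fin n, m ≤ t.val → shW m k p w t = i) :
    ∃ h : 0 < m, w ⟨m - 1, by omega⟩ = i := by
  subst hn
  have hm := LStr_pos hp hid
  exact ⟨hm, LStr_tail w i k le_rfl hp hid (fun t h1 _ => htail t h1) hm⟩

theorem LStr_shW_id {n : ℕ} (m : ℕ) {p : ℕ → ℕ} (w : Wd D n) :
    ∀ k, (∀ j < k, p j = m + j) → shW m k p w = w := by
  intro k
  induction k with
  | zero => intro _; rfl
  | succ k ih =>
    intro h
    rw [shW, ih (fun j hj => h j (by omega)), h k (by omega)]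
    cases hq : m + k with
    | zero => rfl
    | succ q => rw [cyW, if_neg (by omega)]

theorem LStr_CS_id {n : ℕ} (m k : ℕ) {p : ℕ → ℕ} (h : ∀ j < k, p j = m + j) :
    (CS m k p : R D n) = 1 := by
  rw [(CS_congr (D := D) (n := n) (m := m) (k := k) h).1]
  exact Span_CS_one m k

theorem LStr_ew_append {a m : ℕ} (u : Wd D a) (v : Wd D m) :
    (ew (Fin.append u v) : R D (a + m)) = iotaL D a m (ew u) * iotaR D a m (ew v) := by
  rw [← iota_ew', iota, Algebra.TensorProduct.lift_tmul]

theorem LStr_append_tail {a m : ℕ} (u : Wd D a) (i : D.J) (t : Fin (a + m)) (ht : a ≤ t.val) :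
    (Fin.append u (fun _ : Fin m => i)) t = i := by
  have h : t = Fin.natAdd a (⟨t.val - a, by omega⟩ : Fin m) := by
    apply Fin.ext
    simp only [Fin.val_natAdd]
    omega
  rw [h, Fin.append_right]

theorem LStr_append_head {a m : ℕ} (u : Wd D a) (i : D.J) (ha : 0 < a) (h : a - 1 < a + m) :
    (Fin.append u (fun _ : Fin m => i)) ⟨a - 1, h⟩ = u ⟨a - 1, by omega⟩ := by
  have h1 : (⟨a - 1, h⟩ : Fin (a + m)) = Fin.castAdd m (⟨a - 1, by omega⟩ : Fin a) := rfl
  rw [h1, Fin.append_left]

/-- The vectors of N of word u. -/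
def LStr_Nu {a m : ℕ} (M : FObj D (a + m) lam) (N : Submodule ℂ M.V) (u : Wd D a) :
    Submodule ℂ M.V where
  carrier := {v | v ∈ N ∧ iotaL D a m (ew u) • v = v}
  zero_mem' := ⟨N.zero_mem, smul_zero _⟩
  add_mem' := fun h1 h2 => ⟨N.add_mem h1.1 h2.1, by rw [smul_add, h1.2, h2.2]⟩
  smul_mem' := fun c v h => ⟨N.smul_mem c h.1, by
    have h1 := (act M.V (iotaL D a m (ew u))).map_smul c v
    rw [act_apply, act_apply, h.2] at h1
    exact h1⟩

/-- The map (v q) ↦ ∑ CQ q v q. -/
noncomputable def LStr_Phi {a m : ℕ} (M : FObj D (a + m) lam) (N' : Submodule ℂ M.V) :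
    (Sq m → N') →ₗ[ℂ] M.V :=
  ∑ q : Sq m, (act M.V (iotaR D a m (CQ q))) ∘ₗ N'.subtype ∘ₗ LinearMap.proj q

theorem LStr_Phi_apply {a m : ℕ} (M : FObj D (a + m) lam) (N' : Submodule ℂ M.V) (v : Sq m → N') :
    LStr_Phi M N' v = ∑ q, iotaR D a m (CQ q) • (v q : M.V) := by
  rw [LStr_Phi, LinearMap.sum_apply]
  rfl

theorem LStr_Phi_mem {a m : ℕ} (M : FObj D (a + m) lam) (N' : Submodule ℂ M.V) (q : Sq m) {v : M.V}
    (hv : v ∈ N') : iotaR D a m (CQ q) • v ∈ LinearMap.range (LStr_Phi M N') := by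
  classical
  refine ⟨Pi.single q ⟨v, hv⟩, ?_⟩
  rw [LStr_Phi_apply, Finset.sum_eq_single q]
  · rw [Pi.single_eq_same]
  · intro q' _ hq'
    rw [Pi.single_eq_of_ne hq', Submodule.coe_zero, smul_zero]
  · intro h
    exact absurd (Finset.mem_univ _) h

theorem LStr_Phi_inj {a m : ℕ} (M : FObj D (a + m) lam) (N' : Submodule ℂ M.V) (i : D.J)
    (he : ∀ v ∈ N', iotaR D a m (ew (fun _ => i)) • v = v)
    (hy : ∀ v ∈ N', ∀ k, iotaR D a m (yk k) • v = 0) : Function.Injective (LStr_Phi M N') := by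
  rw [injective_iff_map_eq_zero]
  intro v hv
  rw [LStr_Phi_apply] at hv
  have h := nh_inj i ((act M.V).comp (iotaR D a m)) (fun q => (v q : M.V))
    (fun q => he _ (v q).2) (fun q k => hy _ (v q).2 k) hv
  funext q
  exact Subtype.ext (h q)

theorem LStr_word {a m : ℕ} (M : FObj D (a + m) lam) (i : D.J) (q : Sq m) {v : M.V}
    (he : iotaR D a m (ew (fun _ => i)) • v = v) :
    iotaR D a m (ew (fun _ => i)) • iotaR D a m (CQ q) • v = iotaR D a m (CQ q) • v := by
  rw [smul_smul, ← map_mul]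
  have h1 : (ew (fun _ : Fin m => i) * CQ q : R D m) = CQ q * ew (fun _ => i) :=
    (NHa_comm_CS (m := m) i 0 m (sqFun q)).eq
  rw [h1, map_mul, mul_smul, he]

theorem LStr_comm {a m : ℕ} (M : FObj D (a + m) lam) (x : R D a) (y : R D m) (v : M.V) :
    iotaL D a m x • iotaR D a m y • v = iotaR D a m y • iotaL D a m x • v := by
  rw [smul_smul, smul_smul, (iota_comm a m x y).eq]

/-- The set-up: an FObj M for `R D (a + m)`, a ℂ-subspace N stable under `iotaL` and g, of right word
i^m, killed by the right y's, such that no word of N ends with i, generating M. -/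
structure Setup {a m : ℕ} (M : FObj D (a + m) lam) (i : D.J) (N : Submodule ℂ M.V) : Prop where
  hL : ∀ (x : R D a), ∀ v ∈ N, iotaL D a m x • v ∈ N
  hg : ∀ v ∈ N, M.g v ∈ N
  he : ∀ v ∈ N, iotaR D a m (ew (fun _ => i)) • v = v
  hy : ∀ v ∈ N, ∀ k, iotaR D a m (yk k) • v = 0
  hend : ∀ (u : Wd D a) (h : 0 < a), u ⟨a - 1, by omega⟩ = i → ∀ v ∈ N, iotaL D a m (ew u) • v = 0
  hgen : ∀ W : Submodule (R D (a + m)) M.V, (∀ v ∈ N, v ∈ W) → W = ⊤

/-- The main step. -/
theorem LStr_key3 {a m : ℕ} {M : FObj D (a + m) lam} {i : D.J} {N : Submodule ℂ M.V}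
    (S : Setup M i N) (u u' : Wd D a) {p : ℕ → ℕ} (hp : IsSh a m p) (q : Sq m) {v : M.V}
    (hv : v ∈ N) :
    (ew (Fin.append u (fun _ => i)) : R D (a + m)) • (CS a m p : R D (a + m)) •
      iotaR D a m (CQ q) • iotaL D a m (ew u') • v ∈
        LinearMap.range (LStr_Phi M (LStr_Nu M N u)) := by
  have hv1 : iotaL D a m (ew u') • v ∈ N := S.hL _ v hv
  have hv2 : iotaL D a m (ew u') • iotaL D a m (ew u') • v = iotaL D a m (ew u') • v := by
    rw [smul_smul, ← map_mul, ew_facts.1, if_pos rfl]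
  have hz : (ew (Fin.append u' (fun _ => i)) : R D (a + m)) • iotaR D a m (CQ q) •
      iotaL D a m (ew u') • v = iotaR D a m (CQ q) • iotaL D a m (ew u') • v := by
    rw [LStr_ew_append, mul_smul, LStr_word M i q (S.he _ hv1), LStr_comm, hv2]
  have h1 : (CS a m p : R D (a + m)) • iotaR D a m (CQ q) • iotaL D a m (ew u') • v =
      (ew (shW a m p (Fin.append u' (fun _ => i))) : R D (a + m)) • (CS a m p : R D (a + m)) •
        iotaR D a m (CQ q) • iotaL D a m (ew u') • v := by
    conv_lhs => rw [← hz]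
    rw [smul_smul, (CS_ew a m p _).1, mul_smul]
  by_cases heq : Fin.append u (fun _ : Fin m => i) = shW a m p (Fin.append u' (fun _ : Fin m => i))
  · by_cases hid : ∀ j < m, p j = a + j
    · rw [LStr_shW_id a _ m hid] at heq
      have hu : u = u' := by
        funext j
        have := congrFun heq (Fin.castAdd m j)
        rwa [Fin.append_left, Fin.append_left] at this
      subst hu
      rw [LStr_CS_id a m hid, one_smul, hz]
      exact LStr_Phi_mem M _ q ⟨hv1, hv2⟩
    · obtain ⟨ha, hlast⟩ := shW_tail (n := a + m) rfl hp (Fin.append u' (fun _ => i)) i hid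
        (fun t ht => by rw [← heq]; exact LStr_append_tail u i t ht)
      rw [LStr_append_head u' i ha] at hlast
      rw [S.hend u' ha hlast v hv, smul_zero, smul_zero, smul_zero]
      exact Submodule.zero_mem _
  · rw [h1, smul_smul, ew_facts.1, if_neg heq, zero_smul]
    exact Submodule.zero_mem _

theorem LStr_key2 {a m : ℕ} {M : FObj D (a + m) lam} {i : D.J} {N : Submodule ℂ M.V}
    (S : Setup M i N) (u : Wd D a) {p : ℕ → ℕ} (hp : IsSh a m p) (q : Sq m) {v : M.V}
    (hv : v ∈ N) :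
    (ew (Fin.append u (fun _ => i)) : R D (a + m)) • (CS a m p : R D (a + m)) •
      iotaR D a m (CQ q) • v ∈ LinearMap.range (LStr_Phi M (LStr_Nu M N u)) := by
  have h1 : v = ∑ u' : Wd D a, iotaL D a m (ew u') • v := by
    rw [← Finset.sum_smul, ← map_sum, ew_facts.2.1, map_one, one_smul]
  rw [h1, Finset.smul_sum, Finset.smul_sum, Finset.smul_sum]
  exact Submodule.sum_mem _ fun u' _ => LStr_key3 S u u' hp q hv

theorem LStr_key1 {a m : ℕ} {M : FObj D (a + m) lam} {i : D.J} {N : Submodule ℂ M.V}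
    (S : Setup M i N) (u : Wd D a) {p : ℕ → ℕ} (hp : IsSh a m p) {v : M.V} (hv : v ∈ N)
    (t : TensorProduct ℂ (R D a) (R D m)) :
    (ew (Fin.append u (fun _ => i)) : R D (a + m)) • (CS a m p * iota D a m t) • v ∈
      LinearMap.range (LStr_Phi M (LStr_Nu M N u)) := by
  induction t using TensorProduct.induction_on with
  | zero =>
    rw [map_zero, mul_zero, zero_smul, smul_zero]
    exact Submodule.zero_mem _
  | add x y hx hy =>
    rw [map_add, mul_add, add_smul, smul_add]
    exact Submodule.add_mem _ hx hy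
  | tmul x y =>
    have hv1 : iotaL D a m x • v ∈ N := S.hL _ v hv
    obtain ⟨c, hc⟩ := nh_span i ((act M.V).comp (iotaR D a m)) (iotaL D a m x • v)
      (S.he _ hv1) (S.hy _ hv1) y
    have hc' : iotaR D a m y • iotaL D a m x • v =
        ∑ q, c q • (iotaR D a m (CQ q) • iotaL D a m x • v) := hc
    rw [iota, Algebra.TensorProduct.lift_tmul, mul_smul, mul_smul, LStr_comm, hc', Finset.smul_sum,
      Finset.smul_sum]
    refine Submodule.sum_mem _ fun q _ => ?_
    rw [smul_comm (CS a m p : R D (a + m)) (c q), smul_comm (ew _ : R D (a + m)) (c q)]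
    exact Submodule.smul_mem _ _ (LStr_key2 S u hp q hv1)

theorem LStr_key0 {a m : ℕ} {M : FObj D (a + m) lam} {i : D.J} {N : Submodule ℂ M.V}
    (S : Setup M i N) (u : Wd D a) {v : M.V} (hv : v ∈ N) (r : R D (a + m)) :
    (ew (Fin.append u (fun _ => i)) : R D (a + m)) • r • v ∈
      LinearMap.range (LStr_Phi M (LStr_Nu M N u)) := by
  obtain ⟨d, hd⟩ := exists_Fil r
  have h := Fil_le_span a m d r hd
  clear hd
  induction h using Submodule.span_induction with
  | mem x hx =>
    obtain ⟨p, b, hp, -, hb, rfl⟩ := hx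
    rw [← iota_range] at hb
    obtain ⟨t, rfl⟩ := hb
    exact LStr_key1 S u hp hv t
  | zero =>
    rw [zero_smul, smul_zero]
    exact Submodule.zero_mem _
  | add x y _ _ hx hy =>
    rw [add_smul, smul_add]
    exact Submodule.add_mem _ hx hy
  | smul c x _ hx =>
    rw [smul_assoc, smul_comm (ew _ : R D (a + m)) c]
    exact Submodule.smul_mem _ _ hx

theorem LStr_key {a m : ℕ} {M : FObj D (a + m) lam} {i : D.J} {N : Submodule ℂ M.V}
    (S : Setup M i N) (u : Wd D a) (x : M.V) :
    (ew (Fin.append u (fun _ => i)) : R D (a + m)) • x ∈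
      LinearMap.range (LStr_Phi M (LStr_Nu M N u)) := by
  let W : Submodule (R D (a + m)) M.V :=
    { carrier := {x | ∀ r : R D (a + m), (ew (Fin.append u (fun _ => i)) : R D (a + m)) • r • x ∈
        LinearMap.range (LStr_Phi M (LStr_Nu M N u))}
      zero_mem' := fun r => by
        rw [smul_zero, smul_zero]
        exact Submodule.zero_mem _
      add_mem' := fun {x y} hx hy r => by
        rw [smul_add, smul_add]
        exact Submodule.add_mem _ (hx r) (hy r)
      smul_mem' := fun c x hx r => by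
        rw [smul_smul r c x]
        exact hx (r * c) }
  have h1 : W = ⊤ := S.hgen W fun v hv r => LStr_key0 S u hv r
  have h2 : x ∈ W := by
    rw [h1]
    exact Submodule.mem_top
  have h3 := h2 1
  rwa [one_smul] at h3

/-- Every vector of word (u, i^m) is a combination of the ιR(CQ p) v, v ∈ N of word u.
PROOF. By hgen, M is spanned over ℂ by the x • v (x ∈ R, v ∈ N, v of word append u i^m for some u).
By `exists_Fil` and `Fil_le_span` (m := a, k := m) x is a combination of CS a m p * b, b ∈ Par =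
range iota (`iota_range`), b = ∑ iotaL x1 * iotaR x2; iotaL x1 and iotaR x2 commute, iotaL x1 v ∈ N, and
iotaR x2 v' is a combination of the iotaR (CQ q) v' (`nh_span` for ρ = act ∘ iotaR). So M is spanned by
CS a m p • iotaR (CQ q) • v, v ∈ N of word append u i^m. The vector iotaR (CQ q) v has again the word
append u i^m (`CS_ew`, `shW_const` for iotaR). Applying ew (append u' i^m): the vector
CS a m p • iotaR (CQ q) • v has the word shW a m p (append u i^m) (`CS_ew`), which by `shW_tail` can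
only end with i^m if p is the identity shuffle (then CS a m p = 1, `Cc_facts`) or u ends with i (then
v = 0 by hend). -/
theorem setup_span {a m : ℕ} {M : FObj D (a + m) lam} {i : D.J} {N : Submodule ℂ M.V}
    (S : Setup M i N) (u : Wd D a) (x : M.V) (hx : (ew (Fin.append u (fun _ => i)) : R D (a + m)) • x = x) :
    ∃ v : Sq m → M.V, (∀ q, v q ∈ N ∧ iotaL D a m (ew u) • v q = v q) ∧
      x = ∑ q, iotaR D a m (CQ q) • v q := by
  have h := LStr_key S u x
  rw [hx] at h
  obtain ⟨v, hv⟩ := h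
  refine ⟨fun q => (v q : M.V), fun q => (v q).2, ?_⟩
  rw [← hv, LStr_Phi_apply]

theorem LStr_g_word {m : ℕ} (w : Wd D m) {M : FObj D m lam} (v : M.V) :
    M.g ((ew w : R D m) • v) = (ew w : R D m) • M.g v := by
  rw [M.hg, (alpha_spec D m lam).1]

theorem LStr_g {a m : ℕ} {M : FObj D (a + m) lam} {i : D.J} {N : Submodule ℂ M.V}
    (S : Setup M i N) (q : Sq m) {v : M.V} (hv : v ∈ N) :
    M.g (iotaR D a m (CQ q) • v) =
      ((lam ^ (-2 * (lenS 0 m (sqFun q) : ℤ)) : ℂˣ) : ℂ) • iotaR D a m (CQ q) • M.g v := by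
  have h1 : iotaR D a m (CQ q) • v = iotaR D a m (CQ q * ew (fun _ => i)) • v := by
    rw [map_mul, mul_smul, S.he v hv]
  have h2 : alpha D m lam (CQ q * ew (fun _ => i)) =
      ((lam ^ (-2 * (lenS 0 m (sqFun q) : ℤ)) : ℂˣ) : ℂ) • (CQ q * ew (fun _ => i)) := by
    have h3 := (CS_ew (D := D) (n := m) 0 m (sqFun q) (fun _ => i)).2 lam
    rw [sdeg_const i 0 m (sqFun q) (by omega) (by
      intro j hj
      unfold sqFun
      rw [dif_pos hj]
      have := (q ⟨j, hj⟩).isLt
      simp only at this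
      omega)] at h3
    exact h3
  rw [h1, M.hg, alpha_iotaR, h2, map_smul, map_mul, smul_assoc, mul_smul, S.he _ (S.hg v hv)]

theorem LStr_trace_restr {a m : ℕ} {M : FObj D (a + m) lam} {i : D.J} {N : Submodule ℂ M.V}
    (S : Setup M i N) (u : Wd D a) (hgu : ∀ v ∈ LStr_Nu M N u, M.g.toLinearMap v ∈ LStr_Nu M N u) :
    ch (M.restr N S.hL S.hg) u =
      LinearMap.trace ℂ (LStr_Nu M N u) (M.g.toLinearMap.restrict hgu) := by
  have hle : LStr_Nu M N u ≤ N := fun v hv => hv.1
  have hgN : ∀ v ∈ N, M.g.toLinearMap v ∈ N := S.hg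
  let j : LStr_Nu M N u →ₗ[ℂ] N := Submodule.inclusion hle
  let gN : N →ₗ[ℂ] N := M.g.toLinearMap.restrict hgN
  have hmem : ∀ v : N, (act M.V (iotaL D a m (ew u)) ∘ₗ N.subtype) v ∈ LStr_Nu M N u := by
    intro v
    refine ⟨S.hL _ v.1 v.2, ?_⟩
    change iotaL D a m (ew u) • iotaL D a m (ew u) • v.1 = iotaL D a m (ew u) • v.1
    rw [smul_smul, ← map_mul, ew_facts.1, if_pos rfl]
  let π : N →ₗ[ℂ] LStr_Nu M N u :=
    LinearMap.codRestrict _ (act M.V (iotaL D a m (ew u)) ∘ₗ N.subtype) hmem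
  have h1 : ch (M.restr N S.hL S.hg) u = LinearMap.trace ℂ N ((gN ∘ₗ j) ∘ₗ π) := rfl
  have h2 : π ∘ₗ (gN ∘ₗ j) = M.g.toLinearMap.restrict hgu := by
    apply LinearMap.ext
    intro v
    apply Subtype.ext
    change iotaL D a m (ew u) • M.g v.1 = M.g v.1
    exact (hgu v.1 v.2).2
  rw [h1, ← h2]
  exact LinearMap.trace_comp_comm' _ _

/-- The trace formula: ch M (u i^m) = (∑_p lam^(-2 len p)) * ch N u.
PROOF. Let N_u = {v ∈ N : iotaL (ew u) v = v}. The map N_u^(Sq m) → ew (append u i^m) M,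
(v q) ↦ ∑ iotaR (CQ q) v q is surjective (`setup_span`; conversely the vectors iotaR (CQ q) v have
the word append u i^m) and injective (`nh_inj` with ρ = act ∘ iotaR). And
M.g (iotaR (CQ q) v) = alpha (iotaR (CQ q) * iotaR (ew i^m)) M.g v = lam^(-2 lenS 0 m (sqFun q)) •
iotaR (CQ q) M.g v (`alpha_iotaR`, `CS_ew`, `sdeg_const`). So the trace of M.g on ew(..) M is the sum over
q of lam^(-2 len) * trace of g on N_u. (trace of g ∘ projection = trace of g on the image.) -/
theorem setup_trace {a m : ℕ} {M : FObj D (a + m) lam} {i : D.J} {N : Submodule ℂ M.V}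
    (S : Setup M i N) (u : Wd D a) :
    ch M (Fin.append u (fun _ => i)) =
      (∑ q : Sq m, ((lam ^ (-2 * (lenS 0 m (sqFun q) : ℤ)) : ℂˣ) : ℂ)) *
        ch (M.restr N S.hL S.hg) u := by
  classical
  have hgu : ∀ v ∈ LStr_Nu M N u, M.g.toLinearMap v ∈ LStr_Nu M N u := by
    intro v hv
    refine ⟨S.hg v hv.1, ?_⟩
    change iotaL D a m (ew u) • M.g v = M.g v
    have h1 := M.hg (iotaL D a m (ew u)) v
    rw [hv.2, alpha_iotaL, (alpha_spec D a lam).1] at h1
    exact h1.symm
  rw [LStr_trace_restr S u hgu]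
  set gu := M.g.toLinearMap.restrict hgu with hgudef
  have hinj : Function.Injective (LStr_Phi M (LStr_Nu M N u)) :=
    LStr_Phi_inj M _ i (fun v hv => S.he v hv.1) (fun v hv => S.hy v hv.1)
  obtain ⟨Ψ0, hΨ0⟩ := (LStr_Phi M (LStr_Nu M N u)).exists_leftInverse_of_injective
    (LinearMap.ker_eq_bot.2 hinj)
  set P : Module.End ℂ M.V := act M.V (ew (Fin.append u (fun _ : Fin m => i))) with hP
  have hPΦ : ∀ v, P (LStr_Phi M (LStr_Nu M N u) v) = LStr_Phi M (LStr_Nu M N u) v := by
    intro v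
    rw [LStr_Phi_apply, map_sum]
    refine Finset.sum_congr rfl fun q _ => ?_
    rw [hP, act_apply, LStr_ew_append, mul_smul, LStr_word M i q (S.he _ (v q).2.1), LStr_comm,
      (v q).2.2]
  have hΦΨ : LStr_Phi M (LStr_Nu M N u) ∘ₗ (Ψ0 ∘ₗ P) = P := by
    apply LinearMap.ext
    intro x
    obtain ⟨y, hy⟩ := LStr_key S u x
    have h1 : P x = LStr_Phi M (LStr_Nu M N u) y := hy.symm
    have h2 : Ψ0 (LStr_Phi M (LStr_Nu M N u) y) = y := LinearMap.congr_fun hΨ0 y
    rw [LinearMap.comp_apply, LinearMap.comp_apply, h1, h2]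
  have hΨΦ : (Ψ0 ∘ₗ P) ∘ₗ LStr_Phi M (LStr_Nu M N u) = LinearMap.id := by
    apply LinearMap.ext
    intro v
    rw [LinearMap.comp_apply, LinearMap.comp_apply, hPΦ]
    exact LinearMap.congr_fun hΨ0 v
  let G : (Sq m → LStr_Nu M N u) →ₗ[ℂ] (Sq m → LStr_Nu M N u) :=
    ∑ q : Sq m, ((lam ^ (-2 * (lenS 0 m (sqFun q) : ℤ)) : ℂˣ) : ℂ) •
      (LinearMap.single ℂ (fun _ : Sq m => LStr_Nu M N u) q ∘ₗ (gu ∘ₗ LinearMap.proj q))
  have hG : ∀ v q', G v q' = ((lam ^ (-2 * (lenS 0 m (sqFun q') : ℤ)) : ℂˣ) : ℂ) • gu (v q') := by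
    intro v q'
    simp only [G, LinearMap.sum_apply, Finset.sum_apply, LinearMap.smul_apply, Pi.smul_apply,
      LinearMap.comp_apply, LinearMap.single_apply, LinearMap.proj_apply]
    rw [Finset.sum_eq_single q']
    · rw [Pi.single_eq_same]
    · intro q _ hq
      rw [Pi.single_eq_of_ne (Ne.symm hq), smul_zero]
    · intro h
      exact absurd (Finset.mem_univ _) h
  have hgΦ : M.g.toLinearMap ∘ₗ LStr_Phi M (LStr_Nu M N u) = LStr_Phi M (LStr_Nu M N u) ∘ₗ G := by
    apply LinearMap.ext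
    intro v
    rw [LinearMap.comp_apply, LinearMap.comp_apply, LStr_Phi_apply, LStr_Phi_apply, map_sum]
    refine Finset.sum_congr rfl fun q _ => ?_
    rw [hG]
    have h1 := LStr_g S q (v q).2.1
    have h2 : iotaR D a m (CQ q) • (((lam ^ (-2 * (lenS 0 m (sqFun q) : ℤ)) : ℂˣ) : ℂ) •
        M.g (v q).1) = ((lam ^ (-2 * (lenS 0 m (sqFun q) : ℤ)) : ℂˣ) : ℂ) •
          iotaR D a m (CQ q) • M.g (v q).1 := smul_comm _ _ _
    exact h1.trans h2.symm
  have h1 : ch M (Fin.append u (fun _ => i)) = LinearMap.trace ℂ M.V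
      ((M.g.toLinearMap ∘ₗ LStr_Phi M (LStr_Nu M N u)) ∘ₗ (Ψ0 ∘ₗ P)) := by
    rw [LinearMap.comp_assoc, hΦΨ]
    rfl
  have h2 : LinearMap.trace ℂ M.V
      ((M.g.toLinearMap ∘ₗ LStr_Phi M (LStr_Nu M N u)) ∘ₗ (Ψ0 ∘ₗ P)) =
      LinearMap.trace ℂ (Sq m → LStr_Nu M N u) G := by
    rw [LinearMap.trace_comp_comm', hgΦ, ← LinearMap.comp_assoc, hΨΦ, LinearMap.id_comp]
  have h3 : ∀ q : Sq m, LinearMap.trace ℂ (Sq m → LStr_Nu M N u)
      (LinearMap.single ℂ (fun _ : Sq m => LStr_Nu M N u) q ∘ₗ (gu ∘ₗ LinearMap.proj q)) =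
        LinearMap.trace ℂ (LStr_Nu M N u) gu := by
    intro q
    rw [LinearMap.trace_comp_comm']
    congr 1
    apply LinearMap.ext
    intro v
    simp only [LinearMap.comp_apply, LinearMap.proj_apply, LinearMap.single_apply,
      Pi.single_eq_same]
  rw [h1, h2]
  simp only [G]
  rw [map_sum, Finset.sum_mul]
  refine Finset.sum_congr rfl fun q _ => ?_
  rw [map_smul, h3, smul_eq_mul]

/-- Dimensions: dim e(*, i^m) M = m! dim N.
PROOF: as in `setup_trace`, summed over u (the projection ∑_u ew (append u i^m) = iotaR (ew i^m)). -/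
theorem setup_finrank {a m : ℕ} {M : FObj D (a + m) lam} {i : D.J} {N : Submodule ℂ M.V}
    (S : Setup M i N) :
    Module.finrank ℂ (LinearMap.range (act M.V (iotaR D a m (ew (fun _ => i))))) =
      m.factorial * Module.finrank ℂ N := by
  have hinj : Function.Injective (LStr_Phi M N) := LStr_Phi_inj M N i S.he S.hy
  have h1 : LinearMap.range (act M.V (iotaR D a m (ew (fun _ => i)))) =
      LinearMap.range (LStr_Phi M N) := by
    apply le_antisymm
    · rintro _ ⟨x, rfl⟩
      rw [act_apply, (iotaR_spec D a m).1, Finset.sum_smul]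
      refine Submodule.sum_mem _ fun u _ => ?_
      obtain ⟨v, hv⟩ := LStr_key S u x
      rw [← hv, LStr_Phi_apply]
      exact Submodule.sum_mem _ fun q _ => LStr_Phi_mem M N q (v q).2.1
    · rintro _ ⟨v, rfl⟩
      refine ⟨LStr_Phi M N v, ?_⟩
      rw [LStr_Phi_apply, map_sum]
      refine Finset.sum_congr rfl fun q _ => ?_
      rw [act_apply, LStr_word M i q (S.he _ (v q).2)]
  rw [h1, LinearMap.finrank_range_of_inj hinj, Module.finrank_pi_fintype, Finset.sum_const,
    Finset.card_univ, card_Sq, smul_eq_mul]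

end CA1492
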