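import Mathlib
import Pool.Agent.Lib.MP_ca1492_al.Mod.LStr

/-!
Existence of the set-up in a simple object; comparison of two simple objects.
-/

namespace CA1492

variable {D : Dat} {lam : ℂˣ}

/-- lam is a real number > 0 different from 1. -/
def PosNe (lam : ℂˣ) : Prop := ∃ t : ℝ, 0 < t ∧ t ≠ 1 ∧ (lam : ℂ) = (t : ℂ)

theorem LSet_nil {V : Type} [AddCommGroup V] [Module ℂ V] [FiniteDimensional ℂ V]
    (y : Module.End ℂ V) (h : ∀ μ : ℂ, y.HasEigenvalue μ → μ = 0) : IsNilpotent y := by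
  refine ⟨Module.finrank ℂ V, ?_⟩
  have h1 := Module.End.iSup_maxGenEigenspace_eq_top y
  have h2 : ∀ μ, y.maxGenEigenspace μ ≤ y.maxGenEigenspace 0 := by
    intro μ
    by_cases hμ : μ = 0
    · rw [hμ]
    · have h3 : y.maxGenEigenspace μ = ⊥ := by
        rw [Module.End.maxGenEigenspace_eq_genEigenspace_finrank]
        by_contra hne
        exact hμ (h μ (Module.End.hasEigenvalue_of_hasGenEigenvalue
          (k := Module.finrank ℂ V) hne))
      rw [h3]
      exact bot_le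
  have h4 : y.maxGenEigenspace 0 = ⊤ := by
    rw [eq_top_iff, ← h1]
    exact iSup_le h2
  rw [Module.End.maxGenEigenspace_eq_genEigenspace_finrank,
    Module.End.genEigenspace_zero_nat] at h4
  exact LinearMap.ker_eq_top.1 h4

theorem LSet_eig {V : Type} [AddCommGroup V] [Module ℂ V] [FiniteDimensional ℂ V]
    (y : Module.End ℂ V) (g : V ≃ₗ[ℂ] V) (c : ℂ) (hc : c ≠ 0) (hc1 : ‖c‖ ≠ 1)
    (h : ∀ v, g (y v) = c • y (g v)) (μ : ℂ) (hμ : y.HasEigenvalue μ) : μ = 0 := by
  by_contra h0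
  have h1 : ∀ n : ℕ, y.HasEigenvalue ((c⁻¹) ^ n * μ) := by
    intro n
    induction n with
    | zero => simpa using hμ
    | succ n ih =>
      obtain ⟨v, hv⟩ := ih.exists_hasEigenvector
      have h2 : y (g v) = (c⁻¹ ^ (n + 1) * μ) • g v := by
        have h3 := h v
        rw [hv.apply_eq_smul, map_smul] at h3
        have h4 : y (g v) = c⁻¹ • ((c⁻¹ ^ n * μ) • g v) := by
          rw [h3, smul_smul, inv_mul_cancel₀ hc, one_smul]
        rw [h4, smul_smul, pow_succ']
        ring_nf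
      refine Module.End.hasEigenvalue_of_hasEigenvector (x := g v)
        ⟨Module.End.mem_eigenspace_iff.2 h2, ?_⟩
      intro hg
      exact hv.2 (g.map_eq_zero_iff.1 hg)
  have h2 : Function.Injective (fun n : ℕ => (c⁻¹) ^ n * μ) := by
    intro a b hab
    have h3 : ‖(c⁻¹) ^ a * μ‖ = ‖(c⁻¹) ^ b * μ‖ := congrArg _ hab
    rw [norm_mul, norm_mul, norm_pow, norm_pow] at h3
    have h4 := mul_right_cancel₀ (norm_ne_zero_iff.2 h0) h3
    have h5 : ‖c⁻¹‖ ≠ 1 := by
      rw [norm_inv]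
      intro h6
      exact hc1 (inv_eq_one.1 h6)
    exact pow_right_injective₀ (norm_pos_iff.2 (inv_ne_zero hc)) h5 h4
  exact (Set.infinite_of_injective_forall_mem h2 h1) (Module.End.finite_hasEigenvalue y)

theorem LSet_c (hl : PosNe lam) : ((lam : ℂ) ^ 2) ≠ 0 ∧ ‖((lam : ℂ) ^ 2)‖ ≠ 1 := by
  obtain ⟨t, ht, ht1, h⟩ := hl
  refine ⟨pow_ne_zero _ lam.ne_zero, ?_⟩
  rw [h, norm_pow, Complex.norm_real, Real.norm_eq_abs, abs_of_pos ht]
  intro h2
  exact ht1 ((pow_eq_one_iff_of_nonneg ht.le two_ne_zero).1 h2)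

/-- The y's are nilpotent on an FObj.
PROOF: g ∘ y = lam^2 y ∘ g (alpha (yk k) = lam^2 yk k). If y has an eigenvector v with eigenvalue
μ ≠ 0 then y (g v) = lam^(-2) g (y v) = lam^(-2) μ g v, so all μ lam^(-2j), j ∈ ℕ, are eigenvalues; these
are infinitely many numbers since lam^2 is real positive ≠ 1; contradiction
(`Module.End.finite_hasEigenvalue` or similar). So 0 is the only eigenvalue and y is nilpotent
(`Module.End.isNilpotent_iff...`, e.g. via the minimal polynomial over ℂ: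
`IsAlgClosed`, `LinearMap.isNilpotent_iff_charpoly`; or: ⨆ maximal generalized eigenspaces = ⊤). -/
theorem yk_nilpotent {n : ℕ} (hl : PosNe lam) (M : FObj D n lam) (k : Fin n) :
    IsNilpotent (act M.V (yk k : R D n)) := by
  obtain ⟨hc, hc1⟩ := LSet_c hl
  refine LSet_nil _ fun μ hμ => LSet_eig _ M.g _ hc hc1 (fun v => ?_) μ hμ
  rw [act_apply, act_apply, M.hg, (alpha_spec D n lam).2.1, smul_assoc]

theorem LSet_common {V : Type} [AddCommGroup V] [Module ℂ V] {m : ℕ}
    (E : Module.End ℂ V) (Y : Fin m → Module.End ℂ V) (hn : ∀ k, IsNilpotent (Y k))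
    (hYY : ∀ k l, Commute (Y k) (Y l)) (hEY : ∀ k, Commute E (Y k)) (x : V) (hx : x ≠ 0)
    (hEx : E x = x) (s : Finset (Fin m)) : ∃ x' : V, x' ≠ 0 ∧ E x' = x' ∧ ∀ k ∈ s, Y k x' = 0 := by
  classical
  induction s using Finset.induction_on with
  | empty => exact ⟨x, hx, hEx, fun k hk => absurd hk (Finset.notMem_empty k)⟩
  | insert k s _ ih =>
    obtain ⟨x', hx', hE', hY'⟩ := ih
    have hex : ∃ n : ℕ, ((Y k) ^ n) x' = 0 := by
      obtain ⟨n, hn⟩ := hn k
      exact ⟨n, by rw [hn]; rfl⟩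
    have hpos : Nat.find hex ≠ 0 := by
      intro h0
      have := Nat.find_spec hex
      rw [h0, pow_zero] at this
      exact hx' this
    obtain ⟨j, hj⟩ := Nat.exists_eq_succ_of_ne_zero hpos
    have h1 : ((Y k) ^ (j + 1)) x' = 0 := by
      have := Nat.find_spec hex
      rwa [hj] at this
    have h2 : ((Y k) ^ j) x' ≠ 0 := by
      have := Nat.find_min hex (m := j) (by omega)
      exact this
    refine ⟨((Y k) ^ j) x', h2, ?_, ?_⟩
    · have hc : Commute E ((Y k) ^ j) := (hEY k).pow_right j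
      have := congrArg (fun f : Module.End ℂ V => f x') hc
      change E (((Y k) ^ j) x') = ((Y k) ^ j) (E x') at this
      rw [this, hE']
    · intro l hl
      rcases Finset.mem_insert.1 hl with rfl | hl
      · rw [pow_succ'] at h1
        exact h1
      · have hc : Commute (Y l) ((Y k) ^ j) := (hYY l k).pow_right j
        have := congrArg (fun f : Module.End ℂ V => f x') hc
        change Y l (((Y k) ^ j) x') = ((Y k) ^ j) (Y l x') at this
        rw [this, hY' l hl, map_zero]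

/-- the common kernel of the right y's in the part of right word i^m -/
noncomputable def LSetX {a m : ℕ} (M : FObj D (a + m) lam) (i : D.J) : Submodule ℂ M.V where
  carrier := {v | iotaR D a m (ew (fun _ => i)) • v = v ∧
    ∀ k, iotaR D a m (yk k) • v = 0}
  zero_mem' := ⟨smul_zero _, fun _ => smul_zero _⟩
  add_mem' := by
    rintro u v ⟨h1, h2⟩ ⟨h3, h4⟩
    exact ⟨by rw [smul_add, h1, h3], fun k => by rw [smul_add, h2, h4, add_zero]⟩
  smul_mem' := by
    rintro c v ⟨h1, h2⟩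
    exact ⟨by rw [smul_comm, h1], fun k => by rw [smul_comm, h2, smul_zero]⟩

theorem LSetX_L {a m : ℕ} (M : FObj D (a + m) lam) (i : D.J) (x : R D a) (v : M.V)
    (hv : v ∈ LSetX M i) : iotaL D a m x • v ∈ LSetX M i := by
  obtain ⟨h1, h2⟩ := hv
  refine ⟨?_, fun k => ?_⟩
  · rw [← mul_smul, ← (iota_comm a m x _).eq, mul_smul, h1]
  · rw [← mul_smul, ← (iota_comm a m x _).eq, mul_smul, h2, smul_zero]

theorem LSetX_g {a m : ℕ} (M : FObj D (a + m) lam) (i : D.J) (v : M.V)
    (hv : v ∈ LSetX M i) : M.g v ∈ LSetX M i := by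
  obtain ⟨h1, h2⟩ := hv
  refine ⟨?_, fun k => ?_⟩
  · have h3 := M.hg (iotaR D a m (ew (fun _ => i))) v
    rw [h1, alpha_iotaR, (alpha_spec D m lam).1] at h3
    exact h3.symm
  · have h3 := M.hg (iotaR D a m (yk k)) v
    rw [h2, map_zero, alpha_iotaR, (alpha_spec D m lam).2.1, map_smul, smul_assoc] at h3
    exact (smul_eq_zero.1 h3.symm).resolve_left (pow_ne_zero _ lam.ne_zero)

theorem LSet_app {a m : ℕ} (u : Wd D a) (v : Wd D m) :
    (ew (Fin.append u v) : R D (a + m)) = iotaL D a m (ew u) * iotaR D a m (ew v) := by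
  rw [← iota_ew, iota, Algebra.TensorProduct.lift_tmul]

theorem LSet_Eapp {a m : ℕ} (u : Wd D a) (v : Wd D m) :
    iotaR D a m (ew v) * (ew (Fin.append u v) : R D (a + m)) = ew (Fin.append u v) := by
  rw [LSet_app, ← mul_assoc, ← (iota_comm a m _ _).eq, mul_assoc, ← map_mul,
    (isRep_R D m).E_mul, if_pos rfl]

theorem LSetX_ne {a m : ℕ} (hl : PosNe lam) (M : FObj D (a + m) lam) (i : D.J)
    (h1 : ∃ (u : Wd D a) (v : M.V), (ew (Fin.append u (fun _ => i)) : R D (a + m)) • v ≠ 0) :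
    LSetX M i ≠ ⊥ := by
  obtain ⟨u, v, huv⟩ := h1
  have hEx : act M.V (iotaR D a m (ew (fun _ => i)))
      ((ew (Fin.append u (fun _ => i)) : R D (a + m)) • v) =
        (ew (Fin.append u (fun _ => i)) : R D (a + m)) • v := by
    rw [act_apply, ← mul_smul, LSet_Eapp]
  obtain ⟨x', hx', hE', hY'⟩ := LSet_common (act M.V (iotaR D a m (ew (fun _ => i))))
    (fun k => act M.V (iotaR D a m (yk k))) (fun k => by
      rw [(iotaR_spec D a m).2.1]
      exact yk_nilpotent hl M _) (fun k l => by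
      change act M.V _ * act M.V _ = act M.V _ * act M.V _
      rw [← map_mul, ← map_mul, ← map_mul, ← map_mul, (isRep_R D m).Y_Y]) (fun k => by
      change act M.V _ * act M.V _ = act M.V _ * act M.V _
      rw [← map_mul, ← map_mul, ← map_mul, ← map_mul, (isRep_R D m).Y_E]) _ huv hEx Finset.univ
  exact (Submodule.ne_bot_iff _).2 ⟨x', ⟨hE', fun k => hY' k (Finset.mem_univ k)⟩, hx'⟩

theorem LSet_span_g {n : ℕ} (M : FObj D n lam) (N : Set M.V) (hg : ∀ v ∈ N, M.g v ∈ N) :
    ∀ v ∈ Submodule.span (R D n) N, M.g v ∈ Submodule.span (R D n) N := by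
  intro v hv
  induction hv using Submodule.span_induction with
  | mem x hx => exact Submodule.subset_span (hg x hx)
  | zero => rw [map_zero]; exact Submodule.zero_mem _
  | add x y _ _ hx hy => rw [map_add]; exact Submodule.add_mem _ hx hy
  | smul r x _ hx => rw [M.hg]; exact Submodule.smul_mem _ _ hx

/-- the subspace of M given by a submodule of the restriction -/
noncomputable def LSetN {a m : ℕ} (M : FObj D (a + m) lam) (N : Submodule ℂ M.V)
    (hL : ∀ (x : R D a), ∀ v ∈ N, iotaL D a m x • v ∈ N) (hg : ∀ v ∈ N, M.g v ∈ N)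
    (W : Submodule (R D a) (M.restr N hL hg).V) : Submodule ℂ M.V where
  carrier := {v | ∃ h : v ∈ N, (show (M.restr N hL hg).V from ⟨v, h⟩) ∈ W}
  zero_mem' := ⟨N.zero_mem, W.zero_mem⟩
  add_mem' := by
    rintro u v ⟨h1, h2⟩ ⟨h3, h4⟩
    exact ⟨N.add_mem h1 h3, W.add_mem h2 h4⟩
  smul_mem' := by
    rintro c v ⟨h1, h2⟩
    exact ⟨N.smul_mem c h1, W.smul_of_tower_mem c h2⟩

/-- Existence of N in a simple object M, for a letter i and m maximal such that some word of M ends
with i^m.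
PROOF. X = range of act (iotaR (ew i^m)) is non-zero (h1: iotaR (ew i^m) = ∑_u ew (append u i^m)),
stable under iotaL, iotaR (yk k) and g (alpha fixes iotaR (ew ..)). X' = X ∩ ⋂_k ker (iotaR (yk k)) is
non-zero (commuting nilpotent operators, `yk_nilpotent`, have a common kernel vector: induction over the
finitely many k), stable under iotaL (`iota_comm`) and under g (y g v = lam^(-2) g y v). Let N be a
minimal non-zero ℂ-subspace of X' stable under iotaL and g (finite dimension: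
minimal finrank). hL, hg, he, hy are clear. hend: h2 (if a ≥ 1 and u ends with i then
append u i^m ends with i^(m+1)). hgen: the R-span of N is g-stable (g (x v) = alpha x g v), non-zero, so ⊤
by IsSimp. IsSimp of the restriction: minimality of N (a submodule over `R D a` stable under g is a
ℂ-subspace stable under iotaL and g). -/
theorem exists_setup {a m : ℕ} (hl : PosNe lam) (M : FObj D (a + m) lam) (hM : IsSimp M) (i : D.J)
    (h1 : ∃ (u : Wd D a) (v : M.V), (ew (Fin.append u (fun _ => i)) : R D (a + m)) • v ≠ 0)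
    (h2 : ∀ (u : Wd D a) (h : 0 < a), u ⟨a - 1, by omega⟩ = i → ∀ v : M.V,
      (ew (Fin.append u (fun _ => i)) : R D (a + m)) • v = 0) :
    ∃ (N : Submodule ℂ M.V) (S : Setup M i N), IsSimp (M.restr N S.hL S.hg) := by
  classical
  let Sc : Set (Submodule ℂ M.V) := {N | N ≠ ⊥ ∧ N ≤ LSetX M i ∧
    (∀ (x : R D a), ∀ v ∈ N, iotaL D a m x • v ∈ N) ∧ (∀ v ∈ N, M.g v ∈ N)}
  have hX : LSetX M i ∈ Sc :=
    ⟨LSetX_ne hl M i h1, le_rfl, fun x v hv => LSetX_L M i x v hv, fun v hv => LSetX_g M i v hv⟩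
  obtain ⟨N, hN, hmin⟩ := WellFounded.has_min
    (wellFounded_lt : WellFounded ((· < ·) : Submodule ℂ M.V → Submodule ℂ M.V → Prop))
    Sc ⟨_, hX⟩
  obtain ⟨hN0, hNX, hNL, hNg⟩ := hN
  have S : Setup M i N :=
    { hL := hNL
      hg := hNg
      he := fun v hv => (hNX hv).1
      hy := fun v hv => (hNX hv).2
      hend := by
        intro u h hu v hv
        have h3 := h2 u h hu v
        rw [LSet_app, mul_smul, (hNX hv).1] at h3
        exact h3
      hgen := by
        intro W hW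
        rcases hM.2 _ (LSet_span_g M (N : Set M.V) hNg) with h | h
        · exfalso
          apply hN0
          rw [eq_bot_iff]
          intro v hv
          have h3 : v ∈ Submodule.span (R D (a + m)) (N : Set M.V) := Submodule.subset_span hv
          rw [h] at h3
          exact h3
        · rw [eq_top_iff, ← h]
          exact Submodule.span_le.2 hW }
  refine ⟨N, S, ?_, ?_⟩
  · obtain ⟨v, hv, hv0⟩ := (Submodule.ne_bot_iff _).1 hN0
    exact ⟨(⟨v, hv⟩ : N), fun h => hv0 (congrArg Subtype.val h)⟩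
  · intro W hW
    by_cases hb : LSetN M N S.hL S.hg W = ⊥
    · left
      rw [eq_bot_iff]
      intro v hv
      have h3 : (show N from v).1 ∈ LSetN M N S.hL S.hg W := ⟨(show N from v).2, hv⟩
      rw [hb] at h3
      exact Subtype.ext h3
    · right
      have hle : LSetN M N S.hL S.hg W ≤ N := fun v hv => hv.1
      have hN' : LSetN M N S.hL S.hg W ∈ Sc := by
        refine ⟨hb, hle.trans hNX, ?_, ?_⟩
        · rintro x v ⟨h3, h4⟩
          exact ⟨hNL x v h3, W.smul_mem x h4⟩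
        · rintro v ⟨h3, h4⟩
          exact ⟨hNg v h3, hW _ h4⟩
      have heq : LSetN M N S.hL S.hg W = N := by
        by_contra hne
        exact hmin _ hN' (lt_of_le_of_ne hle hne)
      rw [eq_top_iff]
      intro v _
      have h3 : (show N from v).1 ∈ LSetN M N S.hL S.hg W := by
        rw [heq]
        exact (show N from v).2
      obtain ⟨_, h4⟩ := h3
      exact h4

/-- the product object -/
noncomputable def LSetP {n : ℕ} (M M' : FObj D n lam) (μ : ℂˣ) : FObj D n lam where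
  V := M.V × M'.V
  g := M.g.prodCongr (M'.g.trans (LinearEquiv.smulOfNeZero ℂ M'.V (μ : ℂ) μ.ne_zero))
  hg := by
    rintro x ⟨v, v'⟩
    refine Prod.ext ?_ ?_
    · exact M.hg x v
    · change (μ : ℂ) • M'.g (x • v') = alpha D n lam x • ((μ : ℂ) • M'.g v')
      rw [M'.hg, smul_comm]

theorem LSetP_g {n : ℕ} (M M' : FObj D n lam) (μ : ℂˣ) (v : M.V) (v' : M'.V) :
    (LSetP M M' μ).g (show (LSetP M M' μ).V from (v, v')) =
      (show (LSetP M M' μ).V from (M.g v, (μ : ℂ) • M'.g v')) := rfl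

/-- a subspace as a subspace of a sub-object -/
noncomputable def LSetG {n : ℕ} (P : FObj D n lam) (W : Submodule (R D n) P.V)
    (hW : ∀ v ∈ W, P.g v ∈ W) (Γ : Submodule ℂ P.V) : Submodule ℂ (P.sub W hW).V where
  carrier := {w | (show W from w).1 ∈ Γ}
  zero_mem' := Γ.zero_mem
  add_mem' := fun h1 h2 => Γ.add_mem h1 h2
  smul_mem' := fun c _ h => Γ.smul_mem c h

theorem LSet_subSetup {a m : ℕ} (P : FObj D (a + m) lam) (i : D.J) (Γ : Submodule ℂ P.V)
    (hL : ∀ (x : R D a), ∀ v ∈ Γ, iotaL D a m x • v ∈ Γ)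
    (hg : ∀ v ∈ Γ, P.g v ∈ Γ)
    (he : ∀ v ∈ Γ, iotaR D a m (ew (fun _ => i)) • v = v)
    (hy : ∀ v ∈ Γ, ∀ k, iotaR D a m (yk k) • v = 0)
    (hend : ∀ (u : Wd D a) (h : 0 < a), u ⟨a - 1, by omega⟩ = i → ∀ v ∈ Γ,
      iotaL D a m (ew u) • v = 0) :
    Setup (P.sub (Submodule.span (R D (a + m)) (Γ : Set P.V)) (LSet_span_g P (Γ : Set P.V) hg)) i
      (LSetG P (Submodule.span (R D (a + m)) (Γ : Set P.V))
        (LSet_span_g P (Γ : Set P.V) hg) Γ) where
  hL := fun x v hv => hL x _ hv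
  hg := fun v hv => hg _ hv
  he := fun v hv => Subtype.ext (he _ hv)
  hy := fun v hv k => Subtype.ext (hy _ hv k)
  hend := fun u h hu v hv => Subtype.ext (hend u h hu _ hv)
  hgen := by
    intro W0 h0
    rw [eq_top_iff]
    rintro ⟨v, hv⟩ _
    induction hv using Submodule.span_induction with
    | mem x hx => exact h0 ⟨x, Submodule.subset_span hx⟩ hx
    | zero => exact W0.zero_mem
    | add x y hx hy h1 h2 => exact W0.add_mem (h1 trivial) (h2 trivial)
    | smul r x hx h1 => exact W0.smul_mem r (h1 trivial)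

/-- the graph of θ -/
noncomputable def LSetGr {a m : ℕ} (M M' : FObj D (a + m) lam) (μ : ℂˣ)
    {N : Submodule ℂ M.V} {N' : Submodule ℂ M'.V}
    (hL : ∀ (x : R D a), ∀ v ∈ N, iotaL D a m x • v ∈ N) (hg : ∀ v ∈ N, M.g v ∈ N)
    (hL' : ∀ (x : R D a), ∀ v ∈ N', iotaL D a m x • v ∈ N') (hg' : ∀ v ∈ N', M'.g v ∈ N')
    (θ : (M.restr N hL hg).V ≃ₗ[R D a] (M'.restr N' hL' hg').V) :
    Submodule ℂ (LSetP M M' μ).V where
  carrier := {p | ∃ (h : (show M.V × M'.V from p).1 ∈ N) (h' : (show M.V × M'.V from p).2 ∈ N'),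
    θ (show (M.restr N hL hg).V from ⟨_, h⟩) = (show (M'.restr N' hL' hg').V from ⟨_, h'⟩)}
  zero_mem' := ⟨N.zero_mem, N'.zero_mem, θ.map_zero⟩
  add_mem' := by
    rintro u v ⟨h1, h2, h3⟩ ⟨h4, h5, h6⟩
    refine ⟨N.add_mem h1 h4, N'.add_mem h2 h5, ?_⟩
    have h7 := θ.map_add (show (M.restr N hL hg).V from ⟨_, h1⟩)
      (show (M.restr N hL hg).V from ⟨_, h4⟩)
    rw [h3, h6] at h7
    exact h7
  smul_mem' := by
    rintro c v ⟨h1, h2, h3⟩
    refine ⟨N.smul_mem c h1, N'.smul_mem c h2, ?_⟩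
    have h7 := θ.toLinearMap.map_smul_of_tower c (show (M.restr N hL hg).V from ⟨_, h1⟩)
    change _ = c • θ _ at h7
    rw [h3] at h7
    exact h7

section graph
variable {a m : ℕ} {M M' : FObj D (a + m) lam} {i : D.J}
    {N : Submodule ℂ M.V} {N' : Submodule ℂ M'.V} (S : Setup M i N) (S' : Setup M' i N')
    (μ : ℂˣ) (θ : (M.restr N S.hL S.hg).V ≃ₗ[R D a] (M'.restr N' S'.hL S'.hg).V)
    (hθ : ∀ v, θ ((M.restr N S.hL S.hg).g v) = (μ : ℂ) • (M'.restr N' S'.hL S'.hg).g (θ v))

theorem LSetGr_L (x : R D a) (v : (LSetP M M' μ).V)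
    (hv : v ∈ LSetGr M M' μ S.hL S.hg S'.hL S'.hg θ) :
    iotaL D a m x • v ∈ LSetGr M M' μ S.hL S.hg S'.hL S'.hg θ := by
  obtain ⟨h1, h2, h3⟩ := hv
  refine ⟨S.hL x _ h1, S'.hL x _ h2, ?_⟩
  have h7 := θ.map_smul x (show (M.restr N S.hL S.hg).V from ⟨_, h1⟩)
  rw [h3] at h7
  exact h7

include hθ in
theorem LSetGr_g (v : (LSetP M M' μ).V)
    (hv : v ∈ LSetGr M M' μ S.hL S.hg S'.hL S'.hg θ) :
    (LSetP M M' μ).g v ∈ LSetGr M M' μ S.hL S.hg S'.hL S'.hg θ := by
  obtain ⟨h1, h2, h3⟩ := hv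
  refine ⟨S.hg _ h1, N'.smul_mem _ (S'.hg _ h2), ?_⟩
  have h7 := hθ (show (M.restr N S.hL S.hg).V from ⟨_, h1⟩)
  rw [h3] at h7
  exact h7

theorem LSetGr_mem (v : M.V) (h : v ∈ N) : ∃ v' ∈ N',
    (show (LSetP M M' μ).V from (v, v')) ∈ LSetGr M M' μ S.hL S.hg S'.hL S'.hg θ :=
  ⟨(show N' from θ (show (M.restr N S.hL S.hg).V from ⟨v, h⟩)).1,
    (show N' from θ (show (M.restr N S.hL S.hg).V from ⟨v, h⟩)).2, h,
    (show N' from θ (show (M.restr N S.hL S.hg).V from ⟨v, h⟩)).2, rfl⟩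

theorem LSetGr_mem' (v' : M'.V) (h : v' ∈ N') : ∃ v ∈ N,
    (show (LSetP M M' μ).V from (v, v')) ∈ LSetGr M M' μ S.hL S.hg S'.hL S'.hg θ :=
  ⟨(show N from θ.symm (show (M'.restr N' S'.hL S'.hg).V from ⟨v', h⟩)).1,
    (show N from θ.symm (show (M'.restr N' S'.hL S'.hg).V from ⟨v', h⟩)).2,
    (show N from θ.symm (show (M'.restr N' S'.hL S'.hg).V from ⟨v', h⟩)).2, h,
    θ.apply_symm_apply _⟩

theorem LSetGr_inj (u v : (LSetP M M' μ).V)
    (hu : u ∈ LSetGr M M' μ S.hL S.hg S'.hL S'.hg θ)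
    (hv : v ∈ LSetGr M M' μ S.hL S.hg S'.hL S'.hg θ)
    (h : (show M.V × M'.V from u).1 = (show M.V × M'.V from v).1) : u = v := by
  obtain ⟨h1, h2, h3⟩ := hu
  obtain ⟨h4, h5, h6⟩ := hv
  refine Prod.ext h ?_
  have h7 : (show (M.restr N S.hL S.hg).V from ⟨_, h1⟩) =
      (show (M.restr N S.hL S.hg).V from ⟨_, h4⟩) := Subtype.ext h
  rw [h7, h6] at h3
  exact (congrArg Subtype.val h3).symm

end graph

/-- the part of the second factor -/
noncomputable def LSetW2 {n : ℕ} (M M' : FObj D n lam) (μ : ℂˣ)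
    (W : Submodule (R D n) (LSetP M M' μ).V) : Submodule (R D n) M'.V where
  carrier := {v | (show (LSetP M M' μ).V from ((0 : M.V), v)) ∈ W}
  zero_mem' := W.zero_mem
  add_mem' := by
    intro u v hu hv
    have h := W.add_mem hu hv
    have h2 : (show (LSetP M M' μ).V from ((0 : M.V), u)) +
        (show (LSetP M M' μ).V from ((0 : M.V), v)) =
        (show (LSetP M M' μ).V from ((0 : M.V), u + v)) := Prod.ext (add_zero _) rfl
    rwa [h2] at h
  smul_mem' := by
    intro c v hv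
    have h := W.smul_mem c hv
    have h2 : c • (show (LSetP M M' μ).V from ((0 : M.V), v)) =
        (show (LSetP M M' μ).V from ((0 : M.V), c • v)) := Prod.ext (smul_zero _) rfl
    rwa [h2] at h

/-- the part of the first factor -/
noncomputable def LSetW1 {n : ℕ} (M M' : FObj D n lam) (μ : ℂˣ)
    (W : Submodule (R D n) (LSetP M M' μ).V) : Submodule (R D n) M.V where
  carrier := {v | (show (LSetP M M' μ).V from (v, (0 : M'.V))) ∈ W}
  zero_mem' := W.zero_mem
  add_mem' := by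
    intro u v hu hv
    have h := W.add_mem hu hv
    have h2 : (show (LSetP M M' μ).V from (u, (0 : M'.V))) +
        (show (LSetP M M' μ).V from (v, (0 : M'.V))) =
        (show (LSetP M M' μ).V from (u + v, (0 : M'.V))) := Prod.ext rfl (add_zero _)
    rwa [h2] at h
  smul_mem' := by
    intro c v hv
    have h := W.smul_mem c hv
    have h2 : c • (show (LSetP M M' μ).V from (v, (0 : M'.V))) =
        (show (LSetP M M' μ).V from (c • v, (0 : M'.V))) := Prod.ext rfl (smul_zero _)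
    rwa [h2] at h

theorem LSetW1_g {n : ℕ} (M M' : FObj D n lam) (μ : ℂˣ)
    (W : Submodule (R D n) (LSetP M M' μ).V) (hW : ∀ v ∈ W, (LSetP M M' μ).g v ∈ W) :
    ∀ v ∈ LSetW1 M M' μ W, M.g v ∈ LSetW1 M M' μ W := by
  intro v hv
  have h := hW _ hv
  have h2 : (LSetP M M' μ).g (show (LSetP M M' μ).V from (v, (0 : M'.V))) =
      (show (LSetP M M' μ).V from (M.g v, (0 : M'.V))) := by
    rw [LSetP_g, map_zero, smul_zero]
  rw [h2] at h
  exact h

theorem LSetW2_g {n : ℕ} (M M' : FObj D n lam) (μ : ℂˣ)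
    (W : Submodule (R D n) (LSetP M M' μ).V) (hW : ∀ v ∈ W, (LSetP M M' μ).g v ∈ W) :
    ∀ v ∈ LSetW2 M M' μ W, M'.g v ∈ LSetW2 M M' μ W := by
  intro v hv
  have h := W.smul_of_tower_mem ((μ : ℂ)⁻¹) (hW _ hv)
  have h2 : ((μ : ℂ)⁻¹) • (LSetP M M' μ).g (show (LSetP M M' μ).V from ((0 : M.V), v)) =
      (show (LSetP M M' μ).V from ((0 : M.V), M'.g v)) := by
    rw [LSetP_g, map_zero]
    refine Prod.ext (smul_zero _) ?_
    change ((μ : ℂ)⁻¹) • ((μ : ℂ) • M'.g v) = M'.g v
    rw [smul_smul, inv_mul_cancel₀ μ.ne_zero, one_smul]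
  rw [h2] at h
  exact h

theorem LSet_dim {a m : ℕ} (M M' : FObj D (a + m) lam) (μ : ℂˣ)
    (W : Submodule (R D (a + m)) (LSetP M M' μ).V) (hW : ∀ v ∈ W, (LSetP M M' μ).g v ∈ W)
    (hT : ∀ v, v ∈ W) (x : R D (a + m)) :
    Module.finrank ℂ (LinearMap.range (act M.V x)) +
      Module.finrank ℂ (LinearMap.range (act M'.V x)) ≤
    Module.finrank ℂ (LinearMap.range (act ((LSetP M M' μ).sub W hW).V x)) := by
  let F : (LinearMap.range (act M.V x) × LinearMap.range (act M'.V x)) →ₗ[ℂ]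
      ((LSetP M M' μ).sub W hW).V :=
    { toFun := fun p => (show W from
        ⟨(show (LSetP M M' μ).V from (p.1.1, p.2.1)), hT _⟩)
      map_add' := fun p q => rfl
      map_smul' := fun c p => rfl }
  have hF : Function.Injective F := by
    rintro ⟨⟨u, hu⟩, ⟨v, hv⟩⟩ ⟨⟨u', hu'⟩, ⟨v', hv'⟩⟩ h
    have h1 : (show (LSetP M M' μ).V from (u, v)) = (show (LSetP M M' μ).V from (u', v')) :=
      congrArg Subtype.val h
    have h2 : u = u' := congrArg Prod.fst h1
    have h3 : v = v' := congrArg Prod.snd h1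
    subst h2
    subst h3
    rfl
  rw [← Module.finrank_prod, ← LinearMap.finrank_range_of_inj hF]
  refine Submodule.finrank_mono ?_
  rintro _ ⟨⟨⟨u, ⟨u0, hu⟩⟩, ⟨v, ⟨v0, hv⟩⟩⟩, rfl⟩
  refine ⟨(show W from ⟨(show (LSetP M M' μ).V from (u0, v0)), hT _⟩), ?_⟩
  refine Subtype.ext ?_
  exact Prod.ext hu hv

theorem LSet_bot {a m : ℕ} {M : FObj D (a + m) lam} (hM : IsSimp M) {i : D.J}
    {N : Submodule ℂ M.V} (S : Setup M i N) (h : ∀ v ∈ N, v = 0) : False := by
  have h1 := S.hgen ⊥ (fun v hv => by rw [h v hv]; exact Submodule.zero_mem _)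
  obtain ⟨v, hv⟩ := hM.1
  have h2 : v ∈ (⊥ : Submodule (R D (a + m)) M.V) := by rw [h1]; exact Submodule.mem_top
  exact hv h2

/-- Two simple objects with isomorphic N are isomorphic.
PROOF. Let θ : N ≃ N' be R D a-linear with θ (g v) = μ g' (θ v). Let P = M × M' with
g_P = (g, μ g') (an FObj), Γ = {(v, θ v)} ⊆ P, W = the R-submodule generated by Γ. Γ is stable
under iotaL and g_P, so W is stable under g_P. (W, Γ) satisfies `Setup` (words etc. componentwise). Let
W2 = {v' : (0, v') ∈ W}: an R-submodule of M' stable under g', so 0 or everything.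
If W2 = ⊤: the projection of W to M contains N so is everything (hgen), hence W = P, and
`setup_finrank` for W, M, M' gives m! dim N = m! dim N + m! dim N' (the range of
iotaR (ew i^m) on the product is the product of the ranges), so N' = 0, contradiction to IsSimp M'
(generated by N' = 0). So W2 = 0, and symmetrically W ∩ (M × 0) = 0, so W is the graph of an isomorphism
e : M ≃ M' (both projections are bijective on W), and e (g v) = μ g' (e v) as W is g_P-stable. -/
theorem iso_of_restr {a m : ℕ} {M M' : FObj D (a + m) lam} (hM : IsSimp M) (hM' : IsSimp M')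
    {i : D.J} {N : Submodule ℂ M.V} {N' : Submodule ℂ M'.V} (S : Setup M i N) (S' : Setup M' i N')
    {μ : ℂˣ} (h : IsoS (M.restr N S.hL S.hg) (M'.restr N' S'.hL S'.hg) μ) : IsoS M M' μ := by
  obtain ⟨θ, hθ⟩ := h
  have hGg := LSetGr_g S S' μ θ hθ
  have SΓ := LSet_subSetup (LSetP M M' μ) i (LSetGr M M' μ S.hL S.hg S'.hL S'.hg θ)
    (LSetGr_L S S' μ θ) hGg
    (by
      rintro v ⟨h1, h2, _⟩
      exact Prod.ext (S.he _ h1) (S'.he _ h2))
    (by
      rintro v ⟨h1, h2, _⟩ k
      exact Prod.ext (S.hy _ h1 k) (S'.hy _ h2 k))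
    (by
      rintro u h0 hu v ⟨h1, h2, _⟩
      exact Prod.ext (S.hend u h0 hu _ h1) (S'.hend u h0 hu _ h2))
  have hWg := LSet_span_g (LSetP M M' μ) (LSetGr M M' μ S.hL S.hg S'.hL S'.hg θ :
    Set (LSetP M M' μ).V) hGg
  have hΓW : ∀ v ∈ LSetGr M M' μ S.hL S.hg S'.hL S'.hg θ, v ∈ Submodule.span (R D (a + m))
    (LSetGr M M' μ S.hL S.hg S'.hL S'.hg θ : Set (LSetP M M' μ).V) := fun v hv =>
      Submodule.subset_span hv
  have key : LSetW2 M M' μ (Submodule.span (R D (a + m))
      (LSetGr M M' μ S.hL S.hg S'.hL S'.hg θ : Set (LSetP M M' μ).V)) ≠ ⊤ := by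
    intro h2
    have h2' : ∀ v' : M'.V, (show (LSetP M M' μ).V from ((0 : M.V), v')) ∈
        Submodule.span (R D (a + m))
        (LSetGr M M' μ S.hL S.hg S'.hL S'.hg θ : Set (LSetP M M' μ).V) := by
      intro v'
      have h3 : v' ∈ LSetW2 M M' μ (Submodule.span (R D (a + m))
        (LSetGr M M' μ S.hL S.hg S'.hL S'.hg θ : Set (LSetP M M' μ).V)) := by
        rw [h2]; exact Submodule.mem_top
      exact h3
    have h1 : LSetW1 M M' μ (Submodule.span (R D (a + m))
        (LSetGr M M' μ S.hL S.hg S'.hL S'.hg θ : Set (LSetP M M' μ).V)) = ⊤ := by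
      refine S.hgen _ fun v hv => ?_
      obtain ⟨v', _, hv'⟩ := LSetGr_mem S S' μ θ v hv
      have h4 := Submodule.sub_mem _ (hΓW _ hv') (h2' v')
      have h5 : (show (LSetP M M' μ).V from (v, v')) -
          (show (LSetP M M' μ).V from ((0 : M.V), v')) =
          (show (LSetP M M' μ).V from (v, (0 : M'.V))) := Prod.ext (sub_zero _) (sub_self _)
      rw [h5] at h4
      exact h4
    have hT : ∀ v, v ∈ Submodule.span (R D (a + m))
        (LSetGr M M' μ S.hL S.hg S'.hL S'.hg θ : Set (LSetP M M' μ).V) := by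
      rintro ⟨v, v'⟩
      have h3 : v ∈ LSetW1 M M' μ (Submodule.span (R D (a + m))
        (LSetGr M M' μ S.hL S.hg S'.hL S'.hg θ : Set (LSetP M M' μ).V)) := by
        rw [h1]; exact Submodule.mem_top
      have h3' : (show (LSetP M M' μ).V from (v, (0 : M'.V))) ∈ Submodule.span (R D (a + m))
        (LSetGr M M' μ S.hL S.hg S'.hL S'.hg θ : Set (LSetP M M' μ).V) := h3
      have h4 := Submodule.add_mem _ h3' (h2' v')
      have h5 : (show (LSetP M M' μ).V from (v, (0 : M'.V))) +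
          (show (LSetP M M' μ).V from ((0 : M.V), v')) =
          (show (LSetP M M' μ).V from (v, v')) := Prod.ext (add_zero _) (zero_add _)
      rw [h5] at h4
      exact h4
    have h6 := LSet_dim M M' μ _ hWg hT (iotaR D a m (ew (fun _ => i)))
    rw [setup_finrank S, setup_finrank S', setup_finrank SΓ, ← Nat.mul_add] at h6
    have h7 := Nat.le_of_mul_le_mul_left h6 (Nat.factorial_pos m)
    let G : LSetG (LSetP M M' μ) _ hWg (LSetGr M M' μ S.hL S.hg S'.hL S'.hg θ) →ₗ[ℂ] N :=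
      { toFun := fun w => ⟨(show M.V × M'.V from (show Submodule.span (R D (a + m))
          (LSetGr M M' μ S.hL S.hg S'.hL S'.hg θ : Set (LSetP M M' μ).V) from w.1).1).1,
          by obtain ⟨h, _⟩ := w.2; exact h⟩
        map_add' := fun p q => rfl
        map_smul' := fun c p => rfl }
    have hG : Function.Injective G := by
      intro w w' hw
      have h8 := LSetGr_inj S S' μ θ _ _ w.2 w'.2 (congrArg Subtype.val hw)
      exact Subtype.ext (Subtype.ext h8)
    have h9 := LinearMap.finrank_le_finrank_of_injective hG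
    have h10 : Module.finrank ℂ N' = 0 := by omega
    refine LSet_bot hM' S' fun v hv => ?_
    rw [Submodule.finrank_eq_zero.1 h10] at hv
    exact hv
  have hW2 := (hM'.2 _ (LSetW2_g M M' μ _ hWg)).resolve_right key
  have hW1 : LSetW1 M M' μ (Submodule.span (R D (a + m))
      (LSetGr M M' μ S.hL S.hg S'.hL S'.hg θ : Set (LSetP M M' μ).V)) = ⊥ := by
    refine (hM.2 _ (LSetW1_g M M' μ _ hWg)).resolve_right fun h1 => ?_
    apply key
    refine S'.hgen _ fun v' hv' => ?_
    obtain ⟨v, _, hv⟩ := LSetGr_mem' S S' μ θ v' hv'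
    have h3 : v ∈ LSetW1 M M' μ (Submodule.span (R D (a + m))
      (LSetGr M M' μ S.hL S.hg S'.hL S'.hg θ : Set (LSetP M M' μ).V)) := by
      rw [h1]; exact Submodule.mem_top
    have h4 := Submodule.sub_mem _ (hΓW _ hv) h3
    have h5 : (show (LSetP M M' μ).V from (v, v')) -
        (show (LSetP M M' μ).V from (v, (0 : M'.V))) =
        (show (LSetP M M' μ).V from ((0 : M.V), v')) := Prod.ext (sub_self _) (sub_zero _)
    rw [h5] at h4
    exact h4
  let W := Submodule.span (R D (a + m))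
    (LSetGr M M' μ S.hL S.hg S'.hL S'.hg θ : Set (LSetP M M' μ).V)
  let p1 : W →ₗ[R D (a + m)] M.V :=
    { toFun := fun w => (show M.V × M'.V from w.1).1
      map_add' := fun p q => rfl
      map_smul' := fun c p => rfl }
  let p2 : W →ₗ[R D (a + m)] M'.V :=
    { toFun := fun w => (show M.V × M'.V from w.1).2
      map_add' := fun p q => rfl
      map_smul' := fun c p => rfl }
  have hp1 : Function.Bijective p1 := by
    constructor
    · rw [← LinearMap.ker_eq_bot, eq_bot_iff]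
      rintro ⟨⟨v, v'⟩, hv⟩ h0
      have h1 : v = 0 := h0
      subst h1
      have h2 : v' ∈ LSetW2 M M' μ W := hv
      rw [hW2] at h2
      have h3 : v' = 0 := h2
      subst h3
      rfl
    · rw [← LinearMap.range_eq_top]
      refine S.hgen _ fun v hv => ?_
      obtain ⟨v', _, hv'⟩ := LSetGr_mem S S' μ θ v hv
      exact ⟨⟨_, hΓW _ hv'⟩, rfl⟩
  have hp2 : Function.Bijective p2 := by
    constructor
    · rw [← LinearMap.ker_eq_bot, eq_bot_iff]
      rintro ⟨⟨v, v'⟩, hv⟩ h0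
      have h1 : v' = 0 := h0
      subst h1
      have h2 : v ∈ LSetW1 M M' μ W := hv
      rw [hW1] at h2
      have h3 : v = 0 := h2
      subst h3
      rfl
    · rw [← LinearMap.range_eq_top]
      refine S'.hgen _ fun v' hv' => ?_
      obtain ⟨v, _, hv⟩ := LSetGr_mem' S S' μ θ v' hv'
      exact ⟨⟨_, hΓW _ hv⟩, rfl⟩
  refine ⟨(LinearEquiv.ofBijective p1 hp1).symm.trans (LinearEquiv.ofBijective p2 hp2),
    fun v => ?_⟩
  obtain ⟨w, rfl⟩ := hp1.2 v
  have e1 : (LinearEquiv.ofBijective p1 hp1).symm (p1 w) = w :=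
    (LinearEquiv.ofBijective p1 hp1).symm_apply_apply w
  have e2 : (LinearEquiv.ofBijective p1 hp1).symm (M.g (p1 w)) =
      ⟨(LSetP M M' μ).g w.1, hWg _ w.2⟩ := by
    rw [LinearEquiv.symm_apply_eq]
    rfl
  rw [LinearEquiv.trans_apply, LinearEquiv.trans_apply, e1, e2]
  rfl

end CA1492
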