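import Mathlib
import Pool.Agent.Lib.MP_ca1492_al.Alg.Alpha

/-!
The category of `R D n`-modules, the autofunctor FF (restriction along alpha lam), objects with g.
-/

namespace CA1492

open CategoryTheory CategoryTheory.Abelian CategoryTheory.Limits

/-- Modules over `R D n`. -/
abbrev MC (D : Dat) (n : ℕ) := ModuleCat.{0} (R D n)

/-- Restriction of scalars along alpha lam. -/
noncomputable def FF (D : Dat) (n : ℕ) (lam : ℂˣ) : MC D n ⥤ MC D n :=
  ModuleCat.restrictScalars (alpha D n lam).toRingHom

variable {D : Dat} {n : ℕ} {lam : ℂˣ}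

instance : (FF D n lam).Additive :=
  inferInstanceAs (ModuleCat.restrictScalars (alpha D n lam).toRingHom).Additive

theorem FF_map_exact (S : ShortComplex (MC D n)) (h : S.Exact) : (S.map (FF D n lam)).Exact := by
  rw [CategoryTheory.ShortComplex.ShortExact.moduleCat_exact_iff_function_exact] at h ⊢
  exact h

noncomputable instance : PreservesFiniteLimits (FF D n lam) := by
  have := ((CategoryTheory.Functor.exact_tfae (FF D n lam)).out 1 3).mp FF_map_exact
  exact this.1

noncomputable instance : PreservesFiniteColimits (FF D n lam) := by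
  have := ((CategoryTheory.Functor.exact_tfae (FF D n lam)).out 1 3).mp FF_map_exact
  exact this.2

instance : (FF D n lam).Linear ℂ where
  map_smul f c := by
    ext x
    change (algebraMap ℂ (R D n) c) • f.hom x = (alpha D n lam (algebraMap ℂ (R D n) c)) • f.hom x
    rw [AlgHom.commutes]

section
variable {V : Type} [AddCommGroup V] [Module ℂ V] [Module (R D n) V] [IsScalarTower ℂ (R D n) V]

/-- V with the action through alpha (a type synonym). -/
def AlV (_D : Dat) (_n : ℕ) (_lam : ℂˣ) (V : Type) : Type := V

instance : AddCommGroup (AlV D n lam V) := inferInstanceAs (AddCommGroup V)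
noncomputable instance : Module (R D n) (AlV D n lam V) :=
  inferInstanceAs (Module (R D n) ((FF D n lam).obj (ModuleCat.of (R D n) V)))

/-- g as a linear equivalence. -/
noncomputable def gEquiv (g : V ≃ₗ[ℂ] V)
    (hg : ∀ (x : R D n) (v : V), g (x • v) = alpha D n lam x • g v) : V ≃ₗ[R D n] AlV D n lam V :=
  { g.toEquiv with
    map_add' := g.map_add
    map_smul' := hg }

/-- The isomorphism of V with FF V given by g. -/
noncomputable def gIso (g : V ≃ₗ[ℂ] V) (hg : ∀ (x : R D n) (v : V), g (x • v) = alpha D n lam x • g v) :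
    ModuleCat.of (R D n) V ≅ (FF D n lam).obj (ModuleCat.of (R D n) V) :=
  (gEquiv g hg).toModuleIso

lemma gIso_apply (g : V ≃ₗ[ℂ] V)
    (hg : ∀ (x : R D n) (v : V), g (x • v) = alpha D n lam x • g v) (v : V) :
    (gIso g hg).hom v = g v := rfl

lemma gIso_inv_apply (g : V ≃ₗ[ℂ] V)
    (hg : ∀ (x : R D n) (v : V), g (x • v) = alpha D n lam x • g v) (v : V) :
    (gIso g hg).inv v = g.symm v := rfl

end

end CA1492
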