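import Mathlib
import Pool.Agent.Lib.MP_ca1492_al.Mod.VVa

/-!
V_0(w) = R ew w is projective.
-/

namespace CA1492

variable {D : Dat} {n : ℕ} {lam : ℂˣ}

/-- The idempotent of a word. -/
theorem VVc_idem (w : Wd D n) : (ew w * ew w : R D n) = ew w := by
  have h := (isRep_R D n).E_mul w w
  rw [if_pos rfl] at h
  exact h

/-- The class of `ew w` is the class of `1`. -/
theorem VVc_mk (w : Wd D n) : (Submodule.Quotient.mk (ew w : R D n) : VV w 0) =
    Submodule.Quotient.mk 1 := by
  symm
  rw [Submodule.Quotient.eq]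
  exact Submodule.subset_span (Or.inl rfl)

/-- The ideal is killed. -/
theorem VVc_ker (w : Wd D n) (N : Type) [AddCommGroup N] [Module (R D n) N] (v : N)
    (hv : (ew w : R D n) • v = v) :
    Jk w 0 ≤ LinearMap.ker (LinearMap.toSpanSingleton (R D n) N v) := by
  unfold Jk
  rw [Submodule.span_le]
  rintro x (rfl | ⟨j, hj, rfl⟩)
  · show _ ∈ LinearMap.ker _
    rw [LinearMap.mem_ker, LinearMap.toSpanSingleton_apply, sub_smul, one_smul, hv, sub_self]
  · exact absurd hj (Nat.not_lt_zero _)

/-- Linear maps from the quotient are determined by the image of `1`. -/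
theorem VVc_ext (w : Wd D n) (N : Type) [AddCommGroup N] [Module (R D n) N]
    (f g : VV w 0 →ₗ[R D n] N)
    (h : f (Submodule.Quotient.mk 1) = g (Submodule.Quotient.mk 1)) : f = g := by
  apply LinearMap.ext
  intro x
  induction x using Submodule.Quotient.induction_on with
  | _ x =>
    have h1 : (Submodule.Quotient.mk x : VV w 0) = x • Submodule.Quotient.mk (1 : R D n) := by
      rw [← Submodule.Quotient.mk_smul, smul_eq_mul, mul_one]
    rw [h1, map_smul, map_smul, h]

/-- Existence. -/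
theorem VVc_ex (w : Wd D n) (N : Type) [AddCommGroup N] [Module (R D n) N] (v : N)
    (hv : (ew w : R D n) • v = v) :
    ∃ f : VV w 0 →ₗ[R D n] N, f (Submodule.Quotient.mk 1) = v := by
  refine ⟨(Jk w 0).liftQ _ (VVc_ker w N v hv), ?_⟩
  have h1 : (Jk w 0).liftQ _ (VVc_ker w N v hv) (Submodule.Quotient.mk 1) =
    LinearMap.toSpanSingleton (R D n) N v 1 := rfl
  rw [h1, LinearMap.toSpanSingleton_apply, one_smul]

/-- V_0(w) is projective and Hom(V_0(w), N) = ew w N.
PROOF: x ↦ x * ew w gives VV w 0 ≃ R ew w, a direct summand of R (R = R ew w ⊕ R (1 - ew w)); the map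
N ∋ v ↦ (x ↦ x • v) for v = ew w • v. -/
theorem VV_zero_projective (w : Wd D n) : Module.Projective (R D n) (VV w 0) := by
  obtain ⟨i, hi⟩ := VVc_ex w (R D n) (ew w) (VVc_idem w)
  refine Module.Projective.of_split i (Jk w 0).mkQ ?_
  apply VVc_ext
  rw [LinearMap.comp_apply, hi, LinearMap.id_apply, Submodule.mkQ_apply]
  exact VVc_mk w

theorem VV_zero_hom (w : Wd D n) (N : Type) [AddCommGroup N] [Module ℂ N] [Module (R D n) N]
    [IsScalarTower ℂ (R D n) N] (v : N) (hv : (ew w : R D n) • v = v) :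
    ∃! f : VV w 0 →ₗ[R D n] N, f (Submodule.Quotient.mk 1) = v := by
  obtain ⟨f, hf⟩ := VVc_ex w N v hv
  refine ⟨f, hf, fun g hg => ?_⟩
  apply VVc_ext
  rw [hf]
  exact hg

end CA1492
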