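import Mathlib
import Pool.Agent.Lib.MP_ca1492_al.Ext.EPadd
import Pool.Agent.Lib.MP_ca1492_al.Mod.MCat
import Pool.Agent.Lib.MP_ca1492_al.Mod.VVb
import Pool.Agent.Lib.MP_ca1492_al.Mod.VVc

/-!
The Euler characteristic of traces of (V_k(w), N).
-/

namespace CA1492

open CategoryTheory CategoryTheory.Abelian CategoryTheory.Limits ExtT

variable {D : Dat} {n : ℕ} {lam : ℂˣ}

/-- Evaluation at the class of 1. -/
noncomputable def EPV_j (w : Wd D n) (N : FObj D n lam) :
    Ext (ModuleCat.of (R D n) (VV w 0)) (ModuleCat.of (R D n) N.V) 0 →ₗ[ℂ] N.V where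
  toFun e := (Ext.linearEquiv₀ (R := ℂ) e).hom (Submodule.Quotient.mk 1)
  map_add' e e' := by
    rw [map_add]
    rfl
  map_smul' c e := by
    have h := LinearEquiv.map_smul (Ext.linearEquiv₀ (R := ℂ)) c e
    have h2 := congrArg (fun f : ModuleCat.of (R D n) (VV w 0) ⟶ ModuleCat.of (R D n) N.V =>
      f.hom (Submodule.Quotient.mk 1)) h
    refine h2.trans ?_
    exact algebraMap_smul (R D n) c
      ((Ext.linearEquiv₀ (R := ℂ) e).hom (Submodule.Quotient.mk 1) : N.V)

theorem EPV_mk (w : Wd D n) (N : FObj D n lam)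
    (f : ModuleCat.of (R D n) (VV w 0) ⟶ ModuleCat.of (R D n) N.V) :
    EPV_j w N (Ext.mk₀ f) = f.hom (Submodule.Quotient.mk 1) := by
  have h1 : Ext.linearEquiv₀ (R := ℂ) (Ext.mk₀ f) = f := by
    rw [← Ext.linearEquiv₀_symm_apply (R := ℂ), LinearEquiv.apply_symm_apply]
  change (Ext.linearEquiv₀ (R := ℂ) (Ext.mk₀ f)).hom _ = _
  rw [h1]

theorem EPV_inj (w : Wd D n) (N : FObj D n lam) : Function.Injective (EPV_j w N) := by
  intro e e' h
  rw [← Ext.mk₀_linearEquiv₀_apply (R := ℂ) e, ← Ext.mk₀_linearEquiv₀_apply (R := ℂ) e'] at h ⊢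
  rw [EPV_mk, EPV_mk] at h
  congr 1
  apply ModuleCat.hom_ext
  apply LinearMap.ext
  intro v
  obtain ⟨x, rfl⟩ := Submodule.Quotient.mk_surjective _ v
  have hx : (Submodule.Quotient.mk x : VV w 0) = x • Submodule.Quotient.mk 1 := by
    rw [← Submodule.Quotient.mk_smul, smul_eq_mul, mul_one]
  rw [hx, map_smul, map_smul, h]

theorem EPV_mk_ew (w : Wd D n) (k : ℕ) :
    (Submodule.Quotient.mk (ew w) : VV w k) = Submodule.Quotient.mk 1 := by
  rw [Submodule.Quotient.eq]
  have h1 : (1 - ew w : R D n) ∈ Jk w k := Submodule.subset_span (Or.inl rfl)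
  have h2 := Submodule.neg_mem _ h1
  rwa [neg_sub] at h2

theorem EPV_word (w : Wd D n) (N : FObj D n lam)
    (e : Ext (ModuleCat.of (R D n) (VV w 0)) (ModuleCat.of (R D n) N.V) 0) :
    act N.V (ew w) (EPV_j w N e) = EPV_j w N e := by
  rw [← Ext.mk₀_linearEquiv₀_apply (R := ℂ) e, EPV_mk, act_apply, ← map_smul,
    ← Submodule.Quotient.mk_smul, smul_eq_mul, mul_one, EPV_mk_ew]

theorem EPV_phi (w : Wd D n) (N : FObj D n lam)
    (e : Ext (ModuleCat.of (R D n) (VV w 0)) (ModuleCat.of (R D n) N.V) 0) :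
    N.g.symm (EPV_j w N e) =
      EPV_j w N (phi (FF D n lam) (gIso (gV lam w 0) (gV_smul lam w 0)) (gIso N.g N.hg) 0 e) := by
  rw [← Ext.mk₀_linearEquiv₀_apply (R := ℂ) e, phi_zero, EPV_mk, EPV_mk]
  change _ = N.g.symm ((Ext.linearEquiv₀ (R := ℂ) e).hom (gV lam w 0 (Submodule.Quotient.mk 1)))
  rw [gV_mk, map_one]

/-- k = 0.
PROOF. V_0(w) is projective (`VV_zero_projective`, `IsProjective.iff_projective`), so Ext^i = 0 for i ≥ 1
(`Ext.eq_zero_of_projective` / `subsingleton_of_projective`), and Ext^0 = Hom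
(`Ext.linearEquiv₀`) ≅ {v ∈ N : ew w v = v} by f ↦ f (class of 1) (`VV_zero_hom`). By `phi_zero` the
endomorphism phi corresponds to v ↦ N.g.symm v (the class of 1 is fixed by gV). The trace of N.g.symm on the
range of the projection act (ew w), which commutes with it, is the trace of N.g.symm ∘ act (ew w).
The sum over i < B reduces to i = 0. -/
theorem EP_VV_zero (w : Wd D n) (N : FObj D n lam) :
    FinExt (ModuleCat.of (R D n) (VV w 0)) (ModuleCat.of (R D n) N.V) 1 ∧
    ∀ B, 1 ≤ B → EP (FF D n lam) (gIso (gV lam w 0) (gV_smul lam w 0)) (gIso N.g N.hg) B =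
      LinearMap.trace ℂ N.V (N.g.symm.toLinearMap ∘ₗ act N.V (ew w)) := by
  have hproj : Module.Projective (R D n) (VV w 0) := VV_zero_projective w
  have hP : Projective (ModuleCat.of (R D n) (VV w 0)) :=
    (IsProjective.iff_projective (VV w 0)).1 hproj
  have hsub : ∀ i, 1 ≤ i →
      Subsingleton (Ext (ModuleCat.of (R D n) (VV w 0)) (ModuleCat.of (R D n) N.V) i) := by
    intro i hi
    obtain ⟨k, rfl⟩ : ∃ k, i = k + 1 := ⟨i - 1, by omega⟩
    exact Ext.subsingleton_of_projective _ _ k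
  have hfin0 : Module.Finite ℂ (Ext (ModuleCat.of (R D n) (VV w 0)) (ModuleCat.of (R D n) N.V) 0) :=
    Module.Finite.of_injective (EPV_j w N) (EPV_inj w N)
  have hFin : FinExt (ModuleCat.of (R D n) (VV w 0)) (ModuleCat.of (R D n) N.V) 1 := by
    refine ⟨fun i => ?_, hsub⟩
    cases i with
    | zero => exact hfin0
    | succ i =>
      have := hsub (i + 1) (by omega)
      infer_instance
  refine ⟨hFin, fun B hB => ?_⟩
  rw [EP_bound (FF D n lam) _ _ hB hFin]
  unfold EP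
  rw [Finset.sum_range_one, pow_zero, one_mul]
  obtain ⟨j0, hj0⟩ := (EPV_j w N).exists_leftInverse_of_injective
    (LinearMap.ker_eq_bot.2 (EPV_inj w N))
  have h1 : EPV_j w N ∘ₗ (j0 ∘ₗ act N.V (ew w)) = act N.V (ew w) := by
    apply LinearMap.ext
    intro x
    have hx : (ew w : R D n) • (ew w : R D n) • x = (ew w : R D n) • x := by
      rw [smul_smul, ew_facts.1, if_pos rfl]
    obtain ⟨f, hf, -⟩ := VV_zero_hom w N.V ((ew w : R D n) • x) hx
    have h2 : EPV_j w N (Ext.mk₀ (ModuleCat.ofHom f)) = (ew w : R D n) • x := by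
      rw [EPV_mk]
      exact hf
    have h3 : j0 (EPV_j w N (Ext.mk₀ (ModuleCat.ofHom f))) = Ext.mk₀ (ModuleCat.ofHom f) :=
      LinearMap.congr_fun hj0 _
    rw [LinearMap.comp_apply, LinearMap.comp_apply, act_apply, ← h2, h3]
  have h2 : N.g.symm.toLinearMap ∘ₗ EPV_j w N = EPV_j w N ∘ₗ
      phi (FF D n lam) (gIso (gV lam w 0) (gV_smul lam w 0)) (gIso N.g N.hg) 0 :=
    LinearMap.ext fun e => EPV_phi w N e
  have h3 : (j0 ∘ₗ act N.V (ew w)) ∘ₗ EPV_j w N = LinearMap.id := by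
    apply LinearMap.ext
    intro e
    rw [LinearMap.comp_apply, LinearMap.comp_apply, EPV_word]
    exact LinearMap.congr_fun hj0 e
  have h4 : N.g.symm.toLinearMap ∘ₗ act N.V (ew w) =
      (N.g.symm.toLinearMap ∘ₗ EPV_j w N) ∘ₗ (j0 ∘ₗ act N.V (ew w)) := by
    rw [LinearMap.comp_assoc, h1]
  rw [h4, LinearMap.trace_comp_comm', h2, ← LinearMap.comp_assoc, h3, LinearMap.id_comp]

/-- g scaled by lam^2. -/
noncomputable def EPV_g (lam : ℂˣ) (w : Wd D n) (k : ℕ) : VV w k ≃ₗ[ℂ] VV w k :=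
  (gV lam w k).trans (LinearEquiv.smulOfUnit (lam ^ 2))

theorem EPV_g_apply (lam : ℂˣ) (w : Wd D n) (k : ℕ) (v : VV w k) :
    EPV_g lam w k v = ((lam : ℂ) ^ 2) • gV lam w k v := by
  change (lam ^ 2 : ℂˣ) • gV lam w k v = _
  rw [Units.smul_def, Units.val_pow_eq_pow_val]

theorem EPV_g_smul (lam : ℂˣ) (w : Wd D n) (k : ℕ) (x : R D n) (v : VV w k) :
    EPV_g lam w k (x • v) = alpha D n lam x • EPV_g lam w k v := by
  rw [EPV_g_apply, EPV_g_apply, gV_smul, smul_comm]

/-- PROOF. Induction on k with `exists_VV_ses` as a short exact sequence in ModuleCat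
(S.X₁ = S.X₂ = V_k, S.X₃ = V_{k+1}), `FinExt_X₃`, and `EP_add` with g2 = gV, g3 = gV, g1 = lam^2 • gV
(`gV_i` gives the compatibility with i; gp is clear on classes), `phi_smul` (EP of g1 is lam^2 times EP of
gV), `EP_bound`. -/
theorem EP_VV (w : Wd D n) (N : FObj D n lam) (k : ℕ) (hk : k ≤ n) :
    FinExt (ModuleCat.of (R D n) (VV w k)) (ModuleCat.of (R D n) N.V) (k + 1) ∧
    ∀ B, k + 1 ≤ B → EP (FF D n lam) (gIso (gV lam w k) (gV_smul lam w k)) (gIso N.g N.hg) B =
      (1 - (lam : ℂ) ^ 2) ^ k *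
        LinearMap.trace ℂ N.V (N.g.symm.toLinearMap ∘ₗ act N.V (ew w)) := by
  induction k with
  | zero =>
    refine ⟨(EP_VV_zero w N).1, fun B hB => ?_⟩
    rw [pow_zero, one_mul]
    exact (EP_VV_zero w N).2 B hB
  | succ k ih =>
    obtain ⟨hF, hE⟩ := ih (by omega)
    obtain ⟨i, p, hi, hp, hip, hi1, hp1⟩ := exists_VV_ses w k (by omega : k < n)
    have hzero : ModuleCat.ofHom i ≫ ModuleCat.ofHom p = 0 := by
      apply ModuleCat.hom_ext
      apply LinearMap.ext
      intro v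
      have h1 : i v ∈ LinearMap.ker p := by
        rw [← hip]
        exact ⟨v, rfl⟩
      exact h1
    let S : ShortComplex (MC D n) := ShortComplex.mk (ModuleCat.ofHom i) (ModuleCat.ofHom p) hzero
    have hS : S.ShortExact :=
      ModuleCat.shortComplex_shortExact S (LinearMap.exact_iff.2 hip.symm) hi hp
    have hF1 : FinExt S.X₁ (ModuleCat.of (R D n) N.V) (k + 1) := hF
    have hF2 : FinExt S.X₂ (ModuleCat.of (R D n) N.V) (k + 1) := hF
    have hF3 : FinExt S.X₃ (ModuleCat.of (R D n) N.V) (k + 1 + 1) := FinExt_X₃ hS hF1 hF2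
    refine ⟨hF3, fun B hB => ?_⟩
    have hm : ∀ {X : MC D n} {A : ℕ}, A ≤ B → FinExt X (ModuleCat.of (R D n) N.V) A →
        FinExt X (ModuleCat.of (R D n) N.V) B :=
      fun hA h => ⟨h.1, fun i hi => h.2 i (hA.trans hi)⟩
    let g1 : S.X₁ ≅ (FF D n lam).obj S.X₁ := gIso (EPV_g lam w k) (EPV_g_smul lam w k)
    let g2 : S.X₂ ≅ (FF D n lam).obj S.X₂ := gIso (gV lam w k) (gV_smul lam w k)
    let g3 : S.X₃ ≅ (FF D n lam).obj S.X₃ := gIso (gV lam w (k + 1)) (gV_smul lam w (k + 1))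
    have c1 : g1.hom ≫ (FF D n lam).map S.f = S.f ≫ g2.hom := by
      apply ModuleCat.hom_ext
      apply LinearMap.ext
      intro v
      change i (EPV_g lam w k v) = gV lam w k (i v)
      rw [EPV_g_apply, gV_i lam w k (by omega) i hi1]
    have c2 : g2.hom ≫ (FF D n lam).map S.g = S.g ≫ g3.hom := by
      apply ModuleCat.hom_ext
      apply LinearMap.ext
      intro v
      obtain ⟨x, rfl⟩ := Submodule.Quotient.mk_surjective _ v
      change p (gV lam w k (Submodule.Quotient.mk x)) =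
        gV lam w (k + 1) (p (Submodule.Quotient.mk x))
      rw [gV_mk, hp1, hp1, gV_mk]
    have hadd := EP_add (FF D n lam) hS g1 g2 g3 (gIso N.g N.hg) c1 c2 B (hm (by omega) hF1)
      (hm (by omega) hF2) (hm hB hF3)
    have hg1 : EP (FF D n lam) g1 (gIso N.g N.hg) B =
        ((lam : ℂ) ^ 2) * EP (FF D n lam) g2 (gIso N.g N.hg) B := by
      have h0 : g1.hom = ((lam : ℂ) ^ 2) • g2.hom := by
        apply ModuleCat.hom_ext
        apply LinearMap.ext
        intro v
        change EPV_g lam w k v =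
          (alpha D n lam (algebraMap ℂ (R D n) ((lam : ℂ) ^ 2))) • gV lam w k v
        rw [AlgHom.commutes, algebraMap_smul, EPV_g_apply]
      have h1 : ∀ i, phi (FF D n lam) g1 (gIso N.g N.hg) i =
          ((lam : ℂ) ^ 2) • phi (FF D n lam) g2 (gIso N.g N.hg) i := by
        intro i
        apply LinearMap.ext
        intro e
        exact phi_smul (FF D n lam) g2 g1 (gIso N.g N.hg) _ h0 i e
      unfold EP
      rw [Finset.mul_sum]
      refine Finset.sum_congr rfl fun i _ => ?_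
      rw [h1, map_smul, smul_eq_mul]
      ring
    have h2 : EP (FF D n lam) g2 (gIso N.g N.hg) B = (1 - (lam : ℂ) ^ 2) ^ k *
        LinearMap.trace ℂ N.V (N.g.symm.toLinearMap ∘ₗ act N.V (ew w)) := hE B (by omega)
    rw [hg1, h2] at hadd
    change EP (FF D n lam) g3 (gIso N.g N.hg) B = _
    rw [pow_succ]
    linear_combination -hadd

end CA1492
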