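import Mathlib
import Pool.Agent.Lib.MP_ca1492_al.Ext.TraceAlt
import Pool.Agent.Lib.MP_ca1492_al.Mod.FObj

/-!
Composition series of FObj's, the character as an additive function.
-/

namespace CA1492

variable {D : Dat} {n : ℕ} {lam : ℂˣ}

/-- IsoS is an equivalence relation up to the scalar. PROOF: e.symm, composition. -/
theorem IsoS_refl (M : FObj D n lam) : IsoS M M 1 :=
  ⟨LinearEquiv.refl (R D n) M.V, fun v => by
    rw [Units.val_one, one_smul]; rfl⟩
theorem IsoS_symm {M M' : FObj D n lam} {μ : ℂˣ} (h : IsoS M M' μ) : IsoS M' M μ⁻¹ := by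
  obtain ⟨e, he⟩ := h
  refine ⟨e.symm, fun v => ?_⟩
  apply e.injective
  have h1 := he (e.symm v)
  have h2 : e (((μ⁻¹ : ℂˣ) : ℂ) • M.g (e.symm v)) = ((μ⁻¹ : ℂˣ) : ℂ) • e (M.g (e.symm v)) :=
    ((e : M.V →ₗ[R D n] M'.V).map_smul_of_tower _ _)
  rw [e.apply_symm_apply, h2, h1, e.apply_symm_apply, smul_smul, ← Units.val_mul, inv_mul_cancel,
    Units.val_one, one_smul]
theorem IsoS_trans {M M' M'' : FObj D n lam} {μ μ' : ℂˣ} (h : IsoS M M' μ) (h' : IsoS M' M'' μ') :
    IsoS M M'' (μ * μ') := by
  obtain ⟨e, he⟩ := h
  obtain ⟨e', he'⟩ := h'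
  refine ⟨e.trans e', fun v => ?_⟩
  have h2 : e' ((μ : ℂ) • M'.g (e v)) = (μ : ℂ) • e' (M'.g (e v)) :=
    ((e' : M'.V →ₗ[R D n] M''.V).map_smul_of_tower _ _)
  rw [LinearEquiv.trans_apply, LinearEquiv.trans_apply, he v, h2, he', smul_smul, Units.val_mul]

/-- The short exact sequence of a g-stable submodule. PROOF: `Submodule.subtype`, `Submodule.mkQ`. -/
theorem SES_sub (M : FObj D n lam) (W : Submodule (R D n) M.V) (hW : ∀ v ∈ W, M.g v ∈ W) :
    Nonempty (SES (M.sub W hW) M (M.quot W hW)) := by
  refine ⟨{ i := (W.subtype : W →ₗ[R D n] M.V)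
            p := (W.mkQ : M.V →ₗ[R D n] M.V ⧸ W)
            inj := W.injective_subtype
            surj := W.mkQ_surjective
            exact := ?_
            gi := fun v => rfl
            gp := fun v => rfl }⟩
  change LinearMap.range W.subtype = LinearMap.ker W.mkQ
  rw [Submodule.range_subtype, Submodule.ker_mkQ]

/-- An additive function vanishes on the zero object. PROOF: SES M M M for V = 0 (all maps 0), so
T M = T M + T M. -/
theorem AddFun_zero (T : AddFun D n lam) (M : FObj D n lam) (h : ∀ v : M.V, v = 0) : T.T M = 0 := by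
  have hs : ∀ a b : M.V, a = b := fun a b => (h a).trans (h b).symm
  have key := T.add M M M
    { i := 0
      p := 0
      inj := fun a b _ => hs a b
      surj := fun b => ⟨b, hs _ _⟩
      exact := by
        apply SetLike.ext
        intro x
        rw [h x]
        simp
      gi := fun v => hs _ _
      gp := fun v => hs _ _ }
  exact left_eq_add.1 key

/-- Every object has a composition series, seen by all additive functions.
PROOF: strong induction on finrank ℂ M.V. If V = 0: r = 0, `AddFun_zero`. If M is simple: r = 1.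
Otherwise there is a g-stable submodule W, W ≠ ⊥, W ≠ ⊤; apply the induction hypothesis to M.sub W and
M.quot W (their dimensions are smaller) and `SES_sub`; concatenate (Fin.append or Fin (r + r')). -/
theorem exists_series (M : FObj D n lam) : ∃ (r : ℕ) (S : Fin r → FObj D n lam),
    (∀ j, IsSimp (S j)) ∧ ∀ T : AddFun D n lam, T.T M = ∑ j, T.T (S j) := by
  have main : ∀ (k : ℕ) (M : FObj D n lam), Module.finrank ℂ M.V ≤ k →
      ∃ (r : ℕ) (S : Fin r → FObj D n lam),
        (∀ j, IsSimp (S j)) ∧ ∀ T : AddFun D n lam, T.T M = ∑ j, T.T (S j) := by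
    intro k
    induction k with
    | zero =>
      intro M hM
      have hz : Subsingleton M.V := Module.finrank_zero_iff.1 (Nat.le_zero.1 hM)
      refine ⟨0, fun j => j.elim0, fun j => j.elim0, fun T => ?_⟩
      rw [AddFun_zero T M (fun v => Subsingleton.elim _ _)]
      simp
    | succ k ih =>
      intro M hM
      by_cases hz : ∀ v : M.V, v = 0
      · refine ⟨0, fun j => j.elim0, fun j => j.elim0, fun T => ?_⟩
        rw [AddFun_zero T M hz]
        simp
      by_cases hs : IsSimp M
      · refine ⟨1, fun _ => M, fun _ => hs, fun T => ?_⟩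
        simp
      push Not at hz
      have hex : ∃ W : Submodule (R D n) M.V, (∀ v ∈ W, M.g v ∈ W) ∧ W ≠ ⊥ ∧ W ≠ ⊤ := by
        by_contra hcon
        push Not at hcon
        apply hs
        refine ⟨hz, fun W hW => ?_⟩
        by_cases hb : W = ⊥
        · exact Or.inl hb
        · exact Or.inr (hcon W hW hb)
      obtain ⟨W, hW, hb, ht⟩ := hex
      have hbC : W.restrictScalars ℂ ≠ ⊥ := by
        intro h0
        apply hb
        rw [Submodule.eq_bot_iff] at h0 ⊢
        intro x hx
        exact h0 x hx
      have htC : W.restrictScalars ℂ ≠ ⊤ := by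
        intro h0
        apply ht
        rw [Submodule.eq_top_iff'] at h0 ⊢
        intro x
        exact h0 x
      have hlt : Module.finrank ℂ (W.restrictScalars ℂ) < Module.finrank ℂ M.V :=
        Submodule.finrank_lt htC
      have hpos : 0 < Module.finrank ℂ (W.restrictScalars ℂ) := by
        rw [Nat.pos_iff_ne_zero]
        intro h0
        exact hbC (Submodule.finrank_eq_zero.1 h0)
      have hsum := Submodule.finrank_quotient_add_finrank (W.restrictScalars ℂ)
      have h1 : Module.finrank ℂ (M.sub W hW).V ≤ k := by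
        have e : Module.finrank ℂ (M.sub W hW).V = Module.finrank ℂ (W.restrictScalars ℂ) := rfl
        omega
      have h2 : Module.finrank ℂ (M.quot W hW).V ≤ k := by
        have e : Module.finrank ℂ (M.quot W hW).V =
            Module.finrank ℂ (M.V ⧸ W.restrictScalars ℂ) := rfl
        omega
      obtain ⟨r, S, hS, hT⟩ := ih _ h1
      obtain ⟨r', S', hS', hT'⟩ := ih _ h2
      obtain ⟨ses⟩ := SES_sub M W hW
      refine ⟨r + r', Fin.append S S', ?_, ?_⟩
      · intro j
        refine Fin.addCases (fun i => ?_) (fun i => ?_) j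
        · rw [Fin.append_left]; exact hS i
        · rw [Fin.append_right]; exact hS' i
      · intro T
        rw [T.add _ _ _ ses, hT T, hT' T, Fin.sum_univ_add]
        congr 1
        · apply Finset.sum_congr rfl
          intro i _
          rw [Fin.append_left]
        · apply Finset.sum_congr rfl
          intro i _
          rw [Fin.append_right]
  exact main _ M le_rfl

/-- Trace of conjugate maps (up to a scalar). -/
theorem JH_trace_conj {V V' : Type} [AddCommGroup V] [Module ℂ V] [AddCommGroup V'] [Module ℂ V']
    (e : V ≃ₗ[ℂ] V') (a : Module.End ℂ V) (b : Module.End ℂ V') (h : ∀ v, e (a v) = b (e v)) :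
    LinearMap.trace ℂ V a = LinearMap.trace ℂ V' b := by
  have hb : b = e.conj a := by
    ext v
    rw [LinearEquiv.conj_apply_apply, h, e.apply_symm_apply]
  rw [hb, LinearMap.trace_conj']

/-- The character as an additive function.
PROOF of additivity: trace of an endomorphism preserving a subspace = trace on the subspace + trace on the
quotient (`CA1492.ExtT.trace_ker_add_range` of Ext/TraceAlt.lean may be imported, applied to p : M → M'',
whose kernel is the range of i, and conjugation by i : M' ≃ range). scal: g on M corresponds to μ • g' on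
M', trace is conjugation invariant (`LinearMap.trace_conj'`). -/
theorem exists_chFun (w : Wd D n) : ∃ T : AddFun D n lam, ∀ M, T.T M = ch M w := by
  refine ⟨⟨fun M => ch M w, ?_, ?_⟩, fun M => rfl⟩
  · intro M' M M'' s
    -- the complex linear versions
    let iC : M'.V →ₗ[ℂ] M.V :=
      { toFun := s.i
        map_add' := fun a b => map_add s.i a b
        map_smul' := fun c a => s.i.map_smul_of_tower c a }
    let pC : M.V →ₗ[ℂ] M''.V :=
      { toFun := s.p
        map_add' := fun a b => map_add s.p a b
        map_smul' := fun c a => s.p.map_smul_of_tower c a }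
    let a' : Module.End ℂ M'.V := M'.g.toLinearMap ∘ₗ act M'.V (ew w)
    let a : Module.End ℂ M.V := M.g.toLinearMap ∘ₗ act M.V (ew w)
    let a'' : Module.End ℂ M''.V := M''.g.toLinearMap ∘ₗ act M''.V (ew w)
    have hi : ∀ v, iC (a' v) = a (iC v) := by
      intro v
      change s.i (M'.g (ew w • v)) = M.g (ew w • s.i v)
      rw [s.gi, map_smul]
    have hp : ∀ v, pC (a v) = a'' (pC v) := by
      intro v
      change s.p (M.g (ew w • v)) = M''.g (ew w • s.p v)
      rw [s.gp, map_smul]
    have hcomm : pC ∘ₗ a = a'' ∘ₗ pC := by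
      ext v
      exact hp v
    have hk : ∀ x ∈ LinearMap.ker pC, a x ∈ LinearMap.ker pC := by
      intro x hx
      rw [LinearMap.mem_ker] at hx ⊢
      rw [hp, hx, map_zero]
    have hr : ∀ x ∈ LinearMap.range pC, a'' x ∈ LinearMap.range pC := by
      rintro _ ⟨x, rfl⟩
      exact ⟨a x, hp x⟩
    have hmain := ExtT.trace_ker_add_range pC a a'' hcomm hk hr
    have hker : LinearMap.range iC = LinearMap.ker pC := by
      apply SetLike.ext
      intro x
      have := SetLike.ext_iff.1 s.exact x
      exact this
    have hinj : Function.Injective iC := s.inj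
    have e1 : LinearMap.trace ℂ M'.V a' = LinearMap.trace ℂ (LinearMap.ker pC) (a.restrict hk) := by
      refine JH_trace_conj ((LinearEquiv.ofInjective iC hinj).trans (LinearEquiv.ofEq _ _ hker)) a'
        (a.restrict hk) ?_
      intro v
      apply Subtype.ext
      exact hi v
    have e2 : LinearMap.trace ℂ (LinearMap.range pC) (a''.restrict hr) =
        LinearMap.trace ℂ M''.V a'' := by
      have htop : LinearMap.range pC = ⊤ := LinearMap.range_eq_top.2 s.surj
      refine JH_trace_conj ((LinearEquiv.ofEq _ _ htop).trans Submodule.topEquiv) (a''.restrict hr)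
        a'' ?_
      intro v
      rfl
    rw [e2, ← e1] at hmain
    exact hmain
  · intro M M' μ h
    obtain ⟨e, he⟩ := h
    let eC : M.V ≃ₗ[ℂ] M'.V :=
      { toFun := e
        invFun := e.symm
        left_inv := e.left_inv
        right_inv := e.right_inv
        map_add' := fun a b => map_add e a b
        map_smul' := fun c a => (e : M.V →ₗ[R D n] M'.V).map_smul_of_tower c a }
    have h1 := JH_trace_conj eC (M.g.toLinearMap ∘ₗ act M.V (ew w))
      ((μ : ℂ) • (M'.g.toLinearMap ∘ₗ act M'.V (ew w))) (by
        intro v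
        change e (M.g (ew w • v)) = (μ : ℂ) • M'.g (ew w • e v)
        rw [he, map_smul])
    change LinearMap.trace ℂ M.V _ = (μ : ℂ) * LinearMap.trace ℂ M'.V _
    rw [h1, map_smul, smul_eq_mul]

end CA1492
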