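import Mathlib
import Pool.Agent.Lib.MP_ca1492_al.Mod.JH
import Pool.Agent.Lib.MP_ca1492_al.Mod.LSet

/-!
Linear independence of the characters of simple objects; additive functions depend only on characters.
-/

namespace CA1492

variable {D : Dat} {lam : ℂˣ}

/-- `R D 0` acts by scalars. -/
theorem LI_scalar (x : R D 0) : ∃ c : ℂ, x = algebraMap ℂ (R D 0) c := by
  induction x using R_induction with
  | hc c => exact ⟨c, rfl⟩
  | he w =>
    have h := (isRep_R D 0).E_sum
    have hu : ∀ w' : Wd D 0, w' = w := fun w' => Subsingleton.elim _ _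
    have h2 : ∑ w' : Wd D 0, (ew w' : R D 0) = ew w := by
      rw [Fintype.sum_eq_single w (fun w' hw' => absurd (hu w') hw')]
    refine ⟨1, ?_⟩
    rw [map_one, ← h2]
    exact h
  | hy k => exact k.elim0
  | hs r =>
    refine ⟨0, ?_⟩
    rw [map_zero]
    exact (isRep_R D 0).S_out r (by omega)
  | ha x y hx hy =>
    obtain ⟨c, rfl⟩ := hx
    obtain ⟨d, rfl⟩ := hy
    exact ⟨c + d, (map_add _ _ _).symm⟩
  | hm x y hx hy =>
    obtain ⟨c, rfl⟩ := hx
    obtain ⟨d, rfl⟩ := hy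
    exact ⟨c * d, (map_mul _ _ _).symm⟩

/-- A simple object of rank 0 is one-dimensional. -/
theorem LI_one_dim (M : FObj D 0 lam) (hM : IsSimp M) : ∃ (v : M.V) (μ : ℂ), v ≠ 0 ∧ μ ≠ 0 ∧
    M.g v = μ • v ∧ ∀ x : M.V, ∃ c : ℂ, x = c • v := by
  obtain ⟨⟨v0, hv0⟩, hsub⟩ := hM
  have hnt : Nontrivial M.V := ⟨⟨v0, 0, hv0⟩⟩
  obtain ⟨μ, hμ⟩ := Module.End.exists_eigenvalue (K := ℂ) (V := M.V) M.g.toLinearMap
  obtain ⟨v, hv⟩ := hμ.exists_hasEigenvector
  have hgv : M.g v = μ • v := hv.apply_eq_smul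
  have hv1 : v ≠ 0 := hv.2
  have hμ0 : μ ≠ 0 := by
    intro h0
    rw [h0, zero_smul] at hgv
    exact hv1 (M.g.injective (by rw [hgv, map_zero]))
  let W : Submodule (R D 0) M.V :=
    { carrier := {x | ∃ c : ℂ, x = c • v}
      add_mem' := by
        rintro _ _ ⟨c, rfl⟩ ⟨d, rfl⟩
        exact ⟨c + d, (add_smul _ _ _).symm⟩
      zero_mem' := ⟨0, (zero_smul _ _).symm⟩
      smul_mem' := by
        rintro x _ ⟨c, rfl⟩
        obtain ⟨d, rfl⟩ := LI_scalar x
        refine ⟨d * c, ?_⟩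
        rw [algebraMap_smul, mul_smul] }
  have hW : ∀ x ∈ W, M.g x ∈ W := by
    rintro _ ⟨c, rfl⟩
    refine ⟨c * μ, ?_⟩
    rw [map_smul, hgv, mul_smul]
  refine ⟨v, μ, hv1, hμ0, hgv, ?_⟩
  rcases hsub W hW with h | h
  · exfalso
    have hvW : v ∈ W := ⟨1, (one_smul _ _).symm⟩
    rw [h, Submodule.mem_bot] at hvW
    exact hv1 hvW
  · intro x
    have hx : x ∈ W := by rw [h]; exact Submodule.mem_top
    exact hx

theorem LI_equiv {V : Type} [AddCommGroup V] [Module ℂ V] (v : V) (hv : v ≠ 0)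
    (h : ∀ x : V, ∃ c : ℂ, x = c • v) : ∃ e : ℂ ≃ₗ[ℂ] V, ∀ c, e c = c • v := by
  refine ⟨LinearEquiv.ofBijective (LinearMap.toSpanSingleton ℂ V v) ⟨?_, ?_⟩, fun c => rfl⟩
  · intro c d hcd
    have h1 : c • v = d • v := hcd
    exact smul_left_injective ℂ hv h1
  · intro x
    obtain ⟨c, hc⟩ := h x
    exact ⟨c, hc.symm⟩

theorem LI_iso (M M' : FObj D 0 lam) (hM : IsSimp M) (hM' : IsSimp M') : ∃ μ, IsoS M M' μ := by
  obtain ⟨v, μ, hv, hμ, hg, hs⟩ := LI_one_dim M hM
  obtain ⟨v', μ', hv', hμ', hg', hs'⟩ := LI_one_dim M' hM'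
  obtain ⟨e, he⟩ := LI_equiv v hv hs
  obtain ⟨e', he'⟩ := LI_equiv v' hv' hs'
  let f : M.V ≃ₗ[ℂ] M'.V := e.symm.trans e'
  have hf : ∀ c : ℂ, f (c • v) = c • v' := by
    intro c
    show e' (e.symm (c • v)) = c • v'
    rw [← he c, LinearEquiv.symm_apply_apply, he']
  let F : M.V ≃ₗ[R D 0] M'.V :=
    { f with
      map_smul' := by
        intro x m
        show f (x • m) = x • f m
        obtain ⟨d, rfl⟩ := LI_scalar x
        rw [algebraMap_smul, algebraMap_smul, map_smul] }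
  refine ⟨Units.mk0 (μ / μ') (div_ne_zero hμ hμ'), F, ?_⟩
  intro x
  obtain ⟨c, rfl⟩ := hs x
  show f (M.g (c • v)) = (μ / μ') • M'.g (f (c • v))
  have e1 : M.g (c • v) = (c * μ) • v := by rw [map_smul, hg, smul_smul]
  have e2 : M'.g (c • v') = (c * μ') • v' := by rw [map_smul, hg', smul_smul]
  rw [e1, hf, hf, e2, smul_smul]
  congr 1
  field_simp

theorem LI_ch_zero (M : FObj D 0 lam) (hM : IsSimp M) (w : Wd D 0) : ch M w ≠ 0 := by
  obtain ⟨v, μ, hv, hμ, hg, hs⟩ := LI_one_dim M hM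
  obtain ⟨e, he⟩ := LI_equiv v hv hs
  have hew : (ew w : R D 0) = 1 := by
    have h := (isRep_R D 0).E_sum
    have h2 : ∑ w' : Wd D 0, (ew w' : R D 0) = ew w := by
      rw [Fintype.sum_eq_single w (fun w' hw' => absurd (Subsingleton.elim _ _) hw')]
    rw [← h2]
    exact h
  have h1 : M.g.toLinearMap ∘ₗ act M.V (ew w) = μ • (LinearMap.id : M.V →ₗ[ℂ] M.V) := by
    refine LinearMap.ext fun x => ?_
    obtain ⟨c, rfl⟩ := hs x
    show M.g ((ew w : R D 0) • (c • v)) = μ • (c • v)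
    rw [hew, one_smul, map_smul, hg, smul_comm]
  have h2 : Module.finrank ℂ M.V = 1 := by
    rw [← LinearEquiv.finrank_eq e, Module.finrank_self]
  rw [ch, h1, map_smul, LinearMap.trace_id, h2, Nat.cast_one, smul_eq_mul, mul_one]
  exact hμ

/-- Rank 0.
PROOF. In R D 0 the only word e gives ew e = 1 (E_sum), so every R D 0-submodule is a ℂ-subspace and
conversely (R D 0 = ℂ: `R_induction`: every x acts as a scalar). A simple object is one-dimensional (an
eigenvector of g spans a g-stable submodule); ch M e = the eigenvalue ≠ 0; two simple objects are IsoS with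
μ = quotient of the eigenvalues. So ι has at most one element. -/
theorem LI_zero {ι : Type} [Fintype ι] (S : ι → FObj D 0 lam) (hS : ∀ j, IsSimp (S j))
    (hni : ∀ j k, j ≠ k → ∀ μ, ¬ IsoS (S j) (S k) μ) (c : ι → ℂ)
    (h : ∀ w, ∑ j, c j * ch (S j) w = 0) : ∀ j, c j = 0 := by
  intro j
  have hall : ∀ k, k = j := by
    intro k
    by_contra hkj
    obtain ⟨μ, hμ⟩ := LI_iso (S k) (S j) (hS k) (hS j)
    exact hni k j hkj μ hμ
  have hw := h (fun i => i.elim0)
  rw [Fintype.sum_eq_single j (fun k hk => absurd (hall k) hk)] at hw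
  rcases mul_eq_zero.mp hw with h1 | h1
  · exact h1
  · exact absurd h1 (LI_ch_zero _ (hS j) _)

/-- the word `w` ends with `i^m` and acts non-trivially on `M` -/
def LIends {n : ℕ} (i : D.J) (m : ℕ) (M : FObj D n lam) : Prop :=
  ∃ w : Wd D n, (∀ t : Fin n, n - m ≤ t.val → w t = i) ∧ ∃ v : M.V, (ew w : R D n) • v ≠ 0

theorem LI_append {a m : ℕ} (i : D.J) (w : Wd D (a + m))
    (h : ∀ t : Fin (a + m), (a + m) - m ≤ t.val → w t = i) :
    w = Fin.append (fun j => w (Fin.castAdd m j)) (fun _ => i) := by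
  funext t
  refine Fin.addCases (fun j => ?_) (fun j => ?_) t
  · rw [Fin.append_left]
  · rw [Fin.append_right]
    apply h
    rw [Fin.val_natAdd]
    omega

theorem LI_cm (hl : PosNe lam) (m : ℕ) :
    (∑ q : Sq m, ((lam ^ (-2 * (lenS 0 m (sqFun q) : ℤ)) : ℂˣ) : ℂ)) ≠ 0 := by
  obtain ⟨t, ht, _, hlt⟩ := hl
  have h1 : ∀ q : Sq m, ((lam ^ (-2 * (lenS 0 m (sqFun q) : ℤ)) : ℂˣ) : ℂ) =
      ((t ^ (-2 * (lenS 0 m (sqFun q) : ℤ)) : ℝ) : ℂ) := by
    intro q
    rw [Units.val_zpow_eq_zpow_val, hlt, Complex.ofReal_zpow]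
  rw [Finset.sum_congr rfl (fun q _ => h1 q), ← Complex.ofReal_sum]
  have hne : (Finset.univ : Finset (Sq m)).Nonempty :=
    ⟨fun j => ⟨0, Nat.succ_pos _⟩, Finset.mem_univ _⟩
  have hpos : 0 < ∑ q : Sq m, t ^ (-2 * (lenS 0 m (sqFun q) : ℤ)) :=
    Finset.sum_pos (fun q _ => zpow_pos ht _) hne
  exact_mod_cast hpos.ne'

/-- the induction step, at the maximal power -/
theorem LI_step (hl : PosNe lam) {a m : ℕ}
    (ih : ∀ {ι : Type} [Fintype ι] (S : ι → FObj D a lam)
      (_ : ∀ j, IsSimp (S j)) (_ : ∀ j k, j ≠ k → ∀ μ, ¬ IsoS (S j) (S k) μ) (c : ι → ℂ)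
      (_ : ∀ w, ∑ j, c j * ch (S j) w = 0), ∀ j, c j = 0)
    {ι : Type} [Fintype ι] (S : ι → FObj D (a + m) lam)
    (hS : ∀ j, IsSimp (S j)) (hni : ∀ j k, j ≠ k → ∀ μ, ¬ IsoS (S j) (S k) μ) (c : ι → ℂ)
    (hc : ∀ w, ∑ j, c j * ch (S j) w = 0) (i : D.J) (j : ι) (hj : c j ≠ 0)
    (hP : LIends i m (S j))
    (hmax : 0 < a → ∀ k, c k ≠ 0 → ¬ LIends i (m + 1) (S k)) : False := by
  classical
  let T : Type := {k : ι // c k ≠ 0 ∧ ∃ (u : Wd D a) (v : (S k).V),
    (ew (Fin.append u (fun _ => i)) : R D (a + m)) • v ≠ 0}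
  have hset : ∀ k : T, ∃ (N : Submodule ℂ (S k.1).V) (St : Setup (S k.1) i N),
      IsSimp ((S k.1).restr N St.hL St.hg) := by
    intro k
    refine exists_setup hl (S k.1) (hS k.1) i k.2.2 ?_
    intro u h0 hu v
    by_contra hne
    refine hmax h0 k.1 k.2.1 ⟨Fin.append u (fun _ => i), ?_, v, hne⟩
    intro t ht
    refine Fin.addCases (motive := fun t : Fin (a + m) => a + m - (m + 1) ≤ t.val →
      (Fin.append u (fun _ => i) : Wd D (a + m)) t = i) (fun l hl' => ?_) (fun l _ => ?_) t ht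
    · rw [Fin.append_left, ← hu]
      congr 1
      apply Fin.ext
      rw [Fin.val_castAdd] at hl'
      have := l.2
      show l.val = a - 1
      omega
    · rw [Fin.append_right]
  choose N St hsimp using hset
  have key : ∀ u : Wd D a, ∑ k : T, c k.1 * ch ((S k.1).restr (N k) (St k).hL (St k).hg) u = 0 := by
    intro u
    have h1 := hc (Fin.append u (fun _ => i))
    have h2 : ∀ k : ι, ¬ (c k ≠ 0 ∧ ∃ (u : Wd D a) (v : (S k).V),
        (ew (Fin.append u (fun _ => i)) : R D (a + m)) • v ≠ 0) →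
        c k * ch (S k) (Fin.append u (fun _ => i)) = 0 := by
      intro k hk
      by_cases hck : c k = 0
      · rw [hck, zero_mul]
      · have h3 : ∀ v : (S k).V, (ew (Fin.append u (fun _ => i)) : R D (a + m)) • v = 0 := by
          intro v
          by_contra hv
          exact hk ⟨hck, u, v, hv⟩
        have h4 : (S k).g.toLinearMap ∘ₗ act (S k).V
            (ew (Fin.append u (fun _ => i)) : R D (a + m)) = 0 := by
          refine LinearMap.ext fun v => ?_
          show (S k).g ((ew (Fin.append u (fun _ => i)) : R D (a + m)) • v) = 0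
          rw [h3, map_zero]
        rw [ch, h4, map_zero, mul_zero]
    have h5 : ∑ k : ι, c k * ch (S k) (Fin.append u (fun _ => i)) =
        ∑ k : T, c k.1 * ch (S k.1) (Fin.append u (fun _ => i)) := by
      rw [← Fintype.sum_subtype_add_sum_subtype (fun k : ι => c k ≠ 0 ∧
        ∃ (u : Wd D a) (v : (S k).V), (ew (Fin.append u (fun _ => i)) : R D (a + m)) • v ≠ 0)
        (fun k : ι => c k * ch (S k) (Fin.append u (fun _ => i)))]
      rw [Finset.sum_eq_zero (s := (Finset.univ : Finset {k : ι // ¬ (c k ≠ 0 ∧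
        ∃ (u : Wd D a) (v : (S k).V), (ew (Fin.append u (fun _ => i)) : R D (a + m)) • v ≠ 0)}))
        (fun k _ => h2 k.1 k.2), add_zero]
    rw [h5] at h1
    have h6 : ∀ k : T, c k.1 * ch (S k.1) (Fin.append u (fun _ => i)) =
        (∑ q : Sq m, ((lam ^ (-2 * (lenS 0 m (sqFun q) : ℤ)) : ℂˣ) : ℂ)) *
          (c k.1 * ch ((S k.1).restr (N k) (St k).hL (St k).hg) u) := by
      intro k
      rw [setup_trace (St k) u]
      ring
    rw [Finset.sum_congr rfl (fun k _ => h6 k), ← Finset.mul_sum] at h1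
    exact (mul_eq_zero.mp h1).resolve_left (LI_cm hl m)
  have hres := ih (fun k : T => (S k.1).restr (N k) (St k).hL (St k).hg) hsimp
    (fun k l hkl μ hμ => hni k.1 l.1 (fun h => hkl (Subtype.ext h)) μ
      (iso_of_restr (hS k.1) (hS l.1) (St k) (St l) hμ)) (fun k => c k.1) key
  obtain ⟨w, hw, v, hv⟩ := hP
  rw [LI_append i w hw] at hv
  exact hj (hres ⟨j, hj, _, v, hv⟩)

/-- LINEAR INDEPENDENCE.
PROOF. Strong induction on n; n = 0: `LI_zero`. n ≥ 1: suppose some c j ≠ 0. S j is non-zero, so some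
word w has ew w • v ≠ 0 in S j (∑ ew w = 1); let i be its last letter. Let m ≥ 1 be maximal such that for
some k with c k ≠ 0 some word ending with i^m acts non-trivially on S k (m ≤ n). Write n = a + m
(subst), a < n. For the k with c k ≠ 0 and such a word: `exists_setup` gives N_k (h2 by maximality of m).
For the other k with c k ≠ 0 the characters vanish on the words append u i^m. So by `setup_trace`
c_m * ∑_k c k * ch N_k u = 0 for all u : Wd D a, where c_m = ∑_q lam^(-2 len q) ≠ 0 (a sum of positive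
real numbers, PosNe). The N_k are simple and pairwise not IsoS (`iso_of_restr`), so by
induction c k = 0 for these k: contradiction. -/
theorem LI (hl : PosNe lam) (n : ℕ) : ∀ {ι : Type} [Fintype ι] (S : ι → FObj D n lam)
    (_ : ∀ j, IsSimp (S j)) (_ : ∀ j k, j ≠ k → ∀ μ, ¬ IsoS (S j) (S k) μ) (c : ι → ℂ)
    (_ : ∀ w, ∑ j, c j * ch (S j) w = 0), ∀ j, c j = 0 := by
  classical
  induction n using Nat.strong_induction_on with
  | _ n ih =>
  intro ι _ S hS hni c hc j
  rcases Nat.eq_zero_or_pos n with h0 | h0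
  · subst h0
    exact LI_zero S hS hni c hc j
  by_contra hj
  obtain ⟨v, hv⟩ := (hS j).1
  have hw : ∃ w : Wd D n, (ew w : R D n) • v ≠ 0 := by
    by_contra hno
    apply hv
    have h1 : (∑ w : Wd D n, (ew w : R D n)) = 1 := (isRep_R D n).E_sum
    have h2 : (∑ w : Wd D n, (ew w : R D n)) • v = v := by rw [h1, one_smul]
    rw [← h2, Finset.sum_smul]
    refine Finset.sum_eq_zero fun w _ => ?_
    by_contra h3
    exact hno ⟨w, h3⟩
  obtain ⟨w, hw⟩ := hw
  obtain ⟨i, hi⟩ : ∃ i, i = w ⟨n - 1, by omega⟩ := ⟨_, rfl⟩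
  obtain ⟨m, hm1, hmn, ⟨k, hk, hPk⟩, hmax⟩ : ∃ m, 1 ≤ m ∧ m ≤ n ∧
      (∃ k, c k ≠ 0 ∧ LIends i m (S k)) ∧
      ∀ m', m < m' → m' ≤ n → ¬ ∃ k, c k ≠ 0 ∧ LIends i m' (S k) := by
    have hP1 : ∃ k, c k ≠ 0 ∧ LIends i 1 (S k) := by
      refine ⟨j, hj, w, fun t ht => ?_, v, hw⟩
      rw [hi]
      congr 1
      apply Fin.ext
      have := t.2
      show t.val = n - 1
      omega
    exact ⟨Nat.findGreatest (fun m => ∃ k, c k ≠ 0 ∧ LIends i m (S k)) n,
      Nat.le_findGreatest h0 hP1, Nat.findGreatest_le n,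
      Nat.findGreatest_spec (P := fun m => ∃ k, c k ≠ 0 ∧ LIends i m (S k)) h0 hP1,
      fun m' h h' => Nat.findGreatest_is_greatest h h'⟩
  obtain ⟨a, ha⟩ : ∃ a, n = a + m := ⟨n - m, by omega⟩
  subst ha
  exact LI_step hl (fun S' h1 h2 c' h3 => ih a (by omega) S' h1 h2 c' h3) S hS hni c hc i k hk hPk
    (fun _ k' hk' h => hmax (m + 1) (by omega) (by omega) ⟨k', hk', h⟩)

/-- Additive functions depend only on the character.
PROOF. For every k choose a series (`exists_series`) S k j, j < r k. On the finite type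
J = Σ k, Fin (r k) define j ~ j' iff IsoS for some μ (an equivalence relation, Mod/JH.lean) and let
rep be a choice of representatives (Quotient.out), S j ≅ S (rep j) up to μ j. Then for every additive
function T (in particular for ch(.) w, `exists_chFun`): ∑_k c k T (M k) = ∑_k ∑_j c k μ_{kj} T (S (rep)) =
∑_{classes} C_class T (S rep_class), with C_class = ∑ c k μ_{kj} over the class. For T = ch w this is 0
for all w, so all C_class = 0 by `LI` (representatives of different classes are not IsoS). -/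
theorem additive_of_ch (hl : PosNe lam) {n : ℕ} {ι : Type} [Fintype ι] (M : ι → FObj D n lam)
    (c : ι → ℂ) (h : ∀ w, ∑ k, c k * ch (M k) w = 0) (T : AddFun D n lam) :
    ∑ k, c k * T.T (M k) = 0 := by
  classical
  choose r S hS hT using fun k => exists_series (M k)
  let Sf : (Σ k, Fin (r k)) → FObj D n lam := fun x => S x.1 x.2
  let st : Setoid (Σ k, Fin (r k)) :=
    { r := fun x y => ∃ μ, IsoS (Sf x) (Sf y) μ
      iseqv := ⟨fun x => ⟨1, IsoS_refl _⟩, fun ⟨μ, h⟩ => ⟨μ⁻¹, IsoS_symm h⟩,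
        fun ⟨μ, h⟩ ⟨μ', h'⟩ => ⟨μ * μ', IsoS_trans h h'⟩⟩ }
  have hQ : Fintype (Quotient st) := Fintype.ofFinite _
  have hrep : ∀ x : (Σ k, Fin (r k)), ∃ μ, IsoS (Sf x) (Sf (Quotient.out (Quotient.mk st x))) μ :=
    fun x => Setoid.symm (Quotient.mk_out x)
  choose μ hμ using hrep
  let C : Quotient st → ℂ := fun q => ∑ x : (Σ k, Fin (r k)),
    if Quotient.mk st x = q then c x.1 * μ x else 0
  have hexp : ∀ T' : AddFun D n lam,
      ∑ k, c k * T'.T (M k) = ∑ q, C q * T'.T (Sf (Quotient.out q)) := by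
    intro T'
    have e1 : ∑ k, c k * T'.T (M k) = ∑ x : (Σ k, Fin (r k)), c x.1 * T'.T (Sf x) := by
      rw [Fintype.sum_sigma]
      refine Finset.sum_congr rfl fun k _ => ?_
      rw [hT k T', Finset.mul_sum]
    have e2 : ∀ x : (Σ k, Fin (r k)), c x.1 * T'.T (Sf x) = ∑ q : Quotient st,
        (if Quotient.mk st x = q then c x.1 * μ x else 0) * T'.T (Sf (Quotient.out q)) := by
      intro x
      rw [Fintype.sum_eq_single (Quotient.mk st x)
        (fun q hq => by rw [if_neg (fun h' => hq h'.symm), zero_mul]), if_pos rfl,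
        T'.scal _ _ _ (hμ x)]
      ring
    rw [e1, Finset.sum_congr rfl (fun x _ => e2 x), Finset.sum_comm]
    refine Finset.sum_congr rfl fun q _ => ?_
    rw [Finset.sum_mul]
  have hC : ∀ q, C q = 0 := by
    refine LI hl n (fun q => Sf (Quotient.out q)) (fun q => hS _ _) ?_ C ?_
    · intro q q' hq μ' hμ'
      apply hq
      have h1 : Quotient.mk st (Quotient.out q) = Quotient.mk st (Quotient.out q') :=
        Quotient.sound ⟨μ', hμ'⟩
      rwa [Quotient.out_eq, Quotient.out_eq] at h1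
    · intro w
      obtain ⟨Tw, hTw⟩ := exists_chFun (D := D) (n := n) (lam := lam) w
      have h1 := hexp Tw
      simp only [hTw] at h1
      rw [← h1]
      exact h w
  rw [hexp T]
  exact Finset.sum_eq_zero fun q _ => by rw [hC q, zero_mul]

end CA1492
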