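import Mathlib
import Pool.Agent.Lib.MP_ca1492_al.Mod.EPV
import Pool.Agent.Lib.MP_ca1492_al.Mod.LI

/-!
The abstract non-vanishing criterion (finiteness of Ext is a hypothesis here, module FIN).
-/

namespace CA1492

open CategoryTheory CategoryTheory.Abelian CategoryTheory.Limits ExtT

variable {D : Dat} {n : ℕ} {lam : ℂˣ}

/-- A short exact sequence of FObj's as a short complex. -/
noncomputable def AbsS {M' M M'' : FObj D n lam} (s : SES M' M M'') : ShortComplex (MC D n) :=
  ShortComplex.mk (ModuleCat.ofHom s.i) (ModuleCat.ofHom s.p) (by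
    ext v
    have h : s.i v ∈ LinearMap.ker s.p := by
      rw [← s.exact]
      exact ⟨v, rfl⟩
    exact h)

theorem AbsS_exact {M' M M'' : FObj D n lam} (s : SES M' M M'') : (AbsS s).ShortExact where
  exact := by
    rw [CategoryTheory.ShortComplex.ShortExact.moduleCat_exact_iff_function_exact]
    intro y
    have h : y ∈ LinearMap.ker s.p ↔ y ∈ LinearMap.range s.i := by rw [s.exact]
    exact h
  mono_f := (ModuleCat.mono_iff_injective _).2 s.inj
  epi_g := (ModuleCat.epi_iff_surjective _).2 s.surj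

/-- trace of `phi` and isomorphisms in the first variable -/
theorem Abs_trace {C : Type*} [Category C] [Abelian C] [Linear ℂ C] [HasExt C]
    (F : C ⥤ C) [F.Additive] [F.Linear ℂ] [PreservesFiniteLimits F] [PreservesFiniteColimits F]
    {X X' Y : C} (gX : X ≅ F.obj X) (gX' : X' ≅ F.obj X') (gY : Y ≅ F.obj Y)
    (f : X' ≅ X) (hf : gX'.hom ≫ F.map f.hom = f.hom ≫ gX.hom) (i : ℕ) :
    LinearMap.trace ℂ (Ext X' Y i) (phi F gX' gY i) =
      LinearMap.trace ℂ (Ext X Y i) (phi F gX gY i) := by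
  let P : Ext X Y i ≃ₗ[ℂ] Ext X' Y i :=
    LinearEquiv.ofLinearMap (Ext.precompOfLinear (Ext.mk₀ f.hom) ℂ Y (zero_add i))
      (Ext.precompOfLinear (Ext.mk₀ f.inv) ℂ Y (zero_add i))
      (by
        refine LinearMap.ext fun e => ?_
        show (Ext.mk₀ f.hom).comp ((Ext.mk₀ f.inv).comp e (zero_add i)) (zero_add i) = e
        rw [Ext.mk₀_comp_mk₀_assoc, f.hom_inv_id, Ext.mk₀_id_comp])
      (by
        refine LinearMap.ext fun e => ?_
        show (Ext.mk₀ f.inv).comp ((Ext.mk₀ f.hom).comp e (zero_add i)) (zero_add i) = e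
        rw [Ext.mk₀_comp_mk₀_assoc, f.inv_hom_id, Ext.mk₀_id_comp])
  have h : phi F gX' gY i = P.conj (phi F gX gY i) := by
    refine LinearMap.ext fun e => ?_
    obtain ⟨e', rfl⟩ := P.surjective e
    rw [LinearEquiv.conj_apply_apply, LinearEquiv.symm_apply_apply]
    exact phi_precomp F gX gX' gY f.hom hf i e'
  rw [h, LinearMap.trace_conj']

/-- EP(-, N) as an additive function.
PROOF. add: a SES of FObj's is a short exact sequence in ModuleCat with compatible gIso's: `EP_add`.
scal: for e : M ≃ M' with e (g v) = μ g' (e v): conjugation by precomposition with mk₀ e: `phi_precomp` for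
f = e and the isomorphisms gIso M.g on M and μ • gIso M'.g on M' (`phi_smul`), and the trace is invariant
under conjugation (precomposition with mk₀ of an isomorphism is a linear equivalence of Ext groups). -/
theorem exists_EPFun (N : FObj D n lam)
    (hfin : ∀ M : FObj D n lam,
      FinExt (ModuleCat.of (R D n) M.V) (ModuleCat.of (R D n) N.V) (n + 1)) :
    ∃ T : AddFun D n lam, ∀ M, T.T M =
      EP (FF D n lam) (gIso M.g M.hg) (gIso N.g N.hg) (n + 1) := by
  refine ⟨⟨fun M => EP (FF D n lam) (gIso M.g M.hg) (gIso N.g N.hg) (n + 1), ?_, ?_⟩,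
    fun M => rfl⟩
  · intro M' M M'' s
    have h := EP_add (FF D n lam) (AbsS_exact s) (Y := ModuleCat.of (R D n) N.V)
      (gIso M'.g M'.hg) (gIso M.g M.hg) (gIso M''.g M''.hg) (gIso N.g N.hg)
      (by
        ext v
        exact s.gi v)
      (by
        ext v
        exact s.gp v)
      (n + 1) (hfin M') (hfin M) (hfin M'')
    exact h
  · intro M M' μ hμ
    obtain ⟨e, he⟩ := hμ
    let g' : M'.V ≃ₗ[ℂ] M'.V := M'.g.trans (LinearEquiv.smulOfNeZero ℂ M'.V (μ : ℂ) μ.ne_zero)
    have hg'a : ∀ v, g' v = (μ : ℂ) • M'.g v := fun v => rfl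
    have hg' : ∀ (x : R D n) (v : M'.V), g' (x • v) = alpha D n lam x • g' v := by
      intro x v
      rw [hg'a, hg'a, M'.hg, smul_comm]
    have h1 : ∀ i, LinearMap.trace ℂ
        (Ext.{0} (ModuleCat.of (R D n) M.V) (ModuleCat.of (R D n) N.V) i)
        (phi (FF D n lam) (gIso M.g M.hg) (gIso N.g N.hg) i) = LinearMap.trace ℂ
        (Ext.{0} (ModuleCat.of (R D n) M'.V) (ModuleCat.of (R D n) N.V) i)
        (phi (FF D n lam) (gIso g' hg') (gIso N.g N.hg) i) := by
      intro i
      refine Abs_trace (FF D n lam) (gIso g' hg') (gIso M.g M.hg) (gIso N.g N.hg)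
        e.toModuleIso ?_ i
      ext v
      exact he v
    have h2 : ∀ i, phi (FF D n lam) (gIso g' hg') (gIso N.g N.hg) i =
        (μ : ℂ) • phi (FF D n lam) (gIso M'.g M'.hg) (gIso N.g N.hg) i := by
      intro i
      refine LinearMap.ext fun x => ?_
      refine phi_smul (FF D n lam) (gIso M'.g M'.hg) (gIso g' hg') (gIso N.g N.hg) (μ : ℂ) ?_ i x
      ext v
      have h3 : algebraMap ℂ (R D n) (μ : ℂ) • M'.g v = (μ : ℂ) • M'.g v := algebraMap_smul _ _ _
      have h4 : alpha D n lam (algebraMap ℂ (R D n) (μ : ℂ)) = algebraMap ℂ (R D n) (μ : ℂ) :=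
        AlgHom.commutes _ _
      show (μ : ℂ) • M'.g v = alpha D n lam (algebraMap ℂ (R D n) (μ : ℂ)) • M'.g v
      rw [h4, h3]
    show EP (FF D n lam) (gIso M.g M.hg) (gIso N.g N.hg) (n + 1) =
      (μ : ℂ) * EP (FF D n lam) (gIso M'.g M'.hg) (gIso N.g N.hg) (n + 1)
    unfold EP
    rw [Finset.mul_sum]
    refine Finset.sum_congr rfl fun i _ => ?_
    rw [h1 i, h2 i, map_smul, smul_eq_mul]
    ring

/-- PROOF. T from `exists_EPFun`. By `additive_of_ch` for the family M, V(w j) with coefficients c, -a j: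
c T(M) = ∑ a j T(V(w j)) = (1 - lam^2)^n ∑ a j tr(N.g.symm ew (w j)) (`EP_VV` for k = n; VF has the underlying
module VV w n and g = gV) ≠ 0 since lam^2 ≠ 1 (PosNe). So T(M) ≠ 0; if all Ext groups were trivial, EP would
be 0 (`EP_eq_zero`). -/
theorem abs_main (hl : PosNe lam) (M N : FObj D n lam)
    (hfin : ∀ M : FObj D n lam,
      FinExt (ModuleCat.of (R D n) M.V) (ModuleCat.of (R D n) N.V) (n + 1))
    {ι : Type} [Fintype ι] (c : ℂ) (w : ι → Wd D n) (a : ι → ℂ)
    (hrel : ∀ u, c * ch M u = ∑ j, a j * ch (VF lam (w j)) u)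
    (hne : ∑ j, a j * LinearMap.trace ℂ N.V (N.g.symm.toLinearMap ∘ₗ act N.V (ew (w j))) ≠ 0) :
    ∃ i, Nontrivial (Ext.{0} (ModuleCat.of (R D n) M.V) (ModuleCat.of (R D n) N.V) i) := by
  obtain ⟨T, hT⟩ := exists_EPFun N hfin
  have h1 := additive_of_ch hl (ι := Option ι)
    (fun o => match o with | none => M | some j => VF lam (w j))
    (fun o => match o with | none => c | some j => - a j) (by
      intro u
      rw [Fintype.sum_option]
      simp only [neg_mul, Finset.sum_neg_distrib]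
      rw [← hrel u]
      ring) T
  rw [Fintype.sum_option] at h1
  simp only [neg_mul, Finset.sum_neg_distrib] at h1
  have h2 : ∀ j, T.T (VF lam (w j)) = (1 - (lam : ℂ) ^ 2) ^ n *
      LinearMap.trace ℂ N.V (N.g.symm.toLinearMap ∘ₗ act N.V (ew (w j))) := by
    intro j
    rw [hT]
    exact (EP_VV (w j) N n le_rfl).2 (n + 1) le_rfl
  have h3 : ∑ j, a j * T.T (VF lam (w j)) = (1 - (lam : ℂ) ^ 2) ^ n *
      ∑ j, a j * LinearMap.trace ℂ N.V (N.g.symm.toLinearMap ∘ₗ act N.V (ew (w j))) := by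
    rw [Finset.mul_sum]
    refine Finset.sum_congr rfl fun j _ => ?_
    rw [h2]
    ring
  have h4 : (1 - (lam : ℂ) ^ 2) ≠ 0 := by
    obtain ⟨t, ht, ht1, hlt⟩ := hl
    rw [hlt]
    intro h
    have h5 : (1 : ℝ) - t ^ 2 = 0 := by exact_mod_cast h
    have h6 : (1 - t) * (1 + t) = 0 := by linarith
    rcases mul_eq_zero.1 h6 with h | h
    · exact ht1 (by linarith)
    · linarith
  have h5 : c * T.T M ≠ 0 := by
    have h6 : c * T.T M = ∑ j, a j * T.T (VF lam (w j)) := by linear_combination h1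
    rw [h6, h3]
    exact mul_ne_zero (pow_ne_zero _ h4) hne
  by_contra hno
  push Not at hno
  apply h5
  rw [hT, EP_eq_zero, mul_zero]
  exact hno

end CA1492
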