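import Mathlib
import Pool.Agent.Lib.MP_ca1492_al.CombMain
import Pool.Agent.Lib.MP_ca1492_al.Mod.LSet

/-!
Evaluation of the combinatorial theorem at a real number.
-/

namespace CA1492

open PC PC.QSh LaurentPolynomial

variable {Λ : Type} [DecidableEq Λ]

/-- Evaluation at lam. -/
noncomputable def evL (lam : ℂˣ) : LaurentPolynomial ℤ →+* ℂ :=
  LaurentPolynomial.eval₂ (Int.castRingHom ℂ) lam

theorem evL_facts (lam : ℂˣ) : evL lam ((qq : (LaurentPolynomial ℤ)ˣ) : LaurentPolynomial ℤ) =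
      ((lam : ℂˣ) : ℂ) ∧
    ∀ x, evL lam (invert x) = evL lam⁻¹ x := by
  constructor
  · change LaurentPolynomial.eval₂ (Int.castRingHom ℂ) lam (LaurentPolynomial.T 1) = (lam : ℂ)
    rw [LaurentPolynomial.eval₂_T, zpow_one]
  · intro x
    induction x using LaurentPolynomial.induction_on' with
    | add p r hp hr => rw [map_add, map_add, map_add, hp, hr]
    | C_mul_T n a =>
      rw [map_mul, invert_C, invert_T]
      change LaurentPolynomial.eval₂ (Int.castRingHom ℂ) lam
        (LaurentPolynomial.C a * LaurentPolynomial.T (-n)) =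
        LaurentPolynomial.eval₂ (Int.castRingHom ℂ) lam⁻¹
          (LaurentPolynomial.C a * LaurentPolynomial.T n)
      rw [LaurentPolynomial.eval₂_C_mul_T, LaurentPolynomial.eval₂_C_mul_T, zpow_neg, inv_zpow]

/-- The character of a rectangle. PROOF: values 0 and 1. -/
theorem mp_rect {R R' : Type} [CommRing R] [CommRing R'] {q : Rˣ} (φ : R →+* R') (q' : R'ˣ)
    (r : Rect Λ) : (mp φ q' (r.ch : QSh Λ R q) : QSh Λ R' q') = r.ch := by
  classical
  funext u
  by_cases h : IsTab r.l r.re u r.rs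
  · have h1 : (r.ch : QSh Λ R q) u = 1 := if_pos h
    have h2 : (r.ch : QSh Λ R' q') u = 1 := if_pos h
    change φ ((r.ch : QSh Λ R q) u) = _
    rw [h1, h2, map_one]
  · have h1 : (r.ch : QSh Λ R q) u = 0 := if_neg h
    have h2 : (r.ch : QSh Λ R' q') u = 0 := if_neg h
    change φ ((r.ch : QSh Λ R q) u) = _
    rw [h1, h2, map_zero]

/-- PROOF: `PC.QSh.mp_prod`, `mp_rect`. -/
theorem mp_chL (lam : ℂˣ) (M : List (Rect Λ)) :
    (mp (evL lam) lam (chL M : QSh Λ (LaurentPolynomial ℤ) qq) : QSh Λ ℂ lam) = chL M := by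
  unfold chL
  rw [mp_prod (evL lam) lam (evL_facts lam).1, List.map_map]
  congr 1
  refine List.map_congr_left fun r _ => ?_
  exact mp_rect (evL lam) lam r

/-- the character of a product of letters -/
theorem Eval_let (lam : ℂˣ) (w : List (Λ × ℤ)) :
    (mp (evL lam) lam (let_ w : QSh Λ (LaurentPolynomial ℤ) qq) : QSh Λ ℂ lam) = let_ w := by
  unfold let_
  rw [mp_prod (evL lam) lam (evL_facts lam).1, List.map_map]
  congr 1
  refine List.map_congr_left fun r _ => ?_
  exact NegMap_mp_wd (evL lam) lam [r]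

/-- A non-zero Laurent polynomial has only finitely many zeros; so there is a real number t > 0, t ≠ 1
where two given non-zero Laurent polynomials do not vanish.
PROOF: the product c * d ≠ 0 (LaurentPolynomial ℤ is a domain); T n * (c * d) is a polynomial P ≠ 0 for some
n (`LaurentPolynomial.exists_T_pow`), and P has finitely many roots; the set {t : 0 < t, t ≠ 1} is
infinite. -/
theorem exists_good (c d : LaurentPolynomial ℤ) (hc : c ≠ 0) (hd : d ≠ 0) :
    ∃ lam : ℂˣ, PosNe lam ∧ evL lam c ≠ 0 ∧ evL lam d ≠ 0 := by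
  classical
  have hcd : c * d ≠ 0 := mul_ne_zero hc hd
  obtain ⟨n, P, hP⟩ := exists_T_pow (c * d)
  have hP0 : P ≠ 0 := by
    rintro rfl
    rw [map_zero] at hP
    exact hcd ((isUnit_T (R := ℤ) n).mul_left_eq_zero.mp hP.symm)
  have hQ0 : P.map (Int.castRingHom ℂ) ≠ 0 :=
    (Polynomial.map_ne_zero_iff Int.cast_injective).mpr hP0
  have hinf : ((fun t : ℝ => (t : ℂ)) '' Set.Ioi 1).Infinite :=
    (Set.Ioi_infinite (1 : ℝ)).image Complex.ofReal_injective.injOn
  obtain ⟨z, hz, hz2⟩ := hinf.exists_notMem_finset (P.map (Int.castRingHom ℂ)).roots.toFinset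
  obtain ⟨t, ht, rfl⟩ := hz
  have ht1 : (1 : ℝ) < t := ht
  have ht0 : ((t : ℝ) : ℂ) ≠ 0 := by
    rw [Complex.ofReal_ne_zero]
    linarith
  have hroot : (P.map (Int.castRingHom ℂ)).eval (t : ℂ) ≠ 0 := by
    intro h
    apply hz2
    rw [Multiset.mem_toFinset, Polynomial.mem_roots hQ0]
    exact h
  refine ⟨Units.mk0 (t : ℂ) ht0, ⟨t, by linarith, by linarith, rfl⟩, ?_⟩
  have h1 : evL (Units.mk0 (t : ℂ) ht0) (Polynomial.toLaurent P) ≠ 0 := by
    change LaurentPolynomial.eval₂ (Int.castRingHom ℂ) (Units.mk0 (t : ℂ) ht0)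
      (Polynomial.toLaurent P) ≠ 0
    rw [LaurentPolynomial.eval₂_toLaurent]
    rw [Polynomial.eval_map] at hroot
    exact hroot
  rw [hP, map_mul, map_mul] at h1
  exact ⟨left_ne_zero_of_mul (left_ne_zero_of_mul h1),
    right_ne_zero_of_mul (left_ne_zero_of_mul h1)⟩

/-- The combinatorial theorem at a real number.
PROOF: `PC.comb_main`, `exists_good`; apply mp (evL lam) lam to the identity (`mp_smul`, `mp_add`,
`mp_chL`, `mp_prod` for let_), and evL lam to the second sum: evL lam (invert x * y) = evL lam⁻¹ x * evL lam y;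
here replace lam by lam⁻¹: it is convenient to apply `exists_good` to c and invert of the sum. In detail
evL lam (invert (∑ invert x * chL N w)) = ∑ evL lam x * evL lam⁻¹ (chL N w). -/
theorem comb_eval (M N : List (Rect Λ)) (δ : Λ → ℤ)
    (hM : ∀ r ∈ M, 0 < r.a ∧ 0 < r.b ∧ 2 * r.t - r.a + r.b = δ r.l)
    (hN : ∀ r ∈ N, 0 < r.a ∧ 0 < r.b ∧ 2 * r.t - r.a + r.b = δ r.l)
    (h : (M.map Rect.cont).sum = (N.map Rect.cont).sum) :
    ∃ (lam : ℂˣ) (c : ℂ) (a : List (Λ × ℤ) →₀ ℂ), PosNe lam ∧ c ≠ 0 ∧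
      (∀ w ∈ a.support, (w : Multiset (Λ × ℤ)) = (M.map Rect.cont).sum) ∧
      c • (chL M : QSh Λ ℂ lam) = a.sum (fun w x => x • let_ w) ∧
      a.sum (fun w x => x * (chL N : QSh Λ ℂ lam⁻¹) w) ≠ 0 := by
  classical
  obtain ⟨c, a, hc, hsupp, e1, e2⟩ := comb_main M N δ hM hN h
  set S : LaurentPolynomial ℤ :=
    a.sum (fun w x => (invert x) * (chL N : QSh Λ (LaurentPolynomial ℤ) qq) w) with hS
  have hS2 : invert S ≠ 0 := by
    intro h0
    apply e2
    have h1 := congrArg (invert (R := ℤ)) h0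
    rw [map_zero] at h1
    have h2 : invert (invert S) = S := involutive_invert S
    rw [h2] at h1
    exact h1
  obtain ⟨lam, hl, hcl, hSl⟩ := exists_good c (invert S) hc hS2
  refine ⟨lam, evL lam c, a.mapRange (evL lam) (map_zero _), hl, hcl, ?_, ?_, ?_⟩
  · intro w hw
    exact hsupp w (Finsupp.support_mapRange hw)
  · have h0 : (a.mapRange (evL lam) (map_zero _)).sum (fun w x => x • (let_ w : QSh Λ ℂ lam)) =
        a.sum (fun w x => evL lam x • (let_ w : QSh Λ ℂ lam)) :=
      Finsupp.sum_mapRange_index (fun w => zero_smul _ _)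
    rw [h0]
    have h1 := congrArg (mp (evL lam) lam) e1
    rw [mp_smul, mp_chL] at h1
    rw [h1]
    unfold Finsupp.sum
    rw [NegMap_mp_sum]
    refine Finset.sum_congr rfl fun w _ => ?_
    rw [mp_smul, Eval_let]
  · have h0 : (a.mapRange (evL lam) (map_zero _)).sum
          (fun w x => x * (chL N : QSh Λ ℂ lam⁻¹) w) =
        a.sum (fun w x => evL lam x * (chL N : QSh Λ ℂ lam⁻¹) w) :=
      Finsupp.sum_mapRange_index (fun w => zero_mul _)
    rw [h0]
    have h1 : a.sum (fun w x => evL lam x * (chL N : QSh Λ ℂ lam⁻¹) w) = evL lam (invert S) := by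
      rw [hS]
      unfold Finsupp.sum
      rw [map_sum, map_sum]
      refine Finset.sum_congr rfl fun w _ => ?_
      have h2 : invert (invert (a w)) = a w := involutive_invert (a w)
      rw [map_mul, map_mul, h2, (evL_facts lam).2]
      have h3 := congrFun (mp_chL lam⁻¹ N) w
      exact congrArg (fun z => evL lam (a w) * z) h3.symm
    rw [h1]
    exact hSl

end CA1492
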