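import Mathlib
import Pool.Agent.Lib.MP_ca1492_al.Alg.FreeA
import Pool.Agent.Lib.MP_ca1492_al.Mod.DatS

/-!
The quantum shuffle product of two words is the sum over the shuffles `Shf m k` (words and degrees of
`CS m k p`).
-/

namespace CA1492

variable {Λ : Type} [DecidableEq Λ] {S : Finset (Λ × ℤ)} {lam : ℂˣ}

lemma ChSh_sw_succ {n : ℕ} (q : ℕ) (j : Fin n) : sw (n + 1) (q + 1) j.succ = (sw n q j).succ := by
  by_cases h : q + 1 < n
  · by_cases h1 : j.val = q
    · have hq : q < n := by omega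
      obtain rfl : j = ⟨q, hq⟩ := Fin.ext h1
      rw [alpha_sw_left h]
      exact alpha_sw_left (n := n + 1) (r := q + 1) (by omega)
    · by_cases h2 : j.val = q + 1
      · obtain rfl : j = ⟨q + 1, h⟩ := Fin.ext h2
        rw [alpha_sw_right h]
        exact alpha_sw_right (n := n + 1) (r := q + 1) (by omega)
      · rw [alpha_sw_ne j h1 h2, alpha_sw_ne j.succ (by simp; omega) (by simp; omega)]
  · have e1 : sw n q = 1 := dif_neg h
    have e2 : sw (n + 1) (q + 1) = 1 := dif_neg (by omega)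
    rw [e1, e2]
    rfl

lemma ChSh_sw_zero {n : ℕ} (q : ℕ) : sw (n + 1) (q + 1) 0 = 0 := by
  apply alpha_sw_ne
  · simp
  · simp

lemma ChSh_comp_sw {D : Dat} {n : ℕ} (a : D.J) (w : Wd D n) (q : ℕ) :
    (Fin.cons a w : Wd D (n + 1)) ∘ sw (n + 1) (q + 1) = Fin.cons a (w ∘ sw n q) := by
  funext j
  refine Fin.cases ?_ (fun j => ?_) j
  · rw [Function.comp_apply, ChSh_sw_zero, Fin.cons_zero, Fin.cons_zero]
  · rw [Function.comp_apply, ChSh_sw_succ, Fin.cons_succ, Fin.cons_succ]
    rfl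

lemma ChSh_wdg_cons {D : Dat} {n : ℕ} (a : D.J) (w : Wd D n) (q : ℕ) :
    wdg (Fin.cons a w : Wd D (n + 1)) (q + 1) = wdg w q := by
  unfold wdg
  by_cases h : q + 1 < n
  · rw [dif_pos h, dif_pos (by omega)]
    rfl
  · rw [dif_neg h, dif_neg (by omega)]

lemma ChSh_cyW_succ {D : Dat} {n : ℕ} (w : Wd D n) (p q : ℕ) :
    cyW w p (q + 1) = if p ≤ q then cyW (w ∘ sw n q) p q else w := rfl

lemma ChSh_cdeg_succ {D : Dat} {n : ℕ} (w : Wd D n) (p q : ℕ) :
    cdeg w p (q + 1) = if p ≤ q then wdg w q + cdeg (w ∘ sw n q) p q else 0 := rfl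

/-- First letter in front. PROOF: induction on q: (Fin.cons a w) ∘ sw (n+1) (q+1) = Fin.cons a (w ∘ sw n q),
wdg (Fin.cons a w) (q+1) = wdg w q. -/
theorem cy_cons {D : Dat} {n : ℕ} (a : D.J) (w : Wd D n) (p q : ℕ) (hq : q < n) :
    cyW (Fin.cons a w : Wd D (n + 1)) (p + 1) (q + 1) = Fin.cons a (cyW w p q) ∧
    cdeg (Fin.cons a w : Wd D (n + 1)) (p + 1) (q + 1) = cdeg w p q := by
  induction q generalizing w with
  | zero =>
    rw [ChSh_cyW_succ, ChSh_cdeg_succ, if_neg (by omega), if_neg (by omega)]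
    exact ⟨rfl, rfl⟩
  | succ q ih =>
    rw [ChSh_cyW_succ _ (p + 1), ChSh_cdeg_succ _ (p + 1), ChSh_comp_sw, ChSh_wdg_cons]
    obtain ⟨h1, h2⟩ := ih (w ∘ sw n q) (by omega)
    rw [h1, h2, ChSh_cyW_succ w p, ChSh_cdeg_succ w p]
    by_cases h : p ≤ q
    · rw [if_pos (by omega : p + 1 ≤ q + 1), if_pos (by omega : p + 1 ≤ q + 1), if_pos h, if_pos h]
      exact ⟨rfl, rfl⟩
    · rw [if_neg (by omega : ¬ p + 1 ≤ q + 1), if_neg (by omega : ¬ p + 1 ≤ q + 1), if_neg h,
        if_neg h]
      exact ⟨rfl, rfl⟩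

/-- PROOF: induction on k with `cy_cons` (m + 1 + k = (m + k) + 1). -/
theorem sh_cons {D : Dat} {n : ℕ} (a : D.J) (w : Wd D n) (m k : ℕ) (hmk : m + k ≤ n) (p : ℕ → ℕ) :
    shW (m + 1) k (fun j => p j + 1) (Fin.cons a w : Wd D (n + 1)) = Fin.cons a (shW m k p w) ∧
    sdeg (m + 1) k (fun j => p j + 1) (Fin.cons a w : Wd D (n + 1)) = sdeg m k p w := by
  induction k with
  | zero => exact ⟨rfl, rfl⟩
  | succ k ih =>
    obtain ⟨h1, h2⟩ := ih (by omega)
    obtain ⟨h3, h4⟩ := cy_cons a (shW m k p w) (p k) (m + k) (by omega)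
    have e : m + 1 + k = m + k + 1 := by omega
    constructor
    · rw [shW, h1, e, h3]
      rfl
    · rw [sdeg, h1, h2, e, h4]
      rfl

/-- The first right letter first. PROOF: induction on k. -/
theorem sh_first {D : Dat} {n : ℕ} (w : Wd D n) (m k : ℕ) (p : ℕ → ℕ) :
    shW m (k + 1) p w = shW (m + 1) k (fun j => p (j + 1)) (cyW w (p 0) m) ∧
    sdeg m (k + 1) p w = sdeg (m + 1) k (fun j => p (j + 1)) (cyW w (p 0) m) + cdeg w (p 0) m := by
  induction k with
  | zero =>
    refine ⟨rfl, ?_⟩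
    show cdeg w (p 0) m + 0 = 0 + cdeg w (p 0) m
    ring
  | succ k ih =>
    obtain ⟨h1, h2⟩ := ih
    have e : m + (k + 1) = m + 1 + k := by omega
    constructor
    · rw [shW, h1, e]
      rfl
    · rw [sdeg, h1, h2, e]
      conv_rhs => rw [sdeg]
      ring

lemma ChSh_congr {D : Dat} {n : ℕ} (m k : ℕ) {p p' : ℕ → ℕ} (h : ∀ j < k, p j = p' j) (w : Wd D n) :
    shW m k p w = shW m k p' w ∧ sdeg m k p w = sdeg m k p' w := by
  induction k with
  | zero => exact ⟨rfl, rfl⟩
  | succ k ih =>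
    obtain ⟨h1, h2⟩ := ih (fun j hj => h j (by omega))
    constructor
    · rw [shW, shW, h1, h k (by omega)]
    · rw [sdeg, sdeg, h1, h2, h k (by omega)]

lemma ChSh_cy_self {D : Dat} {n : ℕ} (w : Wd D n) (q : ℕ) : cyW w q q = w ∧ cdeg w q q = 0 := by
  cases q with
  | zero => exact ⟨rfl, rfl⟩
  | succ q =>
    rw [cyW, cdeg, if_neg (by omega), if_neg (by omega)]
    exact ⟨rfl, rfl⟩

lemma ChSh_id {D : Dat} {n : ℕ} (k : ℕ) (w : Wd D n) :
    shW 0 k (fun j => j) w = w ∧ sdeg 0 k (fun j => j) w = 0 := by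
  induction k with
  | zero => exact ⟨rfl, rfl⟩
  | succ k ih =>
    obtain ⟨h1, h2⟩ := ih
    rw [shW, sdeg, h1, h2, Nat.zero_add]
    exact ⟨(ChSh_cy_self w k).1, by rw [(ChSh_cy_self w k).2, zero_add]⟩

lemma ChSh_shf_zero {k : ℕ} (p : Shf 0 k) : ∀ j < k, shf p j = j := by
  obtain ⟨h1, h2⟩ := isSh_shf p
  intro j
  induction j with
  | zero =>
    intro hj
    have := h1 0 hj
    omega
  | succ j ih =>
    intro hj
    have h3 := ih (by omega)
    have h4 := h1 (j + 1) hj
    have h5 := h2 j hj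
    omega

/-- the shuffles with p 0 ≠ 0 -/
def ChSh_f1 (m k : ℕ) (p : Shf m (k + 1)) : Shf (m + 1) (k + 1) :=
  ⟨fun j => ⟨(p.1 j).val + 1, by have := (p.1 j).isLt; omega⟩, fun a b hab => by
    have h : p.1 a < p.1 b := p.2 hab
    have h' : (p.1 a).val < (p.1 b).val := h
    rw [Fin.mk_lt_mk]
    omega⟩

/-- the shuffles with p 0 = 0 -/
def ChSh_f2 (m k : ℕ) (p : Shf (m + 1) k) : Shf (m + 1) (k + 1) :=
  ⟨Fin.cases ⟨0, by omega⟩ (fun j => ⟨(p.1 j).val + 1, by have := (p.1 j).isLt; omega⟩),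
    fun a b hab => by
      induction b using Fin.cases with
      | zero => exact absurd hab (Fin.not_lt_zero a)
      | succ b =>
        induction a using Fin.cases with
        | zero =>
          rw [Fin.lt_def]
          show 0 < (p.1 b).val + 1
          omega
        | succ a =>
          have h : p.1 a < p.1 b := p.2 (Fin.succ_lt_succ_iff.1 hab)
          have h' : (p.1 a).val < (p.1 b).val := h
          rw [Fin.lt_def]
          show (p.1 a).val + 1 < (p.1 b).val + 1
          omega⟩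

lemma ChSh_f1_shf (m k : ℕ) (p : Shf m (k + 1)) : ∀ j < k + 1,
    shf (ChSh_f1 m k p) j = shf p j + 1 := by
  intro j hj
  unfold shf
  rw [dif_pos hj, dif_pos hj]
  rfl

lemma ChSh_f2_shf (m k : ℕ) (p : Shf (m + 1) k) : ∀ j < k + 1,
    shf (ChSh_f2 m k p) j = if j = 0 then 0 else shf p (j - 1) + 1 := by
  intro j hj
  cases j with
  | zero =>
    unfold shf
    rw [dif_pos hj, if_pos rfl]
    rfl
  | succ j =>
    unfold shf
    rw [dif_pos hj, if_neg (by omega), Nat.add_sub_cancel, dif_pos (by omega)]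
    rfl

lemma ChSh_bij (m k : ℕ) : Function.Bijective (Sum.elim (ChSh_f1 m k) (ChSh_f2 m k)) := by
  constructor
  · intro a b hab
    rcases a with a | a <;> rcases b with b | b
    · rw [Sum.elim_inl, Sum.elim_inl] at hab
      congr 1
      apply Subtype.ext
      funext j
      have h1 : ((ChSh_f1 m k a).1 j).val = ((ChSh_f1 m k b).1 j).val := by rw [hab]
      apply Fin.ext
      have h2 : (a.1 j).val + 1 = (b.1 j).val + 1 := h1
      omega
    · rw [Sum.elim_inl, Sum.elim_inr] at hab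
      have h1 : ((ChSh_f1 m k a).1 0).val = ((ChSh_f2 m k b).1 0).val := by rw [hab]
      have h2 : (a.1 0).val + 1 = 0 := h1
      omega
    · rw [Sum.elim_inl, Sum.elim_inr] at hab
      have h1 : ((ChSh_f2 m k a).1 0).val = ((ChSh_f1 m k b).1 0).val := by rw [hab]
      have h2 : 0 = (b.1 0).val + 1 := h1
      omega
    · rw [Sum.elim_inr, Sum.elim_inr] at hab
      congr 1
      apply Subtype.ext
      funext j
      have h1 : ((ChSh_f2 m k a).1 j.succ).val = ((ChSh_f2 m k b).1 j.succ).val := by rw [hab]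
      apply Fin.ext
      have h2 : (a.1 j).val + 1 = (b.1 j).val + 1 := h1
      omega
  · intro q
    by_cases h0 : (q.1 0).val = 0
    · have hpos : ∀ j : Fin k, 0 < (q.1 j.succ).val := by
        intro j
        have h : q.1 0 < q.1 j.succ := q.2 (Fin.succ_pos j)
        have h' : (q.1 0).val < (q.1 j.succ).val := h
        omega
      refine ⟨Sum.inr ⟨fun j => ⟨(q.1 j.succ).val - 1, by
        have := hpos j; have := (q.1 j.succ).isLt; omega⟩, fun a b hab => ?_⟩, ?_⟩
      · have h : q.1 a.succ < q.1 b.succ := q.2 (Fin.succ_lt_succ_iff.2 hab)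
        have h' : (q.1 a.succ).val < (q.1 b.succ).val := h
        rw [Fin.mk_lt_mk]
        have := hpos a
        omega
      · rw [Sum.elim_inr]
        apply Subtype.ext
        funext j
        apply Fin.ext
        induction j using Fin.cases with
        | zero => exact h0.symm
        | succ j =>
          show (q.1 j.succ).val - 1 + 1 = _
          have := hpos j
          omega
    · have hpos : ∀ j : Fin (k + 1), 0 < (q.1 j).val := by
        intro j
        induction j using Fin.cases with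
        | zero => omega
        | succ j =>
          have h : q.1 0 < q.1 j.succ := q.2 (Fin.succ_pos j)
          have h' : (q.1 0).val < (q.1 j.succ).val := h
          omega
      refine ⟨Sum.inl ⟨fun j => ⟨(q.1 j).val - 1, by
        have := hpos j; have := (q.1 j).isLt; omega⟩, fun a b hab => ?_⟩, ?_⟩
      · have h : q.1 a < q.1 b := q.2 hab
        have h' : (q.1 a).val < (q.1 b).val := h
        rw [Fin.mk_lt_mk]
        have := hpos a
        omega
      · rw [Sum.elim_inl]
        apply Subtype.ext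
        funext j
        apply Fin.ext
        show (q.1 j).val - 1 + 1 = _
        have := hpos j
        omega

/-- splitting of a sum over the shuffles -/
lemma ChSh_split {M : Type*} [AddCommMonoid M] (m k : ℕ) (F : (ℕ → ℕ) → M)
    (hF : ∀ p p' : ℕ → ℕ, (∀ j < k + 1, p j = p' j) → F p = F p') :
    ∑ p : Shf (m + 1) (k + 1), F (shf p) =
      ∑ p : Shf m (k + 1), F (fun j => shf p j + 1) +
      ∑ p : Shf (m + 1) k, F (fun j => if j = 0 then 0 else shf p (j - 1) + 1) := by
  rw [← (ChSh_bij m k).sum_comp (fun p => F (shf p)), Fintype.sum_sum_type]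
  congr 1
  · refine Finset.sum_congr rfl fun p _ => ?_
    rw [Sum.elim_inl]
    exact hF _ _ (ChSh_f1_shf m k p)
  · refine Finset.sum_congr rfl fun p _ => ?_
    rw [Sum.elim_inr]
    exact hF _ _ (ChSh_f2_shf m k p)

lemma ChSh_wd_nil : (PC.QSh.wd [] : PC.QSh Λ ℂ lam) = 1 := by
  ext w
  rw [PC.QSh.wd_apply, PC.QSh.one_apply]

/-- the word with one more letter in front -/
def ChSh_pre (x : Λ × ℤ) : PC.QSh Λ ℂ lam →ₗ[ℂ] PC.QSh Λ ℂ lam where
  toFun f := fun w => match w with
    | [] => 0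
    | z :: l => if z = x then f l else 0
  map_add' f g := by
    ext w
    cases w with
    | nil => exact (add_zero (0 : ℂ)).symm
    | cons z l =>
      show (if z = x then (f + g) l else 0) = (if z = x then f l else 0) + (if z = x then g l else 0)
      split_ifs
      · rfl
      · exact (add_zero (0 : ℂ)).symm
  map_smul' c f := by
    ext w
    cases w with
    | nil => exact (mul_zero c).symm
    | cons z l =>
      show (if z = x then (c • f) l else 0) = c * (if z = x then f l else 0)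
      split_ifs
      · rfl
      · exact (mul_zero c).symm

lemma ChSh_pre_nil (x : Λ × ℤ) (f : PC.QSh Λ ℂ lam) : (ChSh_pre x f) [] = 0 := rfl

lemma ChSh_pre_cons (x : Λ × ℤ) (f : PC.QSh Λ ℂ lam) (z : Λ × ℤ) (l : List (Λ × ℤ)) :
    (ChSh_pre x f) (z :: l) = if z = x then f l else 0 := rfl

lemma ChSh_pre_wd (x : Λ × ℤ) (s : List (Λ × ℤ)) :
    ChSh_pre x (PC.QSh.wd s : PC.QSh Λ ℂ lam) = PC.QSh.wd (x :: s) := by
  ext w
  cases w with
  | nil =>
    rw [ChSh_pre_nil, PC.QSh.wd_apply, if_neg (by simp)]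
  | cons z l =>
    rw [ChSh_pre_cons, PC.QSh.wd_apply, PC.QSh.wd_apply]
    by_cases h : z = x
    · subst h
      rw [if_pos rfl]
      by_cases h2 : l = s
      · rw [if_pos h2, if_pos (by rw [h2])]
      · rw [if_neg h2, if_neg (by simpa using h2)]
    · rw [if_neg h, if_neg (by simp [h])]

lemma ChSh_D_wd (z x : Λ × ℤ) (s : List (Λ × ℤ)) :
    PC.QSh.D z (PC.QSh.wd (x :: s) : PC.QSh Λ ℂ lam) = if z = x then PC.QSh.wd s else 0 := by
  ext w
  rw [PC.QSh.D_apply, PC.QSh.wd_apply]
  by_cases h : z = x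
  · subst h
    rw [if_pos rfl, PC.QSh.wd_apply]
    by_cases h2 : w = s
    · rw [if_pos h2, if_pos (by rw [h2])]
    · rw [if_neg h2, if_neg (by simpa using h2)]
  · rw [if_neg h, if_neg (by simp [h])]
    rfl

lemma ChSh_T_wd (z : Λ × ℤ) (s : List (Λ × ℤ)) :
    PC.QSh.T z (PC.QSh.wd s : PC.QSh Λ ℂ lam) =
      ((lam ^ (PC.kap z s) : ℂˣ) : ℂ) • (PC.QSh.wd s : PC.QSh Λ ℂ lam) := by
  ext w
  rw [PC.QSh.T_apply, PC.QSh.smul_apply, PC.QSh.wd_apply]
  by_cases h : w = s
  · rw [if_pos h, h]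
  · rw [if_neg h, mul_zero, mul_zero]

lemma ChSh_mul_cons (x y : Λ × ℤ) (s t : List (Λ × ℤ)) :
    (PC.QSh.wd (x :: s) * PC.QSh.wd (y :: t) : PC.QSh Λ ℂ lam) =
      ChSh_pre x (PC.QSh.wd s * PC.QSh.wd (y :: t)) +
      ((lam ^ (PC.kap y (x :: s)) : ℂˣ) : ℂ) •
        ChSh_pre y (PC.QSh.wd (x :: s) * PC.QSh.wd t) := by
  ext w
  cases w with
  | nil =>
    rw [PC.QSh.mul_nil, PC.QSh.add_apply, PC.QSh.smul_apply, ChSh_pre_nil, ChSh_pre_nil,
      PC.QSh.wd_apply, if_neg (by simp)]
    simp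
  | cons z l =>
    rw [PC.QSh.mul_cons, PC.QSh.add_apply, PC.QSh.smul_apply, ChSh_pre_cons, ChSh_pre_cons,
      ChSh_D_wd, ChSh_D_wd]
    congr 1
    · by_cases h : z = x
      · rw [if_pos h, if_pos h]
      · rw [if_neg h, if_neg h, zero_mul]
        rfl
    · by_cases h : z = y
      · rw [if_pos h, if_pos h, h, ChSh_T_wd, smul_mul_assoc, PC.QSh.smul_apply]
      · rw [if_neg h, if_neg h, mul_zero, mul_zero]
        rfl

lemma ChSh_wl_cons {n : ℕ} (a : (datS S).J) (w : Wd (datS S) n) :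
    wl (Fin.cons a w : Wd (datS S) (n + 1)) = ltr a :: wl w := by
  unfold wl
  rw [List.ofFn_succ]
  rfl

lemma ChSh_kap_take {n : ℕ} (y : Λ × ℤ) (w : Wd (datS S) n) (r : ℕ) :
    PC.kap y ((wl w).take r) = ∑ j : Fin n, if j.val < r then PC.kp y (ltr (w j)) else 0 := by
  induction n generalizing r with
  | zero =>
    unfold wl
    rw [List.ofFn_zero, List.take_nil]
    rfl
  | succ n ih =>
    cases r with
    | zero =>
      rw [List.take_zero]
      symm
      exact Finset.sum_eq_zero fun j _ => if_neg (Nat.not_lt_zero _)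
    | succ r =>
      have e : w = Fin.cons (w 0) (Fin.tail w) := (Fin.cons_self_tail w).symm
      rw [Fin.sum_univ_succ, if_pos (by simp)]
      conv_lhs => rw [e, ChSh_wl_cons, List.take_succ_cons]
      rw [PC.kap_cons, ih]
      congr 1
      refine Finset.sum_congr rfl fun j _ => ?_
      by_cases h : j.val < r
      · rw [if_pos h, if_pos (by simp; omega)]
        rfl
      · rw [if_neg h, if_neg (by simp; omega)]

/-- the word without the letter at the position r -/
def ChSh_del {n : ℕ} (w : Wd (datS S) (n + 1)) (r : ℕ) : Wd (datS S) n :=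
  fun j => if j.val < r then w j.castSucc else w j.succ

lemma ChSh_del_take {n : ℕ} (w : Wd (datS S) (n + 1)) (r : ℕ) (hr : r ≤ n) :
    (wl (ChSh_del w r)).take r = (wl w).take r := by
  apply List.ext_getElem
  · rw [List.length_take, List.length_take, wl_length, wl_length]
    omega
  · intro i h1 h2
    rw [List.length_take, wl_length] at h1
    rw [List.getElem_take, List.getElem_take]
    unfold wl
    rw [List.getElem_ofFn, List.getElem_ofFn]
    unfold ChSh_del
    rw [if_pos (by show i < r; omega)]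
    rfl

lemma ChSh_del_drop {n : ℕ} (w : Wd (datS S) (n + 1)) (r : ℕ) (hr : r ≤ n) :
    (wl (ChSh_del w r)).drop r = (wl w).drop (r + 1) := by
  apply List.ext_getElem
  · rw [List.length_drop, List.length_drop, wl_length, wl_length]
    omega
  · intro i h1 h2
    rw [List.getElem_drop, List.getElem_drop]
    unfold wl
    rw [List.getElem_ofFn, List.getElem_ofFn]
    unfold ChSh_del
    rw [if_neg (by show ¬ (r + i < r); omega)]
    congr 2
    apply Fin.ext
    show r + i + 1 = r + 1 + i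
    omega

lemma ChSh_cyW {n : ℕ} (w : Wd (datS S) (n + 1)) (r : ℕ) (hr : r < n + 1) :
    cyW w 0 r = Fin.cons (w ⟨r, hr⟩) (ChSh_del w r) := by
  funext j
  rw [cyW_apply w (Nat.zero_le r) hr j]
  refine Fin.cases ?_ (fun j => ?_) j
  · rw [if_neg (by simp), if_pos (by simp), Fin.cons_zero]
  · rw [Fin.cons_succ]
    unfold ChSh_del
    by_cases h : j.val < r
    · rw [if_neg (by simp; omega), if_neg (by simp), if_pos h]
      rfl
    · rw [if_pos (by right; simp; omega), if_neg h]

lemma ChSh_main (n : ℕ) : ∀ (m k : ℕ), m + k = n → ∀ (w : Wd (datS S) n),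
    (PC.QSh.wd ((wl w).take m) * PC.QSh.wd ((wl w).drop m) : PC.QSh Λ ℂ lam) = ∑ p : Shf m k,
      ((lam ^ (sdeg m k (shf p) w) : ℂˣ) : ℂ) •
        (PC.QSh.wd (wl (shW m k (shf p) w)) : PC.QSh Λ ℂ lam) := by
  induction n with
  | zero =>
    intro m k hmk w
    obtain rfl : m = 0 := by omega
    obtain rfl : k = 0 := by omega
    have e : ∀ p : Shf 0 0, ((lam ^ (sdeg 0 0 (shf p) w) : ℂˣ) : ℂ) •
        (PC.QSh.wd (wl (shW 0 0 (shf p) w)) : PC.QSh Λ ℂ lam) = PC.QSh.wd (wl w) := by
      intro p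
      show ((lam ^ (0 : ℤ) : ℂˣ) : ℂ) • (PC.QSh.wd (wl w) : PC.QSh Λ ℂ lam) = PC.QSh.wd (wl w)
      rw [zpow_zero, Units.val_one, one_smul]
    rw [Finset.sum_congr rfl fun p _ => e p, Finset.sum_const, Finset.card_univ, card_shf,
      List.take_zero, List.drop_zero, ChSh_wd_nil, one_mul]
    simp
  | succ n ih =>
    intro m k hmk w
    rcases Nat.eq_zero_or_pos k with hk | hk
    · subst hk
      have e : ∀ p : Shf m 0, ((lam ^ (sdeg m 0 (shf p) w) : ℂˣ) : ℂ) •
          (PC.QSh.wd (wl (shW m 0 (shf p) w)) : PC.QSh Λ ℂ lam) = PC.QSh.wd (wl w) := by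
        intro p
        show ((lam ^ (0 : ℤ) : ℂˣ) : ℂ) • (PC.QSh.wd (wl w) : PC.QSh Λ ℂ lam) = PC.QSh.wd (wl w)
        rw [zpow_zero, Units.val_one, one_smul]
      rw [Finset.sum_congr rfl fun p _ => e p, Finset.sum_const, Finset.card_univ, card_shf,
        List.take_of_length_le (by rw [wl_length]; omega),
        List.drop_of_length_le (by rw [wl_length]; omega), ChSh_wd_nil, mul_one]
      simp
    rcases Nat.eq_zero_or_pos m with hm | hm
    · subst hm
      have e : ∀ p : Shf 0 k, ((lam ^ (sdeg 0 k (shf p) w) : ℂˣ) : ℂ) •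
          (PC.QSh.wd (wl (shW 0 k (shf p) w)) : PC.QSh Λ ℂ lam) = PC.QSh.wd (wl w) := by
        intro p
        obtain ⟨h1, h2⟩ := ChSh_congr 0 k (ChSh_shf_zero p) w
        obtain ⟨h3, h4⟩ := ChSh_id k w
        rw [h1, h2, h3, h4, zpow_zero, Units.val_one, one_smul]
      rw [Finset.sum_congr rfl fun p _ => e p, Finset.sum_const, Finset.card_univ, card_shf,
        List.take_zero, List.drop_zero, ChSh_wd_nil, one_mul]
      simp
    obtain ⟨m, rfl⟩ : ∃ m', m = m' + 1 := ⟨m - 1, by omega⟩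
    obtain ⟨k, rfl⟩ : ∃ k', k = k' + 1 := ⟨k - 1, by omega⟩
    have hr : m + 1 < n + 1 := by omega
    -- the word
    obtain ⟨x, w', hw⟩ : ∃ x w', w = (Fin.cons x w' : Wd (datS S) (n + 1)) :=
      ⟨w 0, Fin.tail w, (Fin.cons_self_tail w).symm⟩
    have hwl : wl w = ltr x :: wl w' := by rw [hw, ChSh_wl_cons]
    have e1 : (wl w).take (m + 1) = ltr x :: (wl w').take m := by
      rw [hwl, List.take_succ_cons]
    have e2 : (wl w).drop (m + 1) = (wl w').drop m := by
      rw [hwl, List.drop_succ_cons]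
    have e3 : (wl w).drop (m + 1) = ltr (w ⟨m + 1, hr⟩) :: (wl w).drop (m + 1 + 1) := by
      rw [List.drop_eq_getElem_cons (by rw [wl_length]; exact hr)]
      congr 1
      unfold wl
      rw [List.getElem_ofFn]
    rw [ChSh_split m k (fun p => ((lam ^ (sdeg (m + 1) (k + 1) p w) : ℂˣ) : ℂ) •
      (PC.QSh.wd (wl (shW (m + 1) (k + 1) p w)) : PC.QSh Λ ℂ lam)) (fun p p' h => by
        obtain ⟨h1, h2⟩ := ChSh_congr (m + 1) (k + 1) h w
        rw [h1, h2])]
    -- first sum
    have s1 : (∑ p : Shf m (k + 1),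
        ((lam ^ (sdeg (m + 1) (k + 1) (fun j => shf p j + 1) w) : ℂˣ) : ℂ) •
        (PC.QSh.wd (wl (shW (m + 1) (k + 1) (fun j => shf p j + 1) w)) : PC.QSh Λ ℂ lam)) =
        ChSh_pre (ltr x) (PC.QSh.wd ((wl w').take m) * PC.QSh.wd ((wl w').drop m)) := by
      rw [ih m (k + 1) (by omega) w', map_sum]
      refine Finset.sum_congr rfl fun p _ => ?_
      obtain ⟨h1, h2⟩ := sh_cons x w' m (k + 1) (by omega) (shf p)
      rw [hw, h1, h2, ChSh_wl_cons, map_smul, ChSh_pre_wd]
    have s2 : (∑ p : Shf (m + 1) k,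
        ((lam ^ (sdeg (m + 1) (k + 1) (fun j => if j = 0 then 0 else shf p (j - 1) + 1) w) : ℂˣ) : ℂ) •
        (PC.QSh.wd (wl (shW (m + 1) (k + 1) (fun j => if j = 0 then 0 else shf p (j - 1) + 1) w)) :
          PC.QSh Λ ℂ lam)) =
        ((lam ^ (PC.kap (ltr (w ⟨m + 1, hr⟩)) ((wl w).take (m + 1))) : ℂˣ) : ℂ) •
        ChSh_pre (ltr (w ⟨m + 1, hr⟩)) (PC.QSh.wd ((wl w).take (m + 1)) *
          PC.QSh.wd ((wl w).drop (m + 1 + 1))) := by
      have h5 := ih (m + 1) k (by omega) (ChSh_del w (m + 1))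
      rw [ChSh_del_take w (m + 1) (by omega), ChSh_del_drop w (m + 1) (by omega)] at h5
      rw [h5, map_sum, Finset.smul_sum]
      refine Finset.sum_congr rfl fun p _ => ?_
      obtain ⟨h1, h2⟩ := sh_first w (m + 1) k (fun j => if j = 0 then 0 else shf p (j - 1) + 1)
      have h3 : (fun j => (fun j => if j = 0 then 0 else shf p (j - 1) + 1) (j + 1)) =
          fun j => shf p j + 1 := by
        funext j
        beta_reduce
        rw [if_neg (by omega), Nat.add_sub_cancel]
      rw [h3] at h1 h2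
      rw [if_pos rfl, ChSh_cyW w (m + 1) hr] at h1 h2
      obtain ⟨h6, h7⟩ := sh_cons (w ⟨m + 1, hr⟩) (ChSh_del w (m + 1)) (m + 1) k (by omega) (shf p)
      have h8 : cdeg w 0 (m + 1) = PC.kap (ltr (w ⟨m + 1, hr⟩)) ((wl w).take (m + 1)) := by
        rw [cdeg_eq w (Nat.zero_le _) hr, ChSh_kap_take]
        refine Finset.sum_congr rfl fun j _ => ?_
        by_cases h9 : j.val < m + 1
        · rw [if_pos ⟨Nat.zero_le _, h9⟩, if_pos h9, dg_datS, PC.kp_comm]
        · rw [if_neg (by omega), if_neg h9]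
      rw [h1, h2, h6, h7, h8, ChSh_wl_cons, map_smul, ChSh_pre_wd, smul_smul, ← Units.val_mul,
        ← zpow_add, add_comm]
    rw [s1, s2]
    rw [e3] at e2
    have h10 := ChSh_mul_cons (lam := lam) (ltr x) (ltr (w ⟨m + 1, hr⟩)) ((wl w').take m)
      ((wl w).drop (m + 1 + 1))
    rw [← e1] at h10
    rw [e3, h10, e2]

/-- The shuffle product of two words.
PROOF. Induction on m + k. If k = 0 or m = 0: only the identity shuffle (Shf m 0 is a point;
Shf 0 k is a point, p j = j, all degrees are 0 by `cdeg_eq`), and wd l * 1 = wd l, 1 * wd l = wd l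
(wd [] = 1). For m + 1, k + 1 write u = Fin.cons x u', v = Fin.cons y v'. Test both sides at a list l
(`QSh.ext`); l = [] gives 0 on both sides. For l = z :: l' the left side is
(D z (wd (wl u)) * wd (wl v)) l' + (T z (wd (wl u)) * D z (wd (wl v))) l' where
D z (wd (x :: s)) = if z = x then wd s else 0 and T z (wd s) = lam ^ (kap z s) • wd s.
On the right side split the shuffles p: p 0 ≠ 0: then p = p' + 1 for a unique p' : Shf m (k+1), the word
is Fin.cons x (shW m (k+1) p' (Fin.append u' v)) with the same degree (`sh_cons`); p 0 = 0: by `sh_first` and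
`cyW_apply`, `cdeg_eq` the word is Fin.cons y (shW (m+1) k p' (Fin.append u v')) for the unique
p' : Shf (m+1) k with p (j+1) = p' j + 1 (again `sh_cons`), and cdeg (Fin.append u v) 0 (m+1) =
∑_j dg (u j) y = kap y (wl u) (`dg_datS`, `PC.kp_comm`). Then use the induction hypotheses.
It may be convenient to prove first that the sum over Shf (m+1) (k+1) of a function F is
(sum over Shf m (k+1) of F (p' + 1)) + (sum over Shf (m+1) k of F (0, p' + 1)). -/
theorem wd_mul (m k : ℕ) (u : Wd (datS S) m) (v : Wd (datS S) k) :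
    (PC.QSh.wd (wl u) * PC.QSh.wd (wl v) : PC.QSh Λ ℂ lam) = ∑ p : Shf m k,
      ((lam ^ (sdeg m k (shf p) (Fin.append u v)) : ℂˣ) : ℂ) •
        (PC.QSh.wd (wl (shW m k (shf p) (Fin.append u v))) : PC.QSh Λ ℂ lam) := by
  have h := ChSh_main (S := S) (lam := lam) (m + k) m k rfl (Fin.append u v)
  have e : wl (Fin.append u v) = wl u ++ wl v := by
    unfold wl
    rw [← List.ofFn_fin_append]
    congr 1
    funext j
    refine Fin.addCases (fun j => ?_) (fun j => ?_) j
    · rw [Fin.append_left, Fin.append_left]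
    · rw [Fin.append_right, Fin.append_right]
  rw [e, List.take_left' (wl_length u), List.drop_left' (wl_length u)] at h
  exact h

end CA1492
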