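import Mathlib
import Pool.Agent.Lib.MP_ca1492_al.Mod.IndA

/-!
Induction of FObj's and the character of the induced object.
-/

namespace CA1492

open TensorProduct

variable {D : Dat} {lam : ℂˣ}

section Ind_aux
variable {m k : ℕ}
variable (V : Type) [AddCommGroup V] [Module ℂ V] [Module (R D m) V] [IsScalarTower ℂ (R D m) V]
variable (W : Type) [AddCommGroup W] [Module ℂ W] [Module (R D k) W] [IsScalarTower ℂ (R D k) W]

/-- The word projections on V ⊗ W. -/
noncomputable def Ind_E (c : Wd D m × Wd D k) : V ⊗[ℂ] W →ₗ[ℂ] V ⊗[ℂ] W :=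
  tens V W (ew c.1 ⊗ₜ[ℂ] ew c.2)

lemma Ind_E_mul (c c' : Wd D m × Wd D k) (t : V ⊗[ℂ] W) :
    Ind_E V W c (Ind_E V W c' t) = if c = c' then Ind_E V W c t else 0 := by
  have h1 : Ind_E V W c (Ind_E V W c' t) =
      tens V W ((ew c.1 ⊗ₜ[ℂ] ew c.2) * (ew c'.1 ⊗ₜ[ℂ] ew c'.2)) t := by
    rw [map_mul]; rfl
  rw [h1, Algebra.TensorProduct.tmul_mul_tmul, (isRep_R D m).E_mul, (isRep_R D k).E_mul]
  by_cases h : c = c'
  · subst h
    rw [if_pos rfl, if_pos rfl, if_pos rfl]
    rfl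
  · rw [if_neg h]
    by_cases h2 : c.1 = c'.1
    · have h3 : c.2 ≠ c'.2 := fun h3 => h (Prod.ext h2 h3)
      rw [if_neg h3, TensorProduct.tmul_zero, map_zero]
      rfl
    · rw [if_neg h2, TensorProduct.zero_tmul, map_zero]
      rfl

lemma Ind_E_sum' : ∑ c : Wd D m × Wd D k, (ew c.1 : R D m) ⊗ₜ[ℂ] (ew c.2 : R D k) = 1 := by
  rw [Fintype.sum_prod_type]
  have h1 : ∀ u : Wd D m, ∑ v : Wd D k, (ew u : R D m) ⊗ₜ[ℂ] (ew v : R D k) = ew u ⊗ₜ[ℂ] 1 := by
    intro u
    rw [← TensorProduct.tmul_sum, (isRep_R D k).E_sum]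
  simp only [h1]
  rw [← TensorProduct.sum_tmul, (isRep_R D m).E_sum]
  rfl

lemma Ind_E_sum (t : V ⊗[ℂ] W) : ∑ c : Wd D m × Wd D k, Ind_E V W c t = t := by
  have h1 : ∑ c : Wd D m × Wd D k, Ind_E V W c t =
      tens V W (∑ c : Wd D m × Wd D k, (ew c.1 : R D m) ⊗ₜ[ℂ] (ew c.2 : R D k)) t := by
    rw [map_sum, LinearMap.sum_apply]
    rfl
  rw [h1, Ind_E_sum', map_one]
  rfl

/-- the coefficient of the degree operator -/
noncomputable def Ind_c (lam : ℂˣ) (p : Shf m k) (c : Wd D m × Wd D k) : ℂ :=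
  ((lam ^ (sdeg m k (shf p) (Fin.append c.1 c.2 : Wd D (m + k))) : ℂˣ) : ℂ)

/-- the degree operator at the shuffle `p` -/
noncomputable def Ind_D (D : Dat) {m k : ℕ}
    (V : Type) [AddCommGroup V] [Module ℂ V] [Module (R D m) V] [IsScalarTower ℂ (R D m) V]
    (W : Type) [AddCommGroup W] [Module ℂ W] [Module (R D k) W] [IsScalarTower ℂ (R D k) W]
    (lam : ℂˣ) (p : Shf m k) : V ⊗[ℂ] W →ₗ[ℂ] V ⊗[ℂ] W :=
  ∑ c : Wd D m × Wd D k, Ind_c lam p c • Ind_E V W c

lemma Ind_D_apply (lam : ℂˣ) (p : Shf m k) (t : V ⊗[ℂ] W) :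
    Ind_D D V W lam p t = ∑ c : Wd D m × Wd D k, Ind_c lam p c • Ind_E V W c t := by
  unfold Ind_D
  rw [LinearMap.sum_apply]
  rfl

lemma Ind_D_E (lam : ℂˣ) (p : Shf m k) (c : Wd D m × Wd D k) (t : V ⊗[ℂ] W) :
    Ind_D D V W lam p (Ind_E V W c t) = Ind_c lam p c • Ind_E V W c t := by
  rw [Ind_D_apply, Finset.sum_eq_single c]
  · rw [Ind_E_mul, if_pos rfl]
  · intro c' _ hc'
    rw [Ind_E_mul, if_neg hc', smul_zero]
  · intro h
    exact absurd (Finset.mem_univ c) h

lemma Ind_D_inv (lam mu : ℂˣ) (h : lam * mu = 1) (p : Shf m k) (t : V ⊗[ℂ] W) :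
    Ind_D D V W lam p (Ind_D D V W mu p t) = t := by
  rw [Ind_D_apply V W mu p t, map_sum]
  conv_rhs => rw [← Ind_E_sum (D := D) (m := m) (k := k) V W t]
  refine Finset.sum_congr rfl fun c _ => ?_
  unfold Ind_c
  rw [map_smul, Ind_D_E, smul_smul]
  unfold Ind_c
  rw [← Units.val_mul, ← mul_zpow, mul_comm mu lam, h, one_zpow, Units.val_one, one_smul]

/-- the degree operator as an equivalence -/
noncomputable def Ind_De (D : Dat) {m k : ℕ}
    (V : Type) [AddCommGroup V] [Module ℂ V] [Module (R D m) V] [IsScalarTower ℂ (R D m) V]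
    (W : Type) [AddCommGroup W] [Module ℂ W] [Module (R D k) W] [IsScalarTower ℂ (R D k) W]
    (lam : ℂˣ) (p : Shf m k) : V ⊗[ℂ] W ≃ₗ[ℂ] V ⊗[ℂ] W :=
  LinearEquiv.ofLinearMap (Ind_D D V W lam p) (Ind_D D V W lam⁻¹ p)
    (LinearMap.ext fun t => Ind_D_inv V W lam lam⁻¹ (mul_inv_cancel lam) p t)
    (LinearMap.ext fun t => Ind_D_inv V W lam⁻¹ lam (inv_mul_cancel lam) p t)

lemma Ind_smul_apply (x : R D (m + k)) (F : IndV D m k V W) (p : Shf m k) :
    (x • F) p = ∑ q, tens V W (theta D m k x p q) (F q) := rfl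

omit [Module (R D m) V] [IsScalarTower ℂ (R D m) V] [Module (R D k) W]
  [IsScalarTower ℂ (R D k) W] in
lemma Ind_indIn_id (t : V ⊗[ℂ] W) :
    (indIn V W t : IndV D m k V W) (shfId m k) = t := by
  change (Pi.single (shfId m k) t : Shf m k → V ⊗[ℂ] W) (shfId m k) = t
  rw [Pi.single_eq_same]

omit [Module (R D m) V] [IsScalarTower ℂ (R D m) V] [Module (R D k) W]
  [IsScalarTower ℂ (R D k) W] in
lemma Ind_indIn_ne (t : V ⊗[ℂ] W) (q : Shf m k) (h : q ≠ shfId m k) :
    (indIn V W t : IndV D m k V W) q = 0 := by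
  change (Pi.single (shfId m k) t : Shf m k → V ⊗[ℂ] W) q = 0
  rw [Pi.single_eq_of_ne h]

/-- the function supported at q -/
lemma Ind_CS (q p : Shf m k) (t : V ⊗[ℂ] W) :
    ((CS m k (shf q) : R D (m + k)) • (indIn V W t : IndV D m k V W)) p =
      if p = q then t else 0 := by
  rw [Ind_smul_apply, Finset.sum_eq_single (shfId m k)]
  · rw [Ind_indIn_id, theta_CS]
    split_ifs
    · rw [map_one]; rfl
    · rw [map_zero]; rfl
  · intro q' _ hq'
    rw [Ind_indIn_ne V W t q' hq', map_zero]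
  · intro h
    exact absurd (Finset.mem_univ _) h

/-- a function is the sum of its values -/
lemma Ind_ext (F : IndV D m k V W) : F = ∑ p : Shf m k,
      (CS m k (shf p) : R D (m + k)) • (indIn V W (F p) : IndV D m k V W) := (indIn_facts V W).2 F

/-- `ew (append c)` on the canonical image -/
lemma Ind_ew_indIn (c : Wd D m × Wd D k) (t : V ⊗[ℂ] W) :
    (ew (Fin.append c.1 c.2) : R D (m + k)) • (indIn V W t : IndV D m k V W) =
      indIn V W (Ind_E V W c t) := by
  rw [← iota_ew, (indIn_facts V W).1]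
  rfl

omit [Module (R D m) V] [IsScalarTower ℂ (R D m) V] [Module (R D k) W]
  [IsScalarTower ℂ (R D k) W] in
lemma Ind_sum_apply {ι : Type} (s : Finset ι) (F : ι → IndV D m k V W) (p : Shf m k) :
    (∑ i ∈ s, F i) p = ∑ i ∈ s, F i p := Finset.sum_apply p s _

/-- the part of word `w` at the shuffle `p` -/
noncomputable def Ind_P (D : Dat) {m k : ℕ}
    (V : Type) [AddCommGroup V] [Module ℂ V] [Module (R D m) V] [IsScalarTower ℂ (R D m) V]
    (W : Type) [AddCommGroup W] [Module ℂ W] [Module (R D k) W] [IsScalarTower ℂ (R D k) W]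
    (w : Wd D (m + k)) (p : Shf m k) : V ⊗[ℂ] W →ₗ[ℂ] V ⊗[ℂ] W :=
  ∑ c : Wd D m × Wd D k,
    if shW m k (shf p) (Fin.append c.1 c.2 : Wd D (m + k)) = w then Ind_E V W c else 0

lemma Ind_P_apply (w : Wd D (m + k)) (p : Shf m k) (t : V ⊗[ℂ] W) :
    Ind_P D V W w p t = ∑ c : Wd D m × Wd D k,
      if shW m k (shf p) (Fin.append c.1 c.2 : Wd D (m + k)) = w then Ind_E V W c t else 0 := by
  unfold Ind_P
  rw [LinearMap.sum_apply]
  refine Finset.sum_congr rfl fun c _ => ?_
  split_ifs <;> rfl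

lemma Ind_ew_CS (w : Wd D (m + k)) (p : Shf m k) (t : V ⊗[ℂ] W) :
    (ew w : R D (m + k)) • (CS m k (shf p) : R D (m + k)) • (indIn V W t : IndV D m k V W) =
      (CS m k (shf p) : R D (m + k)) • (indIn V W (Ind_P D V W w p t) : IndV D m k V W) := by
  conv_lhs => rw [← Ind_E_sum (D := D) (m := m) (k := k) V W t, map_sum, Finset.smul_sum,
    Finset.smul_sum]
  rw [Ind_P_apply, map_sum, Finset.smul_sum]
  refine Finset.sum_congr rfl fun c _ => ?_
  have h1 : (ew w * (CS m k (shf p) * ew (Fin.append c.1 c.2)) : R D (m + k)) =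
      if shW m k (shf p) (Fin.append c.1 c.2 : Wd D (m + k)) = w then
        CS m k (shf p) * ew (Fin.append c.1 c.2) else 0 := by
    rw [(CS_ew m k (shf p) (Fin.append c.1 c.2 : Wd D (m + k))).1, ← mul_assoc,
      (isRep_R D (m + k)).E_mul]
    by_cases h : shW m k (shf p) (Fin.append c.1 c.2 : Wd D (m + k)) = w
    · rw [if_pos h, if_pos h.symm, h]
    · rw [if_neg h, if_neg (Ne.symm h), zero_mul]
  rw [← Ind_ew_indIn, smul_smul, smul_smul, mul_assoc, h1]
  split_ifs
  · rw [mul_smul, Ind_ew_indIn]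
  · rw [zero_smul, map_zero, smul_zero]

/-- the action of the idempotents -/
lemma Ind_ew_apply (w : Wd D (m + k)) (F : IndV D m k V W) (p : Shf m k) :
    ((ew w : R D (m + k)) • F) p = Ind_P D V W w p (F p) := by
  conv_lhs => rw [Ind_ext V W F, Finset.smul_sum, Ind_sum_apply]
  rw [Finset.sum_eq_single p]
  · rw [Ind_ew_CS, Ind_CS, if_pos rfl]
  · intro q _ hq
    rw [Ind_ew_CS, Ind_CS, if_neg (Ne.symm hq)]
  · intro h
    exact absurd (Finset.mem_univ _) h

end Ind_aux

section graded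
variable {m k : ℕ}

/-- the tensor product of the automorphisms -/
noncomputable def Ind_gg (M : FObj D m lam) (N : FObj D k lam) :
    M.V ⊗[ℂ] N.V ≃ₗ[ℂ] M.V ⊗[ℂ] N.V := TensorProduct.congr M.g N.g

lemma Ind_gg_tmul (M : FObj D m lam) (N : FObj D k lam) (a : M.V) (b : N.V) :
    Ind_gg M N (a ⊗ₜ b) = M.g a ⊗ₜ N.g b := TensorProduct.congr_tmul _ _ _ _

/-- the automorphism alpha ⊗ alpha -/
noncomputable def Ind_aa (D : Dat) (m k : ℕ) (lam : ℂˣ) :
    R D m ⊗[ℂ] R D k →ₐ[ℂ] R D m ⊗[ℂ] R D k :=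
  Algebra.TensorProduct.map (alpha D m lam) (alpha D k lam)

lemma Ind_gg_tens (M : FObj D m lam) (N : FObj D k lam) (z : R D m ⊗[ℂ] R D k)
    (t : M.V ⊗[ℂ] N.V) :
    Ind_gg M N (tens M.V N.V z t) = tens M.V N.V (Ind_aa D m k lam z) (Ind_gg M N t) := by
  induction z using TensorProduct.induction_on with
  | zero => rw [map_zero, map_zero, map_zero, LinearMap.zero_apply, map_zero]; rfl
  | add z z' hz hz' =>
    rw [map_add, map_add, map_add, LinearMap.add_apply, map_add, hz, hz', LinearMap.add_apply]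
  | tmul x y =>
    induction t using TensorProduct.induction_on with
    | zero => rw [map_zero, map_zero, map_zero]
    | add t t' ht ht' => rw [map_add, map_add, map_add, map_add, ht, ht']
    | tmul a b =>
      rw [tens_tmul, Ind_gg_tmul, Ind_gg_tmul, Ind_aa, Algebra.TensorProduct.map_tmul, tens_tmul,
        M.hg, N.hg]

lemma Ind_iota_aa (z : R D m ⊗[ℂ] R D k) :
    iota D m k (Ind_aa D m k lam z) = alpha D (m + k) lam (iota D m k z) := by
  induction z using TensorProduct.induction_on with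
  | zero => rw [map_zero, map_zero, map_zero]
  | add z z' hz hz' => rw [map_add, map_add, map_add, map_add, hz, hz']
  | tmul x y =>
    rw [Ind_aa, Algebra.TensorProduct.map_tmul, iota, Algebra.TensorProduct.lift_tmul,
      Algebra.TensorProduct.lift_tmul, map_mul, alpha_iotaL, alpha_iotaR]

lemma Ind_CS_one (n m : ℕ) : ∀ (k : ℕ) (p : ℕ → ℕ), (∀ j < k, p j = m + j) →
    (CS m k p : R D n) = 1
  | 0, _, _ => rfl
  | k + 1, p, h => by
    change Cc (p k) (m + k) * CS m k p = 1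
    rw [Ind_CS_one n m k p (fun j hj => h j (by omega)), h k (by omega),
      alpha_Cc_of_le (le_refl _), one_mul]

lemma Ind_CS_id (m k : ℕ) : (CS m k (shf (shfId m k)) : R D (m + k)) = 1 := by
  apply Ind_CS_one
  intro j hj
  unfold shf
  rw [dif_pos hj]
  rfl

/-- the automorphism of the induced module -/
noncomputable def Ind_g (M : FObj D m lam) (N : FObj D k lam) :
    IndV D m k M.V N.V ≃ₗ[ℂ] IndV D m k M.V N.V :=
  LinearEquiv.piCongrRight (R := ℂ) (φ := fun _ : Shf m k => M.V ⊗[ℂ] N.V)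
    (ψ := fun _ : Shf m k => M.V ⊗[ℂ] N.V)
    (fun p => (Ind_De D M.V N.V lam p).trans (Ind_gg M N))

lemma Ind_g_apply (M : FObj D m lam) (N : FObj D k lam) (F : IndV D m k M.V N.V) (p : Shf m k) :
    Ind_g M N F p = Ind_gg M N (Ind_D D M.V N.V lam p (F p)) := rfl

lemma Ind_gg_E (M : FObj D m lam) (N : FObj D k lam) (c : Wd D m × Wd D k)
    (t : M.V ⊗[ℂ] N.V) :
    Ind_gg M N (Ind_E M.V N.V c t) = Ind_E M.V N.V c (Ind_gg M N t) := by
  unfold Ind_E
  rw [Ind_gg_tens, Ind_aa, Algebra.TensorProduct.map_tmul, (alpha_spec D m lam).1,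
    (alpha_spec D k lam).1]

lemma Ind_g_CS (M : FObj D m lam) (N : FObj D k lam) (r : Shf m k) (t : M.V ⊗[ℂ] N.V) :
    Ind_g M N ((CS m k (shf r) : R D (m + k)) • (indIn M.V N.V t : IndV D m k M.V N.V)) =
      alpha D (m + k) lam (CS m k (shf r)) •
        (indIn M.V N.V (Ind_gg M N t) : IndV D m k M.V N.V) := by
  have h1 : Ind_g M N ((CS m k (shf r) : R D (m + k)) •
      (indIn M.V N.V t : IndV D m k M.V N.V)) = (CS m k (shf r) : R D (m + k)) •
        (indIn M.V N.V (Ind_gg M N (Ind_D D M.V N.V lam r t)) : IndV D m k M.V N.V) := by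
    funext p
    rw [Ind_g_apply, Ind_CS, Ind_CS]
    by_cases h : p = r
    · rw [if_pos h, if_pos h, h]
    · rw [if_neg h, if_neg h, map_zero, map_zero]
  rw [h1]
  have h2 : Ind_gg M N (Ind_D D M.V N.V lam r t) =
      ∑ c : Wd D m × Wd D k, Ind_c lam r c • Ind_E M.V N.V c (Ind_gg M N t) := by
    rw [Ind_D_apply, map_sum]
    refine Finset.sum_congr rfl fun c _ => ?_
    rw [map_smul, Ind_gg_E]
  conv_rhs => rw [← Ind_E_sum (D := D) (m := m) (k := k) M.V N.V (Ind_gg M N t), map_sum,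
    Finset.smul_sum]
  rw [h2, map_sum, Finset.smul_sum]
  refine Finset.sum_congr rfl fun c _ => ?_
  have h3 : alpha D (m + k) lam (CS m k (shf r)) * ew (Fin.append c.1 c.2) =
      Ind_c lam r c • (CS m k (shf r) * ew (Fin.append c.1 c.2)) := by
    have h4 := (CS_ew m k (shf r) (Fin.append c.1 c.2 : Wd D (m + k))).2 lam
    rw [map_mul, (alpha_spec D (m + k) lam).1] at h4
    exact h4
  rw [← Ind_ew_indIn, smul_smul, h3, smul_assoc, mul_smul, Ind_ew_indIn, map_smul]
  exact smul_comm _ _ _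

/-- The automorphism g of the induced module.
PROOF. Define gI F p = ∑_{u, v} lam^(sdeg m k (shf p) (Fin.append u v)) •
(M.g ⊗ N.g) (tens (ew u ⊗ ew v) (F p)) (as a linear map; invertible since it is diagonal with respect to
the words: the inverse uses lam^(-sdeg) and the inverses of M.g, N.g). Then
gI (CS (shf p) • indIn t) = alpha (CS (shf p)) • indIn ((M.g ⊗ N.g) t) by `CS_ew` (decompose t by
words), and gI (x • F) = alpha x • gI F: enough for F = CS p • indIn t (`indIn_facts`), x * CS p =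
∑ CS r * iota z_r, and alpha (iota z) = iota ((alpha ⊗ alpha) z) (`alpha_iotaL`, `alpha_iotaR`),
M.hg, N.hg. -/
theorem exists_indg (M : FObj D m lam) (N : FObj D k lam) :
    ∃ gI : IndV D m k M.V N.V ≃ₗ[ℂ] IndV D m k M.V N.V,
      (∀ (x : R D (m + k)) (F : IndV D m k M.V N.V), gI (x • F) = alpha D (m + k) lam x • gI F) ∧
      (∀ t : M.V ⊗[ℂ] N.V, gI (indIn M.V N.V t) =
        indIn M.V N.V (TensorProduct.map M.g.toLinearMap N.g.toLinearMap t)) := by
  have hA : ∀ (x : R D (m + k)) (F : IndV D m k M.V N.V),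
      Ind_g M N (x • F) = alpha D (m + k) lam x • Ind_g M N F := by
    intro x F
    have h0 := Ind_ext M.V N.V F
    rw [h0, Finset.smul_sum, map_sum, map_sum, Finset.smul_sum]
    refine Finset.sum_congr rfl fun q _ => ?_
    rw [Ind_g_CS, smul_smul, smul_smul, ← map_mul, theta_spec, Finset.sum_smul, map_sum, map_sum,
      Finset.sum_smul]
    refine Finset.sum_congr rfl fun r _ => ?_
    rw [mul_smul, (indIn_facts M.V N.V).1, Ind_g_CS, Ind_gg_tens, ← (indIn_facts M.V N.V).1,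
      Ind_iota_aa, smul_smul, ← map_mul]
  refine ⟨Ind_g M N, hA, fun t => ?_⟩
  have h1 := Ind_g_CS M N (shfId m k) t
  rw [Ind_CS_id, one_smul, map_one, one_smul] at h1
  exact h1

/-- The induced object. -/
noncomputable def Ind (M : FObj D m lam) (N : FObj D k lam) : FObj D (m + k) lam where
  V := IndV D m k M.V N.V
  g := (exists_indg M N).choose
  hg := (exists_indg M N).choose_spec.1

lemma Ind_g_eq' (M : FObj D m lam) (N : FObj D k lam)
    (g : IndV D m k M.V N.V ≃ₗ[ℂ] IndV D m k M.V N.V)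
    (h2 : ∀ (x : R D (m + k)) (F : IndV D m k M.V N.V), g (x • F) = alpha D (m + k) lam x • g F)
    (h1 : ∀ t : M.V ⊗[ℂ] N.V, g (indIn M.V N.V t) =
        indIn M.V N.V (TensorProduct.map M.g.toLinearMap N.g.toLinearMap t))
    (F : IndV D m k M.V N.V) : g F = Ind_g M N F := by
  have h0 := Ind_ext M.V N.V F
  rw [h0, map_sum, map_sum]
  refine Finset.sum_congr rfl fun p _ => ?_
  rw [Ind_g_CS, h2, h1]
  rfl

lemma Ind_g_eq (M : FObj D m lam) (N : FObj D k lam) (F : IndV D m k M.V N.V) :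
    (Ind M N).g F = Ind_g M N F :=
  Ind_g_eq' M N (exists_indg M N).choose (exists_indg M N).choose_spec.1
    (exists_indg M N).choose_spec.2 F

/-- trace of a diagonal map on a product -/
lemma Ind_trace_pi {ι : Type} [Fintype ι] [DecidableEq ι] {X : Type} [AddCommGroup X] [Module ℂ X]
    [FiniteDimensional ℂ X] (A : ι → X →ₗ[ℂ] X) (T : (ι → X) →ₗ[ℂ] (ι → X))
    (hT : ∀ F p, T F p = A p (F p)) : LinearMap.trace ℂ (ι → X) T =
      ∑ p, LinearMap.trace ℂ X (A p) := by
  have h1 : T = ∑ p, (LinearMap.single ℂ (fun _ : ι => X) p) ∘ₗ (A p ∘ₗ LinearMap.proj p) := by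
    refine LinearMap.ext fun F => funext fun q => ?_
    rw [hT, LinearMap.sum_apply, Finset.sum_apply, Finset.sum_eq_single q]
    · change A q (F q) = (Pi.single q (A q (F q)) : ι → X) q
      rw [Pi.single_eq_same]
    · intro p _ hp
      change (Pi.single p (A p (F p)) : ι → X) q = 0
      rw [Pi.single_eq_of_ne (Ne.symm hp)]
    · intro h
      exact absurd (Finset.mem_univ _) h
  rw [h1, map_sum]
  refine Finset.sum_congr rfl fun p _ => ?_
  rw [LinearMap.trace_comp_comm', LinearMap.comp_assoc]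
  congr 1
  refine LinearMap.ext fun x => ?_
  change A p ((Pi.single p x : ι → X) p) = A p x
  rw [Pi.single_eq_same]

lemma Ind_trace_E (M : FObj D m lam) (N : FObj D k lam) (c : Wd D m × Wd D k) :
    LinearMap.trace ℂ _ ((Ind_gg M N).toLinearMap ∘ₗ Ind_E M.V N.V c) =
      ch M c.1 * ch N c.2 := by
  have h1 : (Ind_gg M N).toLinearMap ∘ₗ Ind_E M.V N.V c =
      TensorProduct.map (M.g.toLinearMap ∘ₗ act M.V (ew c.1))
        (N.g.toLinearMap ∘ₗ act N.V (ew c.2)) := by
    apply TensorProduct.ext'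
    intro a b
    rfl
  rw [h1, LinearMap.trace_tensorProduct']
  rfl

/-- The character of the induced object.
PROOF. IndV has the decomposition into the subspaces CS (shf p) • indIn (ew u M ⊗ ew v N) over p, u, v,
of word shW m k (shf p) (append u v) (`CS_ew`), and g acts there by lam^sdeg times M.g ⊗ N.g
(`exists_indg`, `CS_ew`, ew (append u v) = iota (ew u ⊗ ew v)); trace of a tensor product =
product of traces (`LinearMap.trace_tensorProduct'`). -/
theorem ch_Ind (M : FObj D m lam) (N : FObj D k lam) (w : Wd D (m + k)) :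
    ch (Ind M N) w = ∑ p : Shf m k, ∑ u : Wd D m, ∑ v : Wd D k,
      if shW m k (shf p) (Fin.append u v) = w then
        ((lam ^ (sdeg m k (shf p) (Fin.append u v)) : ℂˣ) : ℂ) * (ch M u * ch N v) else 0 := by
  let A : Shf m k → (M.V ⊗[ℂ] N.V →ₗ[ℂ] M.V ⊗[ℂ] N.V) := fun p =>
    ∑ c : Wd D m × Wd D k, if shW m k (shf p) (Fin.append c.1 c.2 : Wd D (m + k)) = w then
      Ind_c lam p c • ((Ind_gg M N).toLinearMap ∘ₗ Ind_E M.V N.V c) else 0
  have hA : ∀ (F : IndV D m k M.V N.V) (p : Shf m k),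
      ((Ind M N).g.toLinearMap ∘ₗ act (Ind M N).V (ew w)) F p = A p (F p) := by
    intro F p
    have h1 : ((Ind M N).g.toLinearMap ∘ₗ act (Ind M N).V (ew w)) F =
      (Ind M N).g ((ew w : R D (m + k)) • F : IndV D m k M.V N.V) := rfl
    rw [h1, Ind_g_eq, Ind_g_apply, Ind_ew_apply, Ind_P_apply, map_sum, map_sum]
    simp only [A]
    rw [LinearMap.sum_apply]
    refine Finset.sum_congr rfl fun c _ => ?_
    split_ifs
    · rw [Ind_D_E, map_smul]
      rfl
    · rw [map_zero, map_zero]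
      rfl
  have h2 : ch (Ind M N) w = ∑ p, LinearMap.trace ℂ (M.V ⊗[ℂ] N.V) (A p) :=
    Ind_trace_pi A ((Ind M N).g.toLinearMap ∘ₗ act (Ind M N).V (ew w)) hA
  rw [h2]
  refine Finset.sum_congr rfl fun p _ => ?_
  simp only [A]
  rw [map_sum, Fintype.sum_prod_type]
  refine Finset.sum_congr rfl fun u _ => Finset.sum_congr rfl fun v _ => ?_
  by_cases h : shW m k (shf p) (Fin.append u v : Wd D (m + k)) = w
  · rw [if_pos h, if_pos h, map_smul, Ind_trace_E]
    rfl
  · rw [if_neg h, if_neg h, map_zero]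

end graded

end CA1492
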