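import Mathlib
import Pool.Agent.Lib.MP_ca1492_al.Mod.ChSh
import Pool.Agent.Lib.MP_ca1492_al.Mod.Ind
import Pool.Agent.Lib.MP_ca1492_al.Mod.VVb

/-!
Characters of induced modules and of the modules V(w) in the quantum shuffle algebra.
-/

namespace CA1492

variable {Λ : Type} [DecidableEq Λ] {S : Finset (Λ × ℤ)} {lam : ℂˣ}

/-- Coefficients of words. -/
lemma ChInd_single {n : ℕ} (w₀ : Wd (datS S) n) (c : ℂ) :
    ∑ w : Wd (datS S) n, (if w₀ = w then c else 0) • (PC.QSh.wd (wl w) : PC.QSh Λ ℂ lam) =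
      c • (PC.QSh.wd (wl w₀) : PC.QSh Λ ℂ lam) := by
  rw [Finset.sum_eq_single w₀]
  · rw [if_pos rfl]
  · intro w _ hw
    rw [if_neg (Ne.symm hw), zero_smul]
  · intro h
    exact absurd (Finset.mem_univ _) h

/-- PROOF: `ch_Ind`, `wd_mul`, and bilinearity of the product (`Finset.sum_mul_sum`, smul_mul_smul_comm;
the sum over w of (if shW.. = w then c else 0) • wd (wl w) is c • wd (wl (shW ..))). -/
theorem chQ_Ind {m k : ℕ} (M : FObj (datS S) m lam) (N : FObj (datS S) k lam) :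
    chQ (Ind M N) = chQ M * chQ N := by
  have h1 : chQ (Ind M N) = ∑ p : Shf m k, ∑ u : Wd (datS S) m, ∑ v : Wd (datS S) k,
      (((lam ^ (sdeg m k (shf p) (Fin.append u v)) : ℂˣ) : ℂ) * (ch M u * ch N v)) •
        (PC.QSh.wd (wl (shW m k (shf p) (Fin.append u v))) : PC.QSh Λ ℂ lam) := by
    unfold chQ
    simp only [ch_Ind, Finset.sum_smul]
    rw [Finset.sum_comm]
    refine Finset.sum_congr rfl fun p _ => ?_
    rw [Finset.sum_comm]
    refine Finset.sum_congr rfl fun u _ => ?_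
    rw [Finset.sum_comm]
    refine Finset.sum_congr rfl fun v _ => ?_
    exact ChInd_single _ _
  have h2 : (chQ M * chQ N : PC.QSh Λ ℂ lam) = ∑ u : Wd (datS S) m, ∑ v : Wd (datS S) k,
      (ch M u * ch N v) • (PC.QSh.wd (wl u) * PC.QSh.wd (wl v) : PC.QSh Λ ℂ lam) := by
    unfold chQ
    rw [Finset.sum_mul_sum]
    refine Finset.sum_congr rfl fun u _ => Finset.sum_congr rfl fun v _ => ?_
    rw [smul_mul_smul_comm]
  rw [h1, h2]
  simp only [wd_mul, Finset.smul_sum, smul_smul]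
  rw [Finset.sum_comm]
  refine Finset.sum_congr rfl fun u _ => ?_
  rw [Finset.sum_comm]
  refine Finset.sum_congr rfl fun v _ => Finset.sum_congr rfl fun p _ => ?_
  rw [mul_comm]

/-- PROOF: `ch_VF`. -/
theorem chQ_VF_sum {n : ℕ} (w : Wd (datS S) n) : chQ (VF lam w) = ∑ p : Sq n,
    ((lam ^ (sdeg 0 n (sqFun p) w) : ℂˣ) : ℂ) •
      (PC.QSh.wd (wl (shW 0 n (sqFun p) w)) : PC.QSh Λ ℂ lam) := by
  unfold chQ
  simp only [ch_VF, Finset.sum_smul]
  rw [Finset.sum_comm]
  refine Finset.sum_congr rfl fun p _ => ?_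
  exact ChInd_single _ _

lemma ChInd_sw {D : Dat} {n : ℕ} (a : D.J) (w : Wd D n) (q : ℕ) (hq : q + 1 < n) :
    (Fin.snoc w a : Wd D (n + 1)) ∘ sw (n + 1) q = (Fin.snoc (w ∘ sw n q) a : Wd D (n + 1)) := by
  funext j
  refine Fin.lastCases ?_ (fun j => ?_) j
  · rw [Function.comp_apply, alpha_sw_ne (Fin.last n) (by simp only [Fin.val_last]; omega)
      (by simp only [Fin.val_last]; omega), Fin.snoc_last, Fin.snoc_last]
  · rw [Function.comp_apply, Fin.snoc_castSucc, Function.comp_apply]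
    by_cases h1 : j.val = q
    · obtain rfl : j = ⟨q, Nat.lt_of_succ_lt hq⟩ := Fin.ext h1
      have e1 : sw (n + 1) q (Fin.castSucc ⟨q, by omega⟩) =
          Fin.castSucc (⟨q + 1, hq⟩ : Fin n) := alpha_sw_left (by omega)
      rw [e1, alpha_sw_left hq, Fin.snoc_castSucc]
    · by_cases h2 : j.val = q + 1
      · obtain rfl : j = ⟨q + 1, hq⟩ := Fin.ext h2
        have e1 : sw (n + 1) q (Fin.castSucc ⟨q + 1, hq⟩) =
            Fin.castSucc (⟨q, by omega⟩ : Fin n) := alpha_sw_right (by omega)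
        rw [e1, alpha_sw_right hq, Fin.snoc_castSucc]
      · rw [alpha_sw_ne j h1 h2, alpha_sw_ne (Fin.castSucc j) h1 h2, Fin.snoc_castSucc]

lemma ChInd_wdg {D : Dat} {n : ℕ} (a : D.J) (w : Wd D n) (q : ℕ) (hq : q + 1 < n) :
    wdg (Fin.snoc w a : Wd D (n + 1)) q = wdg w q := by
  rw [alpha_wdg_eq _ q (by omega), alpha_wdg_eq _ q hq]
  have e1 : (⟨q, by omega⟩ : Fin (n + 1)) = Fin.castSucc (⟨q, by omega⟩ : Fin n) := rfl
  have e2 : (⟨q + 1, by omega⟩ : Fin (n + 1)) = Fin.castSucc (⟨q + 1, hq⟩ : Fin n) := rfl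
  rw [e1, e2, Fin.snoc_castSucc, Fin.snoc_castSucc]

lemma ChInd_cy {D : Dat} {n : ℕ} (a : D.J) (w : Wd D n) (p q : ℕ) (hq : q < n) :
    cyW (Fin.snoc w a : Wd D (n + 1)) p q = Fin.snoc (cyW w p q) a ∧
    cdeg (Fin.snoc w a : Wd D (n + 1)) p q = cdeg w p q := by
  induction q generalizing w with
  | zero => exact ⟨rfl, rfl⟩
  | succ q ih =>
    by_cases h : p ≤ q
    · obtain ⟨i1, i2⟩ := ih (w ∘ sw n q) (by omega)
      refine ⟨?_, ?_⟩
      · rw [cyW, cyW, if_pos h, if_pos h, ChInd_sw a w q hq, i1]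
      · rw [cdeg, cdeg, if_pos h, if_pos h, ChInd_sw a w q hq, i2, ChInd_wdg a w q hq]
    · refine ⟨?_, ?_⟩
      · rw [cyW, cyW, if_neg h, if_neg h]
      · rw [cdeg, cdeg, if_neg h, if_neg h]

/-- The last letter is not moved. PROOF: induction on q (sw (n+1) q does not move the last position for
q + 1 < n) and on k. -/
theorem sh_snoc {D : Dat} {n : ℕ} (a : D.J) (w : Wd D n) (m k : ℕ) (hmk : m + k ≤ n) (p : ℕ → ℕ) :
    shW m k p (Fin.snoc w a : Wd D (n + 1)) = Fin.snoc (shW m k p w) a ∧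
    sdeg m k p (Fin.snoc w a : Wd D (n + 1)) = sdeg m k p w := by
  induction k with
  | zero => exact ⟨rfl, rfl⟩
  | succ k ih =>
    obtain ⟨i1, i2⟩ := ih (by omega)
    obtain ⟨c1, c2⟩ := ChInd_cy a (shW m k p w) (p k) (m + k) (by omega)
    refine ⟨?_, ?_⟩
    · rw [shW, shW, i1, c1]
    · rw [sdeg, sdeg, i1, i2, c2]

lemma ChInd_congr {D : Dat} {n : ℕ} (w : Wd D n) (m k : ℕ) (p p' : ℕ → ℕ)
    (h : ∀ j < k, p j = p' j) : shW m k p w = shW m k p' w ∧ sdeg m k p w = sdeg m k p' w := by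
  induction k with
  | zero => exact ⟨rfl, rfl⟩
  | succ k ih =>
    obtain ⟨i1, i2⟩ := ih (fun j hj => h j (by omega))
    refine ⟨?_, ?_⟩
    · rw [shW, shW, i1, h k (by omega)]
    · rw [sdeg, sdeg, i1, i2, h k (by omega)]

/-- Shuffles of n letters with one letter. -/
def ChInd_e (n : ℕ) : Fin (n + 1) ≃ Shf n 1 where
  toFun t := ⟨fun _ => t, fun a b h => by
    have h1 : a = b := Subsingleton.elim a b
    rw [h1] at h
    exact absurd h (lt_irrefl _)⟩
  invFun p := p.1 0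
  left_inv t := rfl
  right_inv p := Subtype.ext (funext fun j => by
    have h1 : j = 0 := Subsingleton.elim _ _
    rw [h1])

/-- The product with a letter. -/
lemma ChInd_mul {n : ℕ} (u : Wd (datS S) n) (a : (datS S).J) :
    (PC.QSh.wd (wl u) * PC.QSh.wd [ltr a] : PC.QSh Λ ℂ lam) = ∑ t : Fin (n + 1),
      ((lam ^ (cdeg (Fin.snoc u a : Wd (datS S) (n + 1)) t.val n) : ℂˣ) : ℂ) •
        (PC.QSh.wd (wl (cyW (Fin.snoc u a : Wd (datS S) (n + 1)) t.val n)) :
          PC.QSh Λ ℂ lam) := by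
  have h1 : wl (fun _ : Fin 1 => a) = [ltr a] := rfl
  rw [← h1, wd_mul, ← Equiv.sum_comp (ChInd_e n)]
  refine Finset.sum_congr rfl fun t _ => ?_
  have h2 : Fin.append u (fun _ : Fin 1 => a) = (Fin.snoc u a : Wd (datS S) (n + 1)) :=
    Fin.append_right_eq_snoc u (fun _ : Fin 1 => a)
  have h3 : shf (ChInd_e n t) 0 = t.val := by
    unfold shf
    rw [dif_pos (by omega)]
    rfl
  rw [h2]
  have h4 : shW n 1 (shf (ChInd_e n t)) (Fin.snoc u a : Wd (datS S) (n + 1)) =
      cyW (Fin.snoc u a : Wd (datS S) (n + 1)) t.val n := by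
    rw [shW, shW, h3, add_zero]
  have h5 : sdeg n 1 (shf (ChInd_e n t)) (Fin.snoc u a : Wd (datS S) (n + 1)) =
      cdeg (Fin.snoc u a : Wd (datS S) (n + 1)) t.val n := by
    rw [sdeg, sdeg, shW, h3, add_zero, add_zero]
  rw [h4, h5]

/-- The character of V(w) is the product of the letters.
PROOF: by `chQ_VF_sum` and induction on n, for w = Fin.snoc u a: let_ (wl w) = let_ (wl u) * wd [a], and
Sq (n+1) is the product of Sq n and Fin (n+1) = Shf n 1:
shW 0 (n+1) p w = cyW (shW 0 n p w) (p n) n = shW n 1 t (Fin.append (shW 0 n p u) [a]) for t 0 = p n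
(`sh_snoc`), and the degrees add; use `wd_mul` for m = n, k = 1. -/
theorem chQ_VF {n : ℕ} (w : Wd (datS S) n) : chQ (VF lam w) = PC.QSh.let_ (wl w) := by
  induction n with
  | zero =>
    rw [chQ_VF_sum]
    have h1 : wl w = [] := List.ofFn_zero
    have h2 : ∀ p : Sq 0, shW 0 0 (sqFun p) w = w := fun p => rfl
    have h3 : ∀ p : Sq 0, sdeg 0 0 (sqFun p) w = 0 := fun p => rfl
    simp only [h2, h3, zpow_zero, Units.val_one, one_smul, h1, Finset.sum_const,
      Finset.card_univ]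
    have h4 : Fintype.card (Sq 0) = 1 := by rw [card_Sq, Nat.factorial_zero]
    rw [h4, one_smul]
    rfl
  | succ n ih =>
    obtain ⟨u, a, rfl⟩ : ∃ (u : Wd (datS S) n) (a : (datS S).J),
        w = (Fin.snoc u a : Wd (datS S) (n + 1)) :=
      ⟨Fin.init w, w (Fin.last n), (Fin.snoc_init_self w).symm⟩
    have hl : (PC.QSh.let_ (wl (Fin.snoc u a : Wd (datS S) (n + 1))) : PC.QSh Λ ℂ lam) =
        PC.QSh.let_ (wl u) * PC.QSh.wd [ltr a] := by
      have h1 : wl (Fin.snoc u a : Wd (datS S) (n + 1)) = wl u ++ [ltr a] := by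
        unfold wl
        rw [List.ofFn_succ', List.concat_eq_append]
        simp only [Fin.snoc_castSucc, Fin.snoc_last]
      rw [h1]
      unfold PC.QSh.let_
      rw [List.map_append, List.prod_append, List.map_singleton, List.prod_singleton]
    rw [hl, ← ih, chQ_VF_sum, chQ_VF_sum, Finset.sum_mul]
    let al : Fin (n + 1) → Type := fun j => Fin (j.val + 1)
    rw [← Equiv.sum_comp (Fin.snocEquiv al), Fintype.sum_prod_type, Finset.sum_comm]
    refine Finset.sum_congr rfl fun p _ => ?_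
    rw [smul_mul_assoc, ChInd_mul, Finset.smul_sum]
    refine Finset.sum_congr rfl fun t _ => ?_
    have hp : ∀ j < n, sqFun (Fin.snocEquiv al (t, p) : Sq (n + 1)) j = sqFun p j := by
      intro j hj
      unfold sqFun
      rw [dif_pos hj, dif_pos (by omega)]
      have e1 : (Fin.snocEquiv al (t, p) : Sq (n + 1)) (Fin.castSucc ⟨j, hj⟩) = p ⟨j, hj⟩ :=
        Fin.snoc_castSucc _ _ _
      exact congrArg Fin.val e1
    have ht : sqFun (Fin.snocEquiv al (t, p) : Sq (n + 1)) n = t.val := by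
      unfold sqFun
      rw [dif_pos (by omega)]
      have e1 : (Fin.snocEquiv al (t, p) : Sq (n + 1)) (Fin.last n) = t :=
        Fin.snoc_last _ _
      exact congrArg Fin.val e1
    obtain ⟨c1, c2⟩ := ChInd_congr (Fin.snoc u a : Wd (datS S) (n + 1)) 0 n _ _ hp
    obtain ⟨s1, s2⟩ := sh_snoc a u 0 n (by omega) (sqFun p)
    have e1 : shW 0 (n + 1) (sqFun (Fin.snocEquiv al (t, p) : Sq (n + 1)))
        (Fin.snoc u a : Wd (datS S) (n + 1)) =
        cyW (Fin.snoc (shW 0 n (sqFun p) u) a : Wd (datS S) (n + 1)) t.val n := by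
      rw [shW, c1, s1, ht, zero_add]
    have e2 : sdeg 0 (n + 1) (sqFun (Fin.snocEquiv al (t, p) : Sq (n + 1)))
        (Fin.snoc u a : Wd (datS S) (n + 1)) =
        sdeg 0 n (sqFun p) u +
        cdeg (Fin.snoc (shW 0 n (sqFun p) u) a : Wd (datS S) (n + 1)) t.val n := by
      rw [sdeg, c1, c2, s1, s2, ht, zero_add, add_comm]
    rw [e1, e2, zpow_add, Units.val_mul, smul_smul]

end CA1492
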