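import Mathlib
import Pool.Agent.Lib.MP_ca1492_al.Mod.IndA

/-!
Modules over `R D n` (a bundled version), induction products of lists.
-/

namespace CA1492

open TensorProduct

/-- A module over `R D n`. -/
structure RMod (D : Dat) (n : ℕ) : Type 1 where
  V : Type
  [acg : AddCommGroup V]
  [modC : Module ℂ V]
  [modR : Module (R D n) V]
  [tower : IsScalarTower ℂ (R D n) V]

attribute [instance] RMod.acg RMod.modC RMod.modR RMod.tower

variable {D : Dat} {n m k : ℕ} {lam : ℂˣ}

/-- The underlying module of an FObj. -/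
def FObj.rm (M : FObj D n lam) : RMod D n := ⟨M.V⟩

/-- Isomorphism. -/
def RIso (M N : RMod D n) : Prop := Nonempty (M.V ≃ₗ[R D n] N.V)

/-- Induction. -/
noncomputable def RMod.ind (M : RMod D m) (N : RMod D k) : RMod D (m + k) := ⟨IndV D m k M.V N.V⟩

/-- Change of n. -/
def RMod.cast (h : m = n) (M : RMod D m) : RMod D n := h ▸ M

theorem RIso.refl (M : RMod D n) : RIso M M := ⟨LinearEquiv.refl _ _⟩

theorem RIso.symm {M N : RMod D n} (h : RIso M N) : RIso N M := by
  obtain ⟨e⟩ := h
  exact ⟨e.symm⟩

theorem RIso.trans {M N P : RMod D n} (h : RIso M N) (h' : RIso N P) : RIso M P := by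
  obtain ⟨e⟩ := h
  obtain ⟨e'⟩ := h'
  exact ⟨e.trans e'⟩

/-- A module over `R D n` with the structure of ℂ-module coming from `R D n` is determined by the
latter: R-linear maps are ℂ-linear. -/
theorem R_lin_C (M N : RMod D n) (f : M.V →ₗ[R D n] N.V) (c : ℂ) (v : M.V) :
    f (c • v) = c • f v := by
  rw [← one_smul (R D n) v, ← smul_assoc, map_smul, smul_assoc, one_smul, one_smul]

/-- the ℂ-linear equivalence underlying an R-linear one -/
noncomputable def RMod_eC (M N : RMod D n) (e : M.V ≃ₗ[R D n] N.V) : M.V ≃ₗ[ℂ] N.V :=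
  { e.toAddEquiv with map_smul' := fun c v => R_lin_C M N e.toLinearMap c v }

lemma RMod_eC_apply (M N : RMod D n) (e : M.V ≃ₗ[R D n] N.V) (v : M.V) :
    RMod_eC M N e v = e v := rfl

lemma RMod_tens {M M' : RMod D m} {N N' : RMod D k} (e : M.V ≃ₗ[R D m] M'.V)
    (e' : N.V ≃ₗ[R D k] N'.V) (z : R D m ⊗[ℂ] R D k) (t : M.V ⊗[ℂ] N.V) :
    TensorProduct.congr (RMod_eC M M' e) (RMod_eC N N' e') (tens M.V N.V z t) =
      tens M'.V N'.V z (TensorProduct.congr (RMod_eC M M' e) (RMod_eC N N' e') t) := by
  induction z using TensorProduct.induction_on with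
  | zero => rw [map_zero, map_zero, LinearMap.zero_apply, LinearMap.zero_apply, map_zero]
  | add z z' hz hz' =>
    rw [map_add, map_add, LinearMap.add_apply, LinearMap.add_apply, map_add, hz, hz']
  | tmul x y =>
    induction t using TensorProduct.induction_on with
    | zero => rw [map_zero, map_zero, map_zero]
    | add t t' ht ht' => rw [map_add, map_add, map_add, map_add, ht, ht']
    | tmul a b =>
      rw [tens_tmul, TensorProduct.congr_tmul, TensorProduct.congr_tmul, tens_tmul,
        RMod_eC_apply, RMod_eC_apply, RMod_eC_apply, RMod_eC_apply, map_smul, map_smul]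

/-- Functoriality of the induction.
PROOF: F ↦ fun p => (e ⊗ e') (F p) (`TensorProduct.congr` of the ℂ-linear equivalences); R-linearity:
tens commutes with e ⊗ e' since e, e' are linear over R D m, R D k (check on pure tensors x ⊗ y and v ⊗ w). -/
theorem ind_congr {M M' : RMod D m} {N N' : RMod D k} (h : RIso M M') (h' : RIso N N') :
    RIso (M.ind N) (M'.ind N') := by
  obtain ⟨e⟩ := h
  obtain ⟨e'⟩ := h'
  let T := TensorProduct.congr (RMod_eC M M' e) (RMod_eC N N' e')
  have hT : ∀ (z : R D m ⊗[ℂ] R D k) (t : M.V ⊗[ℂ] N.V),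
      T (tens M.V N.V z t) = tens M'.V N'.V z (T t) := RMod_tens e e'
  refine ⟨{ toFun := fun (F : IndV D m k M.V N.V) => ((fun p => T (F p) : Shf m k →
              M'.V ⊗[ℂ] N'.V) : IndV D m k M'.V N'.V)
            invFun := fun (F : IndV D m k M'.V N'.V) => ((fun p => T.symm (F p) : Shf m k →
              M.V ⊗[ℂ] N.V) : IndV D m k M.V N.V)
            map_add' := fun F G => ?_
            map_smul' := fun x F => ?_
            left_inv := fun F => ?_
            right_inv := fun F => ?_ }⟩
  · funext p
    exact map_add T (F p) (G p)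
  · funext p
    change T (∑ q, tens M.V N.V (theta D m k x p q) (F q)) =
      ∑ q, tens M'.V N'.V (theta D m k x p q) (T (F q))
    rw [map_sum]
    exact Finset.sum_congr rfl fun q _ => hT _ _
  · funext p
    exact T.symm_apply_apply (F p)
  · funext p
    exact T.apply_symm_apply (F p)

/-- A module over `R D n` is the induction product of the list L (associated to the right). -/
def IsProd (D : Dat) : List (Σ m, RMod D m) → (n : ℕ) → RMod D n → Prop
  | [], n, M => n = 0 ∧ Module.finrank ℂ M.V = 1
  | [A], n, M => ∃ h : A.1 = n, RIso M (A.2.cast h)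
  | A :: B :: L, n, M => ∃ (k : ℕ) (N : RMod D k) (h : A.1 + k = n),
      IsProd D (B :: L) k N ∧ RIso M ((A.2.ind N).cast h)

/-- PROOF: by cases on the list. -/
theorem IsProd.congr {L : List (Σ m, RMod D m)} {M M' : RMod D n} (h : RIso M M')
    (hM : IsProd D L n M) : IsProd D L n M' := by
  match L, hM with
  | [], hM =>
    obtain ⟨e⟩ := h
    exact ⟨hM.1, by rw [← (RMod_eC M M' e).finrank_eq]; exact hM.2⟩
  | [A], hM =>
    obtain ⟨h0, h1⟩ := hM
    exact ⟨h0, h.symm.trans h1⟩
  | A :: B :: L, hM =>
    obtain ⟨k, N, h0, h1, h2⟩ := hM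
    exact ⟨k, N, h0, h1, h.symm.trans h2⟩

/-- PROOF: two isomorphic choices for the factors give the same products. Induction on the list. -/
theorem IsProd.congr_list {L L' : List (Σ m, RMod D m)} {M : RMod D n}
    (hL : List.Forall₂ (fun A B => ∃ h : A.1 = B.1, RIso (A.2.cast h) B.2) L L')
    (hM : IsProd D L n M) : IsProd D L' n M := by
  induction hL generalizing n M with
  | nil => exact hM
  | @cons A B L L' hAB hL ih =>
    obtain ⟨a, A⟩ := A
    obtain ⟨b, B⟩ := B
    obtain ⟨h1, h2⟩ := hAB
    change a = b at h1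
    subst h1
    change RIso A B at h2
    cases hL with
    | nil =>
      obtain ⟨h3, h4⟩ := hM
      change a = n at h3
      subst h3
      exact ⟨rfl, h4.trans h2⟩
    | cons hC hL =>
      obtain ⟨k, N, h3, h4, h5⟩ := hM
      change a + k = n at h3
      subst h3
      exact ⟨k, N, rfl, ih h4, h5.trans (ind_congr h2 (RIso.refl N))⟩

/-- Over `R D 0` every element is a scalar. -/
lemma RMod_zero (x : R D 0) : ∃ c : ℂ, x = algebraMap ℂ (R D 0) c := by
  refine R_induction (p := fun x => ∃ c : ℂ, x = algebraMap ℂ (R D 0) c) (fun c => ⟨c, rfl⟩)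
    (fun w => ⟨1, ?_⟩) (fun k => k.elim0) (fun r => ⟨0, ?_⟩) ?_ ?_ x
  · have h := (isRep_R D 0).E_sum
    rw [Fintype.sum_unique] at h
    rw [map_one, ← h]
    congr 1
    exact Subsingleton.elim _ _
  · rw [map_zero]
    exact (isRep_R D 0).S_out r (by omega)
  · rintro x y ⟨c, rfl⟩ ⟨d, rfl⟩
    exact ⟨c + d, by rw [map_add]⟩
  · rintro x y ⟨c, rfl⟩ ⟨d, rfl⟩
    exact ⟨c * d, by rw [map_mul]⟩

lemma RMod_iso_zero (M M' : RMod D 0) (e : M.V ≃ₗ[ℂ] M'.V) : RIso M M' := by
  refine ⟨{ e.toAddEquiv with map_smul' := fun x v => ?_ }⟩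
  obtain ⟨c, rfl⟩ := RMod_zero x
  change e (algebraMap ℂ (R D 0) c • v) = algebraMap ℂ (R D 0) c • e v
  rw [algebraMap_smul, algebraMap_smul, map_smul]

/-- The product is unique up to isomorphism. PROOF: induction on the list (`ind_congr`; for the empty
list: R D 0 = ℂ, i.e. every element of R D 0 acts as a scalar given by the same function on all
one-dimensional modules: the unique ew acts as 1, there are no yk, and ps r = 0: `R_induction`; choose
any ℂ-linear isomorphism). -/
theorem IsProd.unique {L : List (Σ m, RMod D m)} {M M' : RMod D n} (hM : IsProd D L n M)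
    (hM' : IsProd D L n M') : RIso M M' := by
  induction L generalizing n M M' with
  | nil =>
    obtain ⟨h0, h1⟩ := hM
    obtain ⟨_, h2⟩ := hM'
    subst h0
    obtain ⟨e⟩ := Module.nonempty_linearEquiv_of_finrank_eq_one h1
    obtain ⟨e'⟩ := Module.nonempty_linearEquiv_of_finrank_eq_one h2
    exact RMod_iso_zero M M' (e.symm.trans e')
  | cons A L ih =>
    cases L with
    | nil =>
      obtain ⟨h0, h1⟩ := hM
      obtain ⟨_, h2⟩ := hM'
      exact h1.trans h2.symm
    | cons B L =>
      obtain ⟨k, N, h0, h1, h2⟩ := hM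
      obtain ⟨k', N', h0', h1', h2'⟩ := hM'
      have hk : k' = k := by omega
      subst hk
      subst h0
      exact (h2.trans (ind_congr (RIso.refl A.2) (ih h1 h1'))).trans h2'.symm

/-- PROOF: by induction on the list (subst). -/
theorem IsProd.length {L : List (Σ m, RMod D m)} {M : RMod D n} (hM : IsProd D L n M) :
    (L.map Sigma.fst).sum = n := by
  induction L generalizing n M with
  | nil => exact hM.1.symm
  | cons A L ih =>
    cases L with
    | nil =>
      obtain ⟨h0, _⟩ := hM
      rw [List.map_cons, List.map_nil, List.sum_cons, List.sum_nil, add_zero]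
      exact h0
    | cons B L =>
      obtain ⟨k, N, h0, h1, _⟩ := hM
      rw [List.map_cons, List.sum_cons, ih h1]
      exact h0

/-- the representation of `R D 0` on ℂ -/
lemma RMod_isRep_zero (D : Dat) :
    IsRep D 0 (A := ℂ) (fun _ => 1) (fun _ => 0) (fun _ => 0) where
  S_out _ _ := rfl
  E_mul w w' := by rw [if_pos (Subsingleton.elim w w'), mul_one]
  E_sum := by rw [Fintype.sum_unique]
  Y_E k _ := k.elim0
  Y_Y k _ := k.elim0
  S_E _ _ := by rw [zero_mul, mul_zero]
  S_far _ _ _ := rfl
  S_Y r h := absurd h (by omega)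
  S_S r h := absurd h (by omega)
  S_braid r h := absurd h (by omega)

/-- the one-dimensional module over `R D 0` -/
noncomputable def RMod_one (D : Dat) : RMod D 0 :=
  letI : Module (R D 0) ℂ := Module.compHom ℂ (liftR (RMod_isRep_zero D)).toRingHom
  { V := ℂ
    tower := ⟨fun c x v => by
      change liftR (RMod_isRep_zero D) (c • x) * v = c * (liftR (RMod_isRep_zero D) x * v)
      rw [map_smul, smul_eq_mul, mul_assoc]⟩ }

/-- Existence. PROOF: induction on the list. Empty list: the module ℂ over R D 0: `liftR` for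
E = 1, no Y, S = 0 in Module.End ℂ ℂ. -/
theorem exists_prod (L : List (Σ m, RMod D m)) (hn : (L.map Sigma.fst).sum = n) :
    ∃ M : RMod D n, IsProd D L n M := by
  induction L generalizing n with
  | nil =>
    have h0 : 0 = n := hn
    subst h0
    exact ⟨RMod_one D, rfl, Module.finrank_self ℂ⟩
  | cons A L ih =>
    cases L with
    | nil =>
      have h0 : A.1 = n := by
        rw [List.map_cons, List.map_nil, List.sum_cons, List.sum_nil, add_zero] at hn
        exact hn
      exact ⟨A.2.cast h0, h0, RIso.refl _⟩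
    | cons B L =>
      obtain ⟨N, hN⟩ := ih rfl
      rw [List.map_cons, List.sum_cons] at hn
      exact ⟨(A.2.ind N).cast hn, _, N, hn, hN, RIso.refl _⟩

end CA1492
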