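import Mathlib
import Pool.Agent.Lib.MP_ca1492_al.Mod.RMod

/-!
Homogeneous modules: for a set of words 𝒲 without factors (i, i), (i, j, i) (j adjacent to i), and
stable under exchanging neighbouring non-adjacent letters, the module of functions on 𝒲.
-/

namespace CA1492

variable {D : Dat} {n : ℕ} {lam : ℂˣ}

/-- i and j are different and not adjacent. -/
def NAdj (D : Dat) (i j : D.J) : Prop := i ≠ j ∧ D.arr i j = false ∧ D.arr j i = false

instance (i j : D.J) : Decidable (NAdj D i j) := inferInstanceAs (Decidable (_ ∧ _))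

/-- Homogeneous sets of words. -/
structure HSet (D : Dat) (n : ℕ) where
  W : Set (Wd D n)
  ne : ∀ w ∈ W, ∀ (r : ℕ) (h : r + 1 < n), w ⟨r, by omega⟩ ≠ w ⟨r + 1, h⟩
  br : ∀ w ∈ W, ∀ (r : ℕ) (h : r + 2 < n), w ⟨r, by omega⟩ = w ⟨r + 2, h⟩ →
    D.arr (w ⟨r, by omega⟩) (w ⟨r + 1, by omega⟩) = false ∧
    D.arr (w ⟨r + 1, by omega⟩) (w ⟨r, by omega⟩) = false
  sw : ∀ w ∈ W, ∀ (r : ℕ) (h : r + 1 < n),
    NAdj D (w ⟨r, by omega⟩) (w ⟨r + 1, h⟩) → w ∘ sw n r ∈ W

open Classical in
/-- The idempotents. -/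
noncomputable def hE (H : HSet D n) (u : Wd D n) : Module.End ℂ (H.W → ℂ) where
  toFun f := fun w => if w.1 = u then f w else 0
  map_add' f g := by
    funext w
    by_cases h : w.1 = u
    · simp [h]
    · simp [h]
  map_smul' c f := by
    funext w
    by_cases h : w.1 = u
    · simp [h]
    · simp [h]

open Classical in
/-- The crossings. -/
noncomputable def hS (H : HSet D n) (r : ℕ) : Module.End ℂ (H.W → ℂ) where
  toFun f := fun w =>
    if h : ∃ h : r + 1 < n, NAdj D (w.1 ⟨r, by omega⟩) (w.1 ⟨r + 1, h⟩) then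
      f ⟨w.1 ∘ sw n r, H.sw w.1 w.2 r h.choose h.choose_spec⟩ else 0
  map_add' f g := by
    funext w
    by_cases h : ∃ h : r + 1 < n, NAdj D (w.1 ⟨r, by omega⟩) (w.1 ⟨r + 1, h⟩)
    · simp only [Pi.add_apply, dif_pos h]
    · simp only [Pi.add_apply, dif_neg h, add_zero]
  map_smul' c f := by
    funext w
    by_cases h : ∃ h : r + 1 < n, NAdj D (w.1 ⟨r, by omega⟩) (w.1 ⟨r + 1, h⟩)
    · simp only [Pi.smul_apply, dif_pos h, RingHom.id_apply]
    · simp only [Pi.smul_apply, dif_neg h, smul_zero]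

/-- NAdj at the position r. -/
def HomNA (w : Wd D n) (r : ℕ) : Prop :=
  ∃ h : r + 1 < n, NAdj D (w ⟨r, by omega⟩) (w ⟨r + 1, h⟩)

lemma Hom_NAdj_symm {i j : D.J} (h : NAdj D i j) : NAdj D j i := ⟨h.1.symm, h.2.2, h.2.1⟩

lemma Hom_mem (H : HSet D n) {w : Wd D n} (hw : w ∈ H.W) {r : ℕ} (h : HomNA w r) :
    w ∘ sw n r ∈ H.W := H.sw w hw r h.choose h.choose_spec

lemma Hom_NA_sw (w : Wd D n) (r : ℕ) : HomNA (w ∘ sw n r) r ↔ HomNA w r := by
  constructor
  · rintro ⟨h, hh⟩
    refine ⟨h, ?_⟩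
    simp only [Function.comp_apply, alpha_sw_left h, alpha_sw_right h] at hh
    exact Hom_NAdj_symm hh
  · rintro ⟨h, hh⟩
    refine ⟨h, ?_⟩
    simp only [Function.comp_apply, alpha_sw_left h, alpha_sw_right h]
    exact Hom_NAdj_symm hh

lemma Hom_NA_far (w : Wd D n) {r s : ℕ} (hrs : r + 1 < s ∨ s + 1 < r) :
    HomNA (w ∘ sw n s) r ↔ HomNA w r := by
  have key : ∀ h : r + 1 < n, (w ∘ sw n s) ⟨r, by omega⟩ = w ⟨r, by omega⟩ ∧
      (w ∘ sw n s) ⟨r + 1, h⟩ = w ⟨r + 1, h⟩ := by
    intro h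
    simp only [Function.comp_apply]
    rw [alpha_sw_ne ⟨r, by omega⟩ (by simp only; omega) (by simp only; omega),
      alpha_sw_ne ⟨r + 1, h⟩ (by simp only; omega) (by simp only; omega)]
    exact ⟨rfl, rfl⟩
  constructor
  · rintro ⟨h, hh⟩
    refine ⟨h, ?_⟩
    rw [(key h).1, (key h).2] at hh
    exact hh
  · rintro ⟨h, hh⟩
    refine ⟨h, ?_⟩
    rw [(key h).1, (key h).2]
    exact hh

lemma Hom_sw_comm {r s : ℕ} (hrs : r + 1 < s) : ∀ j : Fin n,
    sw n r (sw n s j) = sw n s (sw n r j) := by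
  by_cases hs : s + 1 < n
  · have r0 : r < n := by omega
    have r1 : r + 1 < n := by omega
    have s0 : s < n := by omega
    intro j
    by_cases h1 : j.val = r
    · obtain rfl : j = ⟨r, r0⟩ := Fin.ext h1
      rw [alpha_sw_left r1,
        alpha_sw_ne (r := s) ⟨r, r0⟩ (by simp only; omega) (by simp only; omega),
        alpha_sw_ne (r := s) ⟨r + 1, r1⟩ (by simp only; omega) (by simp only; omega),
        alpha_sw_left r1]
    · by_cases h2 : j.val = r + 1
      · obtain rfl : j = ⟨r + 1, r1⟩ := Fin.ext h2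
        rw [alpha_sw_right r1,
          alpha_sw_ne (r := s) ⟨r + 1, r1⟩ (by simp only; omega) (by simp only; omega),
          alpha_sw_ne (r := s) ⟨r, r0⟩ (by simp only; omega) (by simp only; omega),
          alpha_sw_right r1]
      · rw [alpha_sw_ne (r := r) j h1 h2]
        by_cases h3 : j.val = s
        · obtain rfl : j = ⟨s, s0⟩ := Fin.ext h3
          rw [alpha_sw_left hs]
          exact alpha_sw_ne (r := r) _ (by simp only; omega) (by simp only; omega)
        · by_cases h4 : j.val = s + 1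
          · obtain rfl : j = ⟨s + 1, hs⟩ := Fin.ext h4
            rw [alpha_sw_right hs]
            exact alpha_sw_ne (r := r) _ (by simp only; omega) (by simp only; omega)
          · rw [alpha_sw_ne (r := s) j h3 h4]
            exact alpha_sw_ne (r := r) _ h1 h2
  · have h1 : sw n s = 1 := by unfold sw; rw [dif_neg hs]
    rw [h1]
    intro j
    rfl

lemma Hom_comp_sw (w v : Wd D n) (r : ℕ) : v ∘ sw n r = w ↔ v = w ∘ sw n r := by
  constructor
  · rintro rfl
    exact (iota_comp_sw_sw r v).symm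
  · rintro rfl
    exact iota_comp_sw_sw r w

open Classical in
/-- Extension by zero. -/
noncomputable def hx (H : HSet D n) (f : H.W → ℂ) (w : Wd D n) : ℂ :=
  if h : w ∈ H.W then f ⟨w, h⟩ else 0

lemma Hom_hx (H : HSet D n) (f : H.W → ℂ) {w : Wd D n} (h : w ∈ H.W) : hx H f w = f ⟨w, h⟩ :=
  dif_pos h

lemma Hom_hx' (H : HSet D n) (f : H.W → ℂ) (w : H.W) : f w = hx H f w.1 := (Hom_hx H f w.2).symm

lemma Hom_ext (H : HSet D n) {f g : H.W → ℂ} (h : ∀ w ∈ H.W, hx H f w = hx H g w) : f = g := by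
  funext w
  have q := h w.1 w.2
  rw [Hom_hx H f w.2, Hom_hx H g w.2] at q
  exact q

lemma Hom_hx_zero (H : HSet D n) (w : Wd D n) : hx H 0 w = 0 := by
  unfold hx
  split_ifs
  · rfl
  · rfl

open Classical in
lemma Hom_hx_E (H : HSet D n) (u : Wd D n) (f : H.W → ℂ) (w : Wd D n) :
    hx H (hE H u f) w = if w = u then hx H f w else 0 := by
  by_cases hw : w ∈ H.W
  · rw [Hom_hx H _ hw, Hom_hx H _ hw]
    rfl
  · unfold hx
    rw [dif_neg hw, dif_neg hw, ite_self]

open Classical in
lemma Hom_hx_S (H : HSet D n) (r : ℕ) (f : H.W → ℂ) {w : Wd D n} (hw : w ∈ H.W) :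
    hx H (hS H r f) w = if HomNA w r then hx H f (w ∘ sw n r) else 0 := by
  rw [Hom_hx H _ hw]
  by_cases h : HomNA w r
  · rw [if_pos h, Hom_hx H _ (Hom_mem H hw h)]
    exact dif_pos h
  · rw [if_neg h]
    exact dif_neg h

/-- E w = 0 as an operator if w is not in W. -/
lemma Hom_E_zero (H : HSet D n) {u : Wd D n} (hu : u ∉ H.W) : hE H u = 0 := by
  apply LinearMap.ext
  intro f
  apply Hom_ext
  intro w hw
  rw [Hom_hx_E, if_neg (by rintro rfl; exact hu hw)]
  exact (Hom_hx_zero H w).symm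

lemma Hom_S_S (H : HSet D n) (r : ℕ) (f : H.W → ℂ) {w : Wd D n} (hw : w ∈ H.W) :
    (HomNA w r → hx H (hS H r (hS H r f)) w = hx H f w) ∧
    (¬ HomNA w r → hx H (hS H r (hS H r f)) w = 0) := by
  classical
  constructor
  · intro h
    rw [Hom_hx_S H r _ hw, if_pos h, Hom_hx_S H r _ (Hom_mem H hw h),
      if_pos ((Hom_NA_sw w r).2 h), iota_comp_sw_sw]
  · intro h
    rw [Hom_hx_S H r _ hw, if_neg h]

/-- The values of the two triple products. -/
lemma Hom_braid (H : HSet D n) (r : ℕ) (h : r + 2 < n) (f : H.W → ℂ) {w : Wd D n}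
    (hw : w ∈ H.W) :
    hx H (hS H (r + 1) (hS H r (hS H (r + 1) f))) w =
      hx H (hS H r (hS H (r + 1) (hS H r f))) w := by
  classical
  -- the values of the words at the three positions
  have v : ∀ u : Wd D n,
      ((u ∘ sw n r) ⟨r, by omega⟩ = u ⟨r + 1, by omega⟩ ∧
      (u ∘ sw n r) ⟨r + 1, by omega⟩ = u ⟨r, by omega⟩ ∧
      (u ∘ sw n r) ⟨r + 2, h⟩ = u ⟨r + 2, h⟩) ∧
      ((u ∘ sw n (r + 1)) ⟨r, by omega⟩ = u ⟨r, by omega⟩ ∧
      (u ∘ sw n (r + 1)) ⟨r + 1, by omega⟩ = u ⟨r + 2, h⟩ ∧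
      (u ∘ sw n (r + 1)) ⟨r + 2, h⟩ = u ⟨r + 1, by omega⟩) := by
    intro u
    simp only [Function.comp_apply]
    rw [alpha_sw_left (by omega : r + 1 < n), alpha_sw_right (by omega : r + 1 < n),
      alpha_sw_left (by omega : (r + 1) + 1 < n), alpha_sw_right (by omega : (r + 1) + 1 < n),
      alpha_sw_ne (r := r) ⟨r + 2, h⟩ (by simp only; omega) (by simp only; omega),
      alpha_sw_ne (r := r + 1) ⟨r, by omega⟩ (by simp only; omega) (by simp only; omega)]
    exact ⟨⟨rfl, rfl, rfl⟩, rfl, rfl, rfl⟩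
  have n0 : ∀ u : Wd D n, HomNA u r ↔ NAdj D (u ⟨r, by omega⟩) (u ⟨r + 1, by omega⟩) :=
    fun u => ⟨fun ⟨_, q⟩ => q, fun q => ⟨by omega, q⟩⟩
  have n1 : ∀ u : Wd D n, HomNA u (r + 1) ↔ NAdj D (u ⟨r + 1, by omega⟩) (u ⟨r + 2, h⟩) :=
    fun u => ⟨fun ⟨_, q⟩ => q, fun q => ⟨h, q⟩⟩
  have e3 : ((w ∘ sw n (r + 1)) ∘ sw n r) ∘ sw n (r + 1) =
      ((w ∘ sw n r) ∘ sw n (r + 1)) ∘ sw n r := by
    have r0 : r < n := by omega
    have r1 : r + 1 < n := by omega
    funext j
    by_cases h1 : j.val = r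
    · obtain rfl : j = ⟨r, r0⟩ := Fin.ext h1
      rw [(v _).2.1, (v _).1.1, (v _).2.2.1, (v _).1.1, (v _).2.2.1, (v _).1.2.2]
    · by_cases h2 : j.val = r + 1
      · obtain rfl : j = ⟨r + 1, r1⟩ := Fin.ext h2
        rw [(v _).2.2.1, (v _).1.2.2, (v _).2.2.2, (v _).1.2.1, (v _).2.1, (v _).1.1]
      · by_cases h3 : j.val = r + 2
        · obtain rfl : j = ⟨r + 2, h⟩ := Fin.ext h3
          rw [(v _).2.2.2, (v _).1.2.1, (v _).2.1, (v _).1.2.2, (v _).2.2.2, (v _).1.2.1]
        · simp only [Function.comp_apply]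
          rw [alpha_sw_ne (r := r + 1) j h2 h3, alpha_sw_ne (r := r) j h1 h2,
            alpha_sw_ne (r := r + 1) j h2 h3, alpha_sw_ne (r := r) j h1 h2]
  by_cases hab : NAdj D (w ⟨r, by omega⟩) (w ⟨r + 1, by omega⟩)
  · by_cases hbc : NAdj D (w ⟨r + 1, by omega⟩) (w ⟨r + 2, h⟩)
    · have c0 : HomNA w r := (n0 w).2 hab
      have c1 : HomNA w (r + 1) := (n1 w).2 hbc
      have m0 := Hom_mem H hw c0
      have m1 := Hom_mem H hw c1
      by_cases hac : NAdj D (w ⟨r, by omega⟩) (w ⟨r + 2, h⟩)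
      · have d1 : HomNA (w ∘ sw n (r + 1)) r := by
          rw [n0, (v w).2.1, (v w).2.2.1]; exact hac
        have d0 : HomNA (w ∘ sw n r) (r + 1) := by
          rw [n1, (v w).1.2.1, (v w).1.2.2]; exact hac
        have m1' := Hom_mem H m1 d1
        have m0' := Hom_mem H m0 d0
        have f1 : HomNA ((w ∘ sw n (r + 1)) ∘ sw n r) (r + 1) := by
          rw [n1, (v _).1.2.1, (v _).1.2.2, (v _).2.1, (v _).2.2.2]; exact hab
        have f0 : HomNA ((w ∘ sw n r) ∘ sw n (r + 1)) r := by
          rw [n0, (v _).2.1, (v _).2.2.1, (v _).1.1, (v _).1.2.2]; exact hbc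
        rw [Hom_hx_S H _ _ hw, if_pos c1, Hom_hx_S H _ _ m1, if_pos d1, Hom_hx_S H _ _ m1',
          if_pos f1, Hom_hx_S H _ _ hw, if_pos c0, Hom_hx_S H _ _ m0, if_pos d0,
          Hom_hx_S H _ _ m0', if_pos f0, e3]
      · have d1 : ¬ HomNA (w ∘ sw n (r + 1)) r := by
          rw [n0, (v w).2.1, (v w).2.2.1]; exact hac
        have d0 : ¬ HomNA (w ∘ sw n r) (r + 1) := by
          rw [n1, (v w).1.2.1, (v w).1.2.2]; exact hac
        rw [Hom_hx_S H _ _ hw, if_pos c1, Hom_hx_S H _ _ m1, if_neg d1,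
          Hom_hx_S H _ _ hw, if_pos c0, Hom_hx_S H _ _ m0, if_neg d0]
    · have c0 : HomNA w r := (n0 w).2 hab
      have c1 : ¬ HomNA w (r + 1) := fun q => hbc ((n1 w).1 q)
      have m0 := Hom_mem H hw c0
      rw [Hom_hx_S H _ _ hw, if_neg c1, Hom_hx_S H _ _ hw, if_pos c0]
      by_cases d0 : HomNA (w ∘ sw n r) (r + 1)
      · have m0' := Hom_mem H m0 d0
        have f0 : ¬ HomNA ((w ∘ sw n r) ∘ sw n (r + 1)) r := by
          rw [n0, (v _).2.1, (v _).2.2.1, (v _).1.1, (v _).1.2.2]; exact hbc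
        rw [Hom_hx_S H _ _ m0, if_pos d0, Hom_hx_S H _ _ m0', if_neg f0]
      · rw [Hom_hx_S H _ _ m0, if_neg d0]
  · have c0 : ¬ HomNA w r := fun q => hab ((n0 w).1 q)
    rw [Hom_hx_S H r _ hw, if_neg c0]
    by_cases hbc : NAdj D (w ⟨r + 1, by omega⟩) (w ⟨r + 2, h⟩)
    · have c1 : HomNA w (r + 1) := (n1 w).2 hbc
      have m1 := Hom_mem H hw c1
      rw [Hom_hx_S H _ _ hw, if_pos c1]
      by_cases d1 : HomNA (w ∘ sw n (r + 1)) r
      · have m1' := Hom_mem H m1 d1
        have f1 : ¬ HomNA ((w ∘ sw n (r + 1)) ∘ sw n r) (r + 1) := by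
          rw [n1, (v _).1.2.1, (v _).1.2.2, (v _).2.1, (v _).2.2.2]; exact hab
        rw [Hom_hx_S H _ _ m1, if_pos d1, Hom_hx_S H _ _ m1', if_neg f1]
      · rw [Hom_hx_S H _ _ m1, if_neg d1]
    · have c1 : ¬ HomNA w (r + 1) := fun q => hbc ((n1 w).1 q)
      rw [Hom_hx_S H _ _ hw, if_neg c1]

/-- PROOF. All words w of H.W: by ne, br, sw, also w r ≠ w (r + 2) (if equal then by br and ne the letters
w r, w (r+1) are NAdj, and w ∘ sw r ∈ W has equal letters at r + 1, r + 2, contradiction to ne). The cases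
of equal letters in the relations do not occur (E w = 0 as an operator if w ∉ W: hE w f = 0).
S_S: NAdj is symmetric and (w ∘ sw) ∘ sw = w; for adjacent letters hS = 0 and Y = 0.
S_braid: both products are f (w ∘ (the permutation)) if the three letters are pairwise NAdj and 0
otherwise. S_far: sw n r, sw n s commute. S_Y: Y = 0. -/
theorem hIsRep (H : HSet D n) : IsRep D n (hE H) (fun _ => 0) (hS H) where
  S_out r hr := by
    classical
    apply LinearMap.ext
    intro f
    apply Hom_ext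
    intro w hw
    rw [Hom_hx_S H r f hw, if_neg (fun q => hr q.choose)]
    exact (Hom_hx_zero H w).symm
  E_mul u u' := by
    classical
    apply LinearMap.ext
    intro f
    apply Hom_ext
    intro w hw
    rw [Module.End.mul_apply, Hom_hx_E, Hom_hx_E]
    by_cases h : u = u'
    · subst h
      rw [if_pos rfl, Hom_hx_E]
      by_cases h2 : w = u
      · rw [if_pos h2]
      · rw [if_neg h2, if_neg h2]
    · rw [if_neg h, LinearMap.zero_apply, Hom_hx_zero]
      by_cases h2 : w = u
      · rw [if_pos h2, if_neg (by rw [h2]; exact h)]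
      · rw [if_neg h2]
  E_sum := by
    classical
    apply LinearMap.ext
    intro f
    funext w
    rw [LinearMap.sum_apply, Finset.sum_apply, Module.End.one_apply, Finset.sum_eq_single w.1]
    · exact if_pos rfl
    · intro u _ hu
      exact if_neg (Ne.symm hu)
    · intro h
      exact absurd (Finset.mem_univ _) h
  Y_E k w := by rw [zero_mul, mul_zero]
  Y_Y k l := rfl
  S_E r u := by
    classical
    apply LinearMap.ext
    intro f
    apply Hom_ext
    intro w hw
    rw [Module.End.mul_apply, Module.End.mul_apply, Hom_hx_S H r _ hw, Hom_hx_E, Hom_hx_E,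
      Hom_hx_S H r _ hw]
    by_cases h : HomNA w r
    · rw [if_pos h, if_pos h]
      by_cases h2 : w ∘ sw n r = u
      · rw [if_pos h2, if_pos ((Hom_comp_sw u w r).1 h2)]
      · rw [if_neg h2, if_neg (fun q => h2 ((Hom_comp_sw u w r).2 q))]
    · rw [if_neg h, if_neg h, ite_self]
  S_far r s hrs := by
    classical
    apply LinearMap.ext
    intro f
    apply Hom_ext
    intro w hw
    rw [Module.End.mul_apply, Module.End.mul_apply, Hom_hx_S H r _ hw, Hom_hx_S H s _ hw]
    have e : (w ∘ sw n r) ∘ sw n s = (w ∘ sw n s) ∘ sw n r := by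
      funext j
      simp only [Function.comp_apply]
      rw [Hom_sw_comm hrs]
    by_cases h1 : HomNA w r
    · rw [if_pos h1, Hom_hx_S H s _ (Hom_mem H hw h1)]
      by_cases h2 : HomNA w s
      · rw [if_pos ((Hom_NA_far w (Or.inr hrs)).2 h2), if_pos h2, Hom_hx_S H r _ (Hom_mem H hw h2),
          if_pos ((Hom_NA_far w (Or.inl hrs)).2 h1), e]
      · rw [if_neg (fun q => h2 ((Hom_NA_far w (Or.inr hrs)).1 q)), if_neg h2]
    · rw [if_neg h1]
      by_cases h2 : HomNA w s
      · rw [if_pos h2, Hom_hx_S H r _ (Hom_mem H hw h2),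
          if_neg (fun q => h1 ((Hom_NA_far w (Or.inl hrs)).1 q))]
      · rw [if_neg h2]
  S_Y r h k u := by
    rw [mul_zero, zero_mul, zero_mul, zero_mul, zero_add]
    by_cases hu : u ∈ H.W
    · rw [if_neg (H.ne u hu r h), zero_smul]
    · rw [Hom_E_zero H hu, smul_zero]
  S_S r h u := by
    classical
    by_cases hu : u ∈ H.W
    · have hne := H.ne u hu r h
      rw [if_neg hne]
      have key : ∀ f : H.W → ℂ, ∀ w ∈ H.W, (HomNA u r →
          hx H ((hS H r * hS H r * hE H u) f) w = hx H (hE H u f) w) ∧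
          (¬ HomNA u r → hx H ((hS H r * hS H r * hE H u) f) w = 0) := by
        intro f w hw
        rw [Module.End.mul_apply, Module.End.mul_apply]
        have hs := Hom_S_S H r (hE H u f) hw
        by_cases hwu : w = u
        · subst hwu
          exact hs
        · have hz : hx H (hE H u f) w = 0 := by rw [Hom_hx_E, if_neg hwu]
          by_cases hn : HomNA w r
          · refine ⟨fun _ => hs.1 hn, fun _ => ?_⟩
            rw [hs.1 hn, hz]
          · refine ⟨fun _ => ?_, fun _ => hs.2 hn⟩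
            rw [hs.2 hn, hz]
      by_cases h1 : D.arr (u ⟨r, by omega⟩) (u ⟨r + 1, h⟩) = true
      · rw [if_pos h1, sub_zero, zero_mul]
        apply LinearMap.ext
        intro f
        apply Hom_ext
        intro w hw
        rw [(key f w hw).2 (fun q => by rw [q.choose_spec.2.1] at h1; exact absurd h1 (by decide))]
        exact (Hom_hx_zero H w).symm
      · rw [if_neg h1]
        by_cases h2 : D.arr (u ⟨r + 1, h⟩) (u ⟨r, by omega⟩) = true
        · rw [if_pos h2, sub_zero, zero_mul]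
          apply LinearMap.ext
          intro f
          apply Hom_ext
          intro w hw
          rw [(key f w hw).2
            (fun q => by rw [q.choose_spec.2.2] at h2; exact absurd h2 (by decide))]
          exact (Hom_hx_zero H w).symm
        · rw [if_neg h2]
          apply LinearMap.ext
          intro f
          apply Hom_ext
          intro w hw
          exact (key f w hw).1 ⟨h, hne, by simpa using h1, by simpa using h2⟩
    · rw [Hom_E_zero H hu]
      simp only [mul_zero, ite_self]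
  S_braid r h u := by
    classical
    have hL : (hS H (r + 1) * hS H r * hS H (r + 1) - hS H r * hS H (r + 1) * hS H r) * hE H u
        = 0 := by
      apply LinearMap.ext
      intro f
      rw [Module.End.mul_apply, LinearMap.sub_apply]
      simp only [Module.End.mul_apply]
      rw [sub_eq_zero.2 (Hom_ext H (fun w hw => Hom_braid H r h (hE H u f) hw))]
      rfl
    rw [hL]
    by_cases hu : u ∈ H.W
    · by_cases h1 : u ⟨r, by omega⟩ = u ⟨r + 2, h⟩
      · obtain ⟨a, b⟩ := H.br u hu r h h1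
        rw [if_pos h1, if_neg (by rw [a]; decide), if_neg (by rw [b]; decide), zero_smul]
      · rw [if_neg h1, zero_smul]
    · rw [Hom_E_zero H hu, smul_zero]

/-- The homogeneous module: functions on the set of words (a type synonym). -/
def HV (H : HSet D n) : Type := H.W → ℂ

noncomputable instance (H : HSet D n) : AddCommGroup (HV H) :=
  inferInstanceAs (AddCommGroup (H.W → ℂ))
noncomputable instance (H : HSet D n) : Module ℂ (HV H) := inferInstanceAs (Module ℂ (H.W → ℂ))
noncomputable instance (H : HSet D n) : Module (R D n) (HV H) where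
  smul x f := (liftR (hIsRep H) x : Module.End ℂ (H.W → ℂ)) f
  one_smul F := by change (liftR (hIsRep H) 1 : Module.End ℂ (H.W → ℂ)) F = F; rw [map_one]; rfl
  mul_smul x y F := by
    change (liftR (hIsRep H) (x * y) : Module.End ℂ (H.W → ℂ)) F = _; rw [map_mul]; rfl
  smul_zero x := (liftR (hIsRep H) x : Module.End ℂ (H.W → ℂ)).map_zero
  smul_add x F G := (liftR (hIsRep H) x : Module.End ℂ (H.W → ℂ)).map_add F G
  add_smul x y F := by
    change (liftR (hIsRep H) (x + y) : Module.End ℂ (H.W → ℂ)) F = _; rw [map_add]; rfl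
  zero_smul F := by change (liftR (hIsRep H) 0 : Module.End ℂ (H.W → ℂ)) F = 0; rw [map_zero]; rfl

lemma HV_smul (H : HSet D n) (x : R D n) (f : HV H) :
    x • f = (liftR (hIsRep H) x : Module.End ℂ (H.W → ℂ)) f := rfl

instance (H : HSet D n) : IsScalarTower ℂ (R D n) (HV H) :=
  ⟨fun c x F => by rw [HV_smul, HV_smul, map_smul]; rfl⟩

instance (H : HSet D n) : FiniteDimensional ℂ (HV H) :=
  inferInstanceAs (FiniteDimensional ℂ (H.W → ℂ))

/-- As a bundled module. -/
noncomputable def HM (H : HSet D n) : RMod D n := ⟨HV H⟩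

/-- The algebra acts through the scaling automorphisms in the same way.
PROOF: `R_induction` or: the set of x with alpha x • f = x • f for all f; generators: ew fixed, yk acts
as 0, ps r = ∑ ps r * ew w with ps r * ew w acting as 0 unless NAdj, and then wdg w r = 0. -/
theorem HV_alpha (H : HSet D n) (lam : ℂˣ) (x : R D n) (f : HV H) :
    alpha D n lam x • f = x • f := by
  classical
  have e : (liftR (hIsRep H)).comp (alpha D n lam) = liftR (hIsRep H) := by
    apply alpha_hom_ext
    · intro w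
      rw [AlgHom.comp_apply, (alpha_spec D n lam).1]
    · intro k
      rw [AlgHom.comp_apply, (alpha_spec D n lam).2.1, map_smul, liftR_yk, smul_zero]
    · intro r w
      rw [AlgHom.comp_apply, (alpha_spec D n lam).2.2, map_smul, map_mul, liftR_ps, liftR_ew]
      by_cases hn : HomNA w r
      · obtain ⟨h, h1, h2, h3⟩ := hn
        have hw : wdg w r = 0 := by
          unfold wdg
          rw [dif_pos h]
          unfold dg
          rw [if_neg h1, h2, h3]
          rfl
        rw [hw, zpow_zero, Units.val_one, one_smul]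
      · have hz : hS H r * hE H w = 0 := by
          apply LinearMap.ext
          intro g
          apply Hom_ext
          intro u hu
          rw [Module.End.mul_apply, Hom_hx_S H r _ hu, Hom_hx_E, LinearMap.zero_apply,
            Hom_hx_zero]
          by_cases h1 : HomNA u r
          · rw [if_pos h1, if_neg]
            rintro rfl
            exact hn ((Hom_NA_sw u r).2 h1)
          · rw [if_neg h1]
        rw [hz, smul_zero]
  rw [HV_smul, HV_smul]
  exact congrArg (fun q : R D n →ₐ[ℂ] Module.End ℂ (H.W → ℂ) => q x f) e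

/-- With g = id. -/
noncomputable def HF (lam : ℂˣ) (H : HSet D n) : FObj D n lam where
  V := HV H
  g := LinearEquiv.refl ℂ (HV H)
  hg x v := (HV_alpha H lam x v).symm

open Classical in
/-- The character. PROOF: the trace of the projection hE H w: a diagonal matrix in the basis
`Pi.basisFun ℂ H.W`. -/
theorem ch_HF (H : HSet D n) (w : Wd D n) : ch (HF lam H) w = if w ∈ H.W then 1 else 0 := by
  have : Fintype H.W := Fintype.ofFinite _
  have e : (HF lam H).g.toLinearMap ∘ₗ act (HF lam H).V (ew w) = hE H w := by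
    apply LinearMap.ext
    intro f
    show (liftR (hIsRep H) (ew w) : Module.End ℂ (H.W → ℂ)) f = hE H w f
    rw [liftR_ew]
  have e2 : ch (HF lam H) w = LinearMap.trace ℂ (H.W → ℂ) (hE H w) :=
    congrArg (LinearMap.trace ℂ (H.W → ℂ)) e
  rw [e2, LinearMap.trace_eq_matrix_trace ℂ (Pi.basisFun ℂ H.W), Matrix.trace]
  have e3 : ∀ u : H.W, Matrix.diag (LinearMap.toMatrix (Pi.basisFun ℂ H.W) (Pi.basisFun ℂ H.W)
      (hE H w)) u = if u.1 = w then 1 else 0 := by
    intro u
    rw [Matrix.diag_apply, LinearMap.toMatrix_apply, Pi.basisFun_apply, Pi.basisFun_repr]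
    show (if u.1 = w then (Pi.single u (1 : ℂ) : H.W → ℂ) u else 0) = _
    rw [Pi.single_eq_same]
  rw [Finset.sum_congr rfl (fun u _ => e3 u)]
  by_cases hw : w ∈ H.W
  · rw [if_pos hw, Finset.sum_eq_single ⟨w, hw⟩]
    · exact if_pos rfl
    · intro u _ hu
      exact if_neg (fun q => hu (Subtype.ext q))
    · intro h
      exact absurd (Finset.mem_univ _) h
  · rw [if_neg hw]
    apply Finset.sum_eq_zero
    intro u _
    exact if_neg (fun q : u.1 = w => hw (by rw [← q]; exact u.2))

/-- Structure of V = HV H: ew w V for w ∈ W is spanned by the indicator δ_w.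
PROOF: `Pi.single`. -/
noncomputable def hd (H : HSet D n) (w : H.W) : HV H :=
  fun u => by classical exact if u = w then (1 : ℂ) else 0

theorem hd_facts (H : HSet D n) (w : H.W) :
    (∀ f : HV H, (ew w.1 : R D n) • f = f w • hd H w) ∧ (∀ u : Wd D n, u ∉ H.W →
      ∀ f : HV H, (ew u : R D n) • f = 0) ∧ (∀ k, ∀ f : HV H, (yk k : R D n) • f = 0) ∧
    (∀ (r : ℕ) (h : r + 1 < n) (hw : NAdj D (w.1 ⟨r, by omega⟩) (w.1 ⟨r + 1, h⟩)),
      (ps r : R D n) • hd H w = hd H ⟨w.1 ∘ sw n r, H.sw w.1 w.2 r h hw⟩) ∧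
    (∀ (r : ℕ) (h : r + 1 < n) (_ : ¬ NAdj D (w.1 ⟨r, by omega⟩) (w.1 ⟨r + 1, h⟩)),
      (ps r : R D n) • hd H w = 0) := by
  classical
  have hv : ∀ (u : H.W) (v : Wd D n), hx H (hd H u) v = if v = u.1 then 1 else 0 := by
    intro u v
    by_cases h : v ∈ H.W
    · rw [Hom_hx H _ h]
      show (if (⟨v, h⟩ : H.W) = u then (1 : ℂ) else 0) = _
      by_cases h2 : v = u.1
      · rw [if_pos h2, if_pos (Subtype.ext h2)]
      · rw [if_neg h2, if_neg (fun q => h2 (congrArg Subtype.val q))]
    · rw [if_neg (fun q : v = u.1 => h (by rw [q]; exact u.2))]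
      exact dif_neg h
  refine ⟨fun f => ?_, fun u hu f => ?_, fun k f => ?_, fun r h hw => ?_, fun r h hw => ?_⟩
  · rw [HV_smul, liftR_ew]
    funext u
    show (if u.1 = w.1 then f u else 0) = f w * (if u = w then (1 : ℂ) else 0)
    by_cases h : u = w
    · rw [if_pos h, if_pos (congrArg Subtype.val h), mul_one, h]
    · rw [if_neg h, if_neg (fun q => h (Subtype.ext q)), mul_zero]
  · rw [HV_smul, liftR_ew, Hom_E_zero H hu]
    rfl
  · rw [HV_smul, liftR_yk]
    rfl
  · rw [HV_smul, liftR_ps]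
    apply Hom_ext
    intro v hv'
    rw [Hom_hx_S H r _ hv', hv, hv]
    have hn : HomNA w.1 r := ⟨h, hw⟩
    by_cases h2 : v = w.1 ∘ sw n r
    · subst h2
      rw [if_pos ((Hom_NA_sw w.1 r).2 hn), iota_comp_sw_sw, if_pos rfl, if_pos rfl]
    · rw [if_neg (c := v = _) h2, if_neg (fun q => h2 ((Hom_comp_sw w.1 v r).1 q)), ite_self]
  · rw [HV_smul, liftR_ps]
    apply Hom_ext
    intro v hv'
    rw [Hom_hx_S H r _ hv', hv]
    have hn : ¬ HomNA w.1 r := fun q => hw q.choose_spec
    refine Eq.trans ?_ (Hom_hx_zero H v).symm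
    by_cases h2 : HomNA v r
    · rw [if_pos h2, if_neg]
      intro q
      exact hn (q ▸ (Hom_NA_sw v r).2 h2)
    · rw [if_neg h2]

/-- The words in the same class. -/
inductive HConn (D : Dat) (n : ℕ) : Wd D n → Wd D n → Prop
  | refl (w : Wd D n) : HConn D n w w
  | step (w w' : Wd D n) (r : ℕ) (h : r + 1 < n)
    (hw : NAdj D (w' ⟨r, by omega⟩) (w' ⟨r + 1, h⟩)) :
    HConn D n w w' → HConn D n w (w' ∘ sw n r)

/-- HV H is simple if H.W is one class.
PROOF: a non-zero submodule contains some f with f w ≠ 0, so ew w • f = f w • δ_w, so δ_w, and then all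
δ_u (the relation HConn is symmetric and H.W is connected: δ_{w ∘ sw r} = ps r • δ_w), which span. -/
theorem HM_simple (H : HSet D n) (w0 : H.W) (hc : ∀ w ∈ H.W, HConn D n w0.1 w) :
    IsSimpleModule (R D n) (HV H) := by
  classical
  have : Fintype H.W := Fintype.ofFinite _
  have hself : ∀ w : H.W, hd H w w = 1 := fun w => if_pos rfl
  have hne : ∀ w : H.W, hd H w ≠ 0 := by
    intro w h
    have := congrFun h w
    rw [hself] at this
    exact one_ne_zero this
  have hsm : ∀ (N : Submodule (R D n) (HV H)) (c : ℂ) (v : HV H), v ∈ N → c • v ∈ N := by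
    intro N c v hv
    rw [← one_smul (R D n) v, ← smul_assoc]
    exact N.smul_mem _ hv
  have hconn : ∀ (N : Submodule (R D n) (HV H)) (a b : Wd D n), HConn D n a b →
      ∀ (ha : a ∈ H.W) (hb : b ∈ H.W), (hd H ⟨b, hb⟩ ∈ N ↔ hd H ⟨a, ha⟩ ∈ N) := by
    intro N a b hab
    induction hab with
    | refl => intro ha hb; exact Iff.rfl
    | step w' r h hw _ ih =>
      intro ha hb
      have hn : HomNA w' r := ⟨h, hw⟩
      have hn' : HomNA (w' ∘ sw n r) r := (Hom_NA_sw w' r).2 hn
      have hw' : w' ∈ H.W := by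
        have := Hom_mem H hb hn'
        rwa [iota_comp_sw_sw] at this
      rw [← ih ha hw']
      have e1 := (hd_facts H ⟨w', hw'⟩).2.2.2.1 r h hw
      have e2 := (hd_facts H ⟨w' ∘ sw n r, hb⟩).2.2.2.1 r h hn'.choose_spec
      have e3 : (⟨(w' ∘ sw n r) ∘ sw n r, Hom_mem H hb hn'⟩ : H.W) = ⟨w', hw'⟩ :=
        Subtype.ext (iota_comp_sw_sw r w')
      have e4 : (ps r : R D n) • hd H ⟨w' ∘ sw n r, hb⟩ = hd H ⟨w', hw'⟩ := by
        rw [e2]
        exact congrArg (hd H) e3
      constructor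
      · intro q
        rw [← e4]
        exact N.smul_mem _ q
      · intro q
        have : hd H ⟨w' ∘ sw n r, hb⟩ = (ps r : R D n) • hd H ⟨w', hw'⟩ := e1.symm
        rw [this]
        exact N.smul_mem _ q
  have hall : ∀ (N : Submodule (R D n) (HV H)) (w : H.W), hd H w ∈ N → N = ⊤ := by
    intro N w hw
    have h0 : hd H w0 ∈ N := (hconn N w0.1 w.1 (hc w.1 w.2) w0.2 w.2).1 hw
    have h1 : ∀ u : H.W, hd H u ∈ N := fun u => (hconn N w0.1 u.1 (hc u.1 u.2) w0.2 u.2).2 h0
    rw [eq_top_iff]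
    intro f _
    have e : f = ∑ u : H.W, f u • hd H u := by
      funext v
      have e2 : (∑ u : H.W, f u • hd H u) v = ∑ u : H.W, f u * (if v = u then (1 : ℂ) else 0) :=
        Finset.sum_apply v Finset.univ (fun u : H.W => (f u • hd H u : H.W → ℂ))
      rw [e2, Finset.sum_eq_single v]
      · rw [if_pos rfl, mul_one]
      · intro u _ hu
        rw [if_neg (Ne.symm hu), mul_zero]
      · intro h
        exact absurd (Finset.mem_univ _) h
    rw [e]
    exact N.sum_mem (fun u _ => hsm N (f u) _ (h1 u))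
  rw [isSimpleModule_iff]
  refine { exists_pair_ne := ⟨⊥, ⊤, ?_⟩, eq_bot_or_eq_top := ?_ }
  · intro h
    have : hd H w0 ∈ (⊥ : Submodule (R D n) (HV H)) := by rw [h]; exact Submodule.mem_top
    exact hne w0 ((Submodule.mem_bot _).1 this)
  · intro N
    by_cases hN : N = ⊥
    · exact Or.inl hN
    · right
      obtain ⟨f, hf, hf0⟩ := Submodule.exists_mem_ne_zero_of_ne_bot hN
      obtain ⟨w, hw⟩ : ∃ w : H.W, f w ≠ 0 := by
        by_contra hcon
        push Not at hcon
        exact hf0 (funext hcon)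
      apply hall N w
      have h1 : (ew w.1 : R D n) • f ∈ N := N.smul_mem _ hf
      rw [(hd_facts H w).1 f] at h1
      have h2 := hsm N (f w)⁻¹ _ h1
      rw [smul_smul, inv_mul_cancel₀ hw, one_smul] at h2
      exact h2

end CA1492
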