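import Mathlib
import Pool.Agent.Lib.MP_ca1492_al.Mod.DatS
import Pool.Agent.Lib.MP_ca1492_al.Mod.Hom
import Pool.Agent.Lib.MP_ca1492_al.RectEq
import Pool.Agent.Lib.MP_ca1492_al.Weight

/-!
The homogeneous module of a rectangle.
-/

namespace CA1492

variable {Λ : Type} [DecidableEq Λ] {S : Finset (Λ × ℤ)} {n : ℕ}

theorem RectM_split {α : Type} (f : Fin n → α) (r : ℕ) (h : r + 1 < n) :
    List.ofFn f = (List.ofFn f).take r ++ f ⟨r, by omega⟩ :: f ⟨r + 1, h⟩ ::
      (List.ofFn f).drop (r + 2) := by
  have h1 : r < (List.ofFn f).length := by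
    rw [List.length_ofFn]
    omega
  have h2 : r + 1 < (List.ofFn f).length := by
    rw [List.length_ofFn]
    exact h
  conv_lhs => rw [← List.take_append_drop r (List.ofFn f)]
  rw [List.drop_eq_getElem_cons h1, List.drop_eq_getElem_cons h2, List.getElem_ofFn,
    List.getElem_ofFn]

/-- Splitting the list of a word at the positions r, r + 1. -/
theorem wl_split (w : Wd (datS S) n) (r : ℕ) (h : r + 1 < n) : ∃ u v : List (Λ × ℤ), u.length = r ∧
    wl w = u ++ ltr (w ⟨r, by omega⟩) :: ltr (w ⟨r + 1, h⟩) :: v ∧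
    wl (w ∘ sw n r) = u ++ ltr (w ⟨r + 1, h⟩) :: ltr (w ⟨r, by omega⟩) :: v := by
  have e1 : sw n r = Equiv.swap ⟨r, by omega⟩ ⟨r + 1, h⟩ := dif_pos h
  have hsw : ∀ i : Fin n, (i : ℕ) ≠ r → (i : ℕ) ≠ r + 1 → (w ∘ sw n r) i = w i := by
    intro i h1 h2
    rw [Function.comp_apply, e1, Equiv.swap_apply_of_ne_of_ne]
    · intro h'
      exact h1 (congrArg Fin.val h')
    · intro h'
      exact h2 (congrArg Fin.val h')
  refine ⟨(wl w).take r, (wl w).drop (r + 2), ?_, RectM_split _ r h, ?_⟩
  · rw [List.length_take, wl_length]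
    omega
  · have h2 := RectM_split (fun j => ltr ((w ∘ sw n r) j)) r h
    have h3 : (List.ofFn (fun j => ltr ((w ∘ sw n r) j))).take r = (wl w).take r := by
      apply List.ext_getElem
      · simp [wl]
      · intro i hi1 hi2
        rw [List.length_take] at hi1
        unfold wl
        rw [List.getElem_take, List.getElem_take, List.getElem_ofFn, List.getElem_ofFn]
        exact congrArg ltr (hsw _ (by simp only; omega) (by simp only; omega))
    have h4 : (List.ofFn (fun j => ltr ((w ∘ sw n r) j))).drop (r + 2) =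
        (wl w).drop (r + 2) := by
      apply List.ext_getElem
      · simp [wl]
      · intro i hi1 hi2
        unfold wl
        rw [List.getElem_drop, List.getElem_drop, List.getElem_ofFn, List.getElem_ofFn]
        exact congrArg ltr (hsw _ (by simp only; omega) (by simp only; omega))
    have h5 : (w ∘ sw n r) ⟨r, by omega⟩ = w ⟨r + 1, h⟩ := by
      rw [Function.comp_apply, e1, Equiv.swap_apply_left]
    have h6 : (w ∘ sw n r) ⟨r + 1, h⟩ = w ⟨r, by omega⟩ := by
      rw [Function.comp_apply, e1, Equiv.swap_apply_right]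
    rw [h3, h4] at h2
    simp only [h5, h6] at h2
    exact h2

theorem wl_split3 (w : Wd (datS S) n) (r : ℕ) (h : r + 2 < n) : ∃ u v : List (Λ × ℤ), u.length = r ∧
    wl w = u ++ ltr (w ⟨r, by omega⟩) :: ltr (w ⟨r + 1, by omega⟩) :: ltr (w ⟨r + 2, h⟩) :: v := by
  have h1 : r < (wl w).length := by
    rw [wl_length]
    omega
  have h2 : r + 1 < (wl w).length := by
    rw [wl_length]
    omega
  have h3 : r + 1 + 1 < (wl w).length := by
    rw [wl_length]
    omega
  refine ⟨(wl w).take r, (wl w).drop (r + 3), ?_, ?_⟩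
  · rw [List.length_take, wl_length]
    omega
  · conv_lhs => rw [← List.take_append_drop r (wl w)]
    rw [List.drop_eq_getElem_cons h1, List.drop_eq_getElem_cons h2, List.drop_eq_getElem_cons h3]
    have e : ∀ i (hi : i < (wl w).length), (wl w)[i] = ltr (w ⟨i, by rwa [wl_length] at hi⟩) := by
      intro i hi
      unfold wl
      rw [List.getElem_ofFn]
    rw [e, e, e]

/-- All letters of a tableau word are on the line l. PROOF: induction on the list. -/
theorem isTab_line (l : Λ) {m : ℕ} (e c : Fin m → ℤ) (u : List (Λ × ℤ))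
    (h : PC.QSh.IsTab l e u c) : ∀ x ∈ u, x.1 = l := by
  induction u generalizing c with
  | nil =>
    intro x hx
    exact absurd hx (by simp)
  | cons y u ih =>
    obtain ⟨i, h1, _, h3⟩ := h
    intro x hx
    rcases List.mem_cons.1 hx with h4 | h4
    · rw [h4, h1]
    · exact ih _ h3 x h4

/-- PROOF of the conditions: `PC.QSh.IsTab.ne`, `.braid`, `.swap` with `wl_split`, `wl_split3`, `datS_arr`,
`isTab_line`, `PC.Rect.rs_anti`. -/
theorem rectH_aux (S : Finset (Λ × ℤ)) (r : PC.Rect Λ) (n : ℕ) : ∃ H : HSet (datS S) n,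
    H.W = {w | PC.QSh.IsTab r.l r.re (wl w) r.rs} := by
  refine ⟨⟨{w | PC.QSh.IsTab r.l r.re (wl w) r.rs}, ?_, ?_, ?_⟩, rfl⟩
  · intro w hw k h heq
    obtain ⟨u, v, -, h1, -⟩ := wl_split w k h
    have hw' : PC.QSh.IsTab r.l r.re (wl w) r.rs := hw
    rw [h1, heq] at hw'
    exact PC.QSh.IsTab.ne r.l r.re r.rs r.rs_anti u v _ hw'
  · intro w hw k h heq
    obtain ⟨u, v, -, h1⟩ := wl_split3 w k h
    have hw' : PC.QSh.IsTab r.l r.re (wl w) r.rs := hw
    rw [h1, ← heq] at hw'
    have hb := PC.QSh.IsTab.braid r.l r.re r.rs r.rs_anti u v (ltr (w ⟨k, by omega⟩))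
      (ltr (w ⟨k + 1, by omega⟩))
    constructor
    · by_contra hne
      have h2 := (datS_arr _ _).1 (Bool.eq_true_of_not_eq_false hne)
      exact hb (Or.inl h2.2) hw'
    · by_contra hne
      have h2 := (datS_arr _ _).1 (Bool.eq_true_of_not_eq_false hne)
      exact hb (Or.inr (by omega)) hw'
  · intro w hw k h hn
    obtain ⟨u, v, -, h1, h2⟩ := wl_split w k h
    have hw' : PC.QSh.IsTab r.l r.re (wl w) r.rs := hw
    rw [h1] at hw'
    have hl := isTab_line r.l r.re r.rs _ hw'
    have l1 := hl (ltr (w ⟨k, by omega⟩)) (by simp)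
    have l2 := hl (ltr (w ⟨k + 1, h⟩)) (by simp)
    obtain ⟨-, n1, n2⟩ := hn
    show PC.QSh.IsTab r.l r.re (wl (w ∘ sw n k)) r.rs
    rw [h2]
    refine PC.QSh.IsTab.swap r.l r.re r.rs r.rs_anti u v _ _ ⟨?_, ?_⟩ hw'
    · intro h3
      have := (datS_arr (w ⟨k, by omega⟩) (w ⟨k + 1, h⟩)).2 ⟨by rw [l1, l2], h3⟩
      rw [n1] at this
      exact absurd this (by decide)
    · intro h3
      have := (datS_arr (w ⟨k + 1, h⟩) (w ⟨k, by omega⟩)).2 ⟨by rw [l1, l2], by omega⟩
      rw [n2] at this
      exact absurd this (by decide)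

/-- The words of the standard tableaux of the rectangle r. -/
noncomputable def rectH (S : Finset (Λ × ℤ)) (r : PC.Rect Λ) (n : ℕ) : HSet (datS S) n :=
  (rectH_aux S r n).choose

theorem mem_rectH (r : PC.Rect Λ) (w : Wd (datS S) n) :
    w ∈ (rectH S r n).W ↔ PC.QSh.IsTab r.l r.re (wl w) r.rs := by
  unfold rectH
  rw [(rectH_aux S r n).choose_spec]
  rfl

/-- The module of the rectangle. -/
noncomputable def DR (S : Finset (Λ × ℤ)) (r : PC.Rect Λ) (n : ℕ) : RMod (datS S) n :=
  HM (rectH S r n)

/-- The character. PROOF: `chQ_apply`, `ch_HF`, `mem_rectH`, `PC.Rect.ch`, `PC.QSh.chTab`; a list l with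
IsTab .. l .. has the multiset r.cont (`PC.wt_ch`: Wt), so its length is a * b = n and its letters are in
S: it is wl w (`exists_wl`). -/
theorem chQ_rect {lam : ℂˣ} (r : PC.Rect Λ) (hn : r.a * r.b = n) (hS : ∀ x ∈ r.cont, x ∈ S) :
    chQ (HF lam (rectH S r n)) = (r.ch : PC.QSh Λ ℂ lam) := by
  classical
  funext u
  by_cases hu : ∃ w : Wd (datS S) n, wl w = u
  · obtain ⟨w, rfl⟩ := hu
    rw [chQ_wl, ch_HF]
    unfold PC.Rect.ch PC.QSh.chTab
    by_cases h : PC.QSh.IsTab r.l r.re (wl w) r.rs
    · rw [if_pos h, if_pos ((mem_rectH r w).2 h)]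
    · rw [if_neg h, if_neg (fun h' => h ((mem_rectH r w).1 h'))]
  · rw [chQ_of_ne _ u (fun w hw => hu ⟨w, hw⟩)]
    by_contra hne
    have h1 := PC.wt_ch (R := ℂ) (q := lam) r u (fun h => hne h.symm)
    apply hu
    refine exists_wl u ?_ ?_
    · have h2 := congrArg Multiset.card h1
      unfold PC.Rect.cont at h2
      simp only [Multiset.coe_card, Multiset.card_map, Finset.card_val, Finset.card_univ,
        Fintype.card_prod, Fintype.card_fin] at h2
      rw [h2, hn]
    · intro x hx
      apply hS
      rw [← h1]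
      exact hx

/-- the positions after the first k rows of a column have moved -/
def RectM_c (s : ℤ) (a k : ℕ) : Fin a → ℤ :=
  fun i => if (i : ℕ) < k then s - (i : ℕ) + 1 else s - (i : ℕ)

theorem RectM_c_anti (s : ℤ) (a k : ℕ) : StrictAnti (RectM_c s a k) := by
  intro i j hij
  have h : (i : ℕ) < (j : ℕ) := hij
  unfold RectM_c
  split_ifs <;> omega

theorem RectM_c_self (s : ℤ) (a k : ℕ) (h : k < a) : RectM_c s a k ⟨k, h⟩ = s - (k : ℤ) := by
  unfold RectM_c
  simp

theorem RectM_c_upd (s : ℤ) (a k : ℕ) (h : k < a) :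
    Function.update (RectM_c s a k) ⟨k, h⟩ (RectM_c s a k ⟨k, h⟩ + 1) = RectM_c s a (k + 1) := by
  funext i
  by_cases hi : i = ⟨k, h⟩
  · subst hi
    rw [Function.update_self]
    unfold RectM_c
    simp
  · rw [Function.update_of_ne hi]
    have hne : (i : ℕ) ≠ k := fun h' => hi (Fin.ext h')
    unfold RectM_c
    by_cases h1 : (i : ℕ) < k
    · rw [if_pos h1, if_pos (by omega)]
    · rw [if_neg h1, if_neg (by omega)]

theorem RectM_col (l : Λ) (t : ℤ) (a m k : ℕ) (hk : k + m = a) (u : List (Λ × ℤ)) :
    PC.QSh.IsTab l (fun i : Fin a => t - ((i : ℕ) : ℤ)) u (RectM_c t a k) ↔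
      u = List.ofFn (fun i : Fin m => (l, t - (((k + i.val : ℕ)) : ℤ))) := by
  induction m generalizing k u with
  | zero =>
    rw [List.ofFn_zero]
    cases u with
    | nil =>
      refine ⟨fun _ => rfl, fun _ i => ?_⟩
      have := i.2
      unfold RectM_c
      rw [if_pos (by omega)]
    | cons x u =>
      refine ⟨fun h => ?_, fun h => absurd h (by simp)⟩
      obtain ⟨i, h1, h2, h3⟩ := h
      have h4 := (PC.QSh.IsTab.perm l _ _ u h3).1 i
      rw [Function.update_self] at h4
      have := i.2
      unfold RectM_c at h4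
      rw [if_pos (by omega)] at h4
      omega
  | succ m ih =>
    have hka : k < a := by omega
    rw [List.ofFn_succ]
    cases u with
    | nil =>
      refine ⟨fun h => ?_, fun h => absurd h (by simp)⟩
      have h1 := h ⟨k, hka⟩
      rw [RectM_c_self] at h1
      simp only at h1
      omega
    | cons x u =>
      have e : (fun i : Fin m => (l, t - (((k + (Fin.succ i).val : ℕ)) : ℤ))) =
          fun i : Fin m => (l, t - (((k + 1 + i.val : ℕ)) : ℤ)) := by
        funext i
        rw [Fin.val_succ]
        congr 3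
        omega
      rw [e, List.cons.injEq, ← ih (k + 1) (by omega) u]
      constructor
      · rintro ⟨i, h1, h2, h3⟩
        have hi : i = ⟨k, hka⟩ := by
          rcases lt_trichotomy (i : ℕ) k with h | h | h
          · exfalso
            have h4 := (PC.QSh.IsTab.perm l _ _ u h3).1 i
            rw [Function.update_self] at h4
            unfold RectM_c at h4
            rw [if_pos h] at h4
            omega
          · exact Fin.ext h
          · exfalso
            have hi' := i.2
            have hlt : (⟨(i : ℕ) - 1, by omega⟩ : Fin a) < i := by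
              rw [Fin.lt_def]
              show (i : ℕ) - 1 < (i : ℕ)
              omega
            have h4 := h2 hlt
            rw [Function.update_self, Function.update_of_ne hlt.ne] at h4
            unfold RectM_c at h4
            rw [if_neg (by omega), if_neg (by show ¬ ((i : ℕ) - 1 < k); omega)] at h4
            simp only at h4
            omega
        subst hi
        rw [RectM_c_upd] at h3
        refine ⟨?_, h3⟩
        rw [h1, RectM_c_self]
        rfl
      · rintro ⟨h1, h2⟩
        refine ⟨⟨k, hka⟩, ?_, ?_, ?_⟩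
        · rw [h1, RectM_c_self]
          rfl
        · rw [RectM_c_upd]
          exact RectM_c_anti _ _ _
        · rw [RectM_c_upd]
          exact h2

theorem RectM_path (l : Λ) (t : ℤ) (a m k : ℕ) (hk : k + m = a) :
    PC.QSh.Path l (List.ofFn (fun i : Fin m => (l, t - (((k + i.val : ℕ)) : ℤ))))
      (RectM_c t a k) (RectM_c t a a) := by
  induction m generalizing k with
  | zero =>
    rw [List.ofFn_zero]
    have hka : k = a := by omega
    subst hka
    exact (rfl : RectM_c t k k = RectM_c t k k)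
  | succ m ih =>
    have hka : k < a := by omega
    rw [List.ofFn_succ]
    have e : (fun i : Fin m => (l, t - (((k + (Fin.succ i).val : ℕ)) : ℤ))) =
        fun i : Fin m => (l, t - (((k + 1 + i.val : ℕ)) : ℤ)) := by
      funext i
      rw [Fin.val_succ]
      congr 3
      omega
    rw [e]
    refine ⟨⟨k, hka⟩, ?_, ?_, ?_⟩
    · rw [RectM_c_self]
      rfl
    · rw [RectM_c_upd]
      exact RectM_c_anti _ _ _
    · rw [RectM_c_upd]
      exact ih (k + 1) (by omega)

theorem RectM_cols (l : Λ) (a b : ℕ) (s : ℤ) :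
    PC.QSh.IsTab l (fun i : Fin a => s - ((i : ℕ) : ℤ) + b - 1)
      ((List.ofFn (fun j : Fin b => List.ofFn (fun i : Fin a =>
        (l, s + (j.val : ℤ) - (i.val : ℤ))))).flatten)
      (fun i : Fin a => s - ((i : ℕ) : ℤ)) := by
  induction b generalizing s with
  | zero =>
    rw [List.ofFn_zero]
    intro i
    push_cast
    ring
  | succ b ih =>
    rw [List.ofFn_succ, List.flatten_cons, PC.QSh.isTab_append]
    refine ⟨fun i : Fin a => (s + 1) - ((i : ℕ) : ℤ), ?_, ?_⟩
    · have h := RectM_path l s a a 0 (by omega)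
      have e1 : RectM_c s a 0 = fun i : Fin a => s - ((i : ℕ) : ℤ) := by
        funext i
        unfold RectM_c
        simp
      have e2 : RectM_c s a a = fun i : Fin a => (s + 1) - ((i : ℕ) : ℤ) := by
        funext i
        unfold RectM_c
        rw [if_pos i.2]
        ring
      have e3 : (fun i : Fin a => (l, s - (((0 + i.val : ℕ)) : ℤ))) =
          fun i : Fin a => (l, s + (((0 : Fin (b + 1)).val : ℕ) : ℤ) - (i.val : ℤ)) := by
        funext i
        simp
      rw [e1, e2, e3] at h
      exact h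
    · have h := ih (s + 1)
      have e1 : (fun i : Fin a => (s + 1) - ((i : ℕ) : ℤ) + (b : ℤ) - 1) =
          fun i : Fin a => s - ((i : ℕ) : ℤ) + ((b + 1 : ℕ) : ℤ) - 1 := by
        funext i
        push_cast
        ring
      have e2 : (fun j : Fin b => List.ofFn (fun i : Fin a =>
          (l, (s + 1) + (j.val : ℤ) - (i.val : ℤ)))) =
          fun j : Fin b => List.ofFn (fun i : Fin a =>
            (l, s + ((Fin.succ j).val : ℤ) - (i.val : ℤ))) := by
        funext j
        congr 1
        funext i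
        rw [Fin.val_succ]
        push_cast
        congr 1
        ring
      rw [e1, e2] at h
      exact h

/-- Columns: a single word, decreasing. PROOF: for b = 1 each of the rows has one letter; by induction
the rows must be taken from the top: IsTab with c i = t - i, e i = t - i: the first letter must come
from row 0 (moving row i > 0 from t - i to t - i + 1 is not strictly decreasing), generalize. -/
theorem rect_col (l : Λ) (t : ℤ) (a : ℕ) (u : List (Λ × ℤ)) :
    PC.QSh.IsTab l (PC.Rect.re ⟨l, t, a, 1⟩) u (PC.Rect.rs ⟨l, t, a, 1⟩) ↔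
      u = List.ofFn (fun i : Fin a => (l, t - (i.val : ℤ))) := by
  have h := RectM_col l t a a 0 (by omega) u
  have e1 : (PC.Rect.rs ⟨l, t, a, 1⟩ : Fin a → ℤ) = RectM_c t a 0 := by
    funext i
    unfold PC.Rect.rs RectM_c
    simp
  have e2 : (PC.Rect.re ⟨l, t, a, 1⟩ : Fin a → ℤ) = fun i : Fin a => t - ((i : ℕ) : ℤ) := by
    funext i
    unfold PC.Rect.re
    simp
  have e3 : (List.ofFn (fun i : Fin a => (l, t - (((0 + i.val : ℕ)) : ℤ)))) =
      List.ofFn (fun i : Fin a => (l, t - (i.val : ℤ))) := by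
    congr 1
    funext i
    rw [zero_add]
  rw [e3] at h
  rw [← h]
  exact Iff.of_eq (by rw [← e1, ← e2])

/-- The column reading word of a rectangle is a tableau word.
PROOF: `PC.QSh.Path` and `PC.QSh.isTab_append`: one column leads from the positions c to c + 1; induction
on b. -/
theorem rect_colword (l : Λ) (t : ℤ) (a b : ℕ) :
    PC.QSh.IsTab l (PC.Rect.re ⟨l, t, a, b⟩)
      ((List.ofFn (fun j : Fin b => List.ofFn (fun i : Fin a => (l, t + (j.val : ℤ) - (i.val : ℤ))))).flatten)
      (PC.Rect.rs ⟨l, t, a, b⟩) := by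
  exact RectM_cols l a b t

end CA1492
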