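import Mathlib
import Pool.Agent.Lib.MP_ca1492_al.Alg.Long
import Pool.Agent.Lib.MP_ca1492_al.Mod.Hom

/-!
Submodules of induced modules: evaluation at the longest shuffle. Words of submodules of products of
one-dimensional modules.
-/

namespace CA1492

open TensorProduct

variable {D : Dat} {m k : ℕ}

section
variable (V : Type) [AddCommGroup V] [Module ℂ V] [Module (R D m) V] [IsScalarTower ℂ (R D m) V]
variable (W : Type) [AddCommGroup W] [Module ℂ W] [Module (R D k) W] [IsScalarTower ℂ (R D k) W]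

/-- A non-zero submodule of the induced module has an element with non-zero value at the longest shuffle.
PROOF. Take F ∈ X, F ≠ 0, and p with F p ≠ 0 and lenS p maximal among the F ∈ X and p with F p ≠ 0. If p ≠ shfMax
take r, p' from `theta_raise`: (ps r • F) p' = ∑_q theta (ps r) p' q (F q) = F p ≠ 0 (q ≠ p with F q ≠ 0 has
lenS q ≤ lenS p), contradiction to maximality. -/
theorem sub_max_ne (X : Submodule (R D (m + k)) (IndV D m k V W)) (hX : X ≠ ⊥) :
    ∃ F ∈ X, F (shfMax m k) ≠ 0 := by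
  classical
  obtain ⟨F0, hF0, hne⟩ := X.exists_mem_ne_zero_of_ne_bot hX
  obtain ⟨p0, hp0⟩ : ∃ p, F0 p ≠ 0 := by
    by_contra h
    push Not at h
    exact hne (funext h)
  obtain ⟨p, hp, hmax⟩ := Finset.exists_max_image
    (Finset.univ.filter fun p : Shf m k => ∃ F ∈ X, F p ≠ 0) (fun p => lenS m k (shf p))
    ⟨p0, Finset.mem_filter.2 ⟨Finset.mem_univ _, F0, hF0, hp0⟩⟩
  obtain ⟨-, F, hF, hFp⟩ := Finset.mem_filter.1 hp
  have hmax' : ∀ G ∈ X, ∀ q, G q ≠ 0 → lenS m k (shf q) ≤ lenS m k (shf p) := fun G hG q hq =>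
    hmax q (Finset.mem_filter.2 ⟨Finset.mem_univ _, G, hG, hq⟩)
  by_cases hpm : p = shfMax m k
  · exact ⟨F, hF, hpm ▸ hFp⟩
  · obtain ⟨r, p', h1, h2, h3⟩ := theta_raise (D := D) p hpm
    have h4 : ((ps r : R D (m + k)) • F) p' = F p := by
      rw [IndA_smul_apply, Finset.sum_eq_single p]
      · rw [h2, map_one]
        rfl
      · intro q _ hq
        by_cases hFq : F q = 0
        · rw [hFq, map_zero]
        · rw [h3 q hq (hmax' F hF q hFq), map_zero]
          rfl
      · intro h
        exact absurd (Finset.mem_univ _) h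
    have h5 := hmax' _ (X.smul_mem (ps r) hF) p' (by rw [h4]; exact hFp)
    omega

theorem SubInd_word {u : Wd D m} {v : Wd D k} {w : Wd D (m + k)}
    (hw : List.ofFn w = List.ofFn v ++ List.ofFn u) (j : Fin (m + k)) :
    w j = if h : j.val < k then v ⟨j.val, h⟩ else u ⟨j.val - k, by omega⟩ := by
  have h1 : (List.ofFn w)[j.val]'(by rw [List.length_ofFn]; exact j.isLt) = w j := by
    rw [List.getElem_ofFn]
  rw [← h1]
  simp only [hw]
  rw [List.getElem_append]
  split_ifs with h2 h3 h3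
  · rw [List.getElem_ofFn]
  · rw [List.length_ofFn] at h2
    exact absurd h2 h3
  · rw [List.length_ofFn] at h2
    exact absurd h3 h2
  · rw [List.getElem_ofFn]
    congr 1
    apply Fin.ext
    change j.val - (List.ofFn v).length = j.val - k
    rw [List.length_ofFn]

theorem SubInd_app (u : Wd D m) (v : Wd D k) :
    List.ofFn (fun j : Fin (m + k) => if h : j.val < k then v ⟨j.val, h⟩ else
      u ⟨j.val - k, by omega⟩) = List.ofFn v ++ List.ofFn u := by
  apply List.ext_getElem
  · rw [List.length_append, List.length_ofFn, List.length_ofFn, List.length_ofFn, add_comm]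
  · intro i h1 h2
    rw [List.getElem_ofFn, List.getElem_append]
    split_ifs with h3 h4 h4
    · rw [List.getElem_ofFn]
    · rw [List.length_ofFn] at h4
      exact absurd h3 h4
    · rw [List.length_ofFn] at h4
      exact absurd h4 h3
    · rw [List.getElem_ofFn]
      congr 1
      apply Fin.ext
      change i - k = i - (List.ofFn v).length
      rw [List.length_ofFn]

theorem SubInd_max_iff {u u' : Wd D m} {v v' : Wd D k} {w : Wd D (m + k)}
    (hw : List.ofFn w = List.ofFn v ++ List.ofFn u) :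
    shW m k (shf (shfMax m k)) (Fin.append u' v') = w ↔ u' = u ∧ v' = v := by
  constructor
  · intro h
    have h1 : ∀ j : Fin (m + k), (if h : j.val < k then v' ⟨j.val, h⟩ else
        u' ⟨j.val - k, by omega⟩) = if h : j.val < k then v ⟨j.val, h⟩ else
        u ⟨j.val - k, by omega⟩ := by
      intro j
      rw [← shW_max, h, SubInd_word hw]
    constructor
    · funext i
      have h2 := h1 ⟨k + i.val, by omega⟩
      rw [dif_neg (by simp only; omega), dif_neg (by simp only; omega)] at h2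
      have h3 : (⟨(⟨k + i.val, by omega⟩ : Fin (m + k)).val - k, by simp only; omega⟩ : Fin m) = i := by
        apply Fin.ext
        simp only
        omega
      rw [h3] at h2
      exact h2
    · funext i
      have h2 := h1 ⟨i.val, by omega⟩
      rw [dif_pos (show (⟨i.val, by omega⟩ : Fin (m + k)).val < k from i.isLt),
        dif_pos (show (⟨i.val, by omega⟩ : Fin (m + k)).val < k from i.isLt)] at h2
      exact h2
  · rintro ⟨rfl, rfl⟩
    funext j
    rw [shW_max, SubInd_word hw]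

/-- Words (see `max_ew`). -/
theorem SubInd_ew (F : IndV D m k V W) (u : Wd D m) (v : Wd D k) (w : Wd D (m + k))
    (hw : List.ofFn w = List.ofFn v ++ List.ofFn u) :
    ((ew w : R D (m + k)) • F) (shfMax m k) = tens V W (ew u ⊗ₜ ew v) (F (shfMax m k)) := by
  classical
  rw [IndA_smul_apply, Finset.sum_eq_single (shfMax m k)]
  · rw [theta_ew, if_pos rfl, Finset.sum_eq_single u, Finset.sum_eq_single v]
    · rw [if_pos ((SubInd_max_iff hw).2 ⟨rfl, rfl⟩)]
    · intro v' _ hv'
      rw [if_neg (fun h => hv' ((SubInd_max_iff hw).1 h).2)]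
    · intro h
      exact absurd (Finset.mem_univ _) h
    · intro u' _ hu'
      refine Finset.sum_eq_zero fun v' _ => ?_
      rw [if_neg (fun h => hu' ((SubInd_max_iff hw).1 h).1)]
    · intro h
      exact absurd (Finset.mem_univ _) h
  · intro q _ hq
    rw [theta_ew, if_neg (Ne.symm hq), map_zero]
    rfl
  · intro h
    exact absurd (Finset.mem_univ _) h

theorem SubInd_single (F : IndV D m k V W) (x : R D (m + k)) (t : R D m ⊗[ℂ] R D k)
    (h : ∀ q, theta D m k x (shfMax m k) q = if q = shfMax m k then t else 0) :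
    (x • F) (shfMax m k) = tens V W t (F (shfMax m k)) := by
  rw [IndA_smul_apply, Finset.sum_eq_single (shfMax m k)]
  · rw [h, if_pos rfl]
  · intro q _ hq
    rw [h, if_neg hq, map_zero]
    rfl
  · intro h
    exact absurd (Finset.mem_univ _) h

/-- The values at the longest shuffle are stable under the right factor algebra.
PROOF. Generators: `theta_max_ps`, `theta_max_yk`; for ew v: the sum over the words w with
w j = v j for j < k of theta (ew w) (`theta_ew`, `shW_max`) is 1 ⊗ ew v. The set of x ∈ R D k such that for all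
F ∈ X there is G ∈ X with G (max) = (1 ⊗ x) F (max) is closed under sums and products (`R_induction`);
ps r with r + 1 ≥ k is 0. -/
theorem sub_max_stable (X : Submodule (R D (m + k)) (IndV D m k V W)) (x : R D k) :
    ∀ F ∈ X, ∃ G ∈ X, G (shfMax m k) = tens V W ((1 : R D m) ⊗ₜ[ℂ] x) (F (shfMax m k)) := by
  classical
  induction x using R_induction with
  | hc c =>
    intro F hF
    refine ⟨(algebraMap ℂ (R D (m + k)) c) • F, X.smul_mem _ hF, ?_⟩
    have h1 : ((1 : R D m) ⊗ₜ[ℂ] (algebraMap ℂ (R D k) c)) = c • (1 : R D m ⊗[ℂ] R D k) := by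
      rw [Algebra.algebraMap_eq_smul_one, TensorProduct.tmul_smul]
      rfl
    rw [h1, map_smul, map_one, algebraMap_smul]
    rfl
  | he v =>
    intro F hF
    refine ⟨∑ u : Wd D m, (ew (fun j : Fin (m + k) => if h : j.val < k then v ⟨j.val, h⟩ else
      u ⟨j.val - k, by omega⟩) : R D (m + k)) • F,
      X.sum_mem fun u _ => X.smul_mem _ hF, ?_⟩
    have h0 : ∀ (s : Finset (Wd D m)) (G : Wd D m → IndV D m k V W) (r : Shf m k),
        (∑ p ∈ s, G p) r = ∑ p ∈ s, G p r := fun s G r =>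
      Finset.sum_apply (M := fun _ : Shf m k => V ⊗[ℂ] W) r s G
    refine (h0 _ _ _).trans ?_
    have h1 : ((1 : R D m) ⊗ₜ[ℂ] (ew v : R D k)) = ∑ u : Wd D m, (ew u : R D m) ⊗ₜ[ℂ] (ew v : R D k) := by
      rw [← TensorProduct.sum_tmul, (isRep_R D m).E_sum]
    rw [h1, map_sum, LinearMap.sum_apply]
    refine Finset.sum_congr rfl fun u _ => ?_
    exact SubInd_ew V W F u v _ (SubInd_app u v)
  | hy j =>
    intro F hF
    exact ⟨(yk ⟨j.val, by omega⟩ : R D (m + k)) • F, X.smul_mem _ hF,
      SubInd_single V W F _ _ (theta_max_yk m k j)⟩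
  | hs r =>
    intro F hF
    by_cases hr : r + 1 < k
    · exact ⟨(ps r : R D (m + k)) • F, X.smul_mem _ hF,
        SubInd_single V W F _ _ (theta_max_ps m k r hr)⟩
    · refine ⟨0, X.zero_mem, ?_⟩
      rw [(isRep_R D k).S_out r hr, TensorProduct.tmul_zero, map_zero]
      rfl
  | ha x y hx hy =>
    intro F hF
    obtain ⟨G, hG, h1⟩ := hx F hF
    obtain ⟨G', hG', h2⟩ := hy F hF
    refine ⟨G + G', X.add_mem hG hG', ?_⟩
    rw [TensorProduct.tmul_add, map_add, LinearMap.add_apply, ← h1, ← h2]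
    rfl
  | hm x y hx hy =>
    intro F hF
    obtain ⟨G, hG, h1⟩ := hy F hF
    obtain ⟨G', hG', h2⟩ := hx G hG
    refine ⟨G', hG', ?_⟩
    have h3 : ((1 : R D m) ⊗ₜ[ℂ] (x * y)) = ((1 : R D m) ⊗ₜ[ℂ] x) * ((1 : R D m) ⊗ₜ[ℂ] y) := by
      rw [Algebra.TensorProduct.tmul_mul_tmul, one_mul]
    rw [h3, map_mul, h2, h1]
    rfl

/-- Words. PROOF: `theta_ew`, `shW_max`: only (u, v) with w = (v, u) contributes. -/
theorem max_ew (F : IndV D m k V W) (u : Wd D m) (v : Wd D k) (w : Wd D (m + k))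
    (hw : List.ofFn w = List.ofFn v ++ List.ofFn u) :
    ((ew w : R D (m + k)) • F) (shfMax m k) = tens V W (ew u ⊗ₜ ew v) (F (shfMax m k)) :=
  SubInd_ew V W F u v w hw

end

/-- A one-dimensional module with word c. -/
def IsSg (D : Dat) (A : Σ m, RMod D m) (c : List D.J) : Prop :=
  ∃ (w : Wd D A.1) (H : HSet D A.1), List.ofFn w = c ∧ H.W = {w} ∧ RIso A.2 (HM H)

/-- a one-dimensional module with word c: all vectors are multiples of d, ew w acts as 1 -/
theorem SubInd_sg {A : Σ m, RMod D m} {c : List D.J} (h : IsSg D A c) :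
    ∃ (w : Wd D A.1), List.ofFn w = c ∧ (∀ x : A.2.V, (ew w : R D A.1) • x = x) ∧
      ∃ (d : A.2.V) (f : A.2.V →ₗ[ℂ] ℂ), f d = 1 ∧ ∀ x : A.2.V, x = f x • d := by
  classical
  obtain ⟨w, H, hc, hW, ⟨e⟩⟩ := h
  have hwm : w ∈ H.W := by rw [hW]; rfl
  have h0 : ∀ v ∈ H.W, v = w := by
    rw [hW]
    intro v hv
    exact hv
  have huniq : ∀ u : H.W, u = ⟨w, hwm⟩ := fun u => Subtype.ext (h0 u.1 u.2)
  obtain ⟨h1, -⟩ := hd_facts H ⟨w, hwm⟩
  have hf : ∀ f : HV H, f = f ⟨w, hwm⟩ • hd H ⟨w, hwm⟩ := by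
    intro f
    funext u
    rw [huniq u]
    change f ⟨w, hwm⟩ = f ⟨w, hwm⟩ * (hd H ⟨w, hwm⟩ ⟨w, hwm⟩)
    have h2 : hd H ⟨w, hwm⟩ ⟨w, hwm⟩ = (1 : ℂ) := by
      unfold hd
      exact if_pos rfl
    rw [h2, mul_one]
  have hd1 : hd H ⟨w, hwm⟩ ⟨w, hwm⟩ = (1 : ℂ) := by
    unfold hd
    exact if_pos rfl
  let eC := RMod_eC A.2 (HM H) e
  let ev : HV H →ₗ[ℂ] ℂ := LinearMap.proj (R := ℂ) (φ := fun _ : H.W => ℂ) ⟨w, hwm⟩
  refine ⟨w, hc, fun x => ?_, eC.symm (hd H ⟨w, hwm⟩ : HV H), ev.comp eC.toLinearMap, ?_, ?_⟩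
  · apply e.injective
    rw [map_smul]
    have h3 := h1 (e x : HV H)
    exact h3.trans (hf (e x : HV H)).symm
  · change ev (eC (eC.symm (hd H ⟨w, hwm⟩ : HV H))) = 1
    rw [LinearEquiv.apply_symm_apply]
    exact hd1
  · intro x
    apply eC.injective
    rw [map_smul, LinearEquiv.apply_symm_apply]
    exact hf (eC x : HV H)

theorem SubInd_tens {V W : Type} [AddCommGroup V] [Module ℂ V] [AddCommGroup W] [Module ℂ W]
    {d : V} {f : V →ₗ[ℂ] ℂ} (h : ∀ x : V, x = f x • d) (t : V ⊗[ℂ] W) : ∃ n : W, t = d ⊗ₜ n := by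
  induction t with
  | zero => exact ⟨0, (TensorProduct.tmul_zero _ _).symm⟩
  | tmul x y =>
    refine ⟨f x • y, ?_⟩
    rw [TensorProduct.tmul_smul, TensorProduct.smul_tmul', ← h x]
  | add a b ha hb =>
    obtain ⟨n, hn⟩ := ha
    obtain ⟨n', hn'⟩ := hb
    exact ⟨n + n', by rw [hn, hn', TensorProduct.tmul_add]⟩

theorem SubInd_tens_ne {V W : Type} [AddCommGroup V] [Module ℂ V] [AddCommGroup W] [Module ℂ W]
    {d : V} {f : V →ₗ[ℂ] ℂ} (h : f d = 1) {n : W} (hn : d ⊗ₜ[ℂ] n = 0) : n = 0 := by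
  have h1 := congrArg (fun t => TensorProduct.lid ℂ W (LinearMap.rTensor W f t)) hn
  simp only [LinearMap.rTensor_tmul, TensorProduct.lid_tmul, map_zero, h, one_smul] at h1
  exact h1

/-- A non-zero submodule of a product of one-dimensional modules contains a non-zero vector whose word
is the concatenation of the words in the opposite order.
PROOF. Induction on L. One factor: X = ⊤ and A.2 ≅ HM H is spanned by δ_w, ew w δ_w = δ_w (`hd_facts`).
Empty list: n = 0, ew of the unique word is 1. A :: B :: L: transport X along the isomorphism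
M ≅ Ind A.2 N (n = A.1 + k, subst). A.2.V is one-dimensional spanned by d with ew u d = d; every element of
A.2.V ⊗ N.V is d ⊗ n for a unique n. N'' = {n : d ⊗ n = F max for some F ∈ X} is an R D k-submodule of N
(`sub_max_stable`), non-zero (`sub_max_ne`). By induction there is n ∈ N'', n ≠ 0, ew v n = n; for F ∈ X
with F max = d ⊗ n the vector ew w • F ∈ X (w = v ++ u) has the value d ⊗ n at max (`max_ew`), so it is ≠ 0. -/
theorem sub_word {L : List (Σ m, RMod D m)} {cs : List (List D.J)}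
    (hL : List.Forall₂ (IsSg D) L cs) {n : ℕ} {M : RMod D n} (hM : IsProd D L n M)
    (X : Submodule (R D n) M.V) (hX : X ≠ ⊥) :
    ∃ w : Wd D n, List.ofFn w = cs.reverse.flatten ∧ ∃ x ∈ X, x ≠ 0 ∧ (ew w : R D n) • x = x := by
  classical
  induction hL generalizing n with
  | nil =>
    obtain ⟨hn, h1⟩ := hM
    subst hn
    obtain ⟨x, hx, hne⟩ := X.exists_mem_ne_zero_of_ne_bot hX
    refine ⟨Fin.elim0, rfl, x, hx, hne, ?_⟩
    have h2 := (isRep_R D 0).E_sum
    have h3 : ∀ w : Wd D 0, w = Fin.elim0 := fun w => funext fun j => j.elim0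
    rw [Fintype.sum_eq_single (Fin.elim0 : Wd D 0) (fun w hw => absurd (h3 w) hw)] at h2
    change (ew Fin.elim0 : R D 0) = 1 at h2
    rw [h2, one_smul]
  | @cons A c L cs hA hL ih =>
    obtain ⟨wA, hwA, hact, d, f, hfd, hspan⟩ := SubInd_sg hA
    cases L with
    | nil =>
      cases hL
      obtain ⟨hn, ⟨e⟩⟩ := hM
      subst hn
      obtain ⟨x, hx, hne⟩ := X.exists_mem_ne_zero_of_ne_bot hX
      refine ⟨wA, ?_, x, hx, hne, ?_⟩
      · rw [hwA]
        simp
      · apply e.injective
        rw [map_smul]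
        exact hact (e x)
    | cons B L =>
      obtain ⟨k, N, hn, hN, ⟨e⟩⟩ := hM
      subst hn
      let e' : M.V ≃ₗ[R D (A.1 + k)] IndV D A.1 k A.2.V N.V := e
      let X' : Submodule (R D (A.1 + k)) (IndV D A.1 k A.2.V N.V) := X.map e'.toLinearMap
      have hX' : X' ≠ ⊥ := by
        intro h
        apply hX
        rw [Submodule.map_eq_bot_iff] at h
        exact h
      let Y : Submodule (R D k) N.V :=
        { carrier := {y | ∃ F ∈ X', F (shfMax A.1 k) = d ⊗ₜ[ℂ] y}
          add_mem' := by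
            rintro a b ⟨F, hF, h1⟩ ⟨G, hG, h2⟩
            refine ⟨F + G, X'.add_mem hF hG, ?_⟩
            rw [TensorProduct.tmul_add, ← h1, ← h2]
            rfl
          zero_mem' := ⟨0, X'.zero_mem, (TensorProduct.tmul_zero _ _).symm⟩
          smul_mem' := by
            rintro x a ⟨F, hF, h1⟩
            obtain ⟨G, hG, h2⟩ := sub_max_stable A.2.V N.V X' x F hF
            refine ⟨G, hG, ?_⟩
            rw [h2, h1, tens_tmul, one_smul] }
      have hY : Y ≠ ⊥ := by
        obtain ⟨F, hF, hne⟩ := sub_max_ne A.2.V N.V X' hX'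
        obtain ⟨y, hy⟩ := SubInd_tens hspan (F (shfMax A.1 k))
        intro h
        have h1 : y ∈ Y := ⟨F, hF, hy⟩
        rw [h, Submodule.mem_bot] at h1
        rw [h1, TensorProduct.tmul_zero] at hy
        exact hne hy
      obtain ⟨v, hv, y, ⟨F, hF, hFy⟩, hyne, hvy⟩ := ih hN Y hY
      obtain ⟨x0, hx0, hx0F⟩ := hF
      have hx0F' : e' x0 = F := hx0F
      have happ := SubInd_app wA v
      have hmax : (((ew (fun j : Fin (A.1 + k) => if h : j.val < k then v ⟨j.val, h⟩ else
          wA ⟨j.val - k, by omega⟩) : R D (A.1 + k))) • F) (shfMax A.1 k) = d ⊗ₜ[ℂ] y := by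
        rw [max_ew A.2.V N.V F wA v _ happ, hFy, tens_tmul, hact, hvy]
      refine ⟨_, happ.trans ?_, (ew (fun j : Fin (A.1 + k) => if h : j.val < k then v ⟨j.val, h⟩ else
          wA ⟨j.val - k, by omega⟩) : R D (A.1 + k)) • x0, X.smul_mem _ hx0, ?_, ?_⟩
      · rw [hv, hwA, List.reverse_cons, List.flatten_append, List.flatten_singleton]
      · intro h0
        have h1 := congrArg e' h0
        rw [map_smul, map_zero, hx0F'] at h1
        rw [h1] at hmax
        exact hyne (SubInd_tens_ne hfd hmax.symm)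
      · rw [smul_smul, (isRep_R D (A.1 + k)).E_mul, if_pos rfl]

end CA1492
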