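import Mathlib
import Pool.Agent.Lib.MP_ca1492_al.Mod.ChInd
import Pool.Agent.Lib.MP_ca1492_al.Mod.RectM
import Pool.Agent.Lib.MP_ca1492_al.Mod.SubInd

/-!
Graded lifts of induction products, with their characters (also for the inverse automorphism).
-/

namespace CA1492

open TensorProduct

variable {Λ : Type} [DecidableEq Λ] {S : Finset (Λ × ℤ)}

section general
variable {D : Dat} {n m k : ℕ} {lam : ℂˣ}

/-- The same module with the inverse automorphism.
PROOF of the compatibility: apply M.g: M.g (g⁻¹ (x v)) = x v and M.g (alpha lam⁻¹ x • g⁻¹ v) =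
alpha lam (alpha lam⁻¹ x) • v = x v (`alpha_mul`, `alpha_one`). -/
theorem inv_hg (M : FObj D n lam) (x : R D n) (v : M.V) :
    M.g.symm (x • v) = alpha D n lam⁻¹ x • M.g.symm v := by
  apply M.g.injective
  rw [LinearEquiv.apply_symm_apply, M.hg, alpha_mul, mul_inv_cancel, alpha_one,
    LinearEquiv.apply_symm_apply]

/-- The same module with the inverse automorphism. -/
noncomputable def FObj.inv (M : FObj D n lam) : FObj D n lam⁻¹ where
  V := M.V
  g := M.g.symm
  hg := inv_hg M

theorem ch_inv (M : FObj D n lam) (w : Wd D n) :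
    ch M.inv w = LinearMap.trace ℂ M.V (M.g.symm.toLinearMap ∘ₗ act M.V (ew w)) := rfl

/-- PROOF: an isomorphism e with e (g v) = g' (e v) does not change the trace
(`LinearMap.trace_conj'`). -/
theorem ch_iso {M M' : FObj D n lam} (h : IsoS M M' 1) (w : Wd D n) : ch M w = ch M' w := by
  obtain ⟨e, he⟩ := h
  have h1 : M'.g.toLinearMap ∘ₗ act M'.V (ew w) =
      (e.restrictScalars ℂ).conj (M.g.toLinearMap ∘ₗ act M.V (ew w)) := by
    apply LinearMap.ext
    intro v
    rw [LinearEquiv.conj_apply_apply]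
    change M'.g ((ew w : R D n) • v) = e (M.g ((ew w : R D n) • e.symm v))
    rw [he, Units.val_one, one_smul, e.map_smul, LinearEquiv.apply_symm_apply]
  unfold ch
  rw [h1, LinearMap.trace_conj']

/-- The automorphism of the induced module is determined by its restriction to the image of indIn.
PROOF: `indIn_facts`: F = ∑ CS • indIn (F p), g (x • F) = alpha x • g F. -/
theorem indg_unique (M : FObj D m lam) (N : FObj D k lam)
    (g' : IndV D m k M.V N.V ≃ₗ[ℂ] IndV D m k M.V N.V)
    (h1 : ∀ (x : R D (m + k)) (F : IndV D m k M.V N.V), g' (x • F) = alpha D (m + k) lam x • g' F)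
    (h2 : ∀ t : M.V ⊗[ℂ] N.V, g' (indIn M.V N.V t) =
      indIn M.V N.V (TensorProduct.map M.g.toLinearMap N.g.toLinearMap t)) :
    ∀ F, g' F = (exists_indg M N).choose F := by
  intro F
  rw [Ind_g_eq' M N g' h1 h2, Ind_g_eq' M N (exists_indg M N).choose
    (exists_indg M N).choose_spec.1 (exists_indg M N).choose_spec.2]

/-- The tensor product of the inverses. -/
theorem Lift_map_symm {V W : Type} [AddCommGroup V] [Module ℂ V] [AddCommGroup W] [Module ℂ W]
    (g : V ≃ₗ[ℂ] V) (h : W ≃ₗ[ℂ] W) (t : V ⊗[ℂ] W) :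
    TensorProduct.map g.toLinearMap h.toLinearMap
      (TensorProduct.map g.symm.toLinearMap h.symm.toLinearMap t) = t := by
  induction t using TensorProduct.induction_on with
  | zero => rw [map_zero, map_zero]
  | add a b ha hb => rw [map_add, map_add, ha, hb]
  | tmul a b =>
    rw [TensorProduct.map_tmul, TensorProduct.map_tmul]
    simp

/-- Induction commutes with inv (the identity map is an isomorphism).
PROOF: `indg_unique` for M.inv, N.inv and the inverse of the automorphism of Ind M N. -/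
theorem ind_inv (M : FObj D m lam) (N : FObj D k lam) : IsoS (Ind M N).inv (Ind M.inv N.inv) 1 := by
  refine ⟨LinearEquiv.refl (R D (m + k)) (IndV D m k M.V N.V), fun v => ?_⟩
  rw [Units.val_one, one_smul]
  refine indg_unique M.inv N.inv (exists_indg M N).choose.symm (inv_hg (Ind M N)) (fun t => ?_) v
  apply (exists_indg M N).choose.injective
  have h1 := (exists_indg M N).choose_spec.2
    (TensorProduct.map M.inv.g.toLinearMap N.inv.g.toLinearMap t)
  refine ((exists_indg M N).choose.apply_symm_apply _).trans (Eq.trans ?_ h1.symm)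
  exact congrArg (fun z => (indIn M.V N.V z : IndV D m k M.V N.V)) (Lift_map_symm M.g N.g t).symm

/-- PROOF: `indg_unique` for the identity (`alpha_one`). -/
theorem ind_one (M : FObj D m 1) (N : FObj D k 1) (hM : ∀ v, M.g v = v) (hN : ∀ v, N.g v = v)
    (F : (Ind M N).V) : (Ind M N).g F = F := by
  refine (indg_unique M N (LinearEquiv.refl ℂ (IndV D m k M.V N.V)) (fun x F => ?_)
    (fun t => ?_) F).symm
  · rw [alpha_one]
    rfl
  · have h2 : M.g.toLinearMap = LinearMap.id := LinearMap.ext hM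
    have h3 : N.g.toLinearMap = LinearMap.id := LinearMap.ext hN
    rw [h2, h3, TensorProduct.map_id]
    rfl

end general

/-- A has a lift to an FObj with characters f and f' (for the inverse automorphism); for lam = 1 with
g = id. -/
def GLift {n : ℕ} (lam : ℂˣ) (A : RMod (datS S) n) (f : PC.QSh Λ ℂ lam) (f' : PC.QSh Λ ℂ lam⁻¹) :
    Prop :=
  ∃ M : FObj (datS S) n lam, RIso A M.rm ∧ chQ M = f ∧ chQ M.inv = f' ∧
    (lam = 1 → ∀ v, M.g v = v)

variable {n m k : ℕ} {lam : ℂˣ}

theorem GLift.iso {A B : RMod (datS S) n} {f : PC.QSh Λ ℂ lam} {f' : PC.QSh Λ ℂ lam⁻¹}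
    (h : GLift lam A f f') (hAB : RIso B A) : GLift lam B f f' := by
  obtain ⟨M, h1, h2⟩ := h
  exact ⟨M, hAB.trans h1, h2⟩

/-- PROOF: `ind_congr`, `chQ_Ind`, `ind_inv`, `ch_iso`, `ind_one`; the FObj is Ind M N. -/
theorem GLift.ind {A : RMod (datS S) m} {B : RMod (datS S) k}
    {f g : PC.QSh Λ ℂ lam} {f' g' : PC.QSh Λ ℂ lam⁻¹}
    (hA : GLift lam A f f') (hB : GLift lam B g g') :
    GLift lam (A.ind B) (f * g) (f' * g') := by
  obtain ⟨M, h1, h2, h3, h4⟩ := hA
  obtain ⟨N, k1, k2, k3, k4⟩ := hB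
  refine ⟨Ind M N, ind_congr h1 k1, ?_, ?_, ?_⟩
  · rw [chQ_Ind, h2, k2]
  · have h5 : chQ (Ind M N).inv = chQ (Ind M.inv N.inv) := by
      unfold chQ
      exact Finset.sum_congr rfl fun w _ => by rw [ch_iso (ind_inv M N) w]
    rw [h5, chQ_Ind, h3, k3]
  · intro h
    subst h
    exact ind_one M N (h4 rfl) (k4 rfl)

/-- The scaling automorphism in rank zero. -/
theorem Lift_alpha_zero {D : Dat} (lam : ℂˣ) (x : R D 0) : alpha D 0 lam x = x := by
  refine R_induction (p := fun x => alpha D 0 lam x = x) (fun c => ?_) (fun w => ?_)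
    (fun k => k.elim0) (fun r => ?_)
    (fun x y hx hy => ?_) (fun x y hx hy => ?_) x
  · rw [AlgHom.commutes]
  · exact (alpha_spec D 0 lam).1 w
  · rw [iota_ps_out r (by omega), map_zero]
  · rw [map_add, hx, hy]
  · rw [map_mul, hx, hy]

/-- The only idempotent in rank zero is 1. -/
theorem Lift_ew_zero {D : Dat} (w : Wd D 0) : (ew w : R D 0) = 1 := by
  have h := (isRep_R D 0).E_sum
  rw [Fintype.sum_subsingleton _ w] at h
  exact h

/-- The object in rank zero. -/
noncomputable def Lift_nil {D : Dat} (lam : ℂˣ) (A : RMod D 0) (hf : FiniteDimensional ℂ A.V) :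
    FObj D 0 lam where
  V := A.V
  fin := hf
  g := LinearEquiv.refl ℂ A.V
  hg x v := by
    rw [Lift_alpha_zero]
    rfl

/-- The character in rank zero. -/
theorem Lift_nil_ch (lam : ℂˣ) (A : RMod (datS S) 0) (hf : FiniteDimensional ℂ A.V)
    (h : Module.finrank ℂ A.V = 1) : chQ (Lift_nil lam A hf) = (1 : PC.QSh Λ ℂ lam) := by
  have w : Wd (datS S) 0 := Fin.elim0
  unfold chQ
  rw [Fintype.sum_subsingleton _ w]
  have h1 : ch (Lift_nil lam A hf) w = 1 := by
    have h2 : (Lift_nil lam A hf).g.toLinearMap ∘ₗ act (Lift_nil lam A hf).V (ew w) =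
        LinearMap.id := by
      apply LinearMap.ext
      intro v
      change (ew w : R (datS S) 0) • v = v
      rw [Lift_ew_zero, one_smul]
    unfold ch
    rw [h2, LinearMap.trace_id]
    change ((Module.finrank ℂ A.V : ℕ) : ℂ) = 1
    rw [h, Nat.cast_one]
  rw [h1, one_smul]
  rfl

/-- The empty product. PROOF: g = id; alpha acts trivially on R (datS S) 0 (`R_induction`: generated by the
single ew w = 1; ps r = 0); chQ = wd [] = 1; the FObj has to be built from A.V (finite dimensional since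
finrank = 1: `Module.finite_of_finrank_pos`). -/
theorem GLift.nil {A : RMod (datS S) 0} (h : Module.finrank ℂ A.V = 1) :
    GLift lam A (1 : PC.QSh Λ ℂ lam) (1 : PC.QSh Λ ℂ lam⁻¹) := by
  have hf : FiniteDimensional ℂ A.V := Module.finite_of_finrank_pos (by omega)
  exact ⟨Lift_nil lam A hf, RIso.refl A, Lift_nil_ch lam A hf h, Lift_nil_ch lam⁻¹ A hf h,
    fun _ _ => rfl⟩

/-- PROOF: induction on L (`GLift.ind`, `GLift.nil`, `GLift.iso`; subst the equalities of the ranks). -/
theorem GLift.prod {L : List (Σ m, RMod (datS S) m)}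
    {fs : List (PC.QSh Λ ℂ lam × PC.QSh Λ ℂ lam⁻¹)}
    (hL : List.Forall₂ (fun (A : Σ m, RMod (datS S) m)
      (f : PC.QSh Λ ℂ lam × PC.QSh Λ ℂ lam⁻¹) => GLift lam A.2 f.1 f.2) L fs)
    {M : RMod (datS S) n} (hM : IsProd (datS S) L n M) :
    GLift lam M (fs.map Prod.fst).prod (fs.map Prod.snd).prod := by
  induction hL generalizing n with
  | nil =>
    obtain ⟨h1, h2⟩ := hM
    subst h1
    exact GLift.nil h2
  | @cons A f L fs hA hL ih =>
    cases L with
    | nil =>
      cases hL
      obtain ⟨h1, h2⟩ := hM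
      subst h1
      have h3 : (List.map Prod.fst [f]).prod = f.1 := by simp
      have h4 : (List.map Prod.snd [f]).prod = f.2 := by simp
      rw [h3, h4]
      exact GLift.iso hA h2
    | cons B L =>
      obtain ⟨k, N, h1, h2, h3⟩ := hM
      subst h1
      rw [List.map_cons, List.map_cons, List.prod_cons, List.prod_cons]
      exact GLift.iso (GLift.ind hA (ih h2)) h3

/-- Rectangles. PROOF: `chQ_rect` for lam and lam⁻¹; (HF lam H).inv is HF lam⁻¹ H. -/
theorem GLift.rect (r : PC.Rect Λ) (hn : r.a * r.b = n) (hS : ∀ x ∈ r.cont, x ∈ S) :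
    GLift lam (DR S r n) (r.ch : PC.QSh Λ ℂ lam) (r.ch : PC.QSh Λ ℂ lam⁻¹) :=
  ⟨HF lam (rectH S r n), RIso.refl _, chQ_rect r hn hS, chQ_rect (lam := lam⁻¹) r hn hS,
    fun _ _ => rfl⟩

/-- The character of a one-dimensional homogeneous module. -/
theorem Lift_sg_ch (lam : ℂˣ) {n : ℕ} {w : Wd (datS S) n} {H : HSet (datS S) n} (hH : H.W = {w}) :
    chQ (HF lam H) = (PC.QSh.wd ((List.ofFn w).map ltr) : PC.QSh Λ ℂ lam) := by
  unfold chQ
  rw [Finset.sum_eq_single w]
  · rw [ch_HF, if_pos (by rw [hH]; exact Set.mem_singleton w), one_smul, List.map_ofFn]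
    rfl
  · intro w' _ h
    rw [ch_HF, if_neg (by rw [hH]; exact h), zero_smul]
  · intro h
    exact absurd (Finset.mem_univ _) h

/-- One-dimensional modules. PROOF: HF lam H with `ch_HF`. -/
theorem GLift.sg {A : Σ m, RMod (datS S) m} {c : List (datS S).J} (h : IsSg (datS S) A c) :
    GLift lam A.2 (PC.QSh.wd (c.map ltr) : PC.QSh Λ ℂ lam)
      (PC.QSh.wd (c.map ltr) : PC.QSh Λ ℂ lam⁻¹) := by
  obtain ⟨w, H, h1, h2, h3⟩ := h
  subst h1
  exact ⟨HF lam H, h3, Lift_sg_ch lam h2, Lift_sg_ch lam⁻¹ h2, fun _ _ => rfl⟩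

end CA1492
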