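import Mathlib
import Pool.Agent.Lib.MP_ca1492_al.Mod.Abs
import Pool.Agent.Lib.MP_ca1492_al.Mod.Eval
import Pool.Agent.Lib.MP_ca1492_al.Mod.Lift

/-!
The main theorem over the algebras `R (datS S) n`: Ext between products of rectangle modules with the
same contents does not vanish. (The finiteness of Ext is a hypothesis here; it is proved in D8.)
-/

namespace CA1492

open CategoryTheory CategoryTheory.Abelian CategoryTheory.Limits ExtT

variable {Λ : Type} [DecidableEq Λ] {S : Finset (Λ × ℤ)} {n : ℕ}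

/-- M is the induction product of the modules of the rectangles of the list L. -/
def IsAr (S : Finset (Λ × ℤ)) (L : List (PC.Rect Λ)) (n : ℕ) (M : RMod (datS S) n) : Prop :=
  IsProd (datS S) (L.map (fun r => (⟨r.a * r.b, DR S r (r.a * r.b)⟩ : Σ m, RMod (datS S) m))) n M

/-- PROOF: `GLift.prod`, `GLift.rect` (fs = L.map (fun r => (r.ch, r.ch))). -/
theorem IsAr.lift {L : List (PC.Rect Λ)} {M : RMod (datS S) n} (hM : IsAr S L n M)
    (hS : ∀ r ∈ L, ∀ x ∈ r.cont, x ∈ S) (lam : ℂˣ) :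
    GLift lam M (PC.chL L : PC.QSh Λ ℂ lam) (PC.chL L : PC.QSh Λ ℂ lam⁻¹) := by
  have h := GLift.prod (lam := lam)
    (L := L.map (fun r => (⟨r.a * r.b, DR S r (r.a * r.b)⟩ : Σ m, RMod (datS S) m)))
    (fs := L.map (fun r => ((r.ch : PC.QSh Λ ℂ lam), (r.ch : PC.QSh Λ ℂ lam⁻¹)))) (by
      rw [List.forall₂_map_left_iff, List.forall₂_map_right_iff, List.forall₂_same]
      intro r hr
      exact GLift.rect r rfl (hS r hr)) hM
  rw [List.map_map, List.map_map] at h
  exact h

/-- The number of letters. PROOF: `IsProd.length`; Rect.cont has a * b elements. -/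
theorem IsAr.card {L : List (PC.Rect Λ)} {M : RMod (datS S) n} (hM : IsAr S L n M) :
    Multiset.card ((L.map PC.Rect.cont).sum) = n := by
  have h := IsProd.length (show IsProd (datS S) (L.map (fun r =>
    (⟨r.a * r.b, DR S r (r.a * r.b)⟩ : Σ m, RMod (datS S) m))) n M from hM)
  rw [List.map_map] at h
  rw [← h]
  clear h hM
  induction L with
  | nil => rfl
  | cons r L ih =>
    rw [List.map_cons, List.sum_cons, Multiset.card_add, ih, List.map_cons, List.sum_cons]
    congr 1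
    unfold PC.Rect.cont
    simp

omit [DecidableEq Λ] in
/-- Membership in a sum of multisets. -/
theorem Stage_mem {x : Λ × ℤ} (L : List (PC.Rect Λ)) :
    x ∈ (L.map PC.Rect.cont).sum ↔ ∃ r ∈ L, x ∈ r.cont := by
  induction L with
  | nil => simp
  | cons r L ih =>
    rw [List.map_cons, List.sum_cons, Multiset.mem_add, ih]
    constructor
    · rintro (h | ⟨r', h1, h2⟩)
      · exact ⟨r, List.mem_cons_self, h⟩
      · exact ⟨r', List.mem_cons_of_mem _ h1, h2⟩
    · rintro ⟨r', h1, h2⟩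
      rcases List.mem_cons.1 h1 with h | h
      · subst h
        exact Or.inl h2
      · exact Or.inr ⟨r', h, h2⟩

/-- Ext groups of isomorphic modules. PROOF: precomposition and postcomposition with `Ext.mk₀` of the
isomorphisms. -/
theorem ext_iso {M M' N N' : RMod (datS S) n} (h : RIso M M') (h' : RIso N N') (i : ℕ)
    (hn : Nontrivial (Ext.{0} (ModuleCat.of (R (datS S) n) M.V) (ModuleCat.of (R (datS S) n) N.V) i)) :
    Nontrivial (Ext.{0} (ModuleCat.of (R (datS S) n) M'.V) (ModuleCat.of (R (datS S) n) N'.V) i) := by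
  obtain ⟨e⟩ := h
  obtain ⟨e'⟩ := h'
  let f : ModuleCat.of (R (datS S) n) M.V ≅ ModuleCat.of (R (datS S) n) M'.V := e.toModuleIso
  let f' : ModuleCat.of (R (datS S) n) N.V ≅ ModuleCat.of (R (datS S) n) N'.V := e'.toModuleIso
  have h1 : Function.LeftInverse
      (fun y : Ext.{0} (ModuleCat.of (R (datS S) n) M'.V) (ModuleCat.of (R (datS S) n) N.V) i =>
        (Ext.mk₀ f.hom).comp y (zero_add i))
      (fun x : Ext.{0} (ModuleCat.of (R (datS S) n) M.V) (ModuleCat.of (R (datS S) n) N.V) i =>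
        (Ext.mk₀ f.inv).comp x (zero_add i)) := by
    intro x
    show (Ext.mk₀ f.hom).comp ((Ext.mk₀ f.inv).comp x (zero_add i)) (zero_add i) = x
    rw [Ext.mk₀_comp_mk₀_assoc, f.hom_inv_id, Ext.mk₀_id_comp]
  have h2 : Function.LeftInverse
      (fun y : Ext.{0} (ModuleCat.of (R (datS S) n) M'.V) (ModuleCat.of (R (datS S) n) N'.V) i =>
        y.comp (Ext.mk₀ f'.inv) (add_zero i))
      (fun x : Ext.{0} (ModuleCat.of (R (datS S) n) M'.V) (ModuleCat.of (R (datS S) n) N.V) i =>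
        x.comp (Ext.mk₀ f'.hom) (add_zero i)) := by
    intro x
    show (x.comp (Ext.mk₀ f'.hom) (add_zero i)).comp (Ext.mk₀ f'.inv) (add_zero i) = x
    rw [Ext.comp_assoc_of_third_deg_zero, Ext.mk₀_comp_mk₀, f'.hom_inv_id, Ext.comp_mk₀_id]
  have h3 := h1.injective.nontrivial
  exact h2.injective.nontrivial

/-- THE MAIN THEOREM over R (datS S) n.
PROOF. `PC.comb_main` evaluated: `comb_eval` for L, L' gives lam, c, a. `IsAr.lift` gives FObj's A, B for lam with
RIso M A.rm, RIso M' B.rm, chQ A = chL L, chQ B.inv = chL L'. Every w in the support of a is wl w' for a unique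
word w' (`exists_wl`: length n by `IsAr.card`, letters in S). `abs_main` for A, B, ι = the support of a,
c, w', a: hrel from c • chQ A = ∑ a w • let_ w, `chQ_VF`, evaluated at wl u (`chQ_wl`); hne: the trace is
ch B.inv (w') = chQ B.inv (wl w'), `ch_inv`. Then `ext_iso`. -/
theorem stage1_aux (L L' : List (PC.Rect Λ)) (δ : Λ → ℤ)
    (hL : ∀ r ∈ L, 0 < r.a ∧ 0 < r.b ∧ 2 * r.t - r.a + r.b = δ r.l)
    (hL' : ∀ r ∈ L', 0 < r.a ∧ 0 < r.b ∧ 2 * r.t - r.a + r.b = δ r.l)
    (hc : (L.map PC.Rect.cont).sum = (L'.map PC.Rect.cont).sum)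
    (hS : ∀ r ∈ L, ∀ x ∈ r.cont, x ∈ S)
    (M M' : RMod (datS S) n) (hM : IsAr S L n M) (hM' : IsAr S L' n M')
    (hfin : ∀ (lam : ℂˣ) (A B : FObj (datS S) n lam), PosNe lam →
      FinExt (ModuleCat.of (R (datS S) n) A.V) (ModuleCat.of (R (datS S) n) B.V) (n + 1)) :
    ∃ i, Nontrivial (Ext.{0} (ModuleCat.of (R (datS S) n) M.V)
      (ModuleCat.of (R (datS S) n) M'.V) i) := by
  obtain ⟨lam, c, a, hl, hc0, ha, h1, h2⟩ := comb_eval L L' δ hL hL' hc
  have hS' : ∀ r ∈ L', ∀ x ∈ r.cont, x ∈ S := by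
    intro r hr x hx
    have h3 : x ∈ (L.map PC.Rect.cont).sum := by
      rw [hc]
      exact (Stage_mem L').2 ⟨r, hr, hx⟩
    obtain ⟨s, hs, hx'⟩ := (Stage_mem L).1 h3
    exact hS s hs x hx'
  obtain ⟨A, hA1, hA2, -, -⟩ := hM.lift hS lam
  obtain ⟨B, hB1, -, hB2, -⟩ := hM'.lift hS' lam
  have hw : ∀ w : a.support, ∃ w' : Wd (datS S) n, wl w' = w.1 := by
    intro w
    have h3 := ha w.1 w.2
    refine exists_wl w.1 ?_ ?_
    · have h4 := congrArg Multiset.card h3
      rw [Multiset.coe_card, hM.card] at h4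
      exact h4
    · intro x hx
      have h4 : x ∈ (L.map PC.Rect.cont).sum := by
        rw [← h3]
        exact hx
      obtain ⟨r, hr, hx'⟩ := (Stage_mem L).1 h4
      exact hS r hr x hx'
  choose W hW using hw
  have hrel : ∀ u, c * ch A u = ∑ j : a.support, a j.1 * ch (VF lam (W j)) u := by
    intro u
    let ev : PC.QSh Λ ℂ lam →+ ℂ := ⟨⟨fun f => f (wl u), rfl⟩, fun _ _ => rfl⟩
    have h3 : ev (c • (PC.chL L : PC.QSh Λ ℂ lam)) =
        ev (∑ w ∈ a.support, a w • (PC.QSh.let_ w : PC.QSh Λ ℂ lam)) := congrArg ev h1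
    rw [map_sum, ← hA2] at h3
    have h4 : ev (c • chQ A) = c * ch A u := by
      show c * chQ A (wl u) = c * ch A u
      rw [chQ_wl]
    rw [h4] at h3
    rw [h3, ← Finset.sum_coe_sort a.support
      (fun w => ev (a w • (PC.QSh.let_ w : PC.QSh Λ ℂ lam)))]
    have h5 : ∀ j : a.support, ev (a j.1 • (PC.QSh.let_ j.1 : PC.QSh Λ ℂ lam)) =
        a j.1 * ch (VF lam (W j)) u := by
      intro j
      show a j.1 * (PC.QSh.let_ j.1 : PC.QSh Λ ℂ lam) (wl u) = _
      rw [← chQ_wl, chQ_VF, hW j]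
    exact Finset.sum_congr rfl fun j _ => h5 j
  have hne : ∑ j : a.support, a j.1 *
      LinearMap.trace ℂ B.V (B.g.symm.toLinearMap ∘ₗ act B.V (ew (W j))) ≠ 0 := by
    have h3 : ∑ j : a.support, a j.1 *
        LinearMap.trace ℂ B.V (B.g.symm.toLinearMap ∘ₗ act B.V (ew (W j))) =
        a.sum (fun w x => x * (PC.chL L' : PC.QSh Λ ℂ lam⁻¹) w) := by
      unfold Finsupp.sum
      rw [← Finset.sum_coe_sort a.support
        (fun w => a w * (PC.chL L' : PC.QSh Λ ℂ lam⁻¹) w)]
      refine Finset.sum_congr rfl fun j _ => ?_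
      rw [← ch_inv, ← chQ_wl, hB2, hW j]
    rw [h3]
    exact h2
  obtain ⟨i, hi⟩ := abs_main hl A B (fun P => hfin lam P B hl) (ι := a.support) c W
    (fun j => a j.1) hrel hne
  exact ⟨i, ext_iso hA1.symm hB1.symm i hi⟩

end CA1492
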