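import Mathlib
import Pool.Agent.Lib.MP_ca1492_al.Mod.SubInd

/-!
Universal vectors of products of one-dimensional modules; uniqueness of the simple quotient.
-/

namespace CA1492

open TensorProduct

variable {D : Dat}

/-- The positions r such that r and r + 1 lie in the same block, for the list of the block lengths. -/
def inBlk : List ℕ → ℕ → Prop
  | [], _ => False
  | a :: L, r => r + 1 < a ∨ (a ≤ r ∧ inBlk L (r - a))

/-- x is a vector of word w0 = the concatenation of the blocks, killed by all yk and by the ps r with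
r, r + 1 in the same block. -/
def IsVec (cs : List (List D.J)) {n : ℕ} (M : RMod D n) (x : M.V) : Prop :=
  (∃ w : Wd D n, List.ofFn w = cs.flatten ∧ (ew w : R D n) • x = x) ∧
  (∀ k, (yk k : R D n) • x = 0) ∧ (∀ r, inBlk (cs.map List.length) r → (ps r : R D n) • x = 0)

/-- PROOF: transport. -/
theorem IsVec.map {cs : List (List D.J)} {n : ℕ} {M M' : RMod D n} (f : M.V →ₗ[R D n] M'.V) {x : M.V}
    (h : IsVec cs M x) : IsVec cs M' (f x) := by
  obtain ⟨⟨w, hw, hx⟩, hy, hs⟩ := h
  refine ⟨⟨w, hw, ?_⟩, fun k => ?_, fun r hr => ?_⟩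
  · rw [← f.map_smul, hx]
  · rw [← f.map_smul, hy k, f.map_zero]
  · rw [← f.map_smul, hs r hr, f.map_zero]

/-- the properties of a universal vector -/
def UniqU (cs : List (List D.J)) {n : ℕ} (M : RMod D n) (q0 : M.V) : Prop :=
  q0 ≠ 0 ∧ IsVec cs M q0 ∧ (∀ X : Submodule (R D n) M.V, q0 ∈ X → X = ⊤) ∧
    ∀ (M' : RMod D n) (x : M'.V), IsVec cs M' x → ∃ f : M.V →ₗ[R D n] M'.V, f q0 = x

theorem Uniq_iso {cs : List (List D.J)} {n : ℕ} {M M' : RMod D n} (h : RIso M M')
    (hM : ∃ q0, UniqU cs M q0) : ∃ q0, UniqU cs M' q0 := by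
  obtain ⟨e⟩ := h
  obtain ⟨q0, h0, h1, h2, h3⟩ := hM
  refine ⟨e q0, ?_, h1.map e.toLinearMap, fun X hX => ?_, fun M'' x hx => ?_⟩
  · intro h
    exact h0 (e.injective (h.trans e.map_zero.symm))
  · have h4 : X.comap e.toLinearMap = ⊤ := h2 _ hX
    refine eq_top_iff.mpr fun y _ => ?_
    have h5 : e.symm y ∈ X.comap e.toLinearMap := by
      rw [h4]
      exact Submodule.mem_top
    have h6 : e (e.symm y) ∈ X := h5
    rwa [e.apply_symm_apply] at h6
  · obtain ⟨f, hf⟩ := h3 M'' x hx
    refine ⟨f.comp e.symm.toLinearMap, ?_⟩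
    change f (e.symm (e q0)) = x
    rw [e.symm_apply_apply, hf]

/-- a generator of a one-dimensional module -/
theorem Uniq_one {a : ℕ} {A : RMod D a} {c : List D.J} (h : IsSg D ⟨a, A⟩ c) :
    ∃ (u : Wd D a) (d : A.V), List.ofFn u = c ∧ d ≠ 0 ∧ (∀ v : A.V, ∃ b : ℂ, v = b • d) ∧
      (∀ w : Wd D a, (ew w : R D a) • d = if w = u then d else 0) ∧
      (∀ k, (yk k : R D a) • d = 0) ∧ ∀ r, (ps r : R D a) • d = 0 := by
  obtain ⟨w, H, hw, hW, ⟨e⟩⟩ := h
  change Wd D a at w
  change HSet D a at H
  change A.V ≃ₗ[R D a] (HM H).V at e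
  have hmem : w ∈ H.W := by
    rw [hW]
    exact Set.mem_singleton w
  obtain ⟨f1, f2, f3, f4, f5⟩ := hd_facts H ⟨w, hmem⟩
  obtain ⟨δ, hδ⟩ : ∃ δ : (HM H).V, δ = hd H ⟨w, hmem⟩ := ⟨_, rfl⟩
  rw [← hδ] at f1 f4 f5
  have hd1 : (hd H ⟨w, hmem⟩ : HV H) ⟨w, hmem⟩ = 1 := by
    unfold hd
    exact if_pos rfl
  have hne : δ ≠ 0 := by
    intro h
    rw [hδ] at h
    have h2 : (hd H ⟨w, hmem⟩ : HV H) ⟨w, hmem⟩ = (0 : HV H) ⟨w, hmem⟩ :=
      congrFun (show (hd H ⟨w, hmem⟩ : H.W → ℂ) = (0 : H.W → ℂ) from h) ⟨w, hmem⟩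
    rw [hd1] at h2
    exact one_ne_zero (h2.trans rfl)
  have hid : ∀ f : (HM H).V, (ew w : R D a) • f = f := by
    intro f
    have h1 : (∑ u : Wd D a, (ew u : R D a)) • f = f := by
      rw [(isRep_R D a).E_sum, one_smul]
    rw [Finset.sum_smul, Finset.sum_eq_single w] at h1
    · exact h1
    · intro u _ hu
      exact f2 u (by rw [hW]; exact hu) f
    · intro h
      exact absurd (Finset.mem_univ _) h
  refine ⟨w, e.symm δ, hw, ?_, fun v => ?_, fun u => ?_, fun k => ?_, fun r => ?_⟩
  · intro h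
    exact hne (e.symm.injective (h.trans e.symm.map_zero.symm))
  · have h1 : ∃ b : ℂ, e v = b • δ := ⟨_, (hid (e v)).symm.trans (f1 (e v))⟩
    obtain ⟨b, hb⟩ := h1
    refine ⟨b, ?_⟩
    have h2 := R_lin_C (HM H) A e.symm.toLinearMap b δ
    change e.symm (b • δ) = b • e.symm δ at h2
    rw [← h2, ← hb, e.symm_apply_apply]
  · by_cases hu : u = w
    · rw [if_pos hu, hu]
      have h2 := e.symm.map_smul (ew w : R D a) δ
      rw [hid] at h2
      exact h2.symm
    · rw [if_neg hu]
      have h2 := e.symm.map_smul (ew u : R D a) δ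
      have h3 : (ew u : R D a) • δ = 0 := f2 u (by rw [hW]; exact hu) δ
      rw [h3, e.symm.map_zero] at h2
      exact h2.symm
  · have h2 := e.symm.map_smul (yk k : R D a) δ
    have h3 : (yk k : R D a) • δ = 0 := f3 k δ
    rw [h3, e.symm.map_zero] at h2
    exact h2.symm
  · by_cases hr : r + 1 < a
    · have h2 := e.symm.map_smul (ps r : R D a) δ
      have h3 : (ps r : R D a) • δ = 0 := by
        refine f5 r hr ?_
        intro hN
        have h4 := H.sw w hmem r hr hN
        rw [hW] at h4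
        have h5 : w ∘ sw a r = w := h4
        have h6 := congrFun h5 ⟨r, by omega⟩
        simp only [Function.comp_apply, sw, hr, dif_pos, Equiv.swap_apply_left] at h6
        exact hN.1 h6.symm
      rw [h3, e.symm.map_zero] at h2
      exact h2.symm
    · rw [iota_ps_out r hr, zero_smul]

/-- the action on the generator and on a vector with the same properties -/
theorem Uniq_scal {a n : ℕ} {A : RMod D a} (u : Wd D a) (d : A.V)
    (he : ∀ w : Wd D a, (ew w : R D a) • d = if w = u then d else 0)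
    (hy : ∀ k, (yk k : R D a) • d = 0) (hs : ∀ r, (ps r : R D a) • d = 0)
    (φ : R D a →ₐ[ℂ] R D n) (M : RMod D n) (x : M.V)
    (he' : ∀ w : Wd D a, φ (ew w) • x = if w = u then x else 0)
    (hy' : ∀ k, φ (yk k) • x = 0) (hs' : ∀ r, r + 1 < a → φ (ps r) • x = 0) (z : R D a) :
    ∃ c : ℂ, z • d = c • d ∧ φ z • x = c • x := by
  induction z using R_induction with
  | hc c =>
    refine ⟨c, algebraMap_smul _ _ _, ?_⟩
    rw [AlgHom.commutes]
    exact algebraMap_smul _ _ _
  | he w =>
    by_cases h : w = u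
    · refine ⟨1, ?_, ?_⟩
      · rw [he, if_pos h, one_smul]
      · rw [he', if_pos h, one_smul]
    · refine ⟨0, ?_, ?_⟩
      · rw [he, if_neg h, zero_smul]
      · rw [he', if_neg h, zero_smul]
  | hy k => exact ⟨0, by rw [hy, zero_smul], by rw [hy', zero_smul]⟩
  | hs r =>
    refine ⟨0, by rw [hs, zero_smul], ?_⟩
    by_cases hr : r + 1 < a
    · rw [hs' r hr, zero_smul]
    · rw [iota_ps_out r hr, map_zero, zero_smul, zero_smul]
  | ha y z hy hz =>
    obtain ⟨c, h1, h2⟩ := hy
    obtain ⟨c', h3, h4⟩ := hz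
    refine ⟨c + c', ?_, ?_⟩
    · rw [add_smul, h1, h3, add_smul]
    · rw [map_add, add_smul, h2, h4, add_smul]
  | hm y z hy hz =>
    obtain ⟨c, h1, h2⟩ := hy
    obtain ⟨c', h3, h4⟩ := hz
    refine ⟨c * c', ?_, ?_⟩
    · rw [mul_smul, h3, smul_comm, h1, smul_smul, mul_comm]
    · rw [map_mul, mul_smul, h4, smul_comm, h2, smul_smul, mul_comm]

theorem Uniq_lin {a : ℕ} {A : RMod D a} (d : A.V) (h0 : d ≠ 0)
    (hsp : ∀ v : A.V, ∃ b : ℂ, v = b • d) :
    ∃ l : A.V →ₗ[ℂ] ℂ, (∀ v, v = l v • d) ∧ l d = 1 := by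
  choose l hl using hsp
  have hinj : ∀ b b' : ℂ, b • d = b' • d → b = b' := by
    intro b b' h
    have h1 : (b - b') • d = 0 := by rw [sub_smul, h, sub_self]
    rcases smul_eq_zero.mp h1 with h2 | h2
    · exact sub_eq_zero.mp h2
    · exact absurd h2 h0
  refine ⟨{ toFun := l, map_add' := fun v w => ?_, map_smul' := fun c v => ?_ }, hl, ?_⟩
  · refine hinj _ _ ?_
    rw [← hl, add_smul, ← hl, ← hl]
  · refine hinj _ _ ?_
    rw [← hl, RingHom.id_apply, smul_eq_mul, mul_smul, ← hl]
  · refine hinj _ _ ?_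
    change l d • d = (1 : ℂ) • d
    rw [← hl, one_smul]

/-- one factor -/
theorem Uniq_base {a : ℕ} {A : RMod D a} {c : List D.J} (h : IsSg D ⟨a, A⟩ c) :
    ∃ q0, UniqU [c] A q0 := by
  obtain ⟨u, d, hu, h0, hsp, he, hy, hs⟩ := Uniq_one h
  obtain ⟨l, hl, hl1⟩ := Uniq_lin d h0 hsp
  refine ⟨d, h0, ⟨⟨u, ?_, ?_⟩, hy, fun r _ => hs r⟩, fun X hX => ?_, fun M' x hx => ?_⟩
  · rw [hu, List.flatten_cons, List.flatten_nil, List.append_nil]
  · rw [he, if_pos rfl]
  · refine eq_top_iff.mpr fun v _ => ?_
    rw [hl v, ← algebraMap_smul (R D a)]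
    exact X.smul_mem _ hX
  · obtain ⟨⟨w, hw, hwx⟩, hyx, hsx⟩ := hx
    have hwu : w = u := by
      apply List.ofFn_injective
      rw [hw, hu, List.flatten_cons, List.flatten_nil, List.append_nil]
    subst hwu
    have hlen : c.length = a := by rw [← hu, List.length_ofFn]
    have key := Uniq_scal w d he hy hs (AlgHom.id ℂ (R D a)) M' x (fun w' => ?_) hyx (fun r hr => ?_)
    · refine ⟨{ toFun := fun v => l v • x, map_add' := fun v v' => ?_, map_smul' := fun z v => ?_ }, ?_⟩
      · rw [map_add, add_smul]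
      · obtain ⟨b, hb1, hb2⟩ := key z
        change z • x = b • x at hb2
        have h1 : l (z • v) = b * l v := by
          conv_lhs => rw [hl v, smul_comm, hb1, smul_smul, map_smul, hl1, smul_eq_mul, mul_one]
          rw [mul_comm]
        rw [h1, RingHom.id_apply, smul_comm z, hb2, smul_smul, mul_comm]
      · change l d • x = x
        rw [hl1, one_smul]
    · change (ew w' : R D a) • x = _
      by_cases h : w' = w
      · rw [if_pos h, h, hwx]
      · rw [if_neg h, ← hwx, smul_smul, (isRep_R D a).E_mul, if_neg h, zero_smul]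
    · refine hsx r ?_
      left
      rw [hlen]
      exact hr

/-- the restriction to the right factor -/
noncomputable def Uniq_res {a k : ℕ} (M : RMod D (a + k)) : RMod D k :=
  let _ : Module (R D k) M.V := Module.compHom M.V (iotaR D a k).toRingHom
  { V := M.V
    tower := ⟨fun c y v => by
      change (iotaR D a k (c • y)) • v = c • (iotaR D a k y • v)
      rw [map_smul, smul_assoc]⟩ }

theorem Uniq_step_ew {a k : ℕ} (M : RMod D (a + k)) (x : M.V) (u : Wd D a) (v : Wd D k)
    (hx : (ew (Fin.append u v) : R D (a + k)) • x = x) (u' : Wd D a) (v' : Wd D k) :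
    (ew (Fin.append u' v') : R D (a + k)) • x = if u' = u ∧ v' = v then x else 0 := by
  by_cases h : u' = u ∧ v' = v
  · rw [if_pos h, h.1, h.2, hx]
  · rw [if_neg h, ← hx, smul_smul, (isRep_R D (a + k)).E_mul, if_neg, zero_smul]
    intro h2
    apply h
    constructor
    · funext j
      have := congrFun h2 (Fin.castAdd k j)
      simpa using this
    · funext j
      have := congrFun h2 (Fin.natAdd a j)
      simpa using this

theorem Uniq_append {a : ℕ} (u : Wd D a) {n : ℕ} (w : Wd D (a + n)) (l : List D.J)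
    (h : List.ofFn w = List.ofFn u ++ l) :
    ∃ v : Wd D n, w = Fin.append u v ∧ List.ofFn v = l := by
  have h1 : w = Fin.append (fun i => w (Fin.castAdd n i)) (fun i => w (Fin.natAdd a i)) := by
    funext j
    refine Fin.addCases (fun i => ?_) (fun i => ?_) j
    · rw [Fin.append_left]
    · rw [Fin.append_right]
  rw [h1, List.ofFn_fin_append] at h
  have h2 := List.append_inj h (by rw [List.length_ofFn, List.length_ofFn])
  refine ⟨fun i => w (Fin.natAdd a i), ?_, h2.2⟩
  have h3 : (fun i => w (Fin.castAdd n i)) = u := List.ofFn_injective h2.1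
  rw [← h3]
  exact h1

theorem Uniq_ind {a k : ℕ} {A : RMod D a} {c : List D.J} (h : IsSg D ⟨a, A⟩ c)
    {N : RMod D k} {cs : List (List D.J)} (hN : ∃ q0, UniqU cs N q0) :
    ∃ q0, UniqU (c :: cs) (A.ind N) q0 := by
  obtain ⟨u, d, hu, h0, hsp, he, hy, hs⟩ := Uniq_one h
  obtain ⟨l, hl, hl1⟩ := Uniq_lin d h0 hsp
  obtain ⟨q, hq0, ⟨⟨v, hv, hvq⟩, hyq, hsq⟩, hgen, huni⟩ := hN
  have hlen : c.length = a := by rw [← hu, List.length_ofFn]
  obtain ⟨Le, Ly, Ls⟩ := iotaL_spec D a k
  obtain ⟨Re, Ry, Rs⟩ := iotaR_spec D a k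
  have hiL : ∀ z, iota D a k (z ⊗ₜ 1) = iotaL D a k z := by
    intro z; rw [iota, Algebra.TensorProduct.lift_tmul, map_one, mul_one]
  have hiR : ∀ z, iota D a k (1 ⊗ₜ z) = iotaR D a k z := by
    intro z; rw [iota, Algebra.TensorProduct.lift_tmul, map_one, one_mul]
  obtain ⟨g1, g2⟩ := indIn_facts (D := D) (m := a) (k := k) A.V N.V
  have actL : ∀ (z : R D a) (x : A.V) (y : N.V), iotaL D a k z •
      (indIn A.V N.V (x ⊗ₜ y) : IndV D a k A.V N.V) = indIn A.V N.V ((z • x) ⊗ₜ y) := by
    intro z x y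
    rw [← hiL, g1, tens_tmul, one_smul]
  have actR : ∀ (z : R D k) (x : A.V) (y : N.V), iotaR D a k z •
      (indIn A.V N.V (x ⊗ₜ y) : IndV D a k A.V N.V) = indIn A.V N.V (x ⊗ₜ (z • y)) := by
    intro z x y
    rw [← hiR, g1, tens_tmul, one_smul]
  refine ⟨(indIn A.V N.V (d ⊗ₜ q) : IndV D a k A.V N.V), ?_, ⟨⟨Fin.append u v, ?_, ?_⟩, ?_, ?_⟩,
    ?_, ?_⟩
  · intro h
    have h1 : (indIn A.V N.V (d ⊗ₜ q) : IndV D a k A.V N.V) (shfId a k) = 0 := by
      rw [h]
      rfl
    rw [IndA_indIn_same] at h1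
    have h2 := congrArg (TensorProduct.lift ((LinearMap.lsmul ℂ N.V).comp l)) h1
    rw [map_zero, TensorProduct.lift.tmul] at h2
    change l d • q = 0 at h2
    rw [hl1, one_smul] at h2
    exact hq0 h2
  · rw [List.ofFn_fin_append, hu, hv, List.flatten_cons]
  · change (ew (Fin.append u v) : R D (a + k)) •
      (indIn A.V N.V (d ⊗ₜ q) : IndV D a k A.V N.V) = indIn A.V N.V (d ⊗ₜ q)
    rw [← iota_ew, g1, tens_tmul, he, if_pos rfl, hvq]
  · intro j
    change (yk j : R D (a + k)) • (indIn A.V N.V (d ⊗ₜ q) : IndV D a k A.V N.V) = 0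
    refine Fin.addCases (fun i => ?_) (fun i => ?_) j
    · rw [← Ly, actL, hy, TensorProduct.zero_tmul, map_zero]
    · rw [← Ry, actR, hyq, TensorProduct.tmul_zero, map_zero]
  · intro r hr
    change (ps r : R D (a + k)) • (indIn A.V N.V (d ⊗ₜ q) : IndV D a k A.V N.V) = 0
    rw [List.map_cons, hlen] at hr
    rcases hr with hr | ⟨hr1, hr2⟩
    · rw [← Ls r hr, actL, hs, TensorProduct.zero_tmul, map_zero]
    · by_cases h3 : r - a + 1 < k
      · have h4 : r = a + (r - a) := by omega
        rw [h4, ← Rs (r - a) h3, actR, hsq (r - a) hr2, TensorProduct.tmul_zero, map_zero]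
      · rw [iota_ps_out r (by omega), zero_smul]
  · intro X hX
    have hXc : ∀ (b : ℂ) (F : IndV D a k A.V N.V), F ∈ X → b • F ∈ X := by
      intro b F hF
      have h1 : b • F = (algebraMap ℂ (R D (a + k)) b) • F := (algebraMap_smul _ _ _).symm
      rw [h1]
      exact X.smul_mem _ hF
    have h1 : ∀ y : N.V, (indIn A.V N.V (d ⊗ₜ y) : IndV D a k A.V N.V) ∈ X := by
      let Y : Submodule (R D k) N.V :=
        { carrier := {y | (indIn A.V N.V (d ⊗ₜ y) : IndV D a k A.V N.V) ∈ X}
          add_mem' := by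
            intro y z hy hz
            change (indIn A.V N.V (d ⊗ₜ (y + z)) : IndV D a k A.V N.V) ∈ X
            rw [TensorProduct.tmul_add, map_add]
            exact X.add_mem hy hz
          zero_mem' := by
            change (indIn A.V N.V (d ⊗ₜ (0 : N.V)) : IndV D a k A.V N.V) ∈ X
            rw [TensorProduct.tmul_zero, map_zero]
            exact X.zero_mem
          smul_mem' := by
            intro z y hy
            change (indIn A.V N.V (d ⊗ₜ (z • y)) : IndV D a k A.V N.V) ∈ X
            rw [← actR]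
            exact X.smul_mem _ hy }
      have h2 : Y = ⊤ := hgen Y hX
      intro y
      have h3 : y ∈ Y := by rw [h2]; exact Submodule.mem_top
      exact h3
    have h2 : ∀ t : A.V ⊗[ℂ] N.V, (indIn A.V N.V t : IndV D a k A.V N.V) ∈ X := by
      intro t
      induction t using TensorProduct.induction_on with
      | zero => rw [map_zero]; exact X.zero_mem
      | add s t hs ht => rw [map_add]; exact X.add_mem hs ht
      | tmul x y =>
        have h3 : (indIn A.V N.V (x ⊗ₜ y) : IndV D a k A.V N.V) =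
            l x • (indIn A.V N.V (d ⊗ₜ y) : IndV D a k A.V N.V) := by
          conv_lhs => rw [hl x]
          exact (indIn A.V N.V).map_smul (l x) (d ⊗ₜ[ℂ] y)
        have h4 := hXc (l x) _ (h1 y)
        rw [← h3] at h4
        exact h4
    refine eq_top_iff.mpr fun F _ => ?_
    have h3 := g2 F
    rw [h3]
    exact X.sum_mem fun p _ => X.smul_mem _ (h2 _)
  · intro M' x hx
    obtain ⟨⟨W, hW, hWx⟩, hyx, hsx⟩ := hx
    rw [List.flatten_cons, ← hu] at hW
    obtain ⟨v', hv', hv2⟩ := Uniq_append u W _ hW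
    have hvv : v' = v := List.ofFn_injective (by rw [hv2, hv])
    subst hvv
    rw [hv'] at hWx
    rw [List.map_cons, hlen] at hsx
    have hew := Uniq_step_ew M' x u v' hWx
    have hres : IsVec cs (Uniq_res M' : RMod D k) x := by
      refine ⟨⟨v', hv, ?_⟩, fun j => ?_, fun r hr => ?_⟩
      · change iotaR D a k (ew v') • x = x
        rw [Re, Finset.sum_smul, Finset.sum_eq_single u]
        · exact hWx
        · intro u' _ hu'
          rw [hew, if_neg]
          exact fun h => hu' h.1
        · intro h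
          exact absurd (Finset.mem_univ _) h
      · change iotaR D a k (yk j) • x = 0
        rw [Ry, hyx]
      · change iotaR D a k (ps r) • x = 0
        by_cases h3 : r + 1 < k
        · rw [Rs r h3]
          refine hsx (a + r) (Or.inr ⟨by omega, ?_⟩)
          rw [Nat.add_sub_cancel_left]
          exact hr
        · rw [iota_ps_out r h3, map_zero, zero_smul]
    obtain ⟨θ, hθ⟩ := huni (Uniq_res M' : RMod D k) x hres
    obtain ⟨T, hTs, hTq⟩ : ∃ T : N.V →ₗ[ℂ] M'.V,
        (∀ (z : R D k) (y : N.V), T (z • y) = iotaR D a k z • T y) ∧ T q = x :=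
      ⟨{ toFun := fun y => θ y
         map_add' := θ.map_add
         map_smul' := fun b y => R_lin_C N (Uniq_res M') θ b y },
        fun z y => θ.map_smul z y, hθ⟩
    have key := Uniq_scal u d he hy hs (iotaL D a k) M' x (fun w' => ?_) (fun j => ?_)
      (fun r hr => ?_)
    · have key2 : ∀ (z : R D a) (b : ℂ), z • d = b • d → ∀ y : N.V,
          iotaL D a k z • T y = b • T y := by
        intro z b hb
        let Y : Submodule (R D k) N.V :=
          { carrier := {y | iotaL D a k z • T y = b • T y}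
            add_mem' := by
              intro y z' hy hz
              change iotaL D a k z • T (y + z') = b • T (y + z')
              rw [map_add, smul_add, smul_add]
              exact congrArg₂ (· + ·) hy hz
            zero_mem' := by
              change iotaL D a k z • T 0 = b • T 0
              rw [map_zero, smul_zero, smul_zero]
            smul_mem' := by
              intro s y hy
              change iotaL D a k z • T (s • y) = b • T (s • y)
              rw [hTs, smul_smul, (iota_comm a k z s).eq, mul_smul, smul_comm b]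
              exact congrArg (fun t : M'.V => iotaR D a k s • t) hy }
        have hxY : q ∈ Y := by
          change iotaL D a k z • T q = b • T q
          obtain ⟨b', hb1, hb2⟩ := key z
          rw [hTq, hb2]
          have h2 : b' • d = b • d := by rw [← hb1, hb]
          have h3 : b' = b := by
            have h4 := congrArg l h2
            rwa [map_smul, map_smul, hl1, smul_eq_mul, smul_eq_mul, mul_one, mul_one] at h4
          rw [h3]
        have hY := hgen Y hxY
        intro y
        have h3 : y ∈ Y := by rw [hY]; exact Submodule.mem_top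
        exact h3
      obtain ⟨φ, hφ⟩ : ∃ φ : A.V ⊗[ℂ] N.V →ₗ[ℂ] M'.V, ∀ v y, φ (v ⊗ₜ y) = l v • T y :=
        ⟨TensorProduct.lift ((LinearMap.lsmul ℂ (N.V →ₗ[ℂ] M'.V)).flip T ∘ₗ l),
          fun v y => by rw [TensorProduct.lift.tmul]; rfl⟩
      obtain ⟨Φ, hΦ, _⟩ := ind_universal (D := D) (m := a) (k := k) A.V N.V M'.V φ (fun z t => by
        induction z using TensorProduct.induction_on with
        | zero => rw [map_zero, map_zero, zero_smul, LinearMap.zero_apply, map_zero]
        | add z z' hz hz' =>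
          rw [map_add, map_add, add_smul, LinearMap.add_apply, map_add, hz, hz']
        | tmul z z' =>
          induction t using TensorProduct.induction_on with
          | zero => rw [map_zero, map_zero, smul_zero]
          | add s t hs ht => rw [map_add, map_add, map_add, hs, ht, smul_add]
          | tmul p y =>
            obtain ⟨b, hb1, _⟩ := key z
            rw [tens_tmul, hφ, hφ, hTs, iota, Algebra.TensorProduct.lift_tmul]
            have h1 : l (z • p) = b * l p := by
              conv_lhs => rw [hl p, smul_comm, hb1, smul_smul, map_smul, hl1, smul_eq_mul, mul_one]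
              rw [mul_comm]
            rw [h1, smul_comm _ (l p), (iota_comm a k z z').eq,
              mul_smul (iotaR D a k z') (iotaL D a k z), key2 z b hb1 y,
              smul_comm _ b, smul_smul, mul_comm b])
      refine ⟨Φ, (hΦ _).trans ?_⟩
      rw [hφ, hl1, one_smul]
      exact hTq
    · rw [Le, Finset.sum_smul, Finset.sum_eq_single v']
      · rw [hew]
        by_cases h3 : w' = u
        · rw [if_pos ⟨h3, rfl⟩, if_pos h3]
        · rw [if_neg (fun h => h3 h.1), if_neg h3]
      · intro v'' _ h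
        rw [hew, if_neg]
        exact fun h2 => h h2.2
      · intro h
        exact absurd (Finset.mem_univ _) h
    · rw [Ly, hyx]
    · rw [Ls r hr]
      exact hsx r (Or.inl hr)

/-- `R D 0` acts by scalars. -/
theorem Uniq_scalar0 (x : R D 0) : ∃ c : ℂ, x = algebraMap ℂ (R D 0) c := by
  induction x using R_induction with
  | hc c => exact ⟨c, rfl⟩
  | he w =>
    have h := (isRep_R D 0).E_sum
    have h2 : ∑ w' : Wd D 0, (ew w' : R D 0) = ew w := by
      rw [Fintype.sum_eq_single w (fun w' hw' => absurd (Subsingleton.elim _ _) hw')]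
    refine ⟨1, ?_⟩
    rw [map_one, ← h2]
    exact h
  | hy k => exact k.elim0
  | hs r =>
    refine ⟨0, ?_⟩
    rw [map_zero]
    exact (isRep_R D 0).S_out r (by omega)
  | ha x y hx hy =>
    obtain ⟨c, rfl⟩ := hx
    obtain ⟨d, rfl⟩ := hy
    exact ⟨c + d, (map_add _ _ _).symm⟩
  | hm x y hx hy =>
    obtain ⟨c, rfl⟩ := hx
    obtain ⟨d, rfl⟩ := hy
    exact ⟨c * d, (map_mul _ _ _).symm⟩

/-- the empty product -/
theorem Uniq_nil (M : RMod D 0) (h : Module.finrank ℂ M.V = 1) :
    ∃ q0, UniqU ([] : List (List D.J)) M q0 := by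
  obtain ⟨d, h0, hsp⟩ := finrank_eq_one_iff'.mp h
  have hsp' : ∀ v : M.V, ∃ b : ℂ, v = b • d := fun v => by
    obtain ⟨b, hb⟩ := hsp v
    exact ⟨b, hb.symm⟩
  obtain ⟨l, hl, hl1⟩ := Uniq_lin d h0 hsp'
  refine ⟨d, h0, ⟨⟨Fin.elim0, ?_, ?_⟩, fun k => k.elim0, fun r hr => hr.elim⟩, fun X hX => ?_,
    fun M' x _ => ?_⟩
  · rfl
  · have h1 := (isRep_R D 0).E_sum
    have h2 : ∑ w' : Wd D 0, (ew w' : R D 0) = ew Fin.elim0 := by
      rw [Fintype.sum_eq_single Fin.elim0 (fun w' hw' => absurd (Subsingleton.elim _ _) hw')]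
    rw [← h2, h1, one_smul]
  · refine eq_top_iff.mpr fun v _ => ?_
    rw [hl v, ← algebraMap_smul (R D 0)]
    exact X.smul_mem _ hX
  · refine ⟨{ toFun := fun v => l v • x, map_add' := fun v v' => ?_, map_smul' := fun z v => ?_ }, ?_⟩
    · rw [map_add, add_smul]
    · obtain ⟨b, rfl⟩ := Uniq_scalar0 z
      rw [RingHom.id_apply, algebraMap_smul, algebraMap_smul, map_smul, smul_assoc]
    · change l d • x = x
      rw [hl1, one_smul]


/-- The product of the one-dimensional modules has a universal vector.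
PROOF. Induction on L. Empty list: n = 0, M one-dimensional, R D 0 = ℂ (`R_induction`). One factor
A ≅ HM H, H.W = {w}: q0 = δ_w; for x ∈ M' with the properties the map c δ_w ↦ c x is linear over R D n
(`R_induction`: the elements y with y δ_w = c δ_w and y x = c x for a common c ∈ ℂ form a subalgebra
containing ew, yk, ps r: `hd_facts`, every r with r + 1 < n is in the block; the letters at r, r + 1 are not
NAdj by H.sw and H.ne, as w ∘ sw ≠ w).
A :: B :: L: M ≅ Ind A N (subst n = A.1 + k). q0 = indIn (d ⊗ q0'), d the generator of A, q0' that of N.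
Relations: `indIn_facts`: iota z • indIn t = indIn (z t), ew (append u v) = iota (ew u ⊗ ew v), yk j =
iota (yk ⊗ 1) or iota (1 ⊗ yk), ps r = iota (ps r ⊗ 1) (r + 1 < A.1) or iota (1 ⊗ ps (r - A.1)).
Generates: indIn t for all t (t = z (d ⊗ q0')), then `indIn_facts`. Universality: for x ∈ M' let
N0 = {y ∈ M' : iotaL z y = (the scalar of z on d) y for all z ∈ R D A.1}: a ℂ-subspace stable under iotaR
(`iota_comm`), so an R D k-module (an RMod), which contains x (R_induction on z; iotaL (ew u) x = x since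
ew (append u v) x = x), and x is a vector of N0 for the remaining blocks; the induction hypothesis gives
θ : N → N0 with θ q0' = x; then φ (d ⊗ y) = θ y (A.V is one-dimensional: φ = lift of
(a d, y) ↦ a θ y) satisfies the hypothesis of `ind_universal`. -/
theorem exists_univ {L : List (Σ m, RMod D m)} {cs : List (List D.J)}
    (hL : List.Forall₂ (IsSg D) L cs) {n : ℕ} {M : RMod D n} (hM : IsProd D L n M) :
    ∃ q0 : M.V, q0 ≠ 0 ∧ IsVec cs M q0 ∧
      (∀ X : Submodule (R D n) M.V, q0 ∈ X → X = ⊤) ∧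
      ∀ (M' : RMod D n) (x : M'.V), IsVec cs M' x → ∃ f : M.V →ₗ[R D n] M'.V, f q0 = x := by
  change ∃ q0, UniqU cs M q0
  induction L generalizing cs n M with
  | nil =>
    cases hL
    obtain ⟨rfl, h⟩ := hM
    exact Uniq_nil M h
  | cons A L ih =>
    obtain ⟨a, A⟩ := A
    cases hL with
    | cons h1 h2 =>
      cases L with
      | nil =>
        cases h2
        obtain ⟨h, hM⟩ := hM
        change a = n at h
        subst h
        exact Uniq_iso hM.symm (Uniq_base h1)
      | cons B L =>
        obtain ⟨k, N, h, hN, hM⟩ := hM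
        change a + k = n at h
        subst h
        exact Uniq_iso hM.symm (Uniq_ind h1 (ih h2 hN))

/-- Uniqueness of the simple quotient.
PROOF. The kernels K, K' of f, f' are maximal submodules (f, f' are surjective since non-zero), and q0 is in
none of them. If K ≠ K' then K ⊔ K' = ⊤, q0 = a + b, a ∈ K, b ∈ K'; apply ew w: q0 = ew w a + ew w b, both
multiples of q0 by h1, so one of them is non-zero and q0 ∈ K or q0 ∈ K', contradiction. So K = K' and
both modules are M / K. -/
theorem simple_unique {n : ℕ} (M : RMod D n) (w : Wd D n) (q0 : M.V) (hq : (ew w : R D n) • q0 = q0)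
    (hgen : ∀ X : Submodule (R D n) M.V, q0 ∈ X → X = ⊤)
    (h1 : ∀ v : M.V, ∃ c : ℂ, (ew w : R D n) • v = c • q0)
    (X E : RMod D n) [IsSimpleModule (R D n) X.V] [IsSimpleModule (R D n) E.V]
    (f : M.V →ₗ[R D n] X.V) (hf : f ≠ 0) (g : M.V →ₗ[R D n] E.V) (hg : g ≠ 0) : RIso X E := by
  have hsm : ∀ (c : ℂ) (K : Submodule (R D n) M.V) (v : M.V), v ∈ K → c • v ∈ K := by
    intro c K v hv
    rw [← algebraMap_smul (R D n)]
    exact K.smul_mem _ hv
  have hne : ∀ (Y : RMod D n) (f : M.V →ₗ[R D n] Y.V), f ≠ 0 → f q0 ≠ 0 := by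
    intro Y f hf h
    apply hf
    have h2 := hgen (LinearMap.ker f) h
    exact LinearMap.ker_eq_top.mp h2
  have key : ∀ (X E : RMod D n) [IsSimpleModule (R D n) X.V] [IsSimpleModule (R D n) E.V]
      (f : M.V →ₗ[R D n] X.V) (_ : f ≠ 0) (g : M.V →ₗ[R D n] E.V) (_ : g ≠ 0),
      LinearMap.ker f ≤ LinearMap.ker g := by
    intro X E _ _ f hf g hg
    by_contra hk
    have h2 : (LinearMap.ker f).map g ≠ ⊥ := by
      intro h
      apply hk
      intro v hv
      have h3 : g v ∈ (LinearMap.ker f).map g := Submodule.mem_map_of_mem hv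
      rw [h] at h3
      exact h3
    have h3 : (LinearMap.ker f).map g = ⊤ := (eq_bot_or_eq_top _).resolve_left h2
    have h4 : g q0 ∈ (LinearMap.ker f).map g := by rw [h3]; exact Submodule.mem_top
    obtain ⟨a, ha, hga⟩ := h4
    obtain ⟨c, hc⟩ := h1 a
    have h5 : c • q0 ∈ LinearMap.ker f := by
      rw [← hc]
      exact Submodule.smul_mem _ _ ha
    have h6 : c = 0 := by
      by_contra hc0
      have h7 := hsm c⁻¹ _ _ h5
      rw [smul_smul, inv_mul_cancel₀ hc0, one_smul] at h7
      exact hne X f hf h7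
    rw [h6, zero_smul] at hc
    have h8 : g (q0 - a) = 0 := by rw [map_sub, hga, sub_self]
    have h9 : (ew w : R D n) • (q0 - a) = q0 := by rw [smul_sub, hc, sub_zero, hq]
    have h10 : g q0 = 0 := by
      rw [← h9, map_smul, h8, smul_zero]
    exact hne E g hg h10
  have hk : LinearMap.ker f = LinearMap.ker g := le_antisymm (key X E f hf g hg) (key E X g hg f hf)
  have hsurj : ∀ (Y : RMod D n) [IsSimpleModule (R D n) Y.V] (f : M.V →ₗ[R D n] Y.V), f ≠ 0 →
      Function.Surjective f := by
    intro Y _ f hf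
    rw [← LinearMap.range_eq_top]
    refine (eq_bot_or_eq_top _).resolve_left fun h => hf ?_
    exact LinearMap.range_eq_bot.mp h
  exact ⟨(LinearMap.quotKerEquivOfSurjective f (hsurj X f hf)).symm.trans
    ((Submodule.quotEquivOfEq _ _ hk).trans (LinearMap.quotKerEquivOfSurjective g (hsurj E g hg)))⟩

end CA1492
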