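import Mathlib
import Pool.Agent.Lib.MP_ca1492_al.Mod.Uniq
import Pool.Agent.Lib.MP_ca1492_al.QSh

/-!
Multiplicity one in shuffle products of words; commutativity for q = 1.
-/

namespace CA1492

open PC PC.QSh

variable {Λ : Type} [DecidableEq Λ]

/-- For q = 1 the quantum shuffle algebra is commutative. PROOF: as `PC.QSh.mul_comm_q_one`. -/
theorem mul_comm_one (f g : QSh Λ ℂ 1) : f * g = g * f := by
  have hT : ∀ (x : Λ × ℤ) (f : QSh Λ ℂ 1), T x f = f := by
    intro x f
    ext w
    simp
  have h : ∀ w, ∀ f g : QSh Λ ℂ 1, (f * g) w = (g * f) w := by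
    intro w
    induction w with
    | nil => intro f g; rw [mul_nil, mul_nil, mul_comm]
    | cons x u ih =>
      intro f g
      rw [mul_cons, mul_cons, hT, hT, ih (D x f) g, ih f (D x g), add_comm]
  exact QSh.ext fun w => h w f g

/-- Blocks: the first letter of a later block does not occur in an earlier block. -/
def Blk (cs : List (List (Λ × ℤ))) : Prop :=
  (∀ c ∈ cs, c ≠ []) ∧ cs.Pairwise (fun c c' => ∀ x ∈ c, c'.head? ≠ some x)

theorem BlkSh_D_ne {R : Type} [CommRing R] {q : Rˣ} (c : List (Λ × ℤ)) (x : Λ × ℤ)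
    (h : c.head? ≠ some x) : D x (wd c : QSh Λ R q) = 0 := by
  ext w
  rw [D_apply, wd_apply, if_neg, QSh.zero_apply]
  rintro rfl
  exact h rfl

theorem BlkSh_D_eq {R : Type} [CommRing R] {q : Rˣ} (c : List (Λ × ℤ)) (x : Λ × ℤ) :
    D x (wd (x :: c) : QSh Λ R q) = wd c := by
  ext w
  rw [D_apply, wd_apply, wd_apply]
  by_cases h : w = c
  · rw [if_pos h, if_pos (by rw [h])]
  · rw [if_neg h, if_neg (fun h' => h (List.cons.inj h').2)]

theorem BlkSh_D_prod {R : Type} [CommRing R] {q : Rˣ} (cs : List (List (Λ × ℤ))) (x : Λ × ℤ)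
    (h : ∀ c ∈ cs, c.head? ≠ some x) :
    D x ((cs.map (fun c => (wd c : QSh Λ R q))).prod) = 0 := by
  induction cs with
  | nil => exact D_one x
  | cons c cs ih =>
    rw [List.map_cons, List.prod_cons, D_mul, BlkSh_D_ne c x (h c List.mem_cons_self),
      ih (fun c' hc' => h c' (List.mem_cons_of_mem _ hc')), zero_mul, mul_zero, add_zero]

theorem BlkSh_app {R : Type} [CommRing R] {q : Rˣ} (g : QSh Λ R q) (c : List (Λ × ℤ))
    (h : ∀ x ∈ c, D x g = 0) (u : List (Λ × ℤ)) : ((wd c : QSh Λ R q) * g) (c ++ u) = g u := by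
  induction c with
  | nil =>
    have h1 : (wd [] : QSh Λ R q) = 1 := rfl
    rw [h1, one_mul, List.nil_append]
  | cons x c ih =>
    rw [List.cons_append, mul_cons, BlkSh_D_eq, h x List.mem_cons_self, mul_zero,
      ih (fun y hy => h y (List.mem_cons_of_mem _ hy)), QSh.zero_apply, add_zero]

theorem BlkSh_swap {R : Type} [CommRing R] {q : Rˣ} (g : QSh Λ R q) (u : List (Λ × ℤ))
    (x y : Λ × ℤ) (v w : List (Λ × ℤ)) (hxy : x ≠ y)
    (h : ∀ z ∈ u ++ x :: y :: v, D z g = 0) :
    ((wd (u ++ x :: y :: v) : QSh Λ R q) * g) (u ++ y :: x :: w) = 0 := by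
  induction u with
  | nil =>
    rw [List.nil_append, List.nil_append, mul_cons, BlkSh_D_ne _ y (by
      intro h'
      exact hxy (Option.some.inj h')), zero_mul, h y (by simp), mul_zero, QSh.zero_apply,
      add_zero]
  | cons z u ih =>
    rw [List.cons_append, List.cons_append, mul_cons, BlkSh_D_eq, h z (by simp), mul_zero,
      ih (fun t ht => h t (by
        rw [List.cons_append]
        exact List.mem_cons_of_mem _ ht)), QSh.zero_apply, add_zero]

/-- PROOF. Induction on cs. For c :: cs let g = (cs.map wd).prod. If x is in c then D x g = 0: no word of g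
begins with x (a word in the support of a product of words begins with one of the first letters:
induction, D x (f * g) = D x f * g + T x f * D x g). So (wd (x :: c') * g) (x :: u) = (wd c' * g) u and for
y ≠ x, y in c: (wd (x :: c') * g) (y :: u) = 0. Hence the value at c ++ u is g u (1 * g = g, wd [] = 1), and
the value is 0 if two different neighbouring letters of c are exchanged. -/
theorem wd_prod_blocks {R : Type} [CommRing R] {q : Rˣ} (cs : List (List (Λ × ℤ))) (h : Blk cs) :
    ((cs.map (fun c => (wd c : QSh Λ R q))).prod) cs.flatten = 1 ∧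
    ∀ (u v : List (Λ × ℤ)) (x y : Λ × ℤ), cs.flatten = u ++ x :: y :: v → x ≠ y →
      inBlk (cs.map List.length) u.length →
      ((cs.map (fun c => (wd c : QSh Λ R q))).prod) (u ++ y :: x :: v) = 0 := by
  induction cs with
  | nil =>
    refine ⟨rfl, ?_⟩
    intro u v x y huv
    exfalso
    have h1 := congrArg List.length huv
    rw [List.flatten_nil, List.length_append, List.length_cons] at h1
    simp at h1
  | cons c cs ih =>
    obtain ⟨h1, h2⟩ := h
    rw [List.pairwise_cons] at h2
    obtain ⟨ih1, ih2⟩ := ih ⟨fun c' hc' => h1 c' (List.mem_cons_of_mem _ hc'), h2.2⟩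
    have hD : ∀ x ∈ c, D x ((cs.map (fun c => (wd c : QSh Λ R q))).prod) = 0 := fun x hx =>
      BlkSh_D_prod cs x (fun c' hc' => h2.1 c' hc' x hx)
    refine ⟨?_, ?_⟩
    · rw [List.map_cons, List.prod_cons, List.flatten_cons, BlkSh_app _ c hD, ih1]
    · intro u v x y huv hxy hb
      rw [List.map_cons, List.prod_cons]
      rw [List.flatten_cons, List.append_eq_append_iff] at huv
      rw [List.map_cons] at hb
      rcases hb with hb | ⟨hb, hb'⟩
      · rcases huv with ⟨as, rfl, _⟩ | ⟨bs, rfl, hbs⟩
        · exfalso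
          rw [List.length_append] at hb
          omega
        · rcases bs with _ | ⟨b, _ | ⟨b', bs⟩⟩
          · exfalso
            simp at hb
          · exfalso
            simp at hb
          · rw [List.cons_append, List.cons_append] at hbs
            obtain ⟨e1, hbs⟩ := List.cons.inj hbs
            obtain ⟨e2, e3⟩ := List.cons.inj hbs
            rw [← e1, ← e2] at hD ⊢
            exact BlkSh_swap _ u x y bs v hxy hD
      · have h3 : ∃ as, u = c ++ as ∧ cs.flatten = as ++ x :: y :: v := by
          rcases huv with h3 | ⟨bs, rfl, hbs⟩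
          · exact h3
          · have hbs0 : bs = [] := by
              rw [List.length_append] at hb
              exact List.length_eq_zero_iff.1 (by omega)
            subst hbs0
            exact ⟨[], by simp, by simpa using hbs.symm⟩
        obtain ⟨as, rfl, h4⟩ := h3
        rw [List.append_assoc, BlkSh_app _ c hD]
        refine ih2 as v x y h4 hxy ?_
        rw [List.length_append, Nat.add_sub_cancel_left] at hb'
        exact hb'

end CA1492
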