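import Mathlib
import Pool.Agent.Lib.MP_ca1492_al.Mod.RectM

/-!
The set of the tableau words is connected under exchanging neighbouring non-adjacent letters.
-/

namespace CA1492

variable {Λ : Type} [DecidableEq Λ] {S : Finset (Λ × ℤ)} {n : ℕ}

/-- Exchanging neighbours x, y with |x - y| ≥ 2 (on the same line), as a relation on lists. -/
inductive LConn : List (Λ × ℤ) → List (Λ × ℤ) → Prop
  | refl (u : List (Λ × ℤ)) : LConn u u
  | step (w u v : List (Λ × ℤ)) (x y : Λ × ℤ) (h1 : x.1 = y.1) (h2 : y.2 + 2 ≤ x.2 ∨ x.2 + 2 ≤ y.2) :
    LConn w (u ++ x :: y :: v) → LConn w (u ++ y :: x :: v)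

/-- PROOF: induction. -/
theorem LConn.facts : (∀ u v w : List (Λ × ℤ), LConn u v → LConn v w → LConn u w) ∧
    (∀ u v : List (Λ × ℤ), LConn u v → LConn v u) ∧
    (∀ u v w : List (Λ × ℤ), LConn u v → LConn (w ++ u) (w ++ v)) := by
  have htr : ∀ u v w : List (Λ × ℤ), LConn u v → LConn v w → LConn u w := by
    intro u v w h1 h2
    induction h2 with
    | refl => exact h1
    | step a b x y h3 h4 _ ih => exact LConn.step _ a b x y h3 h4 ih
  refine ⟨htr, ?_, ?_⟩
  · intro u v h
    induction h with
    | refl => exact LConn.refl _
    | step a b x y h3 h4 _ ih =>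
      exact htr _ _ _ (LConn.step _ a b y x h3.symm h4.symm (LConn.refl _)) ih
  · intro u v w h
    induction h with
    | refl => exact LConn.refl _
    | step a b x y h3 h4 _ ih =>
      rw [← List.append_assoc] at ih ⊢
      exact LConn.step _ (w ++ a) b x y h3 h4 ih

theorem Conn_anti {m : ℕ} {c : Fin m → ℤ} {i j : Fin m} (hij : j ≠ i)
    (h1 : StrictAnti (Function.update c i (c i + 1)))
    (h2 : StrictAnti (Function.update c j (c j + 1))) :
    StrictAnti (Function.update (Function.update c j (c j + 1)) i (c i + 1)) := by
  intro a b hab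
  have k1 := h1 hab
  have k2 := h2 hab
  simp only [Function.update_apply] at k1 k2 ⊢
  have hne : a ≠ b := hab.ne
  by_cases ha : a = i
  · subst ha
    rw [if_neg hne.symm, if_pos rfl] at k1
    rw [if_neg hne.symm, if_pos rfl]
    rw [if_neg hij.symm] at k2
    by_cases hb : b = j
    · subst hb
      rw [if_pos rfl] at k2 ⊢
      omega
    · rw [if_neg hb] at k2 ⊢
      omega
  · rw [if_neg ha] at k1 ⊢
    by_cases hb : b = i
    · subst hb
      rw [if_pos rfl] at k1 ⊢
      by_cases ha' : a = j
      · subst ha'
        rw [if_pos rfl]
        omega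
      · rw [if_neg ha']
        omega
    · rw [if_neg hb] at k1 ⊢
      exact k2

/-- A row which can move can move first. -/
theorem Conn_front (l : Λ) {m : ℕ} (e : Fin m → ℤ) (i : Fin m) (v : List (Λ × ℤ)) :
    ∀ c : Fin m → ℤ, StrictAnti c → StrictAnti (Function.update c i (c i + 1)) →
      PC.QSh.IsTab l e v c → c i ≤ e i →
      ∃ v', LConn v ((l, c i) :: v') ∧
        PC.QSh.IsTab l e v' (Function.update c i (c i + 1)) := by
  induction v with
  | nil =>
    intro c _ _ h he
    have := h i
    omega
  | cons y v0 ih =>
    rintro c hc h1 ⟨j, hy, h2, h3⟩ he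
    by_cases hij : j = i
    · subst hij
      exact ⟨v0, by rw [hy]; exact LConn.refl _, h3⟩
    · have e1 : Function.update c j (c j + 1) i = c i := Function.update_of_ne (Ne.symm hij) ..
      have h4 := Conn_anti hij h1 h2
      obtain ⟨v0', h5, h6⟩ := ih (Function.update c j (c j + 1)) h2 (by rw [e1]; exact h4) h3
        (by rw [e1]; exact he)
      rw [e1] at h5 h6
      have e2 : Function.update c i (c i + 1) j = c j := Function.update_of_ne hij ..
      have e3 : Function.update (Function.update c i (c i + 1)) j (c j + 1) =
          Function.update (Function.update c j (c j + 1)) i (c i + 1) :=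
        Function.update_comm (Ne.symm hij) _ _ _
      refine ⟨y :: v0', ?_, j, ?_, ?_, ?_⟩
      · have h7 : LConn (y :: v0) (y :: (l, c i) :: v0') := LConn.facts.2.2 _ _ [y] h5
        refine LConn.facts.1 _ _ _ h7 ?_
        have h8 : LConn (y :: (l, c i) :: v0') ([] ++ (l, c i) :: y :: v0') := by
          refine LConn.step _ [] v0' y (l, c i) (by rw [hy]) ?_ (LConn.refl _)
          rw [hy]
          rcases lt_or_gt_of_ne hij with hlt | hgt
          · left
            have := h1 hlt
            rw [Function.update_self, e2] at this
            change c i + 2 ≤ c j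
            omega
          · right
            have := h2 hgt
            rw [Function.update_self, e1] at this
            change c j + 2 ≤ c i
            omega
        exact h8
      · rw [e2]
        exact hy
      · rw [e2, e3]
        exact h4
      · rw [e2, e3]
        exact h6

/-- Two tableau words for the same data are connected.
PROOF. Induction on the length of u, all states generalized. u = []: then v = [] (`PC.QSh.IsTab.perm`).
Let u = x :: u' come from row i: x = (l, c i), so c i + 1 < c j for all j < i, and c i ≤ e i
(`PC.QSh.IsTab.perm` for u'). In v the row i has to move (it ends at e i + 1); write v = v1 ++ x :: v2 where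
the letters of v1 come from rows j ≠ i and x is the first move of row i. A letter (l, p) of v1 from row
j < i has p ≥ c j ≥ c i + 2; from row j > i it has p + 1 < c i (strictly decreasing after the move, row i is
still at c i). So all letters of v1 differ from x by at least 2 and x can be moved to the front
(`LConn.step`); x :: v1 ++ v2 is again a tableau word (`PC.QSh.IsTab.swap`), so v1 ++ v2 is a tableau word for
the same state as u' (c is injective), and the induction hypothesis applies. -/
theorem tab_conn (l : Λ) {m : ℕ} (e c : Fin m → ℤ) (hc : StrictAnti c) (u v : List (Λ × ℤ))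
    (hu : PC.QSh.IsTab l e u c) (hv : PC.QSh.IsTab l e v c) : LConn u v := by
  induction u generalizing c v with
  | nil =>
    cases v with
    | nil => exact LConn.refl _
    | cons y v0 =>
      exfalso
      obtain ⟨j, hy, h2, h3⟩ := hv
      have h4 := (PC.QSh.IsTab.perm l e _ v0 h3).1 j
      rw [Function.update_self] at h4
      have := hu j
      omega
  | cons x u ih =>
    obtain ⟨i, hx, h2, h3⟩ := hu
    have h4 := (PC.QSh.IsTab.perm l e _ u h3).1 i
    rw [Function.update_self] at h4
    obtain ⟨v', h5, h6⟩ := Conn_front l e i v c hc h2 hv (by omega)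
    have h7 := ih _ h2 v' h3 h6
    have h8 : LConn (x :: u) (x :: v') := LConn.facts.2.2 _ _ [x] h7
    rw [← hx] at h5
    exact LConn.facts.1 _ _ _ h8 (LConn.facts.2.1 _ _ h5)

theorem Conn_words (L L' : List (Λ × ℤ)) (h : LConn L L') : ∀ w w' : Wd (datS S) n,
    wl w = L → wl w' = L' → HConn (datS S) n w w' := by
  induction h with
  | refl =>
    intro w w' h1 h2
    rw [wl_injective (h1.trans h2.symm)]
    exact HConn.refl _
  | step u v x y h3 h4 _ ih =>
    intro w w' h1 h2
    have hlen : (wl w').length = n := wl_length w'
    rw [h2] at hlen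
    simp only [List.length_append, List.length_cons] at hlen
    have hr : u.length + 1 < n := by omega
    obtain ⟨u1, v1, h5, h6, h7⟩ := wl_split w' u.length hr
    rw [h2] at h6
    obtain ⟨h8, h9⟩ := List.append_inj h6 h5.symm
    injection h9 with h10 h11
    injection h11 with h12 h13
    subst h8 h13
    have h14 := ih w (w' ∘ sw n u.length) h1 (by rw [h7, ← h10, ← h12])
    have h15 := HConn.step w (w' ∘ sw n u.length) u.length hr (by
      simp only [Function.comp_apply, alpha_sw_left hr, alpha_sw_right hr]
      refine ⟨?_, ?_, ?_⟩
      · intro he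
        have : x = y := by rw [h10, h12, he]
        rw [this] at h4
        omega
      · by_contra hcon
        have h16 := (datS_arr _ _).1 (Bool.eq_true_of_not_eq_false hcon)
        rw [← h10, ← h12] at h16
        omega
      · by_contra hcon
        have h16 := (datS_arr _ _).1 (Bool.eq_true_of_not_eq_false hcon)
        rw [← h10, ← h12] at h16
        omega) h14
    rwa [iota_comp_sw_sw] at h15

/-- PROOF: `tab_conn`; a step of LConn is a step of HConn (`wl_split`, `datS_arr`); all the lists have
length n and letters in S. -/
theorem rectH_conn (r : PC.Rect Λ) (w w' : Wd (datS S) n) (hw : w ∈ (rectH S r n).W)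
    (hw' : w' ∈ (rectH S r n).W) : HConn (datS S) n w w' := by
  rw [mem_rectH] at hw hw'
  exact Conn_words _ _ (tab_conn r.l r.re r.rs (PC.Rect.rs_anti r) _ _ hw hw') w w' rfl rfl

/-- The module of a rectangle is simple. -/
theorem DR_simple (r : PC.Rect Λ) (w : Wd (datS S) n) (hw : w ∈ (rectH S r n).W) :
    IsSimpleModule (R (datS S) n) (DR S r n).V :=
  HM_simple (rectH S r n) ⟨w, hw⟩ (fun w' hw' => rectH_conn r w w' hw hw')

end CA1492
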