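import Mathlib
import Pool.Agent.Lib.MP_ca1492_al.Mod.BlkSh
import Pool.Agent.Lib.MP_ca1492_al.Mod.Conn
import Pool.Agent.Lib.MP_ca1492_al.Mod.LSet
import Pool.Agent.Lib.MP_ca1492_al.Mod.Lift

/-!
Simple submodules of products of one-dimensional modules: segments and rectangles.
-/

namespace CA1492

open TensorProduct

variable {Λ : Type} [DecidableEq Λ] {S : Finset (Λ × ℤ)} {n : ℕ}

theorem SubIso_rank {n : ℕ} {D : Dat} (V : Type) [AddCommGroup V] [Module ℂ V] [Module (R D n) V]
    [IsScalarTower ℂ (R D n) V] [FiniteDimensional ℂ V] (w : Wd D n) :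
    (LinearMap.trace ℂ V (act V (ew w : R D n)) = 0 → ∀ v : V, (ew w : R D n) • v = 0) ∧
    (LinearMap.trace ℂ V (act V (ew w : R D n)) = 1 → ∃ q : V, q ≠ 0 ∧ (ew w : R D n) • q = q ∧
      ∀ v : V, ∃ c : ℂ, (ew w : R D n) • v = c • q) := by
  have he : IsIdempotentElem (act V (ew w : R D n)) := by
    unfold IsIdempotentElem
    rw [← map_mul, (isRep_R D n).E_mul, if_pos rfl]
  have ht := (LinearMap.IsIdempotentElem.isProj_range _ he).trace
  constructor
  · intro h0 v
    have h1 := (LinearMap.IsIdempotentElem.trace_eq_zero_iff he).1 h0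
    have h2 := congrArg (fun f : Module.End ℂ V => f v) h1
    exact h2
  · intro h1
    rw [h1] at ht
    have h2 : Module.finrank ℂ (LinearMap.range (act V (ew w : R D n))) = 1 := by
      exact_mod_cast ht.symm
    obtain ⟨⟨q, hq⟩, hq0, hq1⟩ := finrank_eq_one_iff'.1 h2
    refine ⟨q, fun h => hq0 (Subtype.ext h), ?_, fun v => ?_⟩
    · obtain ⟨u, rfl⟩ := hq
      rw [act_apply, ← mul_smul, (isRep_R D n).E_mul, if_pos rfl]
    · obtain ⟨c, hc⟩ := hq1 ⟨act V (ew w : R D n) v, LinearMap.mem_range_self _ v⟩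
      exact ⟨c, (congrArg Subtype.val hc).symm⟩

/-- Dimensions from the characters at q = 1.
PROOF. GLift for lam = 1: g = id, so f (wl w) = ch = trace of the projection act (ew w) = its rank
(`LinearMap.IsProj.trace` or `LinearMap.IsIdempotentElem.trace_eq_finrank`..); transport by RIso. -/
theorem dim_word {M : RMod (datS S) n} {f : PC.QSh Λ ℂ 1} {f' : PC.QSh Λ ℂ 1⁻¹}
    (h : GLift 1 M f f') (w : Wd (datS S) n) :
    (f (wl w) = 0 → ∀ v : M.V, (ew w : R (datS S) n) • v = 0) ∧
    (f (wl w) = 1 → ∃ q : M.V, q ≠ 0 ∧ (ew w : R (datS S) n) • q = q ∧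
      ∀ v : M.V, ∃ c : ℂ, (ew w : R (datS S) n) • v = c • q) := by
  obtain ⟨M0, ⟨e⟩, h1, -, h3⟩ := h
  have hg := h3 rfl
  have htr : f (wl w) = LinearMap.trace ℂ M0.V (act M0.V (ew w)) := by
    rw [← h1, chQ_wl]
    unfold ch
    congr 1
    ext v
    exact hg _
  have hr := SubIso_rank M0.V w
  rw [← htr] at hr
  constructor
  · intro h0 v
    have h4 : e ((ew w : R (datS S) n) • v) = 0 := by
      rw [map_smul]
      exact hr.1 h0 (e v)
    exact (LinearEquiv.map_eq_zero_iff e).1 h4
  · intro h0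
    obtain ⟨q, hq0, hq1, hq2⟩ := hr.2 h0
    have hC : ∀ (c : ℂ) (v : M0.V), e.symm (c • v) = c • e.symm v :=
      R_lin_C M0.rm M e.symm.toLinearMap
    refine ⟨e.symm q, fun h => hq0 ((LinearEquiv.map_eq_zero_iff e.symm).1 h), ?_, fun v => ?_⟩
    · have h5 := e.symm.map_smul (ew w : R (datS S) n) q
      rw [← h5]
      exact congrArg _ hq1
    · obtain ⟨c, hc⟩ := hq2 (e v)
      refine ⟨c, ?_⟩
      rw [← hC, ← hc]
      have h5 := e.symm.map_smul (ew w : R (datS S) n) (e v)
      rw [e.symm_apply_apply] at h5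
      exact h5.symm

theorem SubIso_glift {L : List (Σ m, RMod (datS S) m)} {cs : List (List (datS S).J)}
    (hL : List.Forall₂ (IsSg (datS S)) L cs) {M : RMod (datS S) n} (hM : IsProd (datS S) L n M)
    (lam : ℂˣ) :
    GLift lam M ((cs.map (List.map ltr)).map (fun c => (PC.QSh.wd c : PC.QSh Λ ℂ lam))).prod
      ((cs.map (List.map ltr)).map (fun c => (PC.QSh.wd c : PC.QSh Λ ℂ lam⁻¹))).prod := by
  have h := GLift.prod (lam := lam) (fs := cs.map (fun c =>
    ((PC.QSh.wd (c.map ltr) : PC.QSh Λ ℂ lam), (PC.QSh.wd (c.map ltr) : PC.QSh Λ ℂ lam⁻¹))))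
    (L := L) (by
      rw [List.forall₂_map_right_iff]
      exact hL.imp (fun A c h => GLift.sg h)) hM
  rw [List.map_map, List.map_map] at h
  rw [List.map_map, List.map_map]
  exact h

/-- The yk are nilpotent on products. PROOF: `GLift.prod`, `GLift.sg` for lam = 2: `yk_nilpotent`, transport. -/
theorem yk_nil_prod {L : List (Σ m, RMod (datS S) m)} {cs : List (List (datS S).J)}
    (hL : List.Forall₂ (IsSg (datS S)) L cs) {M : RMod (datS S) n} (hM : IsProd (datS S) L n M)
    (k : Fin n) : ∃ N : ℕ, ∀ v : M.V, (yk k : R (datS S) n) ^ N • v = 0 := by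
  obtain ⟨M0, ⟨e⟩, -⟩ := SubIso_glift hL hM (Units.mk0 (2 : ℂ) two_ne_zero)
  have hpos : PosNe (Units.mk0 (2 : ℂ) two_ne_zero) := ⟨2, by norm_num, by norm_num, by simp⟩
  obtain ⟨N, hN⟩ := yk_nilpotent hpos M0 k
  refine ⟨N, fun v => ?_⟩
  have h1 : e ((yk k : R (datS S) n) ^ N • v) = 0 := by
    rw [map_smul]
    rw [← map_pow] at hN
    exact congrArg (fun f : Module.End ℂ M0.V => f (e v)) hN
  exact (LinearEquiv.map_eq_zero_iff e).1 h1

theorem SubIso_inBlk {α : Type} (cs : List (List α)) (r : ℕ) (h : inBlk (cs.map List.length) r) :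
    ∃ d ∈ cs, ∃ (s : ℕ) (hs : s + 1 < d.length) (hr : r + 1 < cs.flatten.length),
      cs.flatten[r] = d[s] ∧ cs.flatten[r + 1] = d[s + 1] := by
  induction cs generalizing r with
  | nil => exact h.elim
  | cons a cs ih =>
    rcases h with h | ⟨h1, h2⟩
    · have h3 : r + 1 < a.length := h
      refine ⟨a, List.mem_cons_self, r, h3, ?_, ?_, ?_⟩
      · rw [List.flatten_cons, List.length_append]; omega
      · simp only [List.flatten_cons]
        rw [List.getElem_append_left]
      · simp only [List.flatten_cons]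
        rw [List.getElem_append_left]
    · obtain ⟨c, hc, s, hs, hr, e1, e2⟩ := ih (r - a.length) h2
      have h1' : a.length ≤ r := h1
      refine ⟨c, List.mem_cons_of_mem _ hc, s, hs, ?_, ?_, ?_⟩
      · rw [List.flatten_cons, List.length_append]; omega
      · simp only [List.flatten_cons]
        rw [List.getElem_append_right h1']
        exact e1
      · simp only [List.flatten_cons]
        rw [List.getElem_append_right (by omega)]
        have h4 : r + 1 - a.length = r - a.length + 1 := by omega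
        simp only [h4]
        exact e2

/-- Consequences of the character at q = 1. -/
theorem SubIso_mult {L : List (Σ m, RMod (datS S) m)} {cs ds : List (List (datS S).J)}
    (hL : List.Forall₂ (IsSg (datS S)) L cs) (hp : cs.Perm ds) (hB : Blk (ds.map (List.map ltr)))
    {M : RMod (datS S) n} (hM : IsProd (datS S) L n M) (w : Wd (datS S) n)
    (hw : List.ofFn w = ds.flatten)
    (hne : ∀ (r : ℕ) (h : r + 1 < n), w ⟨r, by omega⟩ ≠ w ⟨r + 1, h⟩) :
    (∃ q : M.V, q ≠ 0 ∧ (ew w : R (datS S) n) • q = q ∧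
      ∀ v : M.V, ∃ c : ℂ, (ew w : R (datS S) n) • v = c • q) ∧
    (∀ r, inBlk (ds.map List.length) r → ∀ v : M.V,
      (ew (w ∘ sw n r) : R (datS S) n) • v = 0) := by
  have hg := SubIso_glift hL hM 1
  have hpr : ((cs.map (List.map ltr)).map (fun c => (PC.QSh.wd c : PC.QSh Λ ℂ 1))).prod =
      ((ds.map (List.map ltr)).map (fun c => (PC.QSh.wd c : PC.QSh Λ ℂ 1))).prod :=
    List.Perm.prod_eq' ((hp.map _).map _)
      (List.Pairwise.imp (fun {a b} _ => mul_comm_one a b) (List.pairwise_of_forall (fun _ _ => trivial)))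
  have hb := wd_prod_blocks (R := ℂ) (q := 1) (ds.map (List.map ltr)) hB
  have hfl : (ds.map (List.map ltr)).flatten = wl w := by
    unfold wl
    rw [← List.map_flatten, ← hw, List.map_ofFn]
    rfl
  constructor
  · exact (dim_word hg w).2 (by rw [hpr, ← hfl]; exact hb.1)
  · intro r hr
    obtain ⟨c, hc, s, hs, hrn, -, -⟩ := SubIso_inBlk ds r hr
    have hrn' : r + 1 < n := by
      rw [← hw, List.length_ofFn] at hrn
      exact hrn
    obtain ⟨u, v, hu, h1, h2⟩ := wl_split w r hrn'
    have hr' : inBlk ((ds.map (List.map ltr)).map List.length) u.length := by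
      have h3 : (ds.map (List.map ltr)).map List.length = ds.map List.length := by
        rw [List.map_map]
        exact List.map_congr_left fun c _ => List.length_map _
      rw [h3, hu]
      exact hr
    have h3 := hb.2 u v _ _ (hfl.trans h1) (fun h => hne r hrn' (ltr_injective h)) hr'
    exact (dim_word hg (w ∘ sw n r)).1 (by rw [hpr, h2]; exact h3)

theorem SubIso_vec {L : List (Σ m, RMod (datS S) m)} {cs ds : List (List (datS S).J)}
    (hL : List.Forall₂ (IsSg (datS S)) L cs) (hp : cs.Perm ds) (hB : Blk (ds.map (List.map ltr)))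
    {M : RMod (datS S) n} (hM : IsProd (datS S) L n M) (w : Wd (datS S) n)
    (hw : List.ofFn w = ds.flatten)
    (hne : ∀ (r : ℕ) (h : r + 1 < n), w ⟨r, by omega⟩ ≠ w ⟨r + 1, h⟩)
    (x : M.V) (hx : (ew w : R (datS S) n) • x = x) : IsVec ds M x := by
  obtain ⟨⟨q, hq0, hq1, hq2⟩, h2⟩ := SubIso_mult hL hp hB hM w hw hne
  refine ⟨⟨w, hw, hx⟩, fun k => ?_, fun r hr => ?_⟩
  · obtain ⟨c, hc⟩ := hq2 ((yk k : R (datS S) n) • q)
    have hYE : (yk k : R (datS S) n) * ew w = ew w * yk k := (isRep_R (datS S) n).Y_E k w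
    have hc' : (yk k : R (datS S) n) • q = c • q := by
      rw [← hc, ← mul_smul, ← hYE, mul_smul, hq1]
    have hpow : ∀ N : ℕ, (yk k : R (datS S) n) ^ N • q = c ^ N • q := by
      intro N
      induction N with
      | zero => rw [pow_zero, pow_zero, one_smul, one_smul]
      | succ N ih => rw [pow_succ, mul_smul, hc', smul_comm, ih, smul_smul, pow_succ']
    obtain ⟨N, hN⟩ := yk_nil_prod hL hM k
    have hc0 : c = 0 := by
      have h3 := hN q
      rw [hpow] at h3
      exact eq_zero_of_pow_eq_zero ((smul_eq_zero.1 h3).resolve_right hq0)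
    obtain ⟨b, hb⟩ := hq2 x
    rw [hx] at hb
    rw [hb, smul_comm, hc', hc0, zero_smul, smul_zero]
  · have h3 := h2 r hr ((ps r : R (datS S) n) • x)
    have hSE : (ps r : R (datS S) n) * ew w = ew (w ∘ sw n r) * ps r :=
      (isRep_R (datS S) n).S_E r w
    rw [← mul_smul, ← hSE, mul_smul, hx] at h3
    exact h3

theorem SubIso_mem {α β : Type*} {P : α → β → Prop} {l : List α} {l' : List β}
    (h : List.Forall₂ P l l') : ∀ b ∈ l', ∃ a, P a b := by
  induction h with
  | nil => intro b hb; exact absurd hb List.not_mem_nil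
  | cons h1 _ ih =>
    intro b hb
    rcases List.mem_cons.1 hb with rfl | hb
    · exact ⟨_, h1⟩
    · exact ih b hb

theorem SubIso_nadj {D : Dat} {A : Σ m, RMod D m} {d : List D.J} (h : IsSg D A d) (s : ℕ)
    (hs : s + 1 < d.length) : ¬ NAdj D (d[s]) (d[s + 1]) := by
  obtain ⟨w, H, rfl, hW, -⟩ := h
  have hs' : s + 1 < A.1 := by
    rw [List.length_ofFn] at hs
    exact hs
  rw [List.getElem_ofFn, List.getElem_ofFn]
  intro hn
  have hw : w ∈ H.W := by rw [hW]; exact Set.mem_singleton _
  have h1 := H.sw w hw s hs' hn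
  rw [hW, Set.mem_singleton_iff] at h1
  have h2 := congrFun h1 ⟨s, by omega⟩
  rw [Function.comp_apply, alpha_sw_left hs'] at h2
  exact hn.1 h2.symm

theorem SubIso_hvec {D : Dat} {L : List (Σ m, RMod D m)} {cs ds : List (List D.J)}
    (hL : List.Forall₂ (IsSg D) L cs) (hds : ∀ c ∈ ds, c ∈ cs) (H : HSet D n) (w0 : H.W)
    (hw : List.ofFn w0.1 = ds.flatten) : IsVec ds (HM H) (hd H w0) := by
  obtain ⟨h1, -, h3, -, h5⟩ := hd_facts H w0
  refine ⟨⟨w0.1, hw, ?_⟩, fun k => h3 k _, fun r hr => ?_⟩
  · have h6 := h1 (hd H w0)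
    have h7 : hd H w0 w0 = 1 := by
      unfold hd
      simp
    rw [h7, one_smul] at h6
    exact h6
  · obtain ⟨c, hc, s, hs, hrn, e1, e2⟩ := SubIso_inBlk ds r hr
    have hrn' : r + 1 < n := by
      rw [← hw, List.length_ofFn] at hrn
      exact hrn
    refine h5 r hrn' ?_
    obtain ⟨A, hA⟩ := SubIso_mem hL c (hds c hc)
    have h6 := SubIso_nadj hA s hs
    rw [← e1, ← e2] at h6
    have e3 : w0.1 ⟨r, by omega⟩ = ds.flatten[r] := by
      have := List.getElem_of_eq hw (i := r) (by rw [List.length_ofFn]; omega)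
      rw [List.getElem_ofFn] at this
      exact this
    have e4 : w0.1 ⟨r + 1, hrn'⟩ = ds.flatten[r + 1] := by
      have := List.getElem_of_eq hw (i := r + 1) (by rw [List.length_ofFn]; omega)
      rw [List.getElem_ofFn] at this
      exact this
    rw [e3, e4]
    exact h6

/-- Simple submodules of products of one-dimensional modules.
PROOF. Let X' = range f. `sub_word` gives w (= w0, since List.ofFn is injective) and x0 ∈ X', x0 ≠ 0,
ew w0 x0 = x0; let x ∈ X be its preimage. By `GLift.prod`, `GLift.sg` for lam = 1 and `mul_comm_one` the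
character of M at q = 1 is the product of the words in the order cs.reverse; by `wd_prod_blocks` and
`dim_word`: ew w0 M is spanned by x0 and ew (w0 ∘ sw r) M = 0 if r, r + 1 are in the same block
(`wl_split`; the letters at r, r + 1 are different and not NAdj since the modules of L are one-dimensional:
the fields ne and sw of IsSg). yk x0 is a multiple of x0, so 0 (`yk_nil_prod`). ps r x0 has the word
w0 ∘ sw r, so it is 0. Hence IsVec cs.reverse X x. For H: IsVec cs.reverse (HM H) (hd w0) (`hd_facts`). Let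
Q be the product of L.reverse (`exists_prod`); `exists_univ` gives q0, f, g, and the multiplicity of w0 in
Q is one by the same computation (`GLift.prod` for L.reverse), so ew w0 v is a multiple of q0. HM H is simple
(`HM_simple`). Apply `simple_unique`. -/
theorem sub_iso {L : List (Σ m, RMod (datS S) m)} {cs : List (List (datS S).J)}
    (hL : List.Forall₂ (IsSg (datS S)) L cs) (hB : Blk (cs.map (List.map ltr)).reverse)
    {M : RMod (datS S) n} (hM : IsProd (datS S) L n M) (H : HSet (datS S) n) (w0 : H.W)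
    (hw0 : List.ofFn w0.1 = cs.reverse.flatten) (hc : ∀ w ∈ H.W, HConn (datS S) n w0.1 w)
    (X : RMod (datS S) n) [IsSimpleModule (R (datS S) n) X.V]
    (f : X.V →ₗ[R (datS S) n] M.V) (hf : Function.Injective f) : RIso X (HM H) := by
  have hne : ∀ (r : ℕ) (h : r + 1 < n), w0.1 ⟨r, by omega⟩ ≠ w0.1 ⟨r + 1, h⟩ :=
    fun r h => H.ne w0.1 w0.2 r h
  have hB' : Blk (cs.reverse.map (List.map ltr)) := by
    rw [List.map_reverse]
    exact hB
  have hX : LinearMap.range f ≠ ⊥ := by
    intro h0
    have hnt : Nontrivial X.V := IsSimpleModule.nontrivial (R (datS S) n) X.V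
    obtain ⟨x, hx⟩ := exists_ne (0 : X.V)
    apply hx
    apply hf
    rw [map_zero]
    have h1 : f x ∈ LinearMap.range f := LinearMap.mem_range_self f x
    rw [h0] at h1
    exact (Submodule.mem_bot _).1 h1
  obtain ⟨w, hw, _, ⟨x, rfl⟩, hx0, hx1⟩ := sub_word hL hM (LinearMap.range f) hX
  have hww : w = w0.1 := List.ofFn_injective (hw.trans hw0.symm)
  rw [hww] at hx1
  have hvM : IsVec cs.reverse M (f x) :=
    SubIso_vec hL (List.reverse_perm cs).symm hB' hM w0.1 hw0 hne (f x) hx1
  have hvX : IsVec cs.reverse X x := by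
    obtain ⟨⟨w, e1, e2⟩, e3, e4⟩ := hvM
    refine ⟨⟨w, e1, hf ?_⟩, fun k => hf ?_, fun r hr => hf ?_⟩
    · rw [map_smul, e2]
    · rw [map_smul, e3, map_zero]
    · rw [map_smul, e4 r hr, map_zero]
  have hvH : IsVec cs.reverse (HM H) (hd H w0) :=
    SubIso_hvec hL (fun c hc => List.mem_reverse.1 hc) H w0 hw0
  have hLr : List.Forall₂ (IsSg (datS S)) L.reverse cs.reverse := List.forall₂_reverse_iff.2 hL
  obtain ⟨Q, hQ⟩ := exists_prod (n := n) L.reverse (by
    rw [List.map_reverse, List.sum_reverse]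
    exact hM.length)
  obtain ⟨q0, hq0, hq1, hq2, hq3⟩ := exists_univ hLr hQ
  obtain ⟨fX, hfX⟩ := hq3 X x hvX
  obtain ⟨fH, hfH⟩ := hq3 (HM H) (hd H w0) hvH
  haveI : IsSimpleModule (R (datS S) n) (HM H).V := HM_simple H w0 hc
  obtain ⟨⟨q, hqa, hqb, hqc⟩, -⟩ := SubIso_mult hLr (List.Perm.refl _) hB' hQ w0.1 hw0 hne
  have hq1' : (ew w0.1 : R (datS S) n) • q0 = q0 := by
    obtain ⟨⟨w', e1, e2⟩, -⟩ := hq1
    have h1 : w' = w0.1 := List.ofFn_injective (e1.trans hw0.symm)
    rw [h1] at e2
    exact e2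
  refine simple_unique Q w0.1 q0 hq1' hq2 (fun v => ?_) X (HM H) fX (fun h => ?_) fH (fun h => ?_)
  · obtain ⟨c, hc⟩ := hqc v
    obtain ⟨c0, hc0⟩ := hqc q0
    rw [hq1'] at hc0
    have h1 : c0 ≠ 0 := fun h => hq0 (by rw [hc0, h, zero_smul])
    exact ⟨c * c0⁻¹, by rw [hc, hc0, smul_smul, mul_assoc, inv_mul_cancel₀ h1, mul_one]⟩
  · rw [h] at hfX
    apply hx0
    rw [← hfX]
    exact map_zero f
  · rw [h] at hfH
    have h1 : hd H w0 w0 = 1 := by
      unfold hd
      simp
    have h2 : (0 : HV H) = hd H w0 := hfH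
    rw [← h2] at h1
    exact zero_ne_one h1

/-- The word of a column. -/
def SubIso_col (l : Λ) (h : ℕ) (s : ℤ) : List (Λ × ℤ) :=
  List.ofFn (fun i : Fin h => (l, s - (i.val : ℤ)))

open Classical in
/-- The list of letters in S. -/
noncomputable def SubIso_lft (S : Finset (Λ × ℤ)) (u : List (Λ × ℤ)) : List (datS S).J :=
  if h : ∀ x ∈ u, x ∈ S then u.pmap (fun x hx => (show (datS S).J from (⟨x, hx⟩ : S))) h else []

theorem SubIso_lft_map (u : List (Λ × ℤ)) (h : ∀ x ∈ u, x ∈ S) :
    (SubIso_lft S u).map ltr = u := by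
  unfold SubIso_lft
  rw [dif_pos h, List.map_pmap]
  change List.pmap (fun (a : Λ × ℤ) (_ : a ∈ S) => id a) u h = u
  rw [List.pmap_eq_map, List.map_id]

theorem SubIso_sg (l : Λ) (h : ℕ) (s : ℤ) (hS : ∀ x ∈ SubIso_col l h s, x ∈ S) :
    IsSg (datS S) ⟨h, DR S ⟨l, s, h, 1⟩ h⟩ (SubIso_lft S (SubIso_col l h s)) := by
  obtain ⟨w, hw⟩ := exists_wl (n := h) (SubIso_col l h s)
    (by unfold SubIso_col; rw [List.length_ofFn]) hS
  refine ⟨w, rectH S ⟨l, s, h, 1⟩ h, ?_, ?_, RIso.refl _⟩
  · apply List.map_injective_iff.2 ltr_injective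
    rw [SubIso_lft_map _ hS, ← hw, List.map_ofFn]
    rfl
  · ext w'
    refine ((mem_rectH ⟨l, s, h, 1⟩ w').trans (rect_col l s h (wl w'))).trans ?_
    rw [Set.mem_singleton_iff]
    constructor
    · intro e
      exact wl_injective (e.trans hw.symm)
    · rintro rfl
      exact hw

theorem SubIso_cols (l : Λ) (h N : ℕ) (T : ℕ → ℤ) (hh : 0 < h)
    (hS : ∀ j < N, ∀ x ∈ SubIso_col l h (T j), x ∈ S)
    (hT : ∀ j' j, j' < j → j < N → ∀ i < h, T j' ≠ T j - (i : ℤ))
    (r : PC.Rect Λ)
    (htab : PC.QSh.IsTab r.l r.re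
      (((List.range N).map (fun j => SubIso_col l h (T j))).reverse.flatten) r.rs)
    {M : RMod (datS S) n}
    (hM : IsProd (datS S) ((List.range N).map (fun j : ℕ =>
      (⟨h, DR S ⟨l, T j, h, 1⟩ h⟩ : Σ m, RMod (datS S) m))) n M)
    (X : RMod (datS S) n) [IsSimpleModule (R (datS S) n) X.V]
    (f : X.V →ₗ[R (datS S) n] M.V) (hf : Function.Injective f) :
    RIso X (DR S r n) := by
  have hcs : ((List.range N).map (fun j => SubIso_lft S (SubIso_col l h (T j)))).map
      (List.map ltr) = (List.range N).map (fun j => SubIso_col l h (T j)) := by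
    rw [List.map_map]
    refine List.map_congr_left fun j hj => ?_
    exact SubIso_lft_map _ (hS j (List.mem_range.1 hj))
  have hL : List.Forall₂ (IsSg (datS S)) ((List.range N).map (fun j : ℕ =>
      (⟨h, DR S ⟨l, T j, h, 1⟩ h⟩ : Σ m, RMod (datS S) m)))
      ((List.range N).map (fun j => SubIso_lft S (SubIso_col l h (T j)))) := by
    rw [List.forall₂_map_left_iff, List.forall₂_map_right_iff, List.forall₂_same]
    intro j hj
    exact SubIso_sg l h (T j) (hS j (List.mem_range.1 hj))
  have hB : Blk (((List.range N).map (fun j => SubIso_lft S (SubIso_col l h (T j)))).map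
      (List.map ltr)).reverse := by
    rw [hcs]
    constructor
    · intro c hc
      rw [List.mem_reverse, List.mem_map] at hc
      obtain ⟨j, -, rfl⟩ := hc
      intro h0
      have h1 := congrArg List.length h0
      unfold SubIso_col at h1
      rw [List.length_ofFn, List.length_nil] at h1
      omega
    · rw [List.pairwise_reverse, List.pairwise_map]
      refine List.Pairwise.imp_of_mem ?_ List.pairwise_lt_range
      intro a b _ hb hab x hx h0
      unfold SubIso_col at hx h0
      rw [List.mem_ofFn] at hx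
      obtain ⟨i, rfl⟩ := hx
      obtain ⟨h', rfl⟩ := Nat.exists_eq_succ_of_ne_zero hh.ne'
      rw [List.ofFn_succ, List.head?_cons] at h0
      have h1 := congrArg Prod.snd (Option.some.inj h0)
      have h2 := hT a b hab (List.mem_range.1 hb) i.1 i.2
      apply h2
      simpa using h1
  have hlen : (((List.range N).map (fun j => SubIso_col l h (T j))).reverse.flatten).length = n := by
    have h1 := hM.length
    rw [List.map_map] at h1
    rw [List.length_flatten, List.map_reverse, List.sum_reverse, List.map_map, ← h1]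
    congr 1
    refine List.map_congr_left fun j _ => ?_
    change (SubIso_col l h (T j)).length = h
    unfold SubIso_col
    rw [List.length_ofFn]
  obtain ⟨w0, hw0⟩ := exists_wl (S := S) (n := n)
    (((List.range N).map (fun j => SubIso_col l h (T j))).reverse.flatten) hlen (by
      intro x hx
      rw [List.mem_flatten] at hx
      obtain ⟨c, hc, hxc⟩ := hx
      rw [List.mem_reverse, List.mem_map] at hc
      obtain ⟨j, hj, rfl⟩ := hc
      exact hS j (List.mem_range.1 hj) x hxc)
  have hm : w0 ∈ (rectH S r n).W := by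
    rw [mem_rectH, hw0]
    exact htab
  refine sub_iso hL hB hM (rectH S r n) ⟨w0, hm⟩ ?_ (fun w hw => rectH_conn r w0 w hm hw) X f hf
  apply List.map_injective_iff.2 ltr_injective
  rw [← hcs] at hw0
  rw [List.map_flatten, List.map_reverse, ← hw0, List.map_ofFn]
  rfl

/-- Segments: a simple submodule of L(s) × L(s+1) × ... × L(t) (increasing) is the module of the column
with the contents t, t - 1, ..., s (t = s + a - 1).
PROOF: `sub_iso` with cs = the one-letter words; DR of a 1 × 1 rectangle is one-dimensional (`rect_col` for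
a = 1); H = rectH S ⟨l, t, a, 1⟩ n, `rect_col`, `rectH_conn`. n = a (`IsProd.length`). -/
theorem seg_sub (l : Λ) (t : ℤ) (a : ℕ) (ha : 0 < a)
    (hS : ∀ x ∈ (PC.Rect.mk l t a 1).cont, x ∈ S) {M : RMod (datS S) n}
    (hM : IsProd (datS S) ((List.range a).map (fun i : ℕ =>
      (⟨1, DR S ⟨l, t - (a : ℤ) + 1 + (i : ℤ), 1, 1⟩ 1⟩ : Σ m, RMod (datS S) m))) n M)
    (X : RMod (datS S) n) [IsSimpleModule (R (datS S) n) X.V]
    (f : X.V →ₗ[R (datS S) n] M.V) (hf : Function.Injective f) :
    RIso X (DR S ⟨l, t, a, 1⟩ n) := by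
  have hcol : ∀ s : ℤ, SubIso_col l 1 s = [(l, s)] := by
    intro s
    unfold SubIso_col
    simp
  refine SubIso_cols l 1 a (fun i : ℕ => t - (a : ℤ) + 1 + (i : ℤ)) one_pos ?_ ?_ ⟨l, t, a, 1⟩ ?_
    hM X f hf
  · intro j hj x hx
    rw [hcol, List.mem_singleton] at hx
    subst hx
    apply hS
    unfold PC.Rect.cont
    rw [Multiset.mem_map]
    refine ⟨(⟨a - 1 - j, by dsimp only; omega⟩, ⟨0, by dsimp only; omega⟩), Finset.mem_univ _, ?_⟩
    dsimp only
    congr 1
    push_cast [Nat.sub_sub, Nat.cast_sub (show 1 + j ≤ a by omega)]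
    ring
  · intro j' j h1 h2 i hi
    omega
  · refine (rect_col l t a _).2 ?_
    have h1 : ∀ (K : List ℕ) (g : ℕ → Λ × ℤ),
        ((K.map (fun j => [g j])).reverse).flatten = (K.map g).reverse := by
      intro K g
      induction K with
      | nil => rfl
      | cons k K ih =>
        rw [List.map_cons, List.reverse_cons, List.flatten_append, ih, List.map_cons,
          List.reverse_cons]
        simp
    simp only [hcol]
    rw [h1]
    apply List.ext_getElem
    · simp
    · intro i h2 h3
      rw [List.length_ofFn] at h3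
      rw [List.getElem_reverse, List.getElem_map, List.getElem_range, List.getElem_ofFn]
      congr 1
      simp only [List.length_map, List.length_range]
      rw [Nat.sub_sub, Nat.cast_sub (show 1 + i ≤ a by omega)]
      push_cast
      ring

/-- Rectangles: a simple submodule of the product of the columns with tops t + b - 1, ..., t + 1, t (in
this order) is the module of the rectangle ⟨l, t, a, b⟩.
PROOF: `sub_iso` with cs = the column words in this order, `rect_col`, `rect_colword`, `rectH_conn`;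
Blk: the first letter t + j' of a later column does not occur in the column t + j, ..., t + j - a + 1 for
j < j'. n = a b. -/
theorem rect_sub (l : Λ) (t : ℤ) (a b : ℕ) (ha : 0 < a) (hb : 0 < b)
    (hS : ∀ x ∈ (PC.Rect.mk l t a b).cont, x ∈ S) {M : RMod (datS S) n}
    (hM : IsProd (datS S) ((List.range b).map (fun j : ℕ =>
      (⟨a, DR S ⟨l, t + (b : ℤ) - 1 - (j : ℤ), a, 1⟩ a⟩ : Σ m, RMod (datS S) m))) n M)
    (X : RMod (datS S) n) [IsSimpleModule (R (datS S) n) X.V]
    (f : X.V →ₗ[R (datS S) n] M.V) (hf : Function.Injective f) :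
    RIso X (DR S ⟨l, t, a, b⟩ n) := by
  refine SubIso_cols l a b (fun j : ℕ => t + (b : ℤ) - 1 - (j : ℤ)) ha ?_ ?_ ⟨l, t, a, b⟩ ?_
    hM X f hf
  · intro j hj x hx
    unfold SubIso_col at hx
    rw [List.mem_ofFn] at hx
    obtain ⟨i, rfl⟩ := hx
    apply hS
    unfold PC.Rect.cont
    rw [Multiset.mem_map]
    refine ⟨(i, ⟨b - 1 - j, by dsimp only; omega⟩), Finset.mem_univ _, ?_⟩
    dsimp only
    congr 1
    rw [Nat.sub_sub, Nat.cast_sub (show 1 + j ≤ b by omega)]
    push_cast
    ring
  · intro j' j h1 h2 i hi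
    omega
  · have h1 : ((List.range b).map
        (fun j : ℕ => SubIso_col l a (t + (b : ℤ) - 1 - (j : ℤ)))).reverse =
        List.ofFn (fun j : Fin b => List.ofFn (fun i : Fin a => (l, t + (j.val : ℤ) - (i.val : ℤ)))) := by
      apply List.ext_getElem
      · simp
      · intro i h2 h3
        rw [List.length_ofFn] at h3
        rw [List.getElem_reverse, List.getElem_map, List.getElem_range, List.getElem_ofFn]
        unfold SubIso_col
        congr 1
        funext k
        congr 1
        simp only [List.length_map, List.length_range]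
        rw [Nat.sub_sub, Nat.cast_sub (show 1 + i ≤ b by omega)]
        push_cast
        ring
    rw [h1]
    exact rect_colword l t a b

end CA1492
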