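import Pool.Agent.Lib.MP_ca1492_al.Mod.Stage
import Pool.Agent.Lib.MP_ca1492_al.D8.Fin

/-!
Finiteness of Ext for the quivers `datS S`, and the main theorem over `R (datS S) n`.
-/

namespace CA1492

open CategoryTheory CategoryTheory.Abelian CategoryTheory.Limits ExtT

variable {Λ : Type} [DecidableEq Λ] {S : Finset (Λ × ℤ)} {n : ℕ}

/-- An injective numbering of the lines that occur. -/
theorem exists_num (S : Finset (Λ × ℤ)) : ∃ k : Λ → ℕ, ∀ x ∈ S, ∀ y ∈ S, k x.1 = k y.1 → x.1 = y.1 := by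
  classical
  refine ⟨fun l => if h : l ∈ S.image Prod.fst then ((S.image Prod.fst).equivFin ⟨l, h⟩).val else 0,
    fun x hx y hy h => ?_⟩
  have h1 : x.1 ∈ S.image Prod.fst := Finset.mem_image_of_mem _ hx
  have h2 : y.1 ∈ S.image Prod.fst := Finset.mem_image_of_mem _ hy
  simp only at h
  rw [dif_pos h1, dif_pos h2] at h
  have h3 := (S.image Prod.fst).equivFin.injective (Fin.ext h)
  exact congrArg Subtype.val h3

theorem ltr_mem (x : (datS S).J) : ltr x ∈ S := Subtype.prop (p := fun y => y ∈ S) x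

/-- The complex number of a letter. -/
noncomputable def valS (k : Λ → ℕ) (x : (datS S).J) : ℂ := ⟨((ltr x).2 : ℝ), (k (ltr x).1 : ℝ)⟩

theorem valS_facts (k : Λ → ℕ) (hk : ∀ x ∈ S, ∀ y ∈ S, k x.1 = k y.1 → x.1 = y.1) :
    Function.Injective (valS (S := S) k) ∧
    ∀ i j : (datS S).J, (datS S).arr i j = true ↔ valS k j = valS k i + 1 := by
  constructor
  · intro x y h
    have h1 : ((ltr x).2 : ℝ) = ((ltr y).2 : ℝ) := congrArg Complex.re h
    have h2 : ((k (ltr x).1 : ℕ) : ℝ) = (k (ltr y).1 : ℝ) := congrArg Complex.im h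
    have h3 : (ltr x).2 = (ltr y).2 := by exact_mod_cast h1
    have h4 : k (ltr x).1 = k (ltr y).1 := by exact_mod_cast h2
    exact ltr_injective (Prod.ext (hk _ (ltr_mem x) _ (ltr_mem y) h4) h3)
  · intro x y
    rw [datS_arr]
    constructor
    · rintro ⟨h1, h2⟩
      apply Complex.ext
      · change ((ltr y).2 : ℝ) = ((ltr x).2 : ℝ) + 1
        rw [h2]
        push_cast
        ring
      · change ((k (ltr y).1 : ℕ) : ℝ) = (k (ltr x).1 : ℝ) + 0
        rw [h1, add_zero]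
    · intro h
      have h1 : ((ltr y).2 : ℝ) = ((ltr x).2 : ℝ) + 1 := congrArg Complex.re h
      have h2 : ((k (ltr y).1 : ℕ) : ℝ) = (k (ltr x).1 : ℝ) + 0 := congrArg Complex.im h
      rw [add_zero] at h2
      have h3 : (ltr y).2 = (ltr x).2 + 1 := by exact_mod_cast h1
      have h4 : k (ltr y).1 = k (ltr x).1 := by exact_mod_cast h2
      exact ⟨hk _ (ltr_mem y) _ (ltr_mem x) h4, h3⟩

/-- Finiteness of Ext between objects with g. -/
theorem fin_datS (lam : ℂˣ) (A B : FObj (datS S) n lam) (hl : PosNe lam) :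
    FinExt (ModuleCat.of (R (datS S) n) A.V) (ModuleCat.of (R (datS S) n) B.V) (n + 1) := by
  obtain ⟨k, hk⟩ := exists_num S
  obtain ⟨h1, h2⟩ := valS_facts k hk
  have key : ∀ (M : FObj (datS S) n lam) (j : Fin n), ∃ N : ℕ, ∀ v : M.V,
      ((yk j : R (datS S) n) ^ N) • v = 0 := by
    intro M j
    obtain ⟨N, hN⟩ := yk_nilpotent hl M j
    refine ⟨N, fun v => ?_⟩
    have h3 : (act M.V ((yk j : R (datS S) n) ^ N)) v = 0 := by
      rw [map_pow, hN]
      rfl
    exact h3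
  exact D8.fin_ext (valS k) h1 h2 A.V B.V (key A) (key B)

/-- THE MAIN THEOREM over R (datS S) n. -/
theorem stage1 (L L' : List (PC.Rect Λ)) (δ : Λ → ℤ)
    (hL : ∀ r ∈ L, 0 < r.a ∧ 0 < r.b ∧ 2 * r.t - r.a + r.b = δ r.l)
    (hL' : ∀ r ∈ L', 0 < r.a ∧ 0 < r.b ∧ 2 * r.t - r.a + r.b = δ r.l)
    (hc : (L.map PC.Rect.cont).sum = (L'.map PC.Rect.cont).sum)
    (hS : ∀ r ∈ L, ∀ x ∈ r.cont, x ∈ S)
    (M M' : RMod (datS S) n) (hM : IsAr S L n M) (hM' : IsAr S L' n M') :
    ∃ i, Nontrivial (Ext.{0} (ModuleCat.of (R (datS S) n) M.V)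
      (ModuleCat.of (R (datS S) n) M'.V) i) :=
  stage1_aux L L' δ hL hL' hc hS M M' hM hM' fun lam A B hl => fin_datS lam A B hl

end CA1492
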